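import Pool.Agent.Work.MP_ae1ff6_gc.Interface

/-! # Block AWY (helper71) -/

open Topology Filter Set MeasureTheory
open scoped ComplexConjugate ENNReal

set_option autoImplicit false

namespace Pool.GC

open Pool.CG

theorem p_AWY (hSYM : Stmt_SYM) : Stmt_AWY := by
  intro u β β' α ℓ β₁ β₂ hℓ1 hℓ2 hβ hβ' hα
  by_contra hcon
  push Not at hcon
  -- for all neighbourhoods
  have hfreq : ∀ N ∈ 𝓝 ℓ, ∃ᶠ g : H in u, ∃ z : Circle, Link β β' z α ∧ g z ∈ N := by
    intro N hN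
    have h1 := hcon N hN
    exact h1.frequently
  set ev : H × Circle → Circle := fun x => x.1 x.2 with hev
  set l : Filter (H × Circle) := comap Prod.fst (u : Filter H) ⊓ comap ev (𝓝 ℓ) ⊓
    𝓟 {x : H × Circle | Link β β' x.2 α} with hl
  have hne : l.NeBot := by
    rw [← forall_mem_nonempty_iff_neBot]
    intro s hs
    rw [hl, mem_inf_principal] at hs
    obtain ⟨t₁, ht₁, t₂, ht₂, hst⟩ := mem_inf_iff.1 hs
    obtain ⟨S, hS, hS'⟩ := mem_comap.1 ht₁
    obtain ⟨N, hN, hN'⟩ := mem_comap.1 ht₂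
    obtain ⟨g, ⟨z, hz, hgz⟩, hgS⟩ := ((hfreq N hN).and_eventually hS).exists
    have h2 : ((g, z) : H × Circle) ∈ t₁ ∩ t₂ := ⟨hS' hgS, hN' hgz⟩
    rw [← hst] at h2
    exact ⟨(g, z), h2 hz⟩
  have hfst : Tendsto (Prod.fst : H × Circle → H) l u := by
    rw [hl]
    exact tendsto_comap.mono_left (inf_le_left.trans inf_le_left)
  have hevt : Tendsto ev l (𝓝 ℓ) := by
    rw [hl]
    exact tendsto_comap.mono_left (inf_le_left.trans inf_le_right)
  have hlink : ∀ᶠ x in l, Link β β' (x : H × Circle).2 α := by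
    rw [hl]
    exact mem_inf_of_right (mem_principal_self _)
  have h1 : Tendsto (fun x : H × Circle => x.1 β) l (𝓝 β₁) := hβ.comp hfst
  have h2 : Tendsto (fun x : H × Circle => x.1 β') l (𝓝 β₂) := hβ'.comp hfst
  have h3 : Tendsto (fun x : H × Circle => x.1 α) l (𝓝 ℓ) := hα.comp hfst
  rcases lfv (H × Circle) l (fun x => x.1 x.2) (fun x => x.1 α) (fun x => x.1 β)
    (fun x => x.1 β') ℓ β₁ β₂ hevt h3 h1 h2 (by
      filter_upwards [hlink] with x hx
      exact (hSYM _ _ _ _ (lhi x.1 _ _ _ _ hx)).1) with h | h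
  · exact hℓ1 h
  · exact hℓ2 h

end Pool.GC
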