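import Pool.Agent.Work.MP_ae1ff6_gc.Interface

/-!
# Block CUR: the counting measure of an orbit (helper86)
-/

open Topology Filter Set MeasureTheory
open scoped ComplexConjugate ENNReal

set_option autoImplicit false

namespace Pool.GC

open Pool.CG

theorem CUR_map {X : Type*} [MeasurableSpace X] [MeasurableSingletonClass X] (O : Set X)
    (hO : MeasurableSet O) (f g : X → X) (hf : Measurable f) (h1 : ∀ x, f (g x) = x)
    (h2 : ∀ x, g (f x) = x) (hfO : ∀ x, f x ∈ O ↔ x ∈ O) :
    (Measure.count.restrict O).map f = Measure.count.restrict O := by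
  ext s hs
  rw [Measure.map_apply hf hs, Measure.restrict_apply' hO, Measure.restrict_apply' hO]
  have e : f ⁻¹' s ∩ O = g '' (s ∩ O) := by
    ext x
    constructor
    · rintro ⟨hx, hxO⟩
      exact ⟨f x, ⟨hx, (hfO x).2 hxO⟩, h2 x⟩
    · rintro ⟨y, ⟨hy, hyO⟩, rfl⟩
      refine ⟨?_, (hfO _).1 ?_⟩
      · show f (g y) ∈ s
        rw [h1]; exact hy
      · rw [h1]; exact hyO
  have hg : Function.Injective g := fun x y hxy => by rw [← h1 x, ← h1 y, hxy]
  rw [e, Measure.count_injective_image hg]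

theorem p_CUR : Stmt_CUR := by
  intro G p q hpq hfin
  set O : Set (Circle × Circle) :=
    {x | (∃ g ∈ G, x = (g p, g q)) ∨ ∃ g ∈ G, x = (g q, g p)} with hOdef
  have hne : ∀ x ∈ O, x.1 ≠ x.2 := by
    rintro x (⟨g, _, rfl⟩ | ⟨g, _, rfl⟩) he
    · exact hpq (g.injective he)
    · exact hpq (g.injective he).symm
  have hf : ∀ ε : ℝ, 0 < ε → ({x | ε ≤ dist x.1 x.2} ∩ O).Finite := by
    intro ε hε
    refine ((hfin ε hε).union ((hfin ε hε).image Prod.swap)).subset ?_
    rintro x ⟨hx, ⟨g, hg, rfl⟩ | ⟨g, hg, rfl⟩⟩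
    · exact Or.inl ⟨⟨g, hg, rfl⟩, hx⟩
    · refine Or.inr ⟨(g p, g q), ⟨⟨g, hg, rfl⟩, ?_⟩, rfl⟩
      have hx' : ε ≤ dist (g q) (g p) := hx
      show ε ≤ dist (g p) (g q)
      rw [dist_comm]; exact hx'
  have hcount : O.Countable := by
    have hsub : O ⊆ ⋃ n : ℕ, ({x | 1 / ((n : ℝ) + 1) ≤ dist x.1 x.2} ∩ O) := by
      intro x hx
      obtain ⟨n, hn⟩ := exists_nat_one_div_lt (dist_pos.2 (hne x hx))
      exact Set.mem_iUnion.2 ⟨n, hn.le, hx⟩
    exact (Set.countable_iUnion fun n => (hf _ (by positivity)).countable).mono hsub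
  have hO : MeasurableSet O := hcount.measurableSet
  refine ⟨Measure.count.restrict O, ⟨?_, ?_, ?_⟩, ?_, ?_⟩
  · intro ε hε
    rw [Measure.restrict_apply' hO, Measure.count_apply_lt_top]
    exact hf ε hε
  · rw [Measure.restrict_apply' hO]
    have : {x : Circle × Circle | x.1 = x.2} ∩ O = ∅ := by
      ext x
      constructor
      · rintro ⟨h1, h2⟩
        exact absurd h1 (hne x h2)
      · intro h
        exact absurd h (Set.notMem_empty x)
    rw [this, measure_empty]
  · refine CUR_map O hO Prod.swap Prod.swap measurable_swap (fun x => Prod.swap_swap x)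
      (fun x => Prod.swap_swap x) ?_
    intro x
    constructor
    · rintro (⟨g, hg, hx⟩ | ⟨g, hg, hx⟩)
      · exact Or.inr ⟨g, hg, by rw [← Prod.swap_swap x, hx]; rfl⟩
      · exact Or.inl ⟨g, hg, by rw [← Prod.swap_swap x, hx]; rfl⟩
    · rintro (⟨g, hg, rfl⟩ | ⟨g, hg, rfl⟩)
      · exact Or.inr ⟨g, hg, rfl⟩
      · exact Or.inl ⟨g, hg, rfl⟩
  · intro k hk
    have hm : Measurable (Prod.map k k : Circle × Circle → Circle × Circle) :=
      (k.continuous.measurable.comp measurable_fst).prodMk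
        (k.continuous.measurable.comp measurable_snd)
    refine CUR_map O hO (Prod.map k k) (Prod.map k.symm k.symm) hm ?_ ?_ ?_
    · rintro ⟨a, b⟩
      simp
    · rintro ⟨a, b⟩
      simp
    · rintro x
      constructor
      · rintro (⟨g, hg, hx⟩ | ⟨g, hg, hx⟩)
        · refine Or.inl ⟨k⁻¹ * g, G.mul_mem (G.inv_mem hk) hg, ?_⟩
          have h1 : k x.1 = g p := congrArg Prod.fst hx
          have h2 : k x.2 = g q := congrArg Prod.snd hx
          refine Prod.ext ?_ ?_
          · show x.1 = k.symm (g p)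
            rw [← h1, k.symm_apply_apply]
          · show x.2 = k.symm (g q)
            rw [← h2, k.symm_apply_apply]
        · refine Or.inr ⟨k⁻¹ * g, G.mul_mem (G.inv_mem hk) hg, ?_⟩
          have h1 : k x.1 = g q := congrArg Prod.fst hx
          have h2 : k x.2 = g p := congrArg Prod.snd hx
          refine Prod.ext ?_ ?_
          · show x.1 = k.symm (g q)
            rw [← h1, k.symm_apply_apply]
          · show x.2 = k.symm (g p)
            rw [← h2, k.symm_apply_apply]
      · rintro (⟨g, hg, rfl⟩ | ⟨g, hg, rfl⟩)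
        · exact Or.inl ⟨k * g, G.mul_mem hk hg, rfl⟩
        · exact Or.inr ⟨k * g, G.mul_mem hk hg, rfl⟩
  · rw [Measure.restrict_apply' hO]
    have : ({(p, q)} : Set (Circle × Circle)) ∩ O = {(p, q)} := by
      refine Set.inter_eq_left.2 ?_
      rintro x hx
      rw [Set.mem_singleton_iff] at hx
      rw [hx]
      exact Or.inl ⟨1, G.one_mem, rfl⟩
    rw [this, Measure.count_singleton]
    exact zero_lt_one

end Pool.GC
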