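import Pool.Agent.Work.MP_ae1ff6_gc.Interface

/-! # Block CUT (helper71) -/

open Topology Filter Set MeasureTheory
open scoped ComplexConjugate ENNReal

set_option autoImplicit false

namespace Pool.GC

open Pool.CG

theorem p_CUT : Stmt_CUT := by
  intro θ α β h1 h2 h3
  have hinj : InjOn Circle.exp (Ico α (α + 2 * Real.pi)) := Circle.exp_injOn_Ico (by linarith)
  have hθ : Circle.exp θ ∈ Circle.exp '' Ioo β (α + 2 * Real.pi) := by
    refine ⟨θ + 2 * Real.pi, ⟨h3, by linarith⟩, ?_⟩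
    rw [Circle.exp_eq_exp]
    exact ⟨1, by push_cast; ring⟩
  ext z
  simp only [mem_setOf_eq]
  constructor
  · rintro ⟨⟨hza, hzb⟩, -, hcon⟩
    by_contra hz
    obtain ⟨x, hx, rfl⟩ := ARC_surj α z
    have hx1 : x ∈ Ioo β (α + 2 * Real.pi) := by
      rcases lt_trichotomy x β with h | h | h
      · rcases hx.1.lt_or_eq with h4 | h4
        · exact absurd ⟨x, ⟨h4, h⟩, rfl⟩ hz
        · exact absurd (by rw [h4]) hza
      · exact absurd (by rw [h]) hzb
      · exact ⟨h, hx.2⟩
    have hpre : IsPreconnected (Circle.exp '' Ioo β (α + 2 * Real.pi)) :=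
      isPreconnected_Ioo.image _ Circle.exp.continuous.continuousOn
    rcases hcon _ hpre ⟨x, hx1, rfl⟩ hθ with ⟨y, hy, he⟩ | ⟨y, hy, he⟩
    · have h4 : y = α := hinj ⟨by linarith [hy.1], hy.2⟩ ⟨le_rfl, by linarith [Real.pi_pos]⟩ he
      linarith [hy.1]
    · have h4 : y = β := hinj ⟨by linarith [hy.1], hy.2⟩ ⟨h2.le, by linarith⟩ he
      linarith [hy.1]
  · intro hz
    exact (arc α β h2 (by linarith)).2 z hz _ hθ

end Pool.GC
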