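import Pool.Agent.Work.MP_ae1ff6_gc.Interface2

/-!
# Invariant geodesic currents (MP_ae1ff6_gt): block CY2
-/

open Topology Filter Set MeasureTheory
open scoped ComplexConjugate ENNReal

set_option autoImplicit false

namespace Pool.GC

open Pool.CG

theorem CY2_meas (g : H) : Measurable (Prod.map g g) :=
  g.continuous.measurable.prodMap g.continuous.measurable

theorem CY2_mul (μ : Measure (Circle × Circle)) (g h : H) :
    μ.map (Prod.map (g * h : H) (g * h : H)) = (μ.map (Prod.map h h)).map (Prod.map g g) := by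
  rw [Measure.map_map (CY2_meas g) (CY2_meas h)]
  rfl

theorem CY2_one (μ : Measure (Circle × Circle)) :
    μ.map (Prod.map (1 : H) (1 : H)) = μ := by
  have h : (Prod.map (1 : H) (1 : H) : Circle × Circle → Circle × Circle) = id := rfl
  rw [h, Measure.map_id]

theorem CY2_inv (μ : Measure (Circle × Circle)) (g : H) (c : ℝ≥0∞) (hc : c ≠ 0) (hc' : c ≠ ∞)
    (h : μ.map (Prod.map g g) = c • μ) : μ.map (Prod.map (g⁻¹ : H) (g⁻¹ : H)) = c⁻¹ • μ := by
  have h1 : μ = c • μ.map (Prod.map (g⁻¹ : H) (g⁻¹ : H)) := by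
    have h2 := CY2_mul μ g⁻¹ g
    rw [inv_mul_cancel, CY2_one, h, Measure.map_smul] at h2
    exact h2
  have h3 : c⁻¹ • μ = c⁻¹ • (c • μ.map (Prod.map (g⁻¹ : H) (g⁻¹ : H))) := congrArg _ h1
  rw [h3, smul_smul, ENNReal.inv_mul_cancel hc hc', one_smul]

/-- the elements which preserve `μ` up to a factor -/
def CY2_sub (μ : Measure (Circle × Circle)) : Subgroup H where
  carrier := {g | ∃ c : ℝ≥0∞, c ≠ 0 ∧ c ≠ ∞ ∧ μ.map (Prod.map g g) = c • μ}
  one_mem' := ⟨1, one_ne_zero, ENNReal.one_ne_top, by rw [CY2_one, one_smul]⟩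
  mul_mem' := by
    rintro g h ⟨c, hc, hc', h1⟩ ⟨d, hd, hd', h2⟩
    refine ⟨d * c, mul_ne_zero hd hc, ENNReal.mul_ne_top hd' hc', ?_⟩
    rw [CY2_mul, h2, Measure.map_smul, h1, smul_smul]
  inv_mem' := by
    rintro g ⟨c, hc, hc', h1⟩
    exact ⟨c⁻¹, ENNReal.inv_ne_zero.2 hc', ENNReal.inv_ne_top.2 hc, CY2_inv μ g c hc hc' h1⟩

/-- the elements which preserve `μ` -/
def CY2_fix (μ : Measure (Circle × Circle)) : Subgroup H where
  carrier := {g | μ.map (Prod.map g g) = μ}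
  one_mem' := CY2_one μ
  mul_mem' := by
    intro g h h1 h2
    show μ.map (Prod.map (g * h : H) (g * h : H)) = μ
    rw [CY2_mul, show μ.map (Prod.map h h) = μ from h2, show μ.map (Prod.map g g) = μ from h1]
  inv_mem' := by
    intro g h1
    have h2 := CY2_inv μ g 1 one_ne_zero ENNReal.one_ne_top
      (by rw [one_smul]; exact h1)
    rw [inv_one, one_smul] at h2
    exact h2

theorem CY2_disp (Γ : Subgroup H) (f : H) (hn : ∀ γ, γ ∈ Γ ↔ f * γ * f⁻¹ ∈ Γ) :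
    OneDisplaces Γ f ↔ SelfDisplaces Γ (Γ ⊔ Subgroup.zpowers f) := by
  constructor
  · rintro (⟨n, hn0, hnΓ⟩ | hS)
    · intro γ hγ p q hpq
      refine ⟨(fun j : ℤ => f ^ j) '' Set.Ico 0 (n : ℤ), (Set.finite_Ico _ _).image _, ?_⟩
      intro g hg _
      obtain ⟨κ, hκ, m, rfl⟩ := CYC_mem Γ f hn g hg
      have hn1 : (0 : ℤ) < n := by exact_mod_cast hn0
      refine ⟨f ^ (m % n), ⟨m % n, ⟨Int.emod_nonneg _ hn1.ne', Int.emod_lt_of_pos _ hn1⟩, rfl⟩, ?_⟩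
      have h1 : (f ^ (m % n))⁻¹ * (κ * f ^ m) =
          (f ^ (m % n))⁻¹ * κ * f ^ (m % n) * (f ^ n) ^ (m / n) := by
        have h2 : f ^ m = f ^ (m % n) * (f ^ n) ^ (m / n) := by
          rw [← zpow_natCast, ← zpow_mul, ← zpow_add, Int.emod_add_mul_ediv]
        rw [h2]
        group
      rw [h1]
      exact mul_mem (CYC_conj Γ f hn _ _ hκ) (zpow_mem hnΓ _)
    · intro γ hγ p q hpq
      refine ⟨(fun j : ℤ => f ^ j) '' {n : ℤ | ∃ κ ∈ Γ, Link ((κ * f ^ n) p) ((κ * f ^ n) q) p q},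
        (hS γ hγ p q hpq).image _, ?_⟩
      intro g hg hm
      obtain ⟨κ, hκ, m, rfl⟩ := CYC_mem Γ f hn g hg
      refine ⟨f ^ m, ⟨m, ⟨κ, hκ, hm⟩, rfl⟩, ?_⟩
      have h1 := CYC_conj Γ f hn m _ hκ
      rwa [mul_assoc] at h1
  · intro hD
    by_cases hp : ∃ n : ℕ, 0 < n ∧ f ^ n ∈ Γ
    · exact Or.inl hp
    · right
      intro γ hγ p q hpq
      obtain ⟨F, hFf, hFm⟩ := hD γ hγ p q hpq
      have h1 : {n : ℤ | ∃ κ ∈ Γ, Link ((κ * f ^ n) p) ((κ * f ^ n) q) p q} ⊆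
          ⋃ h ∈ F, {n : ℤ | ∃ κ ∈ Γ, h⁻¹ * (κ * f ^ n) ∈ Γ} := by
        rintro n ⟨κ, hκ, hm⟩
        have hG : κ * f ^ n ∈ Γ ⊔ Subgroup.zpowers f :=
          mul_mem (Subgroup.mem_sup_left hκ)
            (Subgroup.mem_sup_right (Subgroup.zpow_mem_zpowers f n))
        obtain ⟨h, hh, hx⟩ := hFm _ hG hm
        exact mem_iUnion₂.2 ⟨h, hh, κ, hκ, hx⟩
      refine (hFf.biUnion fun h _ => ?_).subset h1
      refine Set.Subsingleton.finite ?_
      rintro n ⟨κ, hκ, hx⟩ m ⟨κ', hκ', hx'⟩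
      have h2 : (f ^ n)⁻¹ * (κ⁻¹ * κ') * f ^ n * f ^ (m - n) ∈ Γ := by
        have h3 := mul_mem (inv_mem hx) hx'
        have h4 : (h⁻¹ * (κ * f ^ n))⁻¹ * (h⁻¹ * (κ' * f ^ m)) =
            (f ^ n)⁻¹ * (κ⁻¹ * κ') * f ^ n * f ^ (m - n) := by
          rw [zpow_sub]
          group
        rwa [h4] at h3
      have h3 : f ^ (m - n) ∈ Γ := by
        have h5 := CYC_conj Γ f hn n _ (mul_mem (inv_mem hκ) hκ')
        exact (Subgroup.mul_mem_cancel_left Γ h5).1 h2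
      by_contra hne
      apply hp
      refine ⟨(m - n).natAbs, ?_, ?_⟩
      · exact Int.natAbs_pos.2 (sub_ne_zero.2 (Ne.symm hne))
      · rcases Int.natAbs_eq (m - n) with h6 | h6
        · have h7 : f ^ (((m - n).natAbs : ℕ) : ℤ) ∈ Γ := by rw [← h6]; exact h3
          rwa [zpow_natCast] at h7
        · have h7 : f ^ (((m - n).natAbs : ℕ) : ℤ) ∈ Γ := by
            have h8 : (((m - n).natAbs : ℕ) : ℤ) = -(m - n) := by rw [h6]; simp
            rw [h8, zpow_neg]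
            exact inv_mem h3
          rwa [zpow_natCast] at h7

/-- block CY2 -/
theorem p_CY2 : Stmt_CY2 := by
  intro Γ f hn
  refine ⟨?_, CY2_disp Γ f hn, ?_⟩
  · intro g hg γ hγ
    exact (Subgroup.mem_normalizer_iff.1 (CYC_norm Γ f hn hg) γ).1 hγ
  intro μ
  refine ⟨⟨?_, ?_⟩, ?_⟩
  · intro h
    exact ⟨fun g hg => h g (Subgroup.mem_sup_left hg),
      h f (Subgroup.mem_sup_right (Subgroup.mem_zpowers f))⟩
  · rintro ⟨h1, h2⟩
    have h3 : Γ ⊔ Subgroup.zpowers f ≤ CY2_fix μ :=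
      sup_le (fun g hg => h1 g hg) (Subgroup.zpowers_le.2 h2)
    exact fun g hg => h3 hg
  · intro h1 h2
    have h3 : Γ ⊔ Subgroup.zpowers f ≤ CY2_sub μ :=
      sup_le (fun g hg => ⟨1, one_ne_zero, ENNReal.one_ne_top, by rw [one_smul]; exact h1 g hg⟩)
        (Subgroup.zpowers_le.2 h2)
    exact fun g hg => h3 hg

end Pool.GC
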