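import Pool.Agent.Work.MP_ae1ff6_gc.Interface

/-!
# Block DIC: two double values or a dense value
-/

open Topology Filter Set MeasureTheory
open scoped ComplexConjugate ENNReal

set_option autoImplicit false

namespace Pool.GC

open Pool.CG

theorem DIC_neBot (z : Circle) : (𝓝[≠] z).NeBot := by
  haveI := DNS_conn
  haveI := DNS_nontriv
  exact ConnectedSpace.neBot_nhdsWithin_compl_of_nontrivial_of_t1space z

theorem DIC_avoid (p q : Circle) (U : Set Circle) (hU : IsOpen U) (hne : U.Nonempty) :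
    IsOpen (U \ {p, q}) ∧ (U \ {p, q}).Nonempty := by
  haveI := DIC_neBot
  have hfin : ({p, q} : Set Circle).Finite := toFinite _
  refine ⟨hU.sdiff hfin.isClosed, ?_⟩
  have hd : Dense ((univ : Set Circle) \ {p, q}) := dense_univ.diff_finite hfin
  obtain ⟨x, hxU, hx⟩ := hd.inter_open_nonempty U hU hne
  exact ⟨x, hxU, hx.2⟩

theorem p_DIC (hPNE : Stmt_PNE) : Stmt_DIC := by
  classical
  intro Γ G u L hΓ hn hG hL hTC
  haveI := DIC_neBot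
  by_contra hcon
  rw [not_or] at hcon
  obtain ⟨h1, h2⟩ := hcon
  have h1' : ∀ ℓ m : Circle, Dbl L ℓ → Dbl L m → ℓ = m := by
    intro ℓ m hl hm
    by_contra hne
    exact h1 ⟨ℓ, m, hne, hl, hm⟩
  have h2' : ∀ ℓ : Circle, ¬ Dense {z | L z = ℓ} := fun ℓ hd => h2 ⟨ℓ, hd⟩
  -- the axes which are not good
  have hA : ∃ p0 q0 : Circle, ∀ γ ∈ Γ, ∀ p q : Circle, Axis γ p q → p ≠ p0 → p ≠ q0 →
      q ≠ p0 → q ≠ q0 → ∀ δ : H, {g : H | g * γ * g⁻¹ = δ} ∉ u := by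
    by_cases hbad : ∃ γ ∈ Γ, ∃ p q : Circle, Axis γ p q ∧ ∃ δ : H, {g : H | g * γ * g⁻¹ = δ} ∈ u
    · obtain ⟨γ0, hγ0, p0, q0, ax0, hδ0⟩ := hbad
      refine ⟨p0, q0, fun γ hγ p q ax e1 e2 e3 e4 δ hδ => hTC ?_⟩
      exact ⟨γ0, hγ0, γ, hγ, p0, q0, p, q, ax0, ax, e1.symm, e3.symm, e2.symm, e4.symm, hδ0,
        ⟨δ, hδ⟩⟩
    · exact ⟨1, 1, fun γ hγ p q ax _ _ _ _ δ hδ => hbad ⟨γ, hγ, p, q, ax, δ, hδ⟩⟩
  obtain ⟨p0, q0, hA⟩ := hA
  have hB : ∀ U V : Set Circle, IsOpen U → U.Nonempty → IsOpen V → V.Nonempty →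
      ∃ γ ∈ Γ, ∃ p ∈ U, ∃ q ∈ V, Axis γ p q ∧ ∀ δ : H, {g : H | g * γ * g⁻¹ = δ} ∉ u := by
    intro U V hU hUn hV hVn
    obtain ⟨o1, n1⟩ := DIC_avoid p0 q0 U hU hUn
    obtain ⟨o2, n2⟩ := DIC_avoid p0 q0 V hV hVn
    obtain ⟨γ, hγ, p, hp, q, hq, ax⟩ := dns Γ hΓ _ _ o1 n1 o2 n2
    refine ⟨γ, hγ, p, hp.1, q, hq.1, ax, ?_⟩
    refine hA γ hγ p q ax ?_ ?_ ?_ ?_
    · exact fun e => hp.2 (Or.inl e)
    · exact fun e => hp.2 (Or.inr e)
    · exact fun e => hq.2 (Or.inl e)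
    · exact fun e => hq.2 (Or.inr e)
  by_cases hc : ∀ γ ∈ Γ, ∀ p q : Circle, Axis γ p q →
      (∀ δ : H, {g : H | g * γ * g⁻¹ = δ} ∉ u) → L p = L q
  · -- all good axes are collapsed
    obtain ⟨γ1, hγ1, p1, -, q1, -, ax1, g1⟩ :=
      hB univ univ isOpen_univ univ_nonempty isOpen_univ univ_nonempty
    have hd1 : Dbl L (L p1) := ⟨p1, q1, ax1.1, rfl, (hc γ1 hγ1 p1 q1 ax1 g1).symm⟩
    refine h2' (L p1) (dense_iff_inter_open.2 ?_)
    intro U hU hUn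
    obtain ⟨γ, hγ, p, hp, q, -, ax, gd⟩ := hB U U hU hUn hU hUn
    refine ⟨p, hp, ?_⟩
    exact h1' (L p) (L p1) ⟨p, q, ax.1, rfl, (hc γ hγ p q ax gd).symm⟩ hd1
  · -- a good axis which is not collapsed
    push Not at hc
    obtain ⟨γ, hγ, p, q, ax, gd, hne⟩ := hc
    have hx : ∀ x, L x = L p ∨ L x = L q := by
      intro x
      by_contra hxx
      rw [not_or] at hxx
      obtain ⟨d1, d2⟩ := hPNE Γ G u L hΓ hn hG hL γ hγ p q ax gd hne x hxx.1 hxx.2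
      exact hne (h1' _ _ d1 d2)
    by_cases hdq : Dbl L (L q)
    · have hdp : ¬ Dbl L (L p) := fun h => hne (h1' _ _ h hdq)
      refine h2' (L q) ((dense_compl_singleton p).mono ?_)
      intro x hxp
      rcases hx x with h | h
      · exact absurd ⟨x, p, hxp, h, rfl⟩ hdp
      · exact h
    · refine h2' (L p) ((dense_compl_singleton q).mono ?_)
      intro x hxq
      rcases hx x with h | h
      · exact h
      · exact absurd ⟨x, q, hxq, h, rfl⟩ hdq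

end Pool.GC
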