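import Pool.Agent.Work.MP_ae1ff6_gc.Interface

/-! # Block EXI (helper71) -/

open Topology Filter Set MeasureTheory
open scoped ComplexConjugate ENNReal

set_option autoImplicit false

namespace Pool.GC

open Pool.CG

theorem p_EXI (hORB : Stmt_ORB) (hCUR : Stmt_CUR) (hSUM : Stmt_SUM) : Stmt_EXI := by
  intro Γ G hΓ hle hconv
  set B := TopologicalSpace.countableBasis Circle with hB
  have hBc : B.Countable := TopologicalSpace.countable_countableBasis Circle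
  have hBb : TopologicalSpace.IsTopologicalBasis B :=
    TopologicalSpace.isBasis_countableBasis Circle
  have hBe : ∀ U ∈ B, U.Nonempty := fun U hU => TopologicalSpace.nonempty_of_mem_countableBasis hU
  have hne : (B ×ˢ B).Nonempty := by
    obtain ⟨U, hU, -, -⟩ := hBb.exists_subset_of_mem_open (mem_univ (1 : Circle)) isOpen_univ
    exact ⟨(U, U), hU, hU⟩
  obtain ⟨f, hf⟩ := (hBc.prod hBc).exists_eq_range hne
  have hfmem : ∀ n, (f n).1 ∈ B ∧ (f n).2 ∈ B := by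
    intro n
    have : f n ∈ B ×ˢ B := by
      rw [hf]
      exact mem_range_self n
    exact this
  have hex : ∀ n, ∃ μ : Measure (Circle × Circle), Current μ ∧ Fixes G μ ∧
      0 < μ ((f n).1 ×ˢ (f n).2) := by
    intro n
    obtain ⟨h1, h2⟩ := hfmem n
    obtain ⟨γ, hγ, p, hp, q, hq, hax⟩ := dns Γ hΓ (f n).1 (f n).2 (hBb.isOpen h1) (hBe _ h1)
      (hBb.isOpen h2) (hBe _ h2)
    obtain ⟨μ, hμ1, hμ2, hμ3⟩ := hCUR G p q hax.1
      (fun ε hε => hORB Γ G hΓ hle hconv γ hγ p q hax ε hε)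
    refine ⟨μ, hμ1, hμ2, hμ3.trans_le (measure_mono ?_)⟩
    rintro x rfl
    exact ⟨hp, hq⟩
  choose μ hμ1 hμ2 hμ3 using hex
  obtain ⟨ν, hν1, hν2, hν3⟩ := hSUM G μ hμ1 hμ2
  refine ⟨ν, hν1, ?_, hν2⟩
  intro U V hU hUne hV hVne
  obtain ⟨x, hx⟩ := hUne
  obtain ⟨y, hy⟩ := hVne
  obtain ⟨U', hU', -, hUU⟩ := hBb.exists_subset_of_mem_open hx hU
  obtain ⟨V', hV', -, hVV⟩ := hBb.exists_subset_of_mem_open hy hV
  have hmem : ((U', V') : Set Circle × Set Circle) ∈ B ×ˢ B := ⟨hU', hV'⟩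
  rw [hf] at hmem
  obtain ⟨n, hn⟩ := hmem
  have h1 := hν3 n _ (hμ3 n)
  rw [hn] at h1
  exact h1.trans_le (measure_mono (prod_mono hUU hVV))

end Pool.GC
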