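import Pool.Agent.Work.MP_ae1ff6_gc.Interface2

/-! Block FUL: full support implies filling. -/

open Topology Filter Set MeasureTheory
open scoped ComplexConjugate ENNReal

set_option autoImplicit false

namespace Pool.GC

open Pool.CG

theorem p_FUL : Stmt_FUL := by
  intro μ hμ u v huv
  obtain ⟨A, B, U, V, hA, hB, hU, hUn, hV, hVn, h⟩ := lop u v huv
  refine (hμ U V hU hUn hV hVn).trans_le (measure_mono ?_)
  rintro ⟨c, d⟩ ⟨hc, hd⟩
  exact h u (mem_of_mem_nhds hA) v (mem_of_mem_nhds hB) c hc d hd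

end Pool.GC
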