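import Pool.Agent.Work.MP_ae1ff6_gc.Interface2

/-! # Block FX3: an element with three fixed points which preserves a filling current is trivial -/

open Topology Filter Set MeasureTheory
open scoped ComplexConjugate ENNReal

set_option autoImplicit false

namespace Pool.GC

open Pool.CG

theorem FX3_meas (g : H) : Measurable (Prod.map g g : Circle × Circle → Circle × Circle) :=
  g.continuous.measurable.prodMap g.continuous.measurable

/-- the stabilizer of a measure -/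
noncomputable def FX3_sub (μ : Measure (Circle × Circle)) : Subgroup H where
  carrier := {g | μ.map (Prod.map g g) = μ}
  mul_mem' := by
    intro a b ha hb
    change μ.map (Prod.map (a * b : H) (a * b : H)) = μ
    have e : (Prod.map (a * b : H) (a * b : H) : Circle × Circle → Circle × Circle) =
        Prod.map a a ∘ Prod.map b b := rfl
    rw [e, ← Measure.map_map (FX3_meas a) (FX3_meas b)]
    have ha' : μ.map (Prod.map a a) = μ := ha
    have hb' : μ.map (Prod.map b b) = μ := hb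
    rw [hb', ha']
  one_mem' := by
    change μ.map (Prod.map (1 : H) (1 : H)) = μ
    have e : (Prod.map (1 : H) (1 : H) : Circle × Circle → Circle × Circle) = id := rfl
    rw [e, Measure.map_id]
  inv_mem' := by
    intro a ha
    change μ.map (Prod.map (a⁻¹ : H) (a⁻¹ : H)) = μ
    have ha' : μ.map (Prod.map a a) = μ := ha
    conv_lhs => rw [← ha']
    rw [Measure.map_map (FX3_meas _) (FX3_meas _)]
    have e : (Prod.map (a⁻¹ : H) (a⁻¹ : H) ∘ Prod.map a a : Circle × Circle → Circle × Circle) =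
        id := by
      funext x
      exact Prod.ext (a.symm_apply_apply x.1) (a.symm_apply_apply x.2)
    rw [e, Measure.map_id]

theorem FX3_zpow (μ : Measure (Circle × Circle)) (k : H) (h : μ.map (Prod.map k k) = μ) (n : ℤ) :
    μ.map (Prod.map (k ^ n : H) (k ^ n : H)) = μ :=
  (FX3_sub μ).zpow_mem (show k ∈ FX3_sub μ from h) n

theorem FX3_null (μ : Measure (Circle × Circle)) (k : H) (h : μ.map (Prod.map k k) = μ) (n : ℤ)
    (D B : Set Circle) (hB : (k ^ n : H) '' B = B) (h0 : μ (D ×ˢ B) = 0) :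
    μ (((k ^ n : H) '' D) ×ˢ B) = 0 := by
  have hmp : MeasurePreserving (Prod.map (k ^ (-n) : H) (k ^ (-n) : H)) μ μ :=
    ⟨FX3_meas _, FX3_zpow μ k h (-n)⟩
  have e : ((k ^ n : H) '' D) ×ˢ B =
      (Prod.map (k ^ (-n) : H) (k ^ (-n) : H)) ⁻¹' (D ×ˢ B) := by
    rw [zpow_neg]
    ext x
    constructor
    · rintro ⟨⟨y, hy, hy'⟩, hx2⟩
      rw [← hB] at hx2
      obtain ⟨z, hz, hz'⟩ := hx2
      refine ⟨?_, ?_⟩
      · change (k ^ n : H).symm x.1 ∈ D
        rw [← hy', Homeomorph.symm_apply_apply]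
        exact hy
      · change (k ^ n : H).symm x.2 ∈ B
        rw [← hz', Homeomorph.symm_apply_apply]
        exact hz
    · rintro ⟨h1, h2⟩
      have h1' : (k ^ n : H).symm x.1 ∈ D := h1
      have h2' : (k ^ n : H).symm x.2 ∈ B := h2
      refine ⟨⟨_, h1', Homeomorph.apply_symm_apply _ _⟩, ?_⟩
      rw [← hB]
      exact ⟨_, h2', Homeomorph.apply_symm_apply _ _⟩
  rw [e]
  exact hmp.quasiMeasurePreserving.preimage_null h0

theorem FX3_fix (κ : ℝ ≃o ℝ) (x : ℝ) (h : κ x = x) (n : ℤ) : (κ ^ n) x = x := by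
  have h1 : ∀ m : ℕ, (κ ^ m) x = x := by
    intro m
    induction m with
    | zero => rfl
    | succ m ih =>
      rw [pow_succ']
      change κ ((κ ^ m) x) = x
      rw [ih, h]
  cases n with
  | ofNat m => exact h1 m
  | negSucc m =>
    rw [zpow_negSucc]
    calc ((κ ^ (m + 1))⁻¹) x = ((κ ^ (m + 1))⁻¹) ((κ ^ (m + 1)) x) := by rw [h1 (m + 1)]
      _ = x := (κ ^ (m + 1)).symm_apply_apply x

theorem FX3_int (k : H) (κ : ℝ ≃o ℝ) (θ : ℝ) (h0 : κ θ = θ)
    (h1 : κ (θ + 2 * Real.pi) = θ + 2 * Real.pi)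
    (h : ∀ x ∈ Icc θ (θ + 2 * Real.pi), Circle.exp (κ x) = k (Circle.exp x)) (n : ℤ) :
    ∀ x ∈ Icc θ (θ + 2 * Real.pi), (κ ^ n) x ∈ Icc θ (θ + 2 * Real.pi) ∧
      Circle.exp ((κ ^ n) x) = (k ^ n : H) (Circle.exp x) := by
  have hm : ∀ (n : ℤ), ∀ x ∈ Icc θ (θ + 2 * Real.pi),
      (κ ^ n) x ∈ Icc θ (θ + 2 * Real.pi) := by
    intro n x hx
    have e1 := FX3_fix κ θ h0 n
    have e2 := FX3_fix κ _ h1 n
    constructor
    · have := (κ ^ n).monotone hx.1
      rwa [e1] at this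
    · have := (κ ^ n).monotone hx.2
      rwa [e2] at this
  have hn : ∀ m : ℕ, ∀ x ∈ Icc θ (θ + 2 * Real.pi),
      Circle.exp ((κ ^ m) x) = (k ^ m : H) (Circle.exp x) := by
    intro m
    induction m with
    | zero => intro x _; rfl
    | succ m ih =>
      intro x hx
      rw [pow_succ', pow_succ']
      change Circle.exp (κ ((κ ^ m) x)) = k ((k ^ m : H) (Circle.exp x))
      have := hm m x hx
      rw [zpow_natCast] at this
      rw [h _ this, ih x hx]
  intro x hx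
  refine ⟨hm n x hx, ?_⟩
  cases n with
  | ofNat m => exact hn m x hx
  | negSucc m =>
    have h2 := hm (Int.negSucc m) x hx
    rw [zpow_negSucc] at h2 ⊢
    rw [zpow_negSucc]
    have h3 := hn (m + 1) _ h2
    have h4 : (κ ^ (m + 1)) ((κ ^ (m + 1))⁻¹ x) = x := (κ ^ (m + 1)).apply_symm_apply x
    rw [h4] at h3
    rw [h3]
    exact ((k ^ (m + 1) : H).symm_apply_apply _).symm

theorem FX3_img (k : H) (κ : ℝ ≃o ℝ) (θ : ℝ) (h0 : κ θ = θ)
    (h1 : κ (θ + 2 * Real.pi) = θ + 2 * Real.pi)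
    (h : ∀ x ∈ Icc θ (θ + 2 * Real.pi), Circle.exp (κ x) = k (Circle.exp x)) (n : ℤ)
    (S : Set ℝ) (hS : S ⊆ Icc θ (θ + 2 * Real.pi)) :
    (k ^ n : H) '' (Circle.exp '' S) = Circle.exp '' ((κ ^ n) '' S) := by
  rw [image_image, image_image]
  exact image_congr fun x hx => ((FX3_int k κ θ h0 h1 h n x (hS hx)).2).symm

theorem FX3_dist (p q r v : ℝ) (hqr : q < r) (hv : v < p + 2 * Real.pi) :
    ∃ ε : ℝ, 0 < ε ∧ ∀ x ∈ Circle.exp '' Icc p q, ∀ y ∈ Circle.exp '' Icc r v,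
      ε ≤ dist x y := by
  have hK : IsCompact ((Circle.exp '' Icc p q) ×ˢ (Circle.exp '' Icc r v)) :=
    (isCompact_Icc.image Circle.exp.continuous).prod (isCompact_Icc.image Circle.exp.continuous)
  rcases ((Circle.exp '' Icc p q) ×ˢ (Circle.exp '' Icc r v)).eq_empty_or_nonempty with he | he
  · refine ⟨1, one_pos, fun x hx y hy => ?_⟩
    have : (x, y) ∈ (Circle.exp '' Icc p q) ×ˢ (Circle.exp '' Icc r v) := ⟨hx, hy⟩
    rw [he] at this
    exact absurd this (notMem_empty _)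
  · obtain ⟨z, hz, hmin⟩ := hK.exists_isMinOn he
      (continuous_dist.continuousOn (s := _) (f := fun x : Circle × Circle => dist x.1 x.2))
    refine ⟨dist z.1 z.2, ?_, fun x hx y hy => hmin (show (x, y) ∈ _ from ⟨hx, hy⟩)⟩
    rw [dist_pos]
    obtain ⟨⟨a, ha, ha'⟩, ⟨b, hb, hb'⟩⟩ := hz
    rw [← ha', ← hb']
    intro hab
    have hinj : InjOn Circle.exp (Ico p (p + 2 * Real.pi)) := Circle.exp_injOn_Ico (by linarith)
    have := hinj ⟨ha.1, by linarith [ha.2, hb.1, hb.2]⟩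
      ⟨by linarith [ha.1, ha.2, hb.1], by linarith [hb.2]⟩ hab
    linarith [ha.2, hb.1]

theorem FX3_core2 (hORI : Stmt_ORI) (hWAN : Stmt_WAN) (μ : Measure (Circle × Circle)) (k : H)
    (hμ : Current μ) (hf : Filling μ) (hk : μ.map (Prod.map k k) = μ) (κ : ℝ ≃o ℝ)
    (θ α β ξ : ℝ) (h0 : κ θ = θ) (h1 : κ (θ + 2 * Real.pi) = θ + 2 * Real.pi) (hα : κ α = α)
    (hβ : κ β = β) (hθα : θ < α) (hαξ : α < ξ) (hξβ : ξ < β) (hβθ : β < θ + 2 * Real.pi)
    (h : ∀ x ∈ Icc θ (θ + 2 * Real.pi), Circle.exp (κ x) = k (Circle.exp x))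
    (hξ : ξ < κ ξ) : False := by
  obtain ⟨s, t, hαs, hsξ, hξt, htβ, hs, ht, hU, hdisj, himg⟩ := hORI κ α β ξ hα hβ hαξ hξβ hξ
  have hpi : (0 : ℝ) < 2 * Real.pi := Real.two_pi_pos
  set D : Set Circle := Circle.exp '' Ico ξ (κ ξ) with hD
  set B₁ : Set Circle := Circle.exp '' Ioc t (θ + 2 * Real.pi) with hB₁
  set B₂ : Set Circle := Circle.exp '' Ico θ s with hB₂
  set A : Set Circle := Circle.exp '' Ioo s t with hA
  have hinj : InjOn Circle.exp (Ico θ (θ + 2 * Real.pi)) := Circle.exp_injOn_Ico (by linarith)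
  have hinj' : InjOn Circle.exp (Ico s (s + 2 * Real.pi)) := Circle.exp_injOn_Ico (by linarith)
  -- images
  have sD : Ico ξ (κ ξ) ⊆ Icc θ (θ + 2 * Real.pi) := fun x hx =>
    ⟨by linarith [hx.1], by linarith [hx.2]⟩
  have s1 : Ioc t (θ + 2 * Real.pi) ⊆ Icc θ (θ + 2 * Real.pi) := fun x hx =>
    ⟨by linarith [hx.1], hx.2⟩
  have s2 : Ico θ s ⊆ Icc θ (θ + 2 * Real.pi) := fun x hx => ⟨hx.1, by linarith [hx.2]⟩
  have iD : ∀ n : ℤ, (k ^ n : H) '' D = Circle.exp '' Ico ((κ ^ n) ξ) ((κ ^ (n + 1)) ξ) := by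
    intro n
    rw [hD, FX3_img k κ θ h0 h1 h n _ sD, himg n]
  have i1 : ∀ n : ℤ, (k ^ n : H) '' B₁ = B₁ := by
    intro n
    rw [hB₁, FX3_img k κ θ h0 h1 h n _ s1, OrderIso.image_Ioc, FX3_fix κ t ht n,
      FX3_fix κ _ h1 n]
  have i2 : ∀ n : ℤ, (k ^ n : H) '' B₂ = B₂ := by
    intro n
    rw [hB₂, FX3_img k κ θ h0 h1 h n _ s2, OrderIso.image_Ico, FX3_fix κ s hs n,
      FX3_fix κ _ h0 n]
  have hsub : ∀ n : ℤ, Ico ((κ ^ n) ξ) ((κ ^ (n + 1)) ξ) ⊆ Ioo s t := by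
    intro n
    rw [hU]
    exact subset_iUnion (fun n : ℤ => Ico ((κ ^ n) ξ) ((κ ^ (n + 1)) ξ)) n
  have hdis : Pairwise (Function.onFun Disjoint fun n : ℤ => (k ^ n : H) '' D) := by
    intro m n hmn
    change Disjoint ((k ^ m : H) '' D) ((k ^ n : H) '' D)
    rw [iD, iD, Set.disjoint_left]
    rintro _ ⟨x, hx, rfl⟩ ⟨y, hy, hxy⟩
    have hx' := hsub m hx
    have hy' := hsub n hy
    have e : y = x := hinj ⟨by linarith [hy'.1], by linarith [hy'.2]⟩
      ⟨by linarith [hx'.1], by linarith [hx'.2]⟩ hxy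
    rw [e] at hy
    exact Set.disjoint_left.1 (hdisj hmn) hx hy
  -- measurability
  have nD : Ico ξ (κ ξ) ⊆ Ico θ (θ + 2 * Real.pi) := fun x hx =>
    ⟨by linarith [hx.1], by linarith [hx.2]⟩
  have n1 : Ioc t (θ + 2 * Real.pi) ⊆ Ico s (s + 2 * Real.pi) := fun x hx =>
    ⟨by linarith [hx.1], by linarith [hx.2]⟩
  have n2 : Ico θ s ⊆ Ico θ (θ + 2 * Real.pi) := fun x hx =>
    ⟨by linarith [hx.1], by linarith [hx.2]⟩
  have mD : MeasurableSet D := measurableSet_Ico.image_of_continuousOn_injOn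
    Circle.exp.continuous.continuousOn (hinj.mono nD)
  have m1 : MeasurableSet B₁ := measurableSet_Ioc.image_of_continuousOn_injOn
    Circle.exp.continuous.continuousOn (hinj'.mono n1)
  have m2 : MeasurableSet B₂ := measurableSet_Ico.image_of_continuousOn_injOn
    Circle.exp.continuous.continuousOn (hinj.mono n2)
  -- the boxes have mass zero
  have z2 : μ (D ×ˢ B₂) = 0 := by
    obtain ⟨ε, hε, hε'⟩ := FX3_dist θ s ξ t hsξ (by linarith)
    refine hWAN μ k 1 D B₂ ε hμ (by rw [hk, one_smul]) le_rfl mD m2 ?_ ?_ hε ?_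
    · have := i2 1
      rwa [zpow_one] at this
    · intro m n hmn
      have := hdis (show (m : ℤ) ≠ (n : ℤ) from fun h => hmn (by exact_mod_cast h))
      change Disjoint ((k ^ (m : ℤ) : H) '' D) ((k ^ (n : ℤ) : H) '' D) at this
      rw [zpow_natCast, zpow_natCast] at this
      exact this
    · intro n x hx y hy
      rw [dist_comm]
      refine hε' y ?_ x ?_
      · obtain ⟨w, hw, rfl⟩ := hy
        exact ⟨w, ⟨hw.1, hw.2.le⟩, rfl⟩
      · rw [← zpow_natCast, iD] at hx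
        obtain ⟨w, hw, rfl⟩ := hx
        refine ⟨w, ⟨?_, (hsub n hw).2.le⟩, rfl⟩
        refine le_trans ?_ hw.1
        rw [zpow_natCast]
        clear hw
        induction n with
        | zero => exact le_rfl
        | succ n ih =>
          rw [pow_succ']
          change ξ ≤ κ ((κ ^ n) ξ)
          exact hξ.le.trans (κ.monotone ih)
  have z1 : μ (D ×ˢ B₁) = 0 := by
    obtain ⟨ε, hε, hε'⟩ := FX3_dist s (κ ξ) t (θ + 2 * Real.pi) hξt (by linarith)
    have hk' : μ.map (Prod.map (k⁻¹ : H) (k⁻¹ : H)) = μ := by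
      have := FX3_zpow μ k hk (-1)
      rwa [zpow_neg_one] at this
    refine hWAN μ k⁻¹ 1 D B₁ ε hμ (by rw [hk', one_smul]) le_rfl mD m1 ?_ ?_ hε ?_
    · have := i1 (-1)
      rwa [zpow_neg_one] at this
    · intro m n hmn
      have := hdis (show -(m : ℤ) ≠ -(n : ℤ) from fun h => hmn (by
        have := neg_injective h
        exact_mod_cast this))
      change Disjoint ((k ^ (-(m : ℤ)) : H) '' D) ((k ^ (-(n : ℤ)) : H) '' D) at this
      rw [zpow_neg, zpow_neg, zpow_natCast, zpow_natCast, ← inv_pow, ← inv_pow] at this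
      exact this
    · intro n x hx y hy
      refine hε' x ?_ y ?_
      · rw [inv_pow, ← zpow_natCast, ← zpow_neg, iD] at hx
        obtain ⟨w, hw, rfl⟩ := hx
        refine ⟨w, ⟨(hsub _ hw).1.le, ?_⟩, rfl⟩
        refine hw.2.le.trans ?_
        rw [add_comm, zpow_add, zpow_one, zpow_neg, zpow_natCast]
        change κ ((κ ^ n)⁻¹ ξ) ≤ κ ξ
        apply κ.monotone
        have e : (κ ^ n) ((κ ^ n)⁻¹ ξ) = ξ := (κ ^ n).apply_symm_apply ξ
        rw [← (κ ^ n).le_iff_le, e]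
        clear hw e
        induction n with
        | zero => exact le_rfl
        | succ n ih =>
          rw [pow_succ']
          change ξ ≤ κ ((κ ^ n) ξ)
          exact hξ.le.trans (κ.monotone (ih))
      · obtain ⟨w, hw, rfl⟩ := hy
        exact ⟨w, ⟨hw.1.le, hw.2⟩, rfl⟩
  -- the union
  have hAU : A = ⋃ n : ℤ, (k ^ n : H) '' D := by
    rw [hA, hU, image_iUnion]
    exact iUnion_congr fun n => (iD n).symm
  have zA : ∀ B : Set Circle, (∀ n : ℤ, (k ^ n : H) '' B = B) → μ (D ×ˢ B) = 0 →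
      μ (A ×ˢ B) = 0 := by
    intro B hB hz
    rw [hAU, iUnion_prod_const]
    exact measure_iUnion_null fun n => FX3_null μ k hk n D B (hB n) hz
  have zAB : μ (A ×ˢ (B₁ ∪ B₂)) = 0 := by
    rw [prod_union]
    exact measure_union_null (zA B₁ i1 z1) (zA B₂ i2 z2)
  have zBA : μ ((B₁ ∪ B₂) ×ˢ A) = 0 := by
    have hmp : MeasurePreserving (Prod.swap : Circle × Circle → Circle × Circle) μ μ :=
      ⟨measurable_swap, hμ.flip⟩
    have := hmp.quasiMeasurePreserving.preimage_null zAB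
    rwa [preimage_swap_prod] at this
  have hst : Circle.exp s ≠ Circle.exp t := by
    intro he
    have := hinj' ⟨le_rfl, by linarith⟩ ⟨by linarith, by linarith⟩ he
    linarith
  have hpos := hf _ _ hst
  have hcov : {x : Circle × Circle | Link (Circle.exp s) (Circle.exp t) x.1 x.2} ⊆
      A ×ˢ (B₁ ∪ B₂) ∪ (B₁ ∪ B₂) ×ˢ A := by
    have hC : Circle.exp '' Ioo t (s + 2 * Real.pi) ⊆ B₁ ∪ B₂ := by
      rintro _ ⟨w, hw, rfl⟩
      rcases le_or_gt w (θ + 2 * Real.pi) with hw' | hw'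
      · exact Or.inl ⟨w, ⟨hw.1, hw'⟩, rfl⟩
      · refine Or.inr ⟨w - 2 * Real.pi, ⟨by linarith, by linarith [hw.2]⟩, ?_⟩
        exact Circle.periodic_exp.sub_eq w
    have hpart : ∀ z : Circle, z ≠ Circle.exp s → z ≠ Circle.exp t →
        z ∈ A ∨ z ∈ Circle.exp '' Ioo t (s + 2 * Real.pi) := by
      intro z hz1 hz2
      obtain ⟨w, hw, rfl⟩ := ARC_surj s z
      have hws : w ≠ s := fun e => hz1 (by rw [e])
      have hwt : w ≠ t := fun e => hz2 (by rw [e])
      rcases lt_or_gt_of_ne hwt with h3 | h3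
      · exact Or.inl ⟨w, ⟨lt_of_le_of_ne hw.1 (Ne.symm hws), h3⟩, rfl⟩
      · exact Or.inr ⟨w, ⟨h3, hw.2⟩, rfl⟩
    have hnA1 : Circle.exp s ∉ A := by
      rintro ⟨w, hw, hw'⟩
      have := hinj' ⟨hw.1.le, by linarith [hw.2]⟩ ⟨le_rfl, by linarith⟩ hw'
      linarith [hw.1]
    have hnA2 : Circle.exp t ∉ A := by
      rintro ⟨w, hw, hw'⟩
      have := hinj' ⟨hw.1.le, by linarith [hw.2]⟩ ⟨by linarith, by linarith⟩ hw'
      linarith [hw.2]
    have hnC1 : Circle.exp s ∉ Circle.exp '' Ioo t (s + 2 * Real.pi) := by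
      rintro ⟨w, hw, hw'⟩
      have := hinj' ⟨by linarith [hw.1], hw.2⟩ ⟨le_rfl, by linarith⟩ hw'
      linarith [hw.1]
    have hnC2 : Circle.exp t ∉ Circle.exp '' Ioo t (s + 2 * Real.pi) := by
      rintro ⟨w, hw, hw'⟩
      have := hinj' ⟨by linarith [hw.1], hw.2⟩ ⟨by linarith, by linarith⟩ hw'
      linarith [hw.1]
    have pA : IsPreconnected A := isPreconnected_Ioo.image _ Circle.exp.continuous.continuousOn
    have pC : IsPreconnected (Circle.exp '' Ioo t (s + 2 * Real.pi)) :=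
      isPreconnected_Ioo.image _ Circle.exp.continuous.continuousOn
    rintro ⟨x, y⟩ ⟨⟨hx1, hx2⟩, ⟨hy1, hy2⟩, hL⟩
    rcases hpart x hx1 hx2 with hx | hx <;> rcases hpart y hy1 hy2 with hy | hy
    · exact absurd (hL A pA hx hy) (by rw [not_or]; exact ⟨hnA1, hnA2⟩)
    · exact Or.inl ⟨hx, hC hy⟩
    · exact Or.inr ⟨hC hx, hy⟩
    · exact absurd (hL _ pC hx hy) (by rw [not_or]; exact ⟨hnC1, hnC2⟩)
  have : μ {x : Circle × Circle | Link (Circle.exp s) (Circle.exp t) x.1 x.2} = 0 :=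
    measure_mono_null hcov (measure_union_null zAB zBA)
  rw [this] at hpos
  exact lt_irrefl _ hpos

theorem FX3_core (hLFT : Stmt_LFT) (hORI : Stmt_ORI) (hWAN : Stmt_WAN)
    (μ : Measure (Circle × Circle)) (k : H) (hμ : Current μ) (hf : Filling μ)
    (hk : μ.map (Prod.map k k) = μ) (ξ θ₁ θ₂ θ₃ : ℝ) (h1 : ξ < θ₁) (h2 : θ₁ < θ₂)
    (h3 : θ₂ < θ₃) (h4 : θ₃ < ξ + 2 * Real.pi) (f1 : k (Circle.exp θ₁) = Circle.exp θ₁)
    (f2 : k (Circle.exp θ₂) = Circle.exp θ₂) (f3 : k (Circle.exp θ₃) = Circle.exp θ₃) :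
    k (Circle.exp ξ) = Circle.exp ξ := by
  by_contra hne
  have hpi : (0 : ℝ) < 2 * Real.pi := Real.two_pi_pos
  have hper : ∀ x : ℝ, Circle.exp (x - 2 * Real.pi) = Circle.exp x := fun x =>
    Circle.periodic_exp.sub_eq x
  have hinj : InjOn Circle.exp (Ico (θ₂ - 2 * Real.pi) (θ₂ - 2 * Real.pi + 2 * Real.pi)) :=
    Circle.exp_injOn_Ico (by linarith)
  have hinj2 : InjOn Circle.exp (Ico θ₁ (θ₁ + 2 * Real.pi)) :=
    Circle.exp_injOn_Ico (by linarith)
  have g1 : Circle.exp θ₃ ≠ Circle.exp θ₂ := fun e => by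
    have := hinj2 ⟨by linarith, by linarith⟩ ⟨by linarith, by linarith⟩ e
    linarith
  have g2 : Circle.exp θ₃ ≠ Circle.exp θ₁ := fun e => by
    have := hinj2 ⟨by linarith, by linarith⟩ ⟨by linarith, by linarith⟩ e
    linarith
  obtain ⟨κ, k0, ks, k1, hκ⟩ := hLFT k (θ₂ - 2 * Real.pi) θ₁ (Circle.exp θ₃) (by linarith)
    (by linarith) (by rw [hper, f2]) f1 (by rw [hper]; exact g1) g2 (by
      rw [f3]
      rintro ⟨⟨c1, c2⟩, -, hL⟩
      rcases hL {Circle.exp θ₃} isPreconnected_singleton rfl rfl with h | h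
      · exact c1 (mem_singleton_iff.1 h).symm
      · exact c2 (mem_singleton_iff.1 h).symm)
  have hα : κ (θ₃ - 2 * Real.pi) = θ₃ - 2 * Real.pi := by
    have hmem : θ₃ - 2 * Real.pi ∈ Icc (θ₂ - 2 * Real.pi) (θ₂ - 2 * Real.pi + 2 * Real.pi) :=
      ⟨by linarith, by linarith⟩
    have e := hκ _ hmem
    rw [hper, f3, ← hper θ₃] at e
    refine hinj ⟨?_, ?_⟩ ⟨hmem.1, by linarith⟩ e
    · have := κ.monotone hmem.1
      rwa [k0] at this
    · have := κ.strictMono (show θ₃ - 2 * Real.pi < θ₂ - 2 * Real.pi + 2 * Real.pi by linarith)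
      rwa [k1] at this
  have hξmem : ξ ∈ Icc (θ₂ - 2 * Real.pi) (θ₂ - 2 * Real.pi + 2 * Real.pi) :=
    ⟨by linarith, by linarith⟩
  have hκξ : κ ξ ≠ ξ := by
    intro e
    have := hκ ξ hξmem
    rw [e] at this
    exact hne this.symm
  rcases lt_or_gt_of_ne hκξ with hlt | hgt
  · -- use the inverses
    refine FX3_core2 hORI hWAN μ k⁻¹ hμ hf ?_ κ⁻¹ (θ₂ - 2 * Real.pi) (θ₃ - 2 * Real.pi) θ₁ ξ
      ?_ ?_ ?_ ?_ (by linarith) (by linarith) h1 (by linarith) ?_ ?_
    · have := FX3_zpow μ k hk (-1)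
      rwa [zpow_neg_one] at this
    · exact (κ.symm_apply_eq).2 k0.symm
    · exact (κ.symm_apply_eq).2 k1.symm
    · exact (κ.symm_apply_eq).2 hα.symm
    · exact (κ.symm_apply_eq).2 ks.symm
    · intro x hx
      have hy : κ.symm x ∈ Icc (θ₂ - 2 * Real.pi) (θ₂ - 2 * Real.pi + 2 * Real.pi) := by
        constructor
        · rw [← κ.le_iff_le, k0, κ.apply_symm_apply]
          exact hx.1
        · rw [← κ.le_iff_le, k1, κ.apply_symm_apply]
          exact hx.2
      have := hκ _ hy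
      rw [κ.apply_symm_apply] at this
      rw [this]
      exact (k.symm_apply_apply _).symm
    · change ξ < κ.symm ξ
      rw [← κ.lt_iff_lt, κ.apply_symm_apply]
      exact hlt
  · exact FX3_core2 hORI hWAN μ k hμ hf hk κ (θ₂ - 2 * Real.pi) (θ₃ - 2 * Real.pi) θ₁ ξ
      k0 k1 hα ks (by linarith) (by linarith) h1 (by linarith) hκ hgt

theorem p_FX3 (hLFT : Stmt_LFT) (hORI : Stmt_ORI) (hWAN : Stmt_WAN) : Stmt_FX3 := by
  intro μ k a b c hμ hf hk hab hbc hac ka kb kc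
  refine Homeomorph.ext fun x => ?_
  change k x = x
  obtain ⟨ξ, rfl⟩ := Circle.exp_surjective x
  by_contra hne
  have hlift : ∀ z : Circle, k z = z → ∃ θ : ℝ, ξ < θ ∧ θ < ξ + 2 * Real.pi ∧
      Circle.exp θ = z := by
    intro z hz
    obtain ⟨θ, hθ, rfl⟩ := ARC_surj ξ z
    refine ⟨θ, lt_of_le_of_ne hθ.1 fun e => hne ?_, hθ.2, rfl⟩
    rw [e]
    exact hz
  obtain ⟨ta, a1, a2, a3⟩ := hlift a ka
  obtain ⟨tb, b1, b2, b3⟩ := hlift b kb
  obtain ⟨tc, c1, c2, c3⟩ := hlift c kc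
  have nab : ta ≠ tb := fun e => hab (by rw [← a3, ← b3, e])
  have nbc : tb ≠ tc := fun e => hbc (by rw [← b3, ← c3, e])
  have nac : ta ≠ tc := fun e => hac (by rw [← a3, ← c3, e])
  have fa : k (Circle.exp ta) = Circle.exp ta := by rw [a3, ka]
  have fb : k (Circle.exp tb) = Circle.exp tb := by rw [b3, kb]
  have fc : k (Circle.exp tc) = Circle.exp tc := by rw [c3, kc]
  have core := FX3_core hLFT hORI hWAN μ k hμ hf hk ξ
  rcases lt_or_gt_of_ne nab with h1 | h1 <;> rcases lt_or_gt_of_ne nbc with h2 | h2 <;>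
    rcases lt_or_gt_of_ne nac with h3 | h3
  · exact hne (core ta tb tc a1 h1 h2 c2 fa fb fc)
  · exact absurd (h1.trans h2) (by linarith)
  · exact hne (core ta tc tb a1 h3 h2 b2 fa fc fb)
  · exact hne (core tc ta tb c1 h3 h1 b2 fc fa fb)
  · exact hne (core tb ta tc b1 h1 h3 c2 fb fa fc)
  · exact hne (core tb tc ta b1 h2 h3 a2 fb fc fa)
  · exact absurd (h2.trans h1) (by linarith)
  · exact hne (core tc tb ta c1 h2 h1 a2 fc fb fa)

end Pool.GC
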