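import Pool.Agent.Work.MP_ae1ff6_gc.Interface3

/-!
# Block FXB: two fixed points which are not sinks
-/

open Topology Filter Set MeasureTheory
open scoped ComplexConjugate ENNReal

set_option autoImplicit false

namespace Pool.GC

open Pool.CG

/-! ## Order isomorphisms of the line -/

theorem FXB_succ (κ : ℝ ≃o ℝ) (n : ℕ) (x : ℝ) : (κ ^ (n + 1)) x = κ ((κ ^ n) x) := by
  rw [pow_succ']
  rfl

theorem FXB_fix (κ : ℝ ≃o ℝ) (u : ℝ) (hu : κ u = u) (n : ℕ) : (κ ^ n) u = u := by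
  induction n with
  | zero => rfl
  | succ n ih => rw [FXB_succ, ih, hu]

theorem FXB_le (κ : ℝ ≃o ℝ) {u x : ℝ} (hu : κ u = u) (h : x ≤ u) (n : ℕ) : (κ ^ n) x ≤ u := by
  rw [← FXB_fix κ u hu n]
  exact (κ ^ n).monotone h

theorem FXB_ge (κ : ℝ ≃o ℝ) {u x : ℝ} (hu : κ u = u) (h : u ≤ x) (n : ℕ) : u ≤ (κ ^ n) x := by
  conv_lhs => rw [← FXB_fix κ u hu n]
  exact (κ ^ n).monotone h

theorem FXB_inc (κ : ℝ ≃o ℝ) {x : ℝ} (h : x ≤ κ x) (n : ℕ) : x ≤ (κ ^ n) x := by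
  induction n with
  | zero => exact le_rfl
  | succ n ih =>
    rw [FXB_succ]
    exact h.trans (κ.monotone ih)

theorem FXB_dec (κ : ℝ ≃o ℝ) {x : ℝ} (h : κ x ≤ x) (n : ℕ) : (κ ^ n) x ≤ x := by
  induction n with
  | zero => exact le_rfl
  | succ n ih =>
    rw [FXB_succ]
    exact (κ.monotone ih).trans h

/-- a limit of an orbit is a fixed point -/
theorem FXB_lim (κ : ℝ ≃o ℝ) {x L : ℝ} (h : Tendsto (fun n : ℕ => (κ ^ n) x) atTop (𝓝 L)) :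
    κ L = L := by
  have h1 : Tendsto (fun n : ℕ => (κ ^ (n + 1)) x) atTop (𝓝 L) :=
    (tendsto_add_atTop_iff_nat 1).2 h
  have h2 : Tendsto (fun n : ℕ => κ ((κ ^ n) x)) atTop (𝓝 (κ L)) :=
    (κ.continuous.tendsto L).comp h
  simp only [FXB_succ] at h1
  exact tendsto_nhds_unique h2 h1

theorem FXB_up (κ : ℝ ≃o ℝ) {x u : ℝ} (hx : x < κ x) (hu : κ u = u) (hxu : x < u)
    (hno : ∀ t, x < t → t < u → κ t ≠ t) : Tendsto (fun n : ℕ => (κ ^ n) x) atTop (𝓝 u) := by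
  have hmono : Monotone fun n : ℕ => (κ ^ n) x := by
    refine monotone_nat_of_le_succ fun n => ?_
    rw [pow_succ]
    exact (κ ^ n).monotone hx.le
  have hbdd : BddAbove (range fun n : ℕ => (κ ^ n) x) := ⟨u, by
    rintro _ ⟨n, rfl⟩
    exact FXB_le κ hu hxu.le n⟩
  have h1 := tendsto_atTop_ciSup hmono hbdd
  have h2 := FXB_lim κ h1
  have h3 : κ x ≤ ⨆ n : ℕ, (κ ^ n) x := le_ciSup hbdd 1
  have h4 : ⨆ n : ℕ, (κ ^ n) x ≤ u := ciSup_le fun n => FXB_le κ hu hxu.le n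
  rcases h4.eq_or_lt with h5 | h5
  · rwa [h5] at h1
  · exact absurd h2 (hno _ (hx.trans_le h3) h5)

theorem FXB_down (κ : ℝ ≃o ℝ) {x u : ℝ} (hx : κ x < x) (hu : κ u = u) (hxu : u < x)
    (hno : ∀ t, u < t → t < x → κ t ≠ t) : Tendsto (fun n : ℕ => (κ ^ n) x) atTop (𝓝 u) := by
  have hmono : Antitone fun n : ℕ => (κ ^ n) x := by
    refine antitone_nat_of_succ_le fun n => ?_
    rw [pow_succ]
    exact (κ ^ n).monotone hx.le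
  have hbdd : BddBelow (range fun n : ℕ => (κ ^ n) x) := ⟨u, by
    rintro _ ⟨n, rfl⟩
    exact FXB_ge κ hu hxu.le n⟩
  have h1 := tendsto_atTop_ciInf hmono hbdd
  have h2 := FXB_lim κ h1
  have h3 : ⨅ n : ℕ, (κ ^ n) x ≤ κ x := ciInf_le hbdd 1
  have h4 : u ≤ ⨅ n : ℕ, (κ ^ n) x := le_ciInf fun n => FXB_ge κ hu hxu.le n
  rcases h4.eq_or_lt with h5 | h5
  · rwa [← h5] at h1
  · exact absurd h2 (hno _ h5 (h3.trans_lt hx))

/-- no change of direction without a fixed point -/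
theorem FXB_dir (κ : ℝ ≃o ℝ) {u v : ℝ} (hno : ∀ t, u < t → t < v → κ t ≠ t) {η ζ : ℝ}
    (hη1 : u < η) (hη2 : η < v) (hζ1 : u < ζ) (hζ2 : ζ < v) (h1 : η < κ η) : ζ < κ ζ := by
  by_contra h2
  have h3 : κ ζ < ζ := lt_of_le_of_ne (not_lt.1 h2) (hno ζ hζ1 hζ2)
  have hc : ContinuousOn (fun t => κ t - t) (uIcc ζ η) :=
    (κ.continuous.sub continuous_id).continuousOn
  have h4 := intermediate_value_uIcc hc
  have h5 : (0 : ℝ) ∈ uIcc (κ ζ - ζ) (κ η - η) := by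
    rw [mem_uIcc]
    exact Or.inl ⟨by linarith, by linarith⟩
  obtain ⟨t, ht, ht0⟩ := h4 h5
  rw [mem_uIcc] at ht
  refine hno t ?_ ?_ (by linarith)
  · rcases ht with ht | ht
    · linarith [ht.1]
    · linarith [ht.1]
  · rcases ht with ht | ht
    · linarith [ht.2]
    · linarith [ht.2]

theorem FXB_R (κ : ℝ ≃o ℝ) {u v : ℝ} (hv : κ v = v) (hno : ∀ t, u < t → t < v → κ t ≠ t)
    {η ζ : ℝ} (hη1 : u < η) (hη2 : η < v) (hζ1 : u < ζ) (hζ2 : ζ < v) (h1 : η < κ η) :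
    Tendsto (fun n : ℕ => (κ ^ n) ζ) atTop (𝓝 v) :=
  FXB_up κ (FXB_dir κ hno hη1 hη2 hζ1 hζ2 h1) hv hζ2 fun t h2 h3 => hno t (hζ1.trans h2) h3

theorem FXB_L (κ : ℝ ≃o ℝ) {u v : ℝ} (hu : κ u = u) (hno : ∀ t, u < t → t < v → κ t ≠ t)
    {η ζ : ℝ} (hη1 : u < η) (hη2 : η < v) (hζ1 : u < ζ) (hζ2 : ζ < v) (h1 : κ η < η) :
    Tendsto (fun n : ℕ => (κ ^ n) ζ) atTop (𝓝 u) := by
  have h2 : κ ζ < ζ := by
    by_contra h3
    have h4 : ζ < κ ζ := lt_of_le_of_ne (not_lt.1 h3) (Ne.symm (hno ζ hζ1 hζ2))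
    exact absurd (FXB_dir κ hno hζ1 hζ2 hη1 hη2 h4) (not_lt.2 h1.le)
  exact FXB_down κ h2 hu hζ1 fun t h3 h4 => hno t h3 (h4.trans hζ2)

/-! ## The circle -/

theorem FXB_inj (θ : ℝ) : InjOn Circle.exp (Ico θ (θ + 2 * Real.pi)) :=
  Circle.exp_injOn_Ico (by linarith)

theorem FXB_period (θ : ℝ) : Circle.exp (θ + 2 * Real.pi) = Circle.exp θ :=
  Circle.periodic_exp θ

theorem FXB_self (a b d : Circle) (h1 : d ≠ a) (h2 : d ≠ b) : ¬ Link a b d d := by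
  intro h
  rcases h.2.2 {d} isPreconnected_singleton rfl rfl with h3 | h3
  · exact h1 h3.symm
  · exact h2 h3.symm

theorem FXB_swap {a b c d : Circle} (h : Link a b c d) : Link b a c d :=
  ⟨⟨h.1.2, h.1.1⟩, ⟨h.2.1.2, h.2.1.1⟩, fun t ht h1 h2 => (h.2.2 t ht h1 h2).symm⟩

/-- the two sides -/
theorem FXB_sides {s t : ℝ} (hst : s < t) (hts : t < s + 2 * Real.pi) {x y : Circle}
    (h : Link (Circle.exp s) (Circle.exp t) x y) :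
    (∃ ξ ∈ Ioo s t, ∃ η ∈ Ioo t (s + 2 * Real.pi), Circle.exp ξ = x ∧ Circle.exp η = y) ∨
    ∃ ξ ∈ Ioo s t, ∃ η ∈ Ioo t (s + 2 * Real.pi), Circle.exp ξ = y ∧ Circle.exp η = x := by
  have hs : s ∈ Ico s (s + 2 * Real.pi) := ⟨le_rfl, by linarith⟩
  have ht : t ∈ Ico s (s + 2 * Real.pi) := ⟨hst.le, hts⟩
  have key : ∀ u v : ℝ, s ≤ u → v ≤ s + 2 * Real.pi → (∀ w ∈ Ioo u v, w ≠ t) →
      ∀ ξ ∈ Ioo u v, ∀ η ∈ Ioo u v, Circle.exp ξ = x → Circle.exp η = y → False := by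
    intro u v hu hv hw ξ hξ η hη hξx hηy
    have hsub : uIcc ξ η ⊆ Ioo u v := by
      intro w hw'
      rw [mem_uIcc] at hw'
      rcases hw' with hw' | hw'
      · exact ⟨hξ.1.trans_le hw'.1, hw'.2.trans_lt hη.2⟩
      · exact ⟨hη.1.trans_le hw'.1, hw'.2.trans_lt hξ.2⟩
    have hI : ∀ w ∈ uIcc ξ η, w ∈ Ico s (s + 2 * Real.pi) := fun w hw' =>
      ⟨hu.trans (hsub hw').1.le, (hsub hw').2.trans_le hv⟩
    rcases h.2.2 (Circle.exp '' uIcc ξ η) (isPreconnected_uIcc.image _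
      Circle.exp.continuous.continuousOn) ⟨ξ, left_mem_uIcc, hξx⟩ ⟨η, right_mem_uIcc, hηy⟩ with
      h1 | h1
    · obtain ⟨w, hw1, hw2⟩ := h1
      have h2 := FXB_inj s (hI w hw1) hs hw2
      exact absurd h2 (ne_of_gt (hu.trans_lt (hsub hw1).1))
    · obtain ⟨w, hw1, hw2⟩ := h1
      exact hw w (hsub hw1) (FXB_inj s (hI w hw1) ht hw2)
  obtain ⟨ξ, hξ, hξx⟩ := ARC_surj s x
  obtain ⟨η, hη, hηy⟩ := ARC_surj s y
  have hξs : s < ξ := lt_of_le_of_ne hξ.1 fun h0 => h.1.1 (by rw [← hξx, ← h0])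
  have hηs : s < η := lt_of_le_of_ne hη.1 fun h0 => h.2.1.1 (by rw [← hηy, ← h0])
  have hξt : ξ ≠ t := fun h0 => h.1.2 (by rw [← hξx, h0])
  have hηt : η ≠ t := fun h0 => h.2.1.2 (by rw [← hηy, h0])
  rcases lt_or_gt_of_ne hξt with h1 | h1 <;> rcases lt_or_gt_of_ne hηt with h2 | h2
  · exact (key s t le_rfl hts.le (fun w hw => ne_of_lt hw.2) ξ ⟨hξs, h1⟩ η ⟨hηs, h2⟩ hξx
      hηy).elim
  · exact Or.inl ⟨ξ, ⟨hξs, h1⟩, η, ⟨h2, hη.2⟩, hξx, hηy⟩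
  · exact Or.inr ⟨η, ⟨hηs, h2⟩, ξ, ⟨h1, hξ.2⟩, hηy, hξx⟩
  · exact (key t (s + 2 * Real.pi) hst.le le_rfl (fun w hw => ne_of_gt hw.1) ξ ⟨h1, hξ.2⟩ η
      ⟨h2, hη.2⟩ hξx hηy).elim

/-- `p` attracts from both sides -/
def FXB_Snk (k : H) (p q : Circle) : Prop :=
  ∃ x y : Circle, Link p q x y ∧ Tendsto (fun n : ℕ => (k ^ n) x) atTop (𝓝 p) ∧
    Tendsto (fun n : ℕ => (k ^ n) y) atTop (𝓝 p)

/-- powers of the lift -/
theorem FXB_pow {k : H} {κ : ℝ ≃o ℝ} {θ : ℝ} (h1 : κ θ = θ)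
    (h2 : κ (θ + 2 * Real.pi) = θ + 2 * Real.pi)
    (h : ∀ x ∈ Icc θ (θ + 2 * Real.pi), Circle.exp (κ x) = k (Circle.exp x)) (n : ℕ) :
    ∀ x ∈ Icc θ (θ + 2 * Real.pi), Circle.exp ((κ ^ n) x) = (k ^ n) (Circle.exp x) := by
  induction n with
  | zero => intro x _; rfl
  | succ n ih =>
    intro x hx
    rw [FXB_succ, h _ ⟨FXB_ge κ h1 hx.1 n, FXB_le κ h2 hx.2 n⟩, ih x hx, pow_succ']
    rfl

/-- transfer of the limits to the circle -/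
theorem FXB_tend {k : H} {κ : ℝ ≃o ℝ} {θ : ℝ} (h1 : κ θ = θ)
    (h2 : κ (θ + 2 * Real.pi) = θ + 2 * Real.pi)
    (h : ∀ x ∈ Icc θ (θ + 2 * Real.pi), Circle.exp (κ x) = k (Circle.exp x)) {x L : ℝ}
    (hx : x ∈ Icc θ (θ + 2 * Real.pi)) (hL : Tendsto (fun n : ℕ => (κ ^ n) x) atTop (𝓝 L)) :
    Tendsto (fun n : ℕ => (k ^ n) (Circle.exp x)) atTop (𝓝 (Circle.exp L)) := by
  have h3 := (Circle.exp.continuous.tendsto L).comp hL
  refine h3.congr fun n => ?_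
  exact FXB_pow h1 h2 h n x hx

/-- a sequence which stays away from `exp θ` -/
theorem FXB_away {θ u v : ℝ} (h1 : θ < u) (h2 : v < θ + 2 * Real.pi) {z : ℕ → ℝ}
    (hz : ∀ n, z n ∈ Icc u v) :
    ¬ Tendsto (fun n : ℕ => Circle.exp (z n)) atTop (𝓝 (Circle.exp θ)) := by
  intro h
  have hc : IsClosed (Circle.exp '' Icc u v) :=
    (isCompact_Icc.image Circle.exp.continuous).isClosed
  obtain ⟨w, hw, hw2⟩ := hc.mem_of_tendsto h (Eventually.of_forall fun n => ⟨z n, hz n, rfl⟩)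
  have h3 := FXB_inj θ ⟨(h1.trans_le hw.1).le, hw.2.trans_lt h2⟩
    ⟨le_rfl, by linarith [hw.1, hw.2]⟩ hw2
  linarith [hw.1]

/-- the first case -/
theorem FXB_one (hLFT : Stmt_LFT) (k : H) (a b d : Circle) (hab : a ≠ b) (hbd : b ≠ d)
    (had : a ≠ d) (ha : k a = a) (hb : k b = b) (hd : k d = d) (h1 : ¬ FXB_Snk k a b)
    (h2 : ¬ FXB_Snk k b a) :
    ∃ (κ : ℝ ≃o ℝ) (θ s : ℝ), θ < s ∧ s < θ + 2 * Real.pi ∧ κ θ = θ ∧ κ s = s ∧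
      κ (θ + 2 * Real.pi) = θ + 2 * Real.pi ∧
      (∀ x ∈ Icc θ (θ + 2 * Real.pi), Circle.exp (κ x) = k (Circle.exp x)) ∧ NotSink κ θ s := by
  obtain ⟨θ, s, hθs, hs, rfl, rfl⟩ := LOP_param a b hab
  obtain ⟨κ, k1, k2, k3, k4⟩ := hLFT k θ s d hθs hs ha hb (Ne.symm had) (Ne.symm hbd) (by
    rw [hd]
    exact FXB_self _ _ _ (Ne.symm had) (Ne.symm hbd))
  refine ⟨κ, θ, s, hθs, hs, k1, k2, k3, k4, ?_, ?_⟩
  · intro x hx y hy hxs hys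
    refine h2 ⟨Circle.exp x, Circle.exp y, FXB_swap ((arc θ s hθs hs).2 _ ⟨x, hx, rfl⟩ _
      ⟨y, hy, rfl⟩), FXB_tend k1 k3 k4 ⟨hx.1.le, (hx.2.trans hs).le⟩ hxs,
      FXB_tend k1 k3 k4 ⟨(hθs.trans hy.1).le, hy.2.le⟩ hys⟩
  · intro x hx y hy hxs hys
    refine h1 ⟨Circle.exp x, Circle.exp y, (arc θ s hθs hs).2 _ ⟨x, hx, rfl⟩ _
      ⟨y, hy, rfl⟩, FXB_tend k1 k3 k4 ⟨hx.1.le, (hx.2.trans hs).le⟩ hxs, ?_⟩
    have := FXB_tend k1 k3 k4 ⟨(hθs.trans hy.1).le, hy.2.le⟩ hys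
    rwa [FXB_period] at this

/-- the second case: `b` is a sink, its two neighbours are not -/
theorem FXB_two (hLFT : Stmt_LFT) (k : H) (a b d : Circle) (hab : a ≠ b) (hbd : b ≠ d)
    (had : a ≠ d) (ha : k a = a) (hb : k b = b) (hd : k d = d) (h : FXB_Snk k b a) :
    ∃ p q : Circle, p ≠ q ∧ q ≠ b ∧ p ≠ b ∧ k p = p ∧ k q = q ∧ ¬ FXB_Snk k p q ∧
      ¬ FXB_Snk k q p := by
  obtain ⟨β, α, hβα, hα, rfl, rfl⟩ := LOP_param b a (Ne.symm hab)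
  obtain ⟨κ, k1, k2, k3, k4⟩ := hLFT k β α d hβα hα hb ha (Ne.symm hbd) (Ne.symm had) (by
    rw [hd]
    exact FXB_self _ _ _ (Ne.symm hbd) (Ne.symm had))
  -- the two attracted points
  obtain ⟨ξ, hξ, η, hη, hξb, hηb⟩ : ∃ ξ ∈ Ioo β α, ∃ η ∈ Ioo α (β + 2 * Real.pi),
      Tendsto (fun n : ℕ => (k ^ n) (Circle.exp ξ)) atTop (𝓝 (Circle.exp β)) ∧
      Tendsto (fun n : ℕ => (k ^ n) (Circle.exp η)) atTop (𝓝 (Circle.exp β)) := by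
    obtain ⟨x, y, hL, hx, hy⟩ := h
    rcases FXB_sides hβα hα hL with ⟨ξ, hξ, η, hη, rfl, rfl⟩ | ⟨ξ, hξ, η, hη, rfl, rfl⟩
    · exact ⟨ξ, hξ, η, hη, hx, hy⟩
    · exact ⟨ξ, hξ, η, hη, hy, hx⟩
  have hξI : ξ ∈ Icc β (β + 2 * Real.pi) := ⟨hξ.1.le, (hξ.2.trans hα).le⟩
  have hηI : η ∈ Icc β (β + 2 * Real.pi) := ⟨(hβα.trans hη.1).le, hη.2.le⟩
  have hξb' : Tendsto (fun n : ℕ => Circle.exp ((κ ^ n) ξ)) atTop (𝓝 (Circle.exp β)) :=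
    hξb.congr fun n => (FXB_pow k1 k3 k4 n ξ hξI).symm
  have hηb' : Tendsto (fun n : ℕ => Circle.exp ((κ ^ n) η)) atTop (𝓝 (Circle.exp β)) :=
    hηb.congr fun n => (FXB_pow k1 k3 k4 n η hηI).symm
  have nξ : ∀ t, β < t → t ≤ ξ → κ t ≠ t := by
    intro t ht1 ht2 ht3
    exact FXB_away ht1 hα (fun n => ⟨FXB_ge κ ht3 ht2 n, FXB_le κ k2 hξ.2.le n⟩) hξb'
  have nη : ∀ t, η ≤ t → t < β + 2 * Real.pi → κ t ≠ t := by
    intro t ht1 ht2 ht3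
    exact FXB_away hβα ht2 (fun n => ⟨FXB_ge κ k2 hη.1.le n, FXB_le κ ht3 ht1 n⟩) hηb'
  have dξ : κ ξ < ξ := by
    refine lt_of_le_of_ne ?_ (nξ ξ hξ.1 le_rfl)
    by_contra h1
    exact FXB_away hξ.1 hα (fun n => ⟨FXB_inc κ (not_le.1 h1).le n, FXB_le κ k2 hξ.2.le n⟩) hξb'
  have dη : η < κ η := by
    refine lt_of_le_of_ne ?_ (Ne.symm (nη η le_rfl hη.2))
    by_contra h1
    exact FXB_away hβα hη.2 (fun n => ⟨FXB_ge κ k2 hη.1.le n, FXB_dec κ (not_le.1 h1).le n⟩) hηb'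
  -- the neighbours
  have hcl : IsClosed {t : ℝ | κ t = t} := isClosed_eq κ.continuous continuous_id
  obtain ⟨σ₁, s1, s2, s3, s4⟩ : ∃ σ₁, ξ < σ₁ ∧ σ₁ ≤ α ∧ κ σ₁ = σ₁ ∧
      ∀ t, β < t → t < σ₁ → κ t ≠ t := by
    have hne : (Icc ξ α ∩ {t : ℝ | κ t = t}).Nonempty := ⟨α, ⟨hξ.2.le, le_rfl⟩, k2⟩
    have hbd : BddBelow (Icc ξ α ∩ {t : ℝ | κ t = t}) := bddBelow_Icc.mono inter_subset_left
    have hm := (isClosed_Icc.inter hcl).csInf_mem hne hbd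
    refine ⟨sInf (Icc ξ α ∩ {t : ℝ | κ t = t}), ?_, hm.1.2, hm.2, fun t h1 h2 h3 => ?_⟩
    · refine lt_of_le_of_ne hm.1.1 fun h0 => nξ ξ hξ.1 le_rfl ?_
      rw [h0]
      exact hm.2
    · rcases le_or_gt t ξ with h4 | h4
      · exact nξ t h1 h4 h3
      · exact absurd (csInf_le hbd ⟨⟨h4.le, (h2.trans_le hm.1.2).le⟩, h3⟩) (not_le.2 h2)
  obtain ⟨σ₂, u1, u2, u3, u4⟩ : ∃ σ₂, σ₂ < η ∧ α ≤ σ₂ ∧ κ σ₂ = σ₂ ∧
      ∀ t, σ₂ < t → t < β + 2 * Real.pi → κ t ≠ t := by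
    have hne : (Icc α η ∩ {t : ℝ | κ t = t}).Nonempty := ⟨α, ⟨le_rfl, hη.1.le⟩, k2⟩
    have hbd : BddAbove (Icc α η ∩ {t : ℝ | κ t = t}) := bddAbove_Icc.mono inter_subset_left
    have hm := (isClosed_Icc.inter hcl).csSup_mem hne hbd
    refine ⟨sSup (Icc α η ∩ {t : ℝ | κ t = t}), ?_, hm.1.1, hm.2, fun t h1 h2 h3 => ?_⟩
    · refine lt_of_le_of_ne hm.1.2 fun h0 => nη η le_rfl hη.2 ?_
      rw [← h0]
      exact hm.2
    · rcases le_or_gt η t with h4 | h4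
      · exact nη t h4 h2 h3
      · exact absurd (le_csSup hbd ⟨⟨(hm.1.1.trans_lt h1).le, h4.le⟩, h3⟩) (not_le.2 h1)
  -- the third fixed point
  have hσ : σ₁ < σ₂ := by
    obtain ⟨δ, hδ, hδd⟩ := ARC_surj β d
    have hδβ : β < δ := lt_of_le_of_ne hδ.1 fun h0 => hbd (by rw [← hδd, ← h0])
    have hδα : δ ≠ α := fun h0 => had (by rw [← hδd, h0])
    have hκδ : κ δ = δ := by
      have h5 := k4 δ ⟨hδ.1, hδ.2.le⟩
      rw [hδd, hd, ← hδd] at h5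
      refine FXB_inj β ⟨?_, ?_⟩ hδ h5
      · rw [← k1]
        exact κ.monotone hδ.1
      · rw [← k3]
        exact κ.strictMono hδ.2
    have h6 : σ₁ ≤ δ := not_lt.1 fun h7 => s4 δ hδβ h7 hκδ
    have h7 : δ ≤ σ₂ := not_lt.1 fun h8 => u4 δ h8 hδ.2 hκδ
    rcases lt_or_gt_of_ne hδα with h8 | h8
    · exact (h6.trans_lt h8).trans_le u2
    · exact (s2.trans_lt h8).trans_le h7
  have hβσ : β < σ₁ := hξ.1.trans s1
  have hσβ : σ₂ < β + 2 * Real.pi := u1.trans hη.2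
  -- all the points on the side of `b` tend to `b`
  have hall : ∀ ζ ∈ Ioo σ₂ (σ₁ + 2 * Real.pi),
      Tendsto (fun n : ℕ => (k ^ n) (Circle.exp ζ)) atTop (𝓝 (Circle.exp β)) := by
    intro ζ hζ
    rcases lt_trichotomy ζ (β + 2 * Real.pi) with h1 | h1 | h1
    · have h2 := FXB_R κ k3 u4 u1 hη.2 hζ.1 h1 dη
      have h3 := FXB_tend k1 k3 k4 ⟨by linarith [hζ.1], h1.le⟩ h2
      rwa [FXB_period] at h3
    · have h2 : ∀ n : ℕ, (k ^ n) (Circle.exp β) = Circle.exp β := by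
        intro n
        induction n with
        | zero => rfl
        | succ n ih =>
          rw [pow_succ]
          show (k ^ n) (k (Circle.exp β)) = _
          rw [hb, ih]
      rw [h1, FXB_period]
      simp only [h2]
      exact tendsto_const_nhds
    · have h2 := FXB_L κ k1 s4 hξ.1 s1 (ζ := ζ - 2 * Real.pi) (by linarith)
        (by linarith [hζ.2]) dξ
      have h3 := FXB_tend k1 k3 k4 ⟨by linarith, by linarith [hζ.2]⟩ h2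
      have h4 : Circle.exp (ζ - 2 * Real.pi) = Circle.exp ζ := by
        rw [← FXB_period (ζ - 2 * Real.pi)]
        congr 1
        ring
      rwa [h4] at h3
  have i1 : Circle.exp σ₁ ≠ Circle.exp β := fun h0 => by
    have := FXB_inj β ⟨hβσ.le, hσ.trans hσβ⟩ ⟨le_rfl, by linarith⟩ h0
    linarith
  have i2 : Circle.exp σ₂ ≠ Circle.exp β := fun h0 => by
    have := FXB_inj β ⟨(hβσ.trans hσ).le, hσβ⟩ ⟨le_rfl, by linarith⟩ h0
    linarith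
  have f1 : k (Circle.exp σ₁) = Circle.exp σ₁ := by
    rw [← k4 σ₁ ⟨hβσ.le, (hσ.trans hσβ).le⟩, s3]
  have f2 : k (Circle.exp σ₂) = Circle.exp σ₂ := by
    rw [← k4 σ₂ ⟨(hβσ.trans hσ).le, hσβ.le⟩, u3]
  have hside : ∀ x y : Circle, Link (Circle.exp σ₁) (Circle.exp σ₂) x y →
      Tendsto (fun n : ℕ => (k ^ n) x) atTop (𝓝 (Circle.exp β)) ∨
      Tendsto (fun n : ℕ => (k ^ n) y) atTop (𝓝 (Circle.exp β)) := by
    intro x y hxy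
    rcases FXB_sides hσ (by linarith) hxy with ⟨_, _, η', hη', _, rfl⟩ | ⟨_, _, η', hη', _, rfl⟩
    · exact Or.inr (hall η' hη')
    · exact Or.inl (hall η' hη')
  refine ⟨Circle.exp σ₁, Circle.exp σ₂, fun h0 => ?_, i2, i1, f1, f2, ?_, ?_⟩
  · have := FXB_inj β ⟨hβσ.le, hσ.trans hσβ⟩ ⟨(hβσ.trans hσ).le, hσβ⟩ h0
    linarith
  · rintro ⟨x, y, hL, hx, hy⟩
    rcases hside x y hL with h1 | h1
    · exact i1 (tendsto_nhds_unique hx h1)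
    · exact i1 (tendsto_nhds_unique hy h1)
  · rintro ⟨x, y, hL, hx, hy⟩
    rcases hside x y (FXB_swap hL) with h1 | h1
    · exact i2 (tendsto_nhds_unique hx h1)
    · exact i2 (tendsto_nhds_unique hy h1)

theorem p_FXB (hLFT : Stmt_LFT) (_ : Stmt_ORI) : Stmt_FXB := by
  intro k a b d hab hbd had ha hb hd
  by_cases h1 : FXB_Snk k b a
  · obtain ⟨p, q, hpq, hqb, hpb, hp, hq, n1, n2⟩ :=
      FXB_two hLFT k a b d hab hbd had ha hb hd h1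
    exact FXB_one hLFT k p q b hpq hqb hpb hp hq hb n1 n2
  · by_cases h2 : FXB_Snk k a b
    · obtain ⟨p, q, hpq, hqb, hpb, hp, hq, n1, n2⟩ :=
        FXB_two hLFT k b a d (Ne.symm hab) had hbd hb ha hd h2
      exact FXB_one hLFT k p q a hpq hqb hpb hp hq ha n1 n2
    · exact FXB_one hLFT k a b d hab hbd had ha hb hd h2 h1

end Pool.GC
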