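import Pool.Agent.Work.MP_ae1ff6_gc.Interface

open Topology Filter Set MeasureTheory
open scoped ComplexConjugate ENNReal

set_option autoImplicit false

namespace Pool.GC

open Pool.CG

theorem FXC_const (u : Ultrafilter H) (γ : H) (p q : Circle) (hA : Axis γ p q) (δ : H)
    (h : {g : H | g * γ * g⁻¹ = δ} ∈ u) (z : Circle) (hz : γ z = z) :
    ∃ x : Circle, {g : H | g z = x} ∈ u := by
  obtain ⟨g0, h0⟩ := u.nonempty_of_mem h
  have hsub : {g : H | g * γ * g⁻¹ = δ} ⊆ {g : H | g z = g0 p} ∪ {g : H | g z = g0 q} := by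
    intro g hg
    have h1 : δ (g z) = g z := by
      rw [← (show g * γ * g⁻¹ = δ from hg)]
      show g (γ (g.symm (g z))) = g z
      rw [Homeomorph.symm_apply_apply, hz]
    have h2 : γ (g0.symm (g z)) = g0.symm (g z) := by
      have h3 : g0 (γ (g0.symm (g z))) = g z := by
        have h4 : (g0 * γ * g0⁻¹) (g z) = g z := by
          rw [show g0 * γ * g0⁻¹ = δ from h0]; exact h1
        exact h4
      have h5 := congrArg g0.symm h3
      rwa [Homeomorph.symm_apply_apply] at h5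
    rcases (hA.2 _).1 h2 with h3 | h3
    · left
      show g z = g0 p
      rw [← h3, Homeomorph.apply_symm_apply]
    · right
      show g z = g0 q
      rw [← h3, Homeomorph.apply_symm_apply]
  rcases Ultrafilter.union_mem_iff.1 (Filter.mem_of_superset h hsub) with h1 | h1
  · exact ⟨_, h1⟩
  · exact ⟨_, h1⟩

theorem p_FXC : Stmt_FXC := by
  intro Γ u S hu hS hT
  obtain ⟨γ, -, γ', -, p, q, p', q', hA, hA', h1, h2, h3, h4, ⟨δ, hδ⟩, δ', hδ'⟩ := hT
  obtain ⟨x1, hx1⟩ := FXC_const u γ p q hA δ hδ p ((hA.2 p).2 (Or.inl rfl))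
  obtain ⟨x2, hx2⟩ := FXC_const u γ p q hA δ hδ q ((hA.2 q).2 (Or.inr rfl))
  obtain ⟨x3, hx3⟩ := FXC_const u γ' p' q' hA' δ' hδ' p' ((hA'.2 p').2 (Or.inl rfl))
  obtain ⟨x4, hx4⟩ := FXC_const u γ' p' q' hA' δ' hδ' q' ((hA'.2 q').2 (Or.inr rfl))
  have hI : S ∩ ({g : H | g p = x1} ∩ ({g : H | g q = x2} ∩ ({g : H | g p' = x3} ∩
      {g : H | g q' = x4}))) ∈ u :=
    Filter.inter_mem hS (Filter.inter_mem hx1 (Filter.inter_mem hx2 (Filter.inter_mem hx3 hx4)))
  have hinf : (S ∩ ({g : H | g p = x1} ∩ ({g : H | g q = x2} ∩ ({g : H | g p' = x3} ∩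
      {g : H | g q' = x4})))).Infinite := by
    intro hfin
    have hc := hu hfin.compl_mem_cofinite
    exact Ultrafilter.compl_notMem_iff.2 hI hc
  obtain ⟨g, ⟨hg0, hg1, hg2, hg3, hg4⟩, g', ⟨hg0', hg1', hg2', hg3', hg4'⟩, hne⟩ := hinf.nontrivial
  exact ⟨g, hg0, g', hg0', hne, p, q, p', q', hA.1, hA'.1, h1, h2, h3, h4,
    hg1.trans hg1'.symm, hg2.trans hg2'.symm, hg3.trans hg3'.symm, hg4.trans hg4'.symm⟩

end Pool.GC
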