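import Pool.Agent.Work.MP_ae1ff6_gc.Interface3

/-! # Block FXS (helper71) -/

open Topology Filter Set MeasureTheory
open scoped ComplexConjugate ENNReal

set_option autoImplicit false

namespace Pool.GC

open Pool.CG

/-- the two sides of a geodesic -/
theorem FXS_sides {θ s : ℝ} (h1 : θ < s) (h2 : s < θ + 2 * Real.pi) {x y : Circle}
    (h : Link (Circle.exp θ) (Circle.exp s) x y) :
    (x ∈ Circle.exp '' Ioo θ s ∧ y ∈ Circle.exp '' Ioo s (θ + 2 * Real.pi)) ∨
      (y ∈ Circle.exp '' Ioo θ s ∧ x ∈ Circle.exp '' Ioo s (θ + 2 * Real.pi)) := by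
  have hinj : InjOn Circle.exp (Ico θ (θ + 2 * Real.pi)) := Circle.exp_injOn_Ico (by linarith)
  have hθ : θ ∈ Ico θ (θ + 2 * Real.pi) := ⟨le_rfl, by linarith⟩
  have hs : s ∈ Ico θ (θ + 2 * Real.pi) := ⟨h1.le, h2⟩
  obtain ⟨⟨hx1, hx2⟩, ⟨hy1, hy2⟩, hcon⟩ := h
  have hside : ∀ z : Circle, z ≠ Circle.exp θ → z ≠ Circle.exp s →
      z ∈ Circle.exp '' Ioo θ s ∨ z ∈ Circle.exp '' Ioo s (θ + 2 * Real.pi) := by
    intro z hz1 hz2
    obtain ⟨t, ht, rfl⟩ := ARC_surj θ z
    rcases lt_trichotomy t s with h | h | h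
    · rcases ht.1.lt_or_eq with h4 | h4
      · exact Or.inl ⟨t, ⟨h4, h⟩, rfl⟩
      · exact absurd (by rw [h4]) hz1
    · exact absurd (by rw [h]) hz2
    · exact Or.inr ⟨t, ⟨h, ht.2⟩, rfl⟩
  have hA : ¬ (x ∈ Circle.exp '' Ioo θ s ∧ y ∈ Circle.exp '' Ioo θ s) := by
    rintro ⟨hx, hy⟩
    rcases hcon _ (isPreconnected_Ioo.image _ Circle.exp.continuous.continuousOn) hx hy with
      ⟨t, ht, he⟩ | ⟨t, ht, he⟩
    · have := hinj ⟨ht.1.le, by linarith [ht.2]⟩ hθ he
      linarith [ht.1]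
    · have := hinj ⟨ht.1.le, by linarith [ht.2]⟩ hs he
      linarith [ht.2]
  have hB : ¬ (x ∈ Circle.exp '' Ioo s (θ + 2 * Real.pi) ∧
      y ∈ Circle.exp '' Ioo s (θ + 2 * Real.pi)) := by
    rintro ⟨hx, hy⟩
    rcases hcon _ (isPreconnected_Ioo.image _ Circle.exp.continuous.continuousOn) hx hy with
      ⟨t, ht, he⟩ | ⟨t, ht, he⟩
    · have := hinj ⟨by linarith [ht.1], ht.2⟩ hθ he
      linarith [ht.1]
    · have := hinj ⟨by linarith [ht.1], ht.2⟩ hs he
      linarith [ht.1]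
  rcases hside x hx1 hx2 with hx | hx
  · rcases hside y hy1 hy2 with hy | hy
    · exact absurd ⟨hx, hy⟩ hA
    · exact Or.inl ⟨hx, hy⟩
  · rcases hside y hy1 hy2 with hy | hy
    · exact Or.inr ⟨hy, hx⟩
    · exact absurd ⟨hx, hy⟩ hB

theorem FXS_lt (hFXA : Stmt_FXA) (hFXB : Stmt_FXB) (μ : Measure (Circle × Circle)) (k : H)
    (c : ℝ≥0∞) (a b d : Circle) (hμ : Current μ) (hf : Filling μ) (hc : c < 1)
    (hk : μ.map (Prod.map k k) = c • μ) (hab : a ≠ b) (hbd : b ≠ d) (had : a ≠ d) (ha : k a = a)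
    (hb : k b = b) (hd : k d = d) : False := by
  obtain ⟨κ, θ, s, h1, h2, h3, h4, h5, h6, h7⟩ := hFXB k a b d hab hbd had ha hb hd
  have h8 := hFXA μ k κ c θ s hμ hk hc h1 h2 h3 h4 h5 h6 h7
  have hne : Circle.exp θ ≠ Circle.exp s := by
    intro he
    have hinj : InjOn Circle.exp (Ico θ (θ + 2 * Real.pi)) := Circle.exp_injOn_Ico (by linarith)
    have := hinj ⟨le_rfl, by linarith⟩ ⟨h1.le, h2⟩ he
    linarith
  have h9 := hf _ _ hne
  set P : Set (Circle × Circle) :=
    (Circle.exp '' Ioo θ s) ×ˢ (Circle.exp '' Ioo s (θ + 2 * Real.pi)) with hP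
  have hPm : MeasurableSet P :=
    ((isLocalHomeomorph_circleExp.isOpenMap _ isOpen_Ioo).prod
      (isLocalHomeomorph_circleExp.isOpenMap _ isOpen_Ioo)).measurableSet
  have hswap : μ (Prod.swap ⁻¹' P) = 0 := by
    rw [← Measure.map_apply measurable_swap hPm, hμ.flip]
    exact h8
  have hsub : {x : Circle × Circle | Link (Circle.exp θ) (Circle.exp s) x.1 x.2} ⊆
      P ∪ Prod.swap ⁻¹' P := by
    intro x hx
    rcases FXS_sides h1 h2 hx with h | h
    · exact Or.inl h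
    · exact Or.inr h
  have h10 : μ {x : Circle × Circle | Link (Circle.exp θ) (Circle.exp s) x.1 x.2} = 0 :=
    measure_mono_null hsub (measure_union_null h8 hswap)
  rw [h10] at h9
  exact lt_irrefl _ h9

theorem p_FXS (hFX3 : Stmt_FX3) (hFXA : Stmt_FXA) (hFXB : Stmt_FXB) : Stmt_FXS := by
  intro μ k c a b d hμ hf hc0 hct hk hab hbd had ha hb hd
  rcases lt_trichotomy c 1 with h | h | h
  · exact absurd (FXS_lt hFXA hFXB μ k c a b d hμ hf h hk hab hbd had ha hb hd) id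
  · rw [h, one_smul] at hk
    exact hFX3 μ k a b d hμ hf hk hab hbd had ha hb hd
  · exfalso
    have hmk : Measurable (Prod.map k k) := k.continuous.measurable.prodMap k.continuous.measurable
    have hmi : Measurable (Prod.map k.symm k.symm) :=
      k.symm.continuous.measurable.prodMap k.symm.continuous.measurable
    have hinv : μ.map (Prod.map (k⁻¹ : H) (k⁻¹ : H)) = c⁻¹ • μ := by
      have h1 : (μ.map (Prod.map k k)).map (Prod.map k.symm k.symm) = μ := by
        rw [Measure.map_map hmi hmk]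
        have h2 : (Prod.map k.symm k.symm) ∘ (Prod.map k k) = id := by
          funext x
          exact Prod.ext (k.symm_apply_apply x.1) (k.symm_apply_apply x.2)
        rw [h2, Measure.map_id]
      rw [hk, Measure.map_smul] at h1
      have h3 : (k⁻¹ : H) = k.symm := rfl
      rw [h3]
      conv_rhs => rw [← h1]
      rw [smul_smul, ENNReal.inv_mul_cancel hc0 hct, one_smul]
    have hfix : ∀ z : Circle, k z = z → (k⁻¹ : H) z = z := by
      intro z hz
      show k.symm z = z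
      rw [Homeomorph.symm_apply_eq]
      exact hz.symm
    exact FXS_lt hFXA hFXB μ k⁻¹ c⁻¹ a b d hμ hf (ENNReal.inv_lt_one.2 h) hinv hab hbd had
      (hfix a ha) (hfix b hb) (hfix d hd)

end Pool.GC
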