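import Pool.Agent.Work.MP_ae1ff6_gc.Interface2

/-!
Block HDY: the dynamics of a hyperbolic element.
-/

open Topology Filter Set MeasureTheory
open scoped ComplexConjugate ENNReal

set_option autoImplicit false

namespace Pool.GC

open Pool.CG

theorem HDY_two (z p : Circle) : dist z p ≤ 2 := by
  have h : dist z p = ‖(z : ℂ) - (p : ℂ)‖ := dist_eq_norm (z : ℂ) (p : ℂ)
  rw [h]
  calc ‖(z : ℂ) - (p : ℂ)‖ ≤ ‖(z : ℂ)‖ + ‖(p : ℂ)‖ := norm_sub_le _ _
    _ = 2 := by rw [Circle.norm_coe, Circle.norm_coe]; norm_num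

theorem HDY_core (γ : H) (p q : Circle) (hA : Axis γ p q) (Λ : ℝ) (h1 : 1 < Λ)
    (h : ∀ z, z ≠ p → z ≠ q → dist (γ z) p / dist (γ z) q = Λ * (dist z p / dist z q)) :
    (∀ z, z ≠ p → Tendsto (fun n : ℕ => (γ ^ n) z) atTop (𝓝 q)) ∧
      ∀ z, z ≠ q → Tendsto (fun n : ℕ => (γ⁻¹ ^ n) z) atTop (𝓝 p) := by
  have h0 : 0 < Λ := one_pos.trans h1
  have hp : γ p = p := (hA.2 p).mpr (Or.inl rfl)
  have hq : γ q = q := (hA.2 q).mpr (Or.inr rfl)
  have hit := HYP_iter γ p q hA Λ h0 h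
  have hlim : Tendsto (fun n : ℕ => (Λ⁻¹) ^ n) atTop (𝓝 0) :=
    tendsto_pow_atTop_nhds_zero_of_lt_one (inv_nonneg.mpr h0.le) (inv_lt_one_of_one_lt₀ h1)
  have hne : ∀ (g : H) (r : Circle), g r = r → ∀ z, z ≠ r → g z ≠ r := by
    intro g r hr z hz h2
    exact hz (g.injective (h2.trans hr.symm))
  have hpp : ∀ n : ℕ, (γ ^ n) p = p := by
    intro n
    induction n with
    | zero => rfl
    | succ n ih =>
      rw [pow_succ]
      change (γ ^ n) (γ p) = p
      rw [hp, ih]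
  have hqq : ∀ n : ℕ, (γ ^ n) q = q := by
    intro n
    induction n with
    | zero => rfl
    | succ n ih =>
      rw [pow_succ]
      change (γ ^ n) (γ q) = q
      rw [hq, ih]
  have hinv : ∀ (g : H) (r : Circle), g r = r → g⁻¹ r = r := by
    intro g r hr
    have h3 : g⁻¹ (g r) = r := g.symm_apply_apply r
    rw [hr] at h3
    exact h3
  constructor
  · intro z hz
    by_cases hzq : z = q
    · subst hzq
      simp only [hqq]
      exact tendsto_const_nhds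
    · rw [tendsto_iff_dist_tendsto_zero]
      have hc : 0 < dist z p / dist z q := div_pos (dist_pos.mpr hz) (dist_pos.mpr hzq)
      have hb : ∀ n : ℕ, dist ((γ ^ n) z) q ≤ 2 / (dist z p / dist z q) * Λ⁻¹ ^ n := by
        intro n
        have h2 := hit (n : ℤ) z hz hzq
        rw [zpow_natCast, zpow_natCast] at h2
        have h3 : 0 < dist ((γ ^ n) z) q := dist_pos.mpr (hne _ q (hqq n) z hzq)
        have h4 := HDY_two ((γ ^ n) z) p
        have h5 : 0 < Λ ^ n := pow_pos h0 n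
        rw [div_eq_iff h3.ne'] at h2
        rw [inv_pow, ← div_eq_mul_inv, div_div, le_div_iff₀ (mul_pos hc h5)]
        nlinarith
      refine squeeze_zero (fun _ => dist_nonneg) hb ?_
      have := hlim.const_mul (2 / (dist z p / dist z q))
      rwa [mul_zero] at this
  · intro z hz
    by_cases hzp : z = p
    · subst hzp
      have h2 : ∀ n : ℕ, (γ⁻¹ ^ n) z = z := by
        intro n
        rw [inv_pow]
        exact hinv _ _ (hpp n)
      simp only [h2]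
      exact tendsto_const_nhds
    · rw [tendsto_iff_dist_tendsto_zero]
      have hc : 0 < dist z p / dist z q := div_pos (dist_pos.mpr hzp) (dist_pos.mpr hz)
      have hb : ∀ n : ℕ, dist ((γ⁻¹ ^ n) z) p ≤ 2 * (dist z p / dist z q) * Λ⁻¹ ^ n := by
        intro n
        have h2 := hit (-(n : ℤ)) z hzp hz
        have e1 : γ ^ (-(n : ℤ)) = γ⁻¹ ^ n := by
          rw [zpow_neg, zpow_natCast, inv_pow]
        have e2 : Λ ^ (-(n : ℤ)) = Λ⁻¹ ^ n := by
          rw [zpow_neg, zpow_natCast, inv_pow]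
        rw [e1, e2] at h2
        have h3 : 0 < dist ((γ⁻¹ ^ n) z) q := by
          refine dist_pos.mpr (hne _ q ?_ z hz)
          rw [inv_pow]
          exact hinv _ _ (hqq n)
        have h4 := HDY_two ((γ⁻¹ ^ n) z) q
        have h5 : 0 < Λ⁻¹ ^ n := pow_pos (inv_pos.mpr h0) n
        rw [div_eq_iff h3.ne'] at h2
        rw [h2]
        have h6 : 0 ≤ Λ⁻¹ ^ n * (dist z p / dist z q) := (mul_pos h5 hc).le
        nlinarith [mul_le_mul_of_nonneg_left h4 h6]
      refine squeeze_zero (fun _ => dist_nonneg) hb ?_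
      have := hlim.const_mul (2 * (dist z p / dist z q))
      rwa [mul_zero] at this

theorem p_HDY : Stmt_HDY := by
  intro γ p q hM hA
  obtain ⟨α, β, hP⟩ := (mb1.1 γ).mp hM
  have hβ := HYP_beta γ p q hA α β hP
  obtain ⟨hD0, hD1, -, -, -⟩ := mb1.2 γ α β hP
  have hp : γ p = p := (hA.2 p).mpr (Or.inl rfl)
  have hq : γ q = q := (hA.2 q).mpr (Or.inr rfl)
  have ep := hP.2 p
  rw [hp] at ep
  have eq := hP.2 q
  rw [hq] at eq
  have hn := HYP_norms α β hP.1 hβ p q hA.1 ep eq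
  obtain ⟨a, ha, ha0⟩ : ∃ a : ℝ, a = ‖conj β * (p : ℂ) + conj α‖ ∧ 0 < a :=
    ⟨_, rfl, norm_pos_iff.mpr (hD0 p)⟩
  obtain ⟨b, hb, hb0⟩ : ∃ b : ℝ, b = ‖conj β * (q : ℂ) + conj α‖ ∧ 0 < b :=
    ⟨_, rfl, norm_pos_iff.mpr (hD0 q)⟩
  rw [← ha, ← hb] at hn
  obtain ⟨Λ, hΛ, hΛ0, hΛ1⟩ : ∃ Λ : ℝ, Λ = b / a ∧ 0 < Λ ∧ Λ ≠ 1 := by
    refine ⟨_, rfl, div_pos hb0 ha0, ?_⟩
    intro h
    rw [div_eq_one_iff_eq ha0.ne'] at h
    exact hn h.symm
  have hstep : ∀ z, z ≠ p → z ≠ q →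
      dist (γ z) p / dist (γ z) q = Λ * (dist z p / dist z q) := by
    intro z hzp hzq
    have e1 := hD1 z p
    have e2 := hD1 z q
    rw [hp, ← ha] at e1
    rw [hq, ← hb] at e2
    have hd : 0 < ‖conj β * (z : ℂ) + conj α‖ := norm_pos_iff.mpr (hD0 z)
    have hne : dist (γ z) q ≠ 0 := by
      intro h
      have h2 := dist_eq_zero.mp h
      exact hzq (γ.injective (h2.trans hq.symm))
    rw [← e1, ← e2, hΛ]
    field_simp
  rcases lt_or_gt_of_ne hΛ1 with h | h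
  · have hA' : Axis γ q p := ⟨hA.1.symm, fun z => (hA.2 z).trans or_comm⟩
    have hstep' : ∀ z, z ≠ q → z ≠ p →
        dist (γ z) q / dist (γ z) p = Λ⁻¹ * (dist z q / dist z p) := by
      intro z hzq hzp
      have e := congrArg (fun x : ℝ => x⁻¹) (hstep z hzp hzq)
      simp only [inv_div, mul_inv] at e
      exact e
    obtain ⟨c1, c2⟩ := HDY_core γ q p hA' Λ⁻¹ ((one_lt_inv₀ hΛ0).mpr h) hstep'
    exact ⟨q, p, Or.inr ⟨rfl, rfl⟩, c1, c2⟩
  · obtain ⟨c1, c2⟩ := HDY_core γ p q hA Λ h hstep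
    exact ⟨p, q, Or.inl ⟨rfl, rfl⟩, c1, c2⟩

end Pool.GC
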