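import Pool.Agent.Work.MP_ae1ff6_gc.Interface

/-!
# Block LFT: lifts of a homeomorphism of the circle with two fixed points
-/

open Topology Filter Set MeasureTheory
open scoped ComplexConjugate ENNReal

set_option autoImplicit false

namespace Pool.GC

open Pool.CG

theorem LFT_flip {a b c d : Circle} (h : Link a b c d) : Link a b d c :=
  ⟨h.2.1, h.1, fun t ht h1 h2 => h.2.2 t ht h2 h1⟩

theorem LFT_inj (θ : ℝ) : InjOn Circle.exp (Ico θ (θ + 2 * Real.pi)) :=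
  Circle.exp_injOn_Ico (by linarith)

theorem LFT_period (θ : ℝ) : Circle.exp (θ + 2 * Real.pi) = Circle.exp θ :=
  Circle.periodic_exp θ

/-- the lift on the open interval -/
noncomputable def LFT_k (k : H) (θ : ℝ) (x : ℝ) : ℝ :=
  (ARC_surj θ (k (Circle.exp x))).choose

theorem LFT_k_mem (k : H) (θ x : ℝ) : LFT_k k θ x ∈ Ico θ (θ + 2 * Real.pi) :=
  (ARC_surj θ (k (Circle.exp x))).choose_spec.1

theorem LFT_k_exp (k : H) (θ x : ℝ) : Circle.exp (LFT_k k θ x) = k (Circle.exp x) :=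
  (ARC_surj θ (k (Circle.exp x))).choose_spec.2

theorem LFT_k_uniq (k : H) (θ x y : ℝ) (hy : y ∈ Ico θ (θ + 2 * Real.pi))
    (h : Circle.exp y = k (Circle.exp x)) : LFT_k k θ x = y :=
  LFT_inj θ (LFT_k_mem k θ x) hy ((LFT_k_exp k θ x).trans h.symm)

theorem LFT_k_Ioo (k : H) (θ x : ℝ) (hk : k (Circle.exp θ) = Circle.exp θ)
    (hx : x ∈ Ioo θ (θ + 2 * Real.pi)) : LFT_k k θ x ∈ Ioo θ (θ + 2 * Real.pi) := by
  have h1 := LFT_k_mem k θ x
  refine ⟨lt_of_le_of_ne h1.1 fun h => ?_, h1.2⟩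
  have h2 := LFT_k_exp k θ x
  rw [← h, ← hk] at h2
  have h3 := k.injective h2
  have h4 := LFT_inj θ ⟨le_rfl, by linarith [Real.two_pi_pos]⟩ ⟨hx.1.le, hx.2⟩ h3
  exact absurd h4 (ne_of_lt hx.1)

theorem LFT_k_cont (k : H) (θ : ℝ) (hk : k (Circle.exp θ) = Circle.exp θ) :
    ContinuousOn (LFT_k k θ) (Ioo θ (θ + 2 * Real.pi)) := by
  intro x hx
  refine ContinuousAt.continuousWithinAt ?_
  intro V hV
  have h1 := LFT_k_Ioo k θ x hk hx
  have h2 : V ∩ Ioo θ (θ + 2 * Real.pi) ∈ 𝓝 (LFT_k k θ x) :=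
    Filter.inter_mem hV (Ioo_mem_nhds h1.1 h1.2)
  have h3 : Circle.exp '' (V ∩ Ioo θ (θ + 2 * Real.pi)) ∈ 𝓝 (Circle.exp (LFT_k k θ x)) :=
    isLocalHomeomorph_circleExp.isOpenMap.image_mem_nhds h2
  rw [LFT_k_exp] at h3
  have h4 : ContinuousAt (fun y : ℝ => k (Circle.exp y)) x :=
    (k.continuous.comp Circle.exp.continuous).continuousAt
  have h5 := h4 h3
  rw [Filter.mem_map] at h5 ⊢
  filter_upwards [h5] with y hy
  obtain ⟨z, hz, hzy⟩ := hy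
  show LFT_k k θ y ∈ V
  rw [LFT_k_uniq k θ y z ⟨hz.2.1.le, hz.2.2⟩ hzy]
  exact hz.1

theorem LFT_k_injOn (k : H) (θ : ℝ) : InjOn (LFT_k k θ) (Ioo θ (θ + 2 * Real.pi)) := by
  intro x hx y hy h
  have h1 := LFT_k_exp k θ x
  rw [h, LFT_k_exp] at h1
  exact LFT_inj θ ⟨hx.1.le, hx.2⟩ ⟨hy.1.le, hy.2⟩ (k.injective h1.symm)

theorem p_LFT : Stmt_LFT := by
  classical
  intro k θ s c hθs hs hkθ hks hcθ hcs hL
  have hpi := Real.two_pi_pos
  have hsI : s ∈ Ioo θ (θ + 2 * Real.pi) := ⟨hθs, hs⟩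
  have hκs : LFT_k k θ s = s := LFT_k_uniq k θ s s ⟨hθs.le, hs⟩ hks.symm
  have hmono : StrictMonoOn (LFT_k k θ) (Ioo θ (θ + 2 * Real.pi)) := by
    rcases ContinuousOn.strictMonoOn_of_injOn_Ioo (by linarith) (LFT_k_cont k θ hkθ)
      (LFT_k_injOn k θ) with h | h
    · exact h
    · exfalso
      obtain ⟨x, hx, hxc⟩ := ARC_surj θ c
      have hx0 : x ≠ θ := fun h0 => hcθ (by rw [← hxc, h0])
      have hxs : x ≠ s := fun h0 => hcs (by rw [← hxc, h0])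
      have hxI : x ∈ Ioo θ (θ + 2 * Real.pi) := ⟨lt_of_le_of_ne hx.1 (Ne.symm hx0), hx.2⟩
      have hkI := LFT_k_Ioo k θ x hkθ hxI
      refine hL ?_
      rw [← hxc, ← LFT_k_exp k θ x]
      rcases lt_or_gt_of_ne hxs with h1 | h1
      · have h2 := h hxI hsI h1
        rw [hκs] at h2
        exact (arc θ s hθs hs).2 _ ⟨x, ⟨hxI.1, h1⟩, rfl⟩ _ ⟨_, ⟨h2, hkI.2⟩, rfl⟩
      · have h2 := h hsI hxI h1
        rw [hκs] at h2
        exact LFT_flip ((arc θ s hθs hs).2 _ ⟨_, ⟨hkI.1, h2⟩, rfl⟩ _ ⟨x, ⟨h1, hxI.2⟩, rfl⟩)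
  set κ : ℝ → ℝ := fun x => if x ∈ Ioo θ (θ + 2 * Real.pi) then LFT_k k θ x else x with hκ
  have hin : ∀ x, x ∈ Ioo θ (θ + 2 * Real.pi) → κ x = LFT_k k θ x := fun x hx => if_pos hx
  have hout : ∀ x, x ∉ Ioo θ (θ + 2 * Real.pi) → κ x = x := fun x hx => if_neg hx
  have hκmono : StrictMono κ := by
    intro x y hxy
    by_cases hx : x ∈ Ioo θ (θ + 2 * Real.pi) <;> by_cases hy : y ∈ Ioo θ (θ + 2 * Real.pi)
    · rw [hin x hx, hin y hy]
      exact hmono hx hy hxy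
    · rw [hin x hx, hout y hy]
      have h1 := LFT_k_Ioo k θ x hkθ hx
      have h2 : θ + 2 * Real.pi ≤ y := by
        by_contra h3
        exact hy ⟨hx.1.trans hxy, not_le.1 h3⟩
      exact h1.2.trans_le h2
    · rw [hout x hx, hin y hy]
      have h1 := LFT_k_Ioo k θ y hkθ hy
      have h2 : x ≤ θ := by
        by_contra h3
        exact hx ⟨not_le.1 h3, hxy.trans hy.2⟩
      exact h2.trans_lt h1.1
    · rw [hout x hx, hout y hy]
      exact hxy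
  have hκsurj : Function.Surjective κ := by
    intro y
    by_cases hy : y ∈ Ioo θ (θ + 2 * Real.pi)
    · obtain ⟨x, hx, hxy⟩ := ARC_surj θ (k.symm (Circle.exp y))
      have hkx : k (Circle.exp x) = Circle.exp y := by
        rw [hxy]
        exact k.apply_symm_apply _
      have hx0 : x ≠ θ := by
        rintro rfl
        rw [hkθ] at hkx
        have := LFT_inj x ⟨le_rfl, by linarith⟩ ⟨hy.1.le, hy.2⟩ hkx
        exact absurd this (ne_of_lt hy.1)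
      refine ⟨x, ?_⟩
      rw [hin x ⟨lt_of_le_of_ne hx.1 (Ne.symm hx0), hx.2⟩]
      exact LFT_k_uniq k θ x y ⟨hy.1.le, hy.2⟩ hkx.symm
    · exact ⟨y, hout y hy⟩
  have hθn : θ ∉ Ioo θ (θ + 2 * Real.pi) := fun h => lt_irrefl _ h.1
  have hPn : θ + 2 * Real.pi ∉ Ioo θ (θ + 2 * Real.pi) := fun h => lt_irrefl _ h.2
  refine ⟨StrictMono.orderIsoOfSurjective κ hκmono hκsurj, hout θ hθn, (hin s hsI).trans hκs,
    hout _ hPn, fun x hx => ?_⟩
  show Circle.exp (κ x) = k (Circle.exp x)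
  rcases hx.1.eq_or_lt with h1 | h1
  · rw [← h1, hout θ hθn, hkθ]
  · rcases hx.2.eq_or_lt with h2 | h2
    · rw [h2, hout _ hPn, LFT_period, hkθ]
    · rw [hin x ⟨h1, h2⟩, LFT_k_exp]

end Pool.GC
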