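import Pool.Agent.Work.MP_ae1ff6_gc.Interface

/-! Block LNO: `Link` is open, and closed as long as the pairs stay apart. -/

open Topology Filter Set MeasureTheory
open scoped ComplexConjugate ENNReal

set_option autoImplicit false

namespace Pool.GC

open Pool.CG

theorem LNO_swap {a b c d : Circle} (h : Link a b c d) : Link a b d c :=
  ⟨h.2.1, h.1, fun t ht hd hc => h.2.2 t ht hc hd⟩

theorem LNO_nhds (x δ : ℝ) (hδ : 0 < δ) :
    Circle.exp '' Ioo (x - δ) (x + δ) ∈ 𝓝 (Circle.exp x) :=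
  (isLocalHomeomorph_circleExp.isOpenMap _ isOpen_Ioo).mem_nhds
    ⟨x, ⟨by linarith, by linarith⟩, rfl⟩

theorem LNO_open (s t σ τ : ℝ) (h1 : s < σ) (h2 : σ < t) (h3 : t < τ)
    (h4 : τ < s + 2 * Real.pi) :
    ∃ A ∈ 𝓝 (Circle.exp s), ∃ B ∈ 𝓝 (Circle.exp t), ∃ C ∈ 𝓝 (Circle.exp σ),
      ∃ D ∈ 𝓝 (Circle.exp τ), ∀ a ∈ A, ∀ b ∈ B, ∀ c ∈ C, ∀ d ∈ D, Link a b c d := by
  obtain ⟨δ, hδ, e1, e2, e3, e4⟩ : ∃ δ : ℝ, 0 < δ ∧ 2 * δ ≤ σ - s ∧ 2 * δ ≤ t - σ ∧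
      2 * δ ≤ τ - t ∧ 2 * δ ≤ s + 2 * Real.pi - τ := by
    refine ⟨min (min (σ - s) (t - σ)) (min (τ - t) (s + 2 * Real.pi - τ)) / 2, ?_, ?_, ?_, ?_, ?_⟩
    · have : 0 < min (min (σ - s) (t - σ)) (min (τ - t) (s + 2 * Real.pi - τ)) :=
        lt_min (lt_min (by linarith) (by linarith)) (lt_min (by linarith) (by linarith))
      linarith
    · have h5 := min_le_left (min (σ - s) (t - σ)) (min (τ - t) (s + 2 * Real.pi - τ))
      have h6 := min_le_left (σ - s) (t - σ)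
      linarith
    · have h5 := min_le_left (min (σ - s) (t - σ)) (min (τ - t) (s + 2 * Real.pi - τ))
      have h6 := min_le_right (σ - s) (t - σ)
      linarith
    · have h5 := min_le_right (min (σ - s) (t - σ)) (min (τ - t) (s + 2 * Real.pi - τ))
      have h6 := min_le_left (τ - t) (s + 2 * Real.pi - τ)
      linarith
    · have h5 := min_le_right (min (σ - s) (t - σ)) (min (τ - t) (s + 2 * Real.pi - τ))
      have h6 := min_le_right (τ - t) (s + 2 * Real.pi - τ)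
      linarith
  refine ⟨_, LNO_nhds s δ hδ, _, LNO_nhds t δ hδ, _, LNO_nhds σ δ hδ, _, LNO_nhds τ δ hδ, ?_⟩
  rintro a ⟨s', hs', rfl⟩ b ⟨t', ht', rfl⟩ c ⟨u, hu, rfl⟩ d ⟨v, hv, rfl⟩
  exact (arc s' t' (by linarith [hs'.2, ht'.1]) (by linarith [hs'.1, ht'.2])).2 _
    ⟨u, ⟨by linarith [hs'.2, hu.1], by linarith [ht'.1, hu.2]⟩, rfl⟩ _
    ⟨v, ⟨by linarith [ht'.2, hv.1], by linarith [hs'.1, hv.2]⟩, rfl⟩

theorem LNO_K (lo hi σ τ : ℝ) (h1 : lo < σ) (h2 : σ < hi) (h3 : lo < τ) (h4 : τ < hi) :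
    ∃ K : Set Circle, IsClosed K ∧ IsPreconnected K ∧ K ⊆ Circle.exp '' Ioo lo hi ∧
      K ∈ 𝓝 (Circle.exp σ) ∧ K ∈ 𝓝 (Circle.exp τ) := by
  obtain ⟨δ, hδ, e1, e2, e3, e4⟩ : ∃ δ : ℝ, 0 < δ ∧ 2 * δ ≤ σ - lo ∧ 2 * δ ≤ hi - σ ∧
      2 * δ ≤ τ - lo ∧ 2 * δ ≤ hi - τ := by
    refine ⟨min (min (σ - lo) (hi - σ)) (min (τ - lo) (hi - τ)) / 2, ?_, ?_, ?_, ?_, ?_⟩
    · have : 0 < min (min (σ - lo) (hi - σ)) (min (τ - lo) (hi - τ)) :=
        lt_min (lt_min (by linarith) (by linarith)) (lt_min (by linarith) (by linarith))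
      linarith
    · have h5 := min_le_left (min (σ - lo) (hi - σ)) (min (τ - lo) (hi - τ))
      have h6 := min_le_left (σ - lo) (hi - σ)
      linarith
    · have h5 := min_le_left (min (σ - lo) (hi - σ)) (min (τ - lo) (hi - τ))
      have h6 := min_le_right (σ - lo) (hi - σ)
      linarith
    · have h5 := min_le_right (min (σ - lo) (hi - σ)) (min (τ - lo) (hi - τ))
      have h6 := min_le_left (τ - lo) (hi - τ)
      linarith
    · have h5 := min_le_right (min (σ - lo) (hi - σ)) (min (τ - lo) (hi - τ))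
      have h6 := min_le_right (τ - lo) (hi - τ)
      linarith
  have hmin : lo + 2 * δ ≤ min σ τ := le_min (by linarith) (by linarith)
  have hmax : max σ τ ≤ hi - 2 * δ := max_le (by linarith) (by linarith)
  have hmσ := min_le_left σ τ
  have hmτ := min_le_right σ τ
  have hMσ := le_max_left σ τ
  have hMτ := le_max_right σ τ
  refine ⟨Circle.exp '' Icc (min σ τ - δ) (max σ τ + δ), ?_, ?_, ?_, ?_, ?_⟩
  · exact (isCompact_Icc.image Circle.exp.continuous).isClosed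
  · exact isPreconnected_Icc.image _ Circle.exp.continuous.continuousOn
  · refine image_mono fun x hx => ⟨by linarith [hx.1], by linarith [hx.2]⟩
  · refine mem_of_superset (LNO_nhds σ δ hδ) (image_mono fun x hx => ⟨?_, ?_⟩)
    · linarith [hx.1]
    · linarith [hx.2]
  · refine mem_of_superset (LNO_nhds τ δ hδ) (image_mono fun x hx => ⟨?_, ?_⟩)
    · linarith [hx.1]
    · linarith [hx.2]

theorem LNO_lim {ι : Type} (l : Filter ι) [l.NeBot] (x y z w : ι → Circle) (a b c d : Circle)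
    (hx : Tendsto x l (𝓝 a)) (hy : Tendsto y l (𝓝 b)) (hz : Tendsto z l (𝓝 c))
    (hw : Tendsto w l (𝓝 d)) (hL : ∀ᶠ i in l, Link (x i) (y i) (z i) (w i)) (K : Set Circle)
    (hK : IsClosed K) (hKc : IsPreconnected K) (ha : a ∉ K) (hb : b ∉ K) (hc : K ∈ 𝓝 c)
    (hd : K ∈ 𝓝 d) : False := by
  have h1 : ∀ᶠ i in l, x i ∈ Kᶜ := hx (hK.isOpen_compl.mem_nhds ha)
  have h2 : ∀ᶠ i in l, y i ∈ Kᶜ := hy (hK.isOpen_compl.mem_nhds hb)
  have h3 : ∀ᶠ i in l, z i ∈ K := hz hc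
  have h4 : ∀ᶠ i in l, w i ∈ K := hw hd
  obtain ⟨i, e1, e2, e3, e4, e5⟩ := (h1.and (h2.and (h3.and (h4.and hL)))).exists
  rcases e5.2.2 K hKc e3 e4 with h | h
  · exact e1 h
  · exact e2 h

theorem LNO_inj {s x y : ℝ} (hx : x ∈ Ico s (s + 2 * Real.pi)) (hy : y ∈ Ico s (s + 2 * Real.pi))
    (h : Circle.exp x = Circle.exp y) : x = y :=
  Circle.exp_injOn_Ico (by linarith) hx hy h

theorem p_LNO : Stmt_LNO := by
  have hpi : (0 : ℝ) < 2 * Real.pi := Real.two_pi_pos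
  refine ⟨?_, ?_⟩
  · rw [isOpen_iff_mem_nhds]
    rintro ⟨⟨a, b⟩, ⟨c, d⟩⟩ hL
    have hL' : Link a b c d := hL
    have key : ∀ c' d' : Circle, (∃ A ∈ 𝓝 a, ∃ B ∈ 𝓝 b, ∃ C ∈ 𝓝 c', ∃ D ∈ 𝓝 d',
        ∀ a ∈ A, ∀ b ∈ B, ∀ c ∈ C, ∀ d ∈ D, Link a b c d) →
        ∃ A ∈ 𝓝 a, ∃ B ∈ 𝓝 b, ∃ C ∈ 𝓝 d', ∃ D ∈ 𝓝 c',
        ∀ a ∈ A, ∀ b ∈ B, ∀ c ∈ C, ∀ d ∈ D, Link a b c d := by
      rintro c' d' ⟨A, hA, B, hB, C, hC, D, hD, h⟩
      exact ⟨A, hA, B, hB, D, hD, C, hC, fun a ha b hb c hc d hd =>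
        LNO_swap (h a ha b hb d hd c hc)⟩
    have main : ∃ A ∈ 𝓝 a, ∃ B ∈ 𝓝 b, ∃ C ∈ 𝓝 c, ∃ D ∈ 𝓝 d,
        ∀ a ∈ A, ∀ b ∈ B, ∀ c ∈ C, ∀ d ∈ D, Link a b c d := by
      obtain ⟨⟨hca, hcb⟩, ⟨hda, hdb⟩, hT⟩ := hL'
      have hab : a ≠ b := by
        intro hab
        subst hab
        obtain ⟨s, rfl⟩ := Circle.exp_surjective a
        obtain ⟨σ, hσ, rfl⟩ := ARC_surj s c
        obtain ⟨τ, hτ, rfl⟩ := ARC_surj s d
        have hσs : s < σ := lt_of_le_of_ne hσ.1 fun h => hca (by rw [h])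
        have hτs : s < τ := lt_of_le_of_ne hτ.1 fun h => hda (by rw [h])
        have h1 := hT (Circle.exp '' Ioo s (s + 2 * Real.pi))
          (isPreconnected_Ioo.image _ Circle.exp.continuous.continuousOn)
          ⟨σ, ⟨hσs, hσ.2⟩, rfl⟩ ⟨τ, ⟨hτs, hτ.2⟩, rfl⟩
        rw [or_self] at h1
        obtain ⟨x, hx, hxs⟩ := h1
        have := LNO_inj (s := s) ⟨hx.1.le, hx.2⟩ ⟨le_rfl, by linarith⟩ hxs
        linarith [hx.1]
      obtain ⟨s, t, hst, hts, rfl, rfl⟩ := LOP_param a b hab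
      obtain ⟨σ, hσ, rfl⟩ := ARC_surj s c
      obtain ⟨τ, hτ, rfl⟩ := ARC_surj s d
      have hσs : s < σ := lt_of_le_of_ne hσ.1 fun h => hca (by rw [h])
      have hτs : s < τ := lt_of_le_of_ne hτ.1 fun h => hda (by rw [h])
      have hσt : σ ≠ t := fun h => hcb (by rw [h])
      have hτt : τ ≠ t := fun h => hdb (by rw [h])
      have hsI : s ∈ Ico s (s + 2 * Real.pi) := ⟨le_rfl, by linarith⟩
      have htI : t ∈ Ico s (s + 2 * Real.pi) := ⟨hst.le, hts⟩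
      rcases lt_or_gt_of_ne hσt with h1 | h1 <;> rcases lt_or_gt_of_ne hτt with h2 | h2
      · exfalso
        rcases hT (Circle.exp '' Ioo s t)
          (isPreconnected_Ioo.image _ Circle.exp.continuous.continuousOn)
          ⟨σ, ⟨hσs, h1⟩, rfl⟩ ⟨τ, ⟨hτs, h2⟩, rfl⟩ with ⟨x, hx, hxs⟩ | ⟨x, hx, hxs⟩
        · have := LNO_inj (s := s) ⟨hx.1.le, by linarith [hx.2]⟩ hsI hxs
          linarith [hx.1]
        · have := LNO_inj (s := s) ⟨hx.1.le, by linarith [hx.2]⟩ htI hxs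
          linarith [hx.2]
      · exact LNO_open s t σ τ hσs h1 h2 hτ.2
      · exact key _ _ (LNO_open s t τ σ hτs h2 h1 hσ.2)
      · exfalso
        rcases hT (Circle.exp '' Ioo t (s + 2 * Real.pi))
          (isPreconnected_Ioo.image _ Circle.exp.continuous.continuousOn)
          ⟨σ, ⟨h1, hσ.2⟩, rfl⟩ ⟨τ, ⟨h2, hτ.2⟩, rfl⟩ with ⟨x, hx, hxs⟩ | ⟨x, hx, hxs⟩
        · have := LNO_inj (s := s) ⟨by linarith [hx.1], hx.2⟩ hsI hxs
          linarith [hx.1]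
        · have := LNO_inj (s := s) ⟨by linarith [hx.1], hx.2⟩ htI hxs
          linarith [hx.1]
    obtain ⟨A, hA, B, hB, C, hC, D, hD, h⟩ := main
    refine mem_of_superset (prod_mem_nhds (prod_mem_nhds hA hB) (prod_mem_nhds hC hD)) ?_
    rintro ⟨⟨a', b'⟩, ⟨c', d'⟩⟩ ⟨⟨ha, hb⟩, ⟨hc, hd⟩⟩
    exact h a' ha b' hb c' hc d' hd
  · intro ι l _ x y z w a b c d hx hy hz hw hca hcb hda hdb hL
    by_contra hcon
    by_cases hab : a = b
    · subst hab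
      obtain ⟨s, rfl⟩ := Circle.exp_surjective a
      obtain ⟨σ, hσ, rfl⟩ := ARC_surj s c
      obtain ⟨τ, hτ, rfl⟩ := ARC_surj s d
      have hσs : s < σ := lt_of_le_of_ne hσ.1 fun h => hca (by rw [h])
      have hτs : s < τ := lt_of_le_of_ne hτ.1 fun h => hda (by rw [h])
      obtain ⟨K, hK, hKc, hKs, h1, h2⟩ := LNO_K s (s + 2 * Real.pi) σ τ hσs hσ.2 hτs hτ.2
      have ha : Circle.exp s ∉ K := by
        intro h
        obtain ⟨x, hx, hxs⟩ := hKs h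
        have := LNO_inj (s := s) ⟨hx.1.le, hx.2⟩ ⟨le_rfl, by linarith⟩ hxs
        linarith [hx.1]
      exact LNO_lim l x y z w _ _ _ _ hx hy hz hw hL K hK hKc ha ha h1 h2
    · obtain ⟨s, t, hst, hts, rfl, rfl⟩ := LOP_param a b hab
      obtain ⟨σ, hσ, rfl⟩ := ARC_surj s c
      obtain ⟨τ, hτ, rfl⟩ := ARC_surj s d
      have hσs : s < σ := lt_of_le_of_ne hσ.1 fun h => hca (by rw [h])
      have hτs : s < τ := lt_of_le_of_ne hτ.1 fun h => hda (by rw [h])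
      have hσt : σ ≠ t := fun h => hcb (by rw [h])
      have hτt : τ ≠ t := fun h => hdb (by rw [h])
      have hsI : s ∈ Ico s (s + 2 * Real.pi) := ⟨le_rfl, by linarith⟩
      have htI : t ∈ Ico s (s + 2 * Real.pi) := ⟨hst.le, hts⟩
      rcases lt_or_gt_of_ne hσt with e1 | e1 <;> rcases lt_or_gt_of_ne hτt with e2 | e2
      · obtain ⟨K, hK, hKc, hKs, h1, h2⟩ := LNO_K s t σ τ hσs e1 hτs e2
        have ha : Circle.exp s ∉ K := by
          intro h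
          obtain ⟨x, hx, hxs⟩ := hKs h
          have := LNO_inj (s := s) ⟨hx.1.le, by linarith [hx.2]⟩ hsI hxs
          linarith [hx.1]
        have hb : Circle.exp t ∉ K := by
          intro h
          obtain ⟨x, hx, hxs⟩ := hKs h
          have := LNO_inj (s := s) ⟨hx.1.le, by linarith [hx.2]⟩ htI hxs
          linarith [hx.2]
        exact LNO_lim l x y z w _ _ _ _ hx hy hz hw hL K hK hKc ha hb h1 h2
      · exact hcon ((arc s t hst hts).2 _ ⟨σ, ⟨hσs, e1⟩, rfl⟩ _ ⟨τ, ⟨e2, hτ.2⟩, rfl⟩)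
      · exact hcon (LNO_swap ((arc s t hst hts).2 _ ⟨τ, ⟨hτs, e2⟩, rfl⟩ _ ⟨σ, ⟨e1, hσ.2⟩, rfl⟩))
      · obtain ⟨K, hK, hKc, hKs, h1, h2⟩ := LNO_K t (s + 2 * Real.pi) σ τ e1 hσ.2 e2 hτ.2
        have ha : Circle.exp s ∉ K := by
          intro h
          obtain ⟨x, hx, hxs⟩ := hKs h
          have := LNO_inj (s := s) ⟨by linarith [hx.1], hx.2⟩ hsI hxs
          linarith [hx.1]
        have hb : Circle.exp t ∉ K := by
          intro h
          obtain ⟨x, hx, hxs⟩ := hKs h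
          have := LNO_inj (s := s) ⟨by linarith [hx.1], hx.2⟩ htI hxs
          linarith [hx.1]
        exact LNO_lim l x y z w _ _ _ _ hx hy hz hw hL K hK hKc ha hb h1 h2

end Pool.GC
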