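import Pool.Agent.Work.MP_ae1ff6_gc.Interface2

/-!
# Invariant geodesic currents (MP_ae1ff6_gt): interface, part 8: filling currents up to factors

The rules are those of `Interface.lean` (import this file instead). These blocks replace PE3, PEN,
FN1, FN2, FN3, FNM, INF, MFL.
-/

open Topology Filter Set MeasureTheory
open scoped ComplexConjugate ENNReal

set_option autoImplicit false

namespace Pool.GC

open Pool.CG

/-- WN2 (80 lines): wandering boxes have mass zero (as WAN, both sides may move). With `c ≤ 1`: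
`μ S ≤ μ (Prod.map k k '' S)` for measurable `S`, so `μ (D ×ˢ E) ≤ μ ((k ^ n '' D) ×ˢ (k ^ n '' E))` for all
`n : ℕ`. These sets are pairwise disjoint, measurable and contained in `{x | ε ≤ dist x.1 x.2}`, which has
finite mass. So `∑' n : ℕ, μ (D ×ˢ E) < ∞`, and `μ (D ×ˢ E) = 0`. Second claim: `Current.flip`. -/
def Stmt_WN2 : Prop :=
  ∀ (μ : Measure (Circle × Circle)) (k : H) (c : ℝ≥0∞) (D E : Set Circle) (ε : ℝ), Current μ →
    μ.map (Prod.map k k) = c • μ → c ≤ 1 → MeasurableSet D → MeasurableSet E →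
    Pairwise (Function.onFun Disjoint fun n : ℕ => (k ^ n) '' D) → 0 < ε →
    (∀ n : ℕ, ∀ x ∈ (k ^ n) '' D, ∀ y ∈ (k ^ n) '' E, ε ≤ dist x y) →
    μ (D ×ˢ E) = 0 ∧ μ (E ×ˢ D) = 0

/-- the fixed point `exp s` of `k` does not attract from both sides, in the coordinates of the circle
cut at the fixed point `exp θ`; and the same for the point `exp θ` -/
def NotSink (κ : ℝ ≃o ℝ) (θ s : ℝ) : Prop :=
  (∀ x ∈ Ioo θ s, ∀ y ∈ Ioo s (θ + 2 * Real.pi), Tendsto (fun n : ℕ => (κ ^ n) x) atTop (𝓝 s) →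
    ¬ Tendsto (fun n : ℕ => (κ ^ n) y) atTop (𝓝 s)) ∧
  ∀ x ∈ Ioo θ s, ∀ y ∈ Ioo s (θ + 2 * Real.pi), Tendsto (fun n : ℕ => (κ ^ n) x) atTop (𝓝 θ) →
    ¬ Tendsto (fun n : ℕ => (κ ^ n) y) atTop (𝓝 (θ + 2 * Real.pi))

/-- FXA (300 lines; uses WN2). Notation: `X = Ioo θ s`, `Y = Ioo s (θ + 2π)`, both invariant under `κ`; for
`x` in `X` or `Y` the sequence `κ ^ n x` is monotone and bounded, let `x∞` be its limit (a fixed point of
`κ`, in the closure of `X` or `Y`); `x∞ = x` if `κ x = x`. `k ^ n (exp x) = exp (κ ^ n x)`. It is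
monotone in `x`, so for `x1 < x2` in `X` all sets `κ ^ n '' Ioo x1 x2` are in `Icc (min x1 x1∞) (max x2 x2∞)`,
and if `x1 < κ x1` all sets `κ ^ n '' Ioo x1 (κ x1)` are disjoint and in `Icc x1 x1∞`; if `κ x2 < x2` all sets
`κ ^ n '' Ioo (κ x2) x2` are disjoint and in `Icc x2∞ x2`. (A) Claim: for `x ∈ X`, `y ∈ Y` with `κ x ≠ x` or
`κ y ≠ y` there are open intervals `D ∋ x`, `E ∋ y` with `μ (exp '' D ×ˢ exp '' E) = 0`. By WN2 it is enough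
that one of them is wandering (as above) and that all `κ ^ n '' D`, all `κ ^ n '' E` are in compact
intervals `[d1, d2] ⊆ [θ, s]`, `[e1, e2] ⊆ [s, θ + 2π]` with `d2 < e1` and `e2 < d1 + 2π` (their images under
`exp` are disjoint and compact). (1) `x < κ x`: `D = Ioo x1 (κ x1)` with `x1 < x < κ x1`, `θ < x1`, in
`[x1, x1∞]`; `E = Ioo y1 y2` small around `y`, in `[e1, e2]`, `e1 = min y1 y1∞`, `e2 = max y2 y2∞`. If
`x1∞ < s` fine (`x1∞ < s ≤ e1`, `e2 ≤ θ + 2π < x1 + 2π`). If `x1∞ = s`, then `y1∞ ≠ s` by `NotSink`, so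
`e1 > s`: fine. (2) `κ x < x`: `D = Ioo (κ x2) x2`, in `[x2∞, x2]`, `x2 < s`. If `x2∞ > θ` fine. If
`x2∞ = θ`, then `y2∞ ≠ θ + 2π`, so `e2 < θ + 2π`: fine. (3), (4) `y < κ y`, `κ y < y`: in the same way with
`E` wandering and `D = Ioo x1 x2` (second claim of WN2 and exchange of the factors). (B) The pairs of
fixed points: for `m : ℕ` let `S` be the set of the `(exp x, exp y)`, `x ∈ X`, `y ∈ Y`, `κ x = x`, `κ y = y`,
with distance `≥ 1 / (m + 1)`: measurable, `Prod.map k k ⁻¹' S = S`, so `μ S = c * μ S` with `μ S < ∞`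
and `c < 1`: `μ S = 0`. (C) The set of the `(exp x, exp y)`, `x ∈ X`, `y ∈ Y`, `κ x ≠ x` or `κ y ≠ y`, is
locally of mass zero by (A), so of mass zero (`measure_null_of_locally_null`). -/
def Stmt_FXA : Prop :=
  ∀ (μ : Measure (Circle × Circle)) (k : H) (κ : ℝ ≃o ℝ) (c : ℝ≥0∞) (θ s : ℝ), Current μ →
    μ.map (Prod.map k k) = c • μ → c < 1 → θ < s → s < θ + 2 * Real.pi → κ θ = θ → κ s = s →
    κ (θ + 2 * Real.pi) = θ + 2 * Real.pi →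
    (∀ x ∈ Icc θ (θ + 2 * Real.pi), Circle.exp (κ x) = k (Circle.exp x)) → NotSink κ θ s →
    μ ((Circle.exp '' Ioo θ s) ×ˢ (Circle.exp '' Ioo s (θ + 2 * Real.pi))) = 0

/-- FXB (250 lines; uses LFT ORI): two fixed points which are not sinks. Step 1. Let `a = exp θ`,
`b = exp s`, `θ < s < θ + 2π`, LFT with the third point `d` (`k d = d`): `κ`; the third fixed point is
`exp τ`, `τ ∈ Ioo θ s ∪ Ioo s (θ + 2π)`, `κ τ = τ`. If `NotSink κ θ s` we are done. Otherwise the first or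
the second condition fails; if it is the second one exchange `a` and `b` (cut at `b`: `θ' = s`,
`s' = θ + 2π`, the lift `κ'` of LFT agrees with `κ` on `Icc s (θ + 2π)` and with
`x ↦ κ (x - 2π) + 2π` on `Icc (θ + 2π) (s + 2π)`), so that the first one fails. Step 2. So there are
`x ∈ Ioo θ s`, `y ∈ Ioo s (θ + 2π)` with `κ ^ n x → s`, `κ ^ n y → s`; `x < κ x`, `κ y < y`. ORI for `θ`, `s`, `x`:
`σ₁ ∈ Icc θ x`, fixed, no fixed points in `Ioo σ₁ s` (the `t` there is `s`); in the same way (ORI for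
`κ⁻¹` and `s`, `θ + 2π`, `y`: `y < κ⁻¹ y`) `σ₂ ∈ Icc y (θ + 2π)`, fixed, no fixed points in `Ioo s σ₂`. As
`τ` is a fixed point not both `σ₁ = θ` and `σ₂ = θ + 2π`; so `σ₂ < σ₁ + 2π`. Step 3. LFT for `σ₁`, `σ₂` and
the third point `exp s = b`: `κ₁`; it agrees with `κ` on `Icc σ₁ σ₂` (same values under `exp`, both in
`Icc σ₁ σ₂`). For `z ∈ Ioo σ₁ σ₂` we have `κ₁ ^ n z → s`: `z ∈ Ioo σ₁ s` is increasing with a limit which is
fixed and in `Ioc σ₁ s`, so it is `s`; for `z ∈ Ioo s σ₂` in the same way; `z = s` is fixed. So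
`NotSink κ₁ σ₁ σ₂`. -/
def Stmt_FXB : Prop :=
  ∀ (k : H) (a b d : Circle), a ≠ b → b ≠ d → a ≠ d → k a = a → k b = b → k d = d →
    ∃ (κ : ℝ ≃o ℝ) (θ s : ℝ), θ < s ∧ s < θ + 2 * Real.pi ∧ κ θ = θ ∧ κ s = s ∧
      κ (θ + 2 * Real.pi) = θ + 2 * Real.pi ∧
      (∀ x ∈ Icc θ (θ + 2 * Real.pi), Circle.exp (κ x) = k (Circle.exp x)) ∧ NotSink κ θ s

/-- FXS (100 lines; uses FX3 FXA FXB): an element with three fixed points is trivial, for currents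
preserved up to a factor. `c = 1`: FX3. `c < 1`: FXB and FXA; with `arc`
`{x | Link (exp θ) (exp s) x.1 x.2} = P ∪ Prod.swap ⁻¹' P`, `P` the product of FXA, so by `Current.flip` it
has mass zero: a contradiction to filling. (So this case is impossible.) `1 < c`: the same for `k⁻¹`,
`c⁻¹ < 1`. -/
def Stmt_FXS : Prop :=
  ∀ (μ : Measure (Circle × Circle)) (k : H) (c : ℝ≥0∞) (a b d : Circle), Current μ → Filling μ →
    c ≠ 0 → c ≠ ∞ → μ.map (Prod.map k k) = c • μ → a ≠ b → b ≠ d → a ≠ d → k a = a → k b = b →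
    k d = d → k = 1

/-- ATR (150 lines; uses TWO LFT): two attracting fixed points. Let `a = exp θ`, `b = exp s`,
`θ < s < θ + 2π`. Choose `δ > 0` with `θ + δ < s - δ`, `s + δ < θ + 2π - δ`,
`exp '' Icc (θ - δ) (θ + δ) ⊆ A`, `exp '' Icc (s - δ) (s + δ) ⊆ B`, and let `A'`, `B'` be the same sets for
`δ / 2`: neighbourhoods of `a`, `b` (`arc`). Let `k` be given, `K = k * k`, `c = exp (θ + δ)`. (1)
`¬ Link a b c (K c)`: by `lhi` for `k` and `k⁻¹` (`k` fixes `a` and `b`) `Link a b c (k c)` is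
equivalent to `Link a b (k c) (K c)`, so to `Link a b (K c) (k c)`; TWO with `r = k c`. (2) LFT for `K`:
`κ`. `exp (κ (θ + δ)) = K c ∈ A'` (`c ∈ A`, `k c ∈ A' ⊆ A`, `K c ∈ A'`) and `κ (θ + δ) ∈ Ioo θ s`, so
`κ (θ + δ) ≤ θ + δ / 2 < θ + δ`. In the same way `κ (s - δ) ≥ s - δ / 2 > s - δ`. By the intermediate value
theorem `κ` has a fixed point in `Ioo (θ + δ) (s - δ)`: the third fixed point of `K`. (3) `K ≠ 1`, as
`K c ∈ A'`, `c ∉ A'`. -/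
def Stmt_ATR : Prop :=
  ∀ (a b : Circle) (A B : Set Circle), a ≠ b → A ∈ 𝓝 a → B ∈ 𝓝 b →
    ∃ A' ∈ 𝓝 a, ∃ B' ∈ 𝓝 b, ∀ k : H, k a = a → k b = b → (∀ z ∈ A, k z ∈ A') →
      (∀ z ∈ B, k z ∈ B') → k * k ≠ 1 ∧ ∃ d : Circle, d ≠ a ∧ d ≠ b ∧ (k * k) d = d

/-- PG3 (150 lines): the mass is on one vertical line (PE3 with factors, and `a ∈ A`). Shrink `N` to a
closed ball around `ℓ` of radius `ρ`. The sets
`K n = {x | x.1 ≠ ℓ ∧ dist x.1 ℓ ≤ ρ / (2 (n + 1)) ∧ ρ ≤ dist x.2 ℓ}` are decreasing with empty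
intersection and finite mass (`ρ / 2 ≤ dist x.1 x.2` on them), so `μ (K n) → 0`. Let `m = μ (A ×ˢ B)`,
`0 < m < ∞`. For `n` with `μ (K n) < m / 2` and almost all `g`:
`Prod.map g g '' ((A ×ˢ B) \\ ({g⁻¹ ℓ} ×ˢ univ)) ⊆ K n`, and `μ S ≤ μ (Prod.map g g '' S)` for measurable
`S` (as `c ≤ 1`), so `μ ((A ×ˢ B) \\ ({g⁻¹ ℓ} ×ˢ univ)) < m / 2`. So `g⁻¹ ℓ ∈ A` (otherwise this set is
`A ×ˢ B`). If this holds for `g` and `g'` with `g⁻¹ ℓ ≠ g'⁻¹ ℓ`, then the two sets cover `A ×ˢ B`: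
`m < m / 2 + m / 2`, a contradiction. So `g⁻¹ ℓ` is constant for almost all `g`. -/
def Stmt_PG3 : Prop :=
  ∀ (μ : Measure (Circle × Circle)) (u : Ultrafilter H) (ℓ : Circle) (A B : Set Circle),
    Current μ → IsOpen A → IsOpen B → (∃ ε : ℝ, 0 < ε ∧ ∀ a ∈ A, ∀ b ∈ B, ε ≤ dist a b) →
    0 < μ (A ×ˢ B) → (∀ᶠ g : H in u, ∃ c : ℝ≥0∞, c ≤ 1 ∧ μ.map (Prod.map g g) = c • μ) →
    (∀ N ∈ 𝓝 ℓ, ∀ᶠ g : H in u, ∀ z ∈ A, g z ∈ N) →
    (∃ N ∈ 𝓝 ℓ, ∀ᶠ g : H in u, ∀ z ∈ B, g z ∉ N) → ∃ a ∈ A, ∀ᶠ g : H in u, g a = ℓ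

/-- PEG (60 lines; uses PLT AWY PE1 PE2 PG3) (PEN with factors, and with a neighbourhood). The last
hypothesis of PE1: for `x1 = x2` `Link` is false (see SYM), otherwise PLT for `x1`, `x2`, `w` gives
`g z → ℓ`, so `L z = ℓ`. PE1, PE2: `α`, `α'`, `β`, `β'`, `A`, `B`. PLT for `α`, `α'`, `β` (`w = β`) gives
the hypothesis of PG3 for `A`, AWY for `β`, `β'`, `α` the one for `B`. `A` is the neighbourhood. -/
def Stmt_PEG : Prop :=
  ∀ (μ : Measure (Circle × Circle)) (u : Ultrafilter H) (L : Circle → Circle) (ℓ y1 y2 : Circle),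
    Current μ → Filling μ → (∀ᶠ g : H in u, ∃ c : ℝ≥0∞, c ≤ 1 ∧ μ.map (Prod.map g g) = c • μ) →
    (∀ z, Tendsto (fun g : H => g z) u (𝓝 (L z))) → Dbl L ℓ → y1 ≠ y2 → L y1 ≠ ℓ → L y2 ≠ ℓ →
    ∃ a : Circle, ∃ A ∈ 𝓝 a, (∀ᶠ g : H in u, g a = ℓ) ∧
      ∀ N ∈ 𝓝 ℓ, ∀ᶠ g : H in u, ∀ z ∈ A, g z ∈ N

/-- MFG (200 lines; uses FXC DIC TRI FXS PEG ATR). The beginning is the one of MFS: suppose
`T = {g | g ∈ G ∧ Mv ε g}` is infinite, `ε > 0`. Let `T₁` be the set of the `g ∈ T` with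
`μ.map (Prod.map g g) = c • μ` for some `c ≤ 1`. For each `g ∈ T` we have `g ∈ T₁` or `g⁻¹ ∈ T₁` (the
factor of `g⁻¹` is `c⁻¹`; `Mv ε g⁻¹`), so `T₁` is infinite. Let `u` be an ultrafilter with `T₁ ∈ u`,
`u ≤ cofinite` and `L z` the limit of `g z` (`BDC_lim`). (1) `¬ TwoConst Γ u`: otherwise FXC with `S = T₁`
gives `g ≠ g'` in `T₁` and `k = g⁻¹ g' ∈ G` fixes `p`, `q`, `p'` (different): `k = 1` by `Scales` and FXS.
(2) DIC. If `{z | L z = ℓ}` is dense: TRI. Otherwise `ℓ ≠ m`, `L x1 = L x2 = ℓ`, `x1 ≠ x2`,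
`L y1 = L y2 = m`, `y1 ≠ y2`. PEG for `ℓ`, `y1`, `y2`: `a`, `A`; for `m`, `x1`, `x2`: `b`, `B`; `a ≠ b` as
`ℓ ≠ m`. ATR: `A'`, `B'`. Fix `g₀ ∈ G` with `g₀ a = ℓ`, `g₀ b = m`. `g₀ '' A' ∈ 𝓝 ℓ`, `g₀ '' B' ∈ 𝓝 m`; so
there is `g ∈ G` with `g a = ℓ`, `g b = m`, `g z ∈ g₀ '' A'` for `z ∈ A`, `g z ∈ g₀ '' B'` for `z ∈ B`.
`k = g₀⁻¹ g` satisfies the hypotheses of ATR, so `k * k ∈ G` is not `1` and has the three fixed points
`a`, `b`, `d`: a contradiction to FXS. -/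
def Stmt_MFG : Prop :=
  ∀ Γ G : Subgroup H, FirstKind Γ → Γ ≤ G → (∀ g ∈ G, ∀ γ ∈ Γ, g * γ * g⁻¹ ∈ Γ) →
    (∃ μ, Current μ ∧ Filling μ ∧ Scales G μ) → Conv G

/-- the theorem, stronger form -/
def Stmt_GCG : Prop :=
  ∀ Γ G : Subgroup H, FirstKind Γ → Γ ≤ G → (∀ g ∈ G, ∀ γ ∈ Γ, g * γ * g⁻¹ ∈ Γ) →
    (Conv G ↔ ∃ μ, Current μ ∧ FullSupport μ ∧ Fixes G μ) ∧
    (Conv G ↔ ∃ μ, Current μ ∧ Filling μ ∧ Scales G μ) ∧
    (Conv G ↔ SelfDisplaces Γ G)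

/-- the stronger form for one mapping class `f Γ` -/
def Stmt_GCG1 : Prop :=
  ∀ (Γ : Subgroup H) (f : H), FirstKind Γ → (∀ γ, γ ∈ Γ ↔ f * γ * f⁻¹ ∈ Γ) →
    (OneDisplaces Γ f ↔ Conv (Γ ⊔ Subgroup.zpowers f)) ∧
    (OneDisplaces Γ f ↔ ∃ μ, Current μ ∧ FullSupport μ ∧ Fixes Γ μ ∧ μ.map (Prod.map f f) = μ) ∧
    (OneDisplaces Γ f ↔ ∃ μ, Current μ ∧ Filling μ ∧ Fixes Γ μ ∧
      ∃ c : ℝ≥0∞, c ≠ 0 ∧ c ≠ ∞ ∧ μ.map (Prod.map f f) = c • μ)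

end Pool.GC
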