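import Pool.Agent.Work.MP_ae1ff6_gc.B_CUR
import Pool.Agent.Work.MP_ae1ff6_gc.FinalG

/-!
# Locally finite filling families of geodesics (helper80)
-/

open Topology Filter Set MeasureTheory
open scoped ComplexConjugate ENNReal

set_option autoImplicit false

namespace Pool.GC

open Pool.CG

/-- `G` permutes a set `O` of geodesics of the disc (pairs of endpoints) which is locally finite (only
finitely many of them meet a given compact set) and filling (each geodesic `(u, v)` is crossed by one
of them) -/
def PermutesFilling (G : Subgroup H) (O : Set (Circle × Circle)) : Prop :=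
  (∀ ε : ℝ, 0 < ε → {x | x ∈ O ∧ ε ≤ dist x.1 x.2}.Finite) ∧
  (∀ u v : Circle, u ≠ v → ∃ x ∈ O, Link u v x.1 x.2) ∧ ∀ g ∈ G, ∀ x ∈ O, (g x.1, g x.2) ∈ O

theorem LOC_ne {u v a b : Circle} (h : Link u v a b) : a ≠ b := by
  rintro rfl
  rcases h.2.2 {a} isPreconnected_singleton rfl rfl with h1 | h1
  · exact h.1.1 h1.symm
  · exact h.1.2 h1.symm

/-- the counting measure of a locally finite filling set of geodesics is a filling current -/
theorem LOC_current (G : Subgroup H) (O : Set (Circle × Circle)) (h : PermutesFilling G O) :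
    ∃ μ, Current μ ∧ Filling μ ∧ Fixes G μ := by
  obtain ⟨h1, h2, h3⟩ := h
  set P : Set (Circle × Circle) := {x | (x ∈ O ∨ x.swap ∈ O) ∧ x.1 ≠ x.2} with hP
  have hf : ∀ ε : ℝ, 0 < ε → ({x | ε ≤ dist x.1 x.2} ∩ P).Finite := by
    intro ε hε
    refine ((h1 ε hε).union ((h1 ε hε).image Prod.swap)).subset ?_
    rintro x ⟨hx, hx2 | hx2, -⟩
    · exact Or.inl ⟨hx2, hx⟩
    · refine Or.inr ⟨x.swap, ⟨hx2, ?_⟩, Prod.swap_swap x⟩
      show ε ≤ dist x.2 x.1
      rw [dist_comm]
      exact hx
  have hcount : P.Countable := by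
    have hsub : P ⊆ ⋃ n : ℕ, ({x | 1 / ((n : ℝ) + 1) ≤ dist x.1 x.2} ∩ P) := by
      intro x hx
      obtain ⟨n, hn⟩ := exists_nat_one_div_lt (dist_pos.2 hx.2)
      exact Set.mem_iUnion.2 ⟨n, hn.le, hx⟩
    exact (Set.countable_iUnion fun n => (hf _ (by positivity)).countable).mono hsub
  have hPm : MeasurableSet P := hcount.measurableSet
  refine ⟨Measure.count.restrict P, ⟨?_, ?_, ?_⟩, ?_, ?_⟩
  · intro ε hε
    rw [Measure.restrict_apply' hPm, Measure.count_apply_lt_top]
    exact hf ε hε
  · rw [Measure.restrict_apply' hPm]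
    have : {x : Circle × Circle | x.1 = x.2} ∩ P = ∅ := by
      ext x
      constructor
      · rintro ⟨a1, a2⟩
        exact absurd a1 a2.2
      · intro h
        exact absurd h (Set.notMem_empty x)
    rw [this, measure_empty]
  · refine CUR_map P hPm Prod.swap Prod.swap measurable_swap (fun x => Prod.swap_swap x)
      (fun x => Prod.swap_swap x) ?_
    intro x
    constructor
    · rintro ⟨a1, a2⟩
      rw [Prod.swap_swap] at a1
      exact ⟨a1.symm, fun h => a2 h.symm⟩
    · rintro ⟨a1, a2⟩
      refine ⟨?_, fun h => a2 h.symm⟩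
      rw [Prod.swap_swap]
      exact a1.symm
  · intro u v huv
    obtain ⟨x, hx, hl⟩ := h2 u v huv
    rw [Measure.restrict_apply' hPm]
    refine lt_of_lt_of_le zero_lt_one ?_
    rw [← Measure.count_singleton x]
    refine measure_mono ?_
    intro y hy
    rw [Set.mem_singleton_iff] at hy
    rw [hy]
    exact ⟨hl, Or.inl hx, LOC_ne hl⟩
  · intro k hk
    have hm : Measurable (Prod.map k k : Circle × Circle → Circle × Circle) :=
      (k.continuous.measurable.comp measurable_fst).prodMk
        (k.continuous.measurable.comp measurable_snd)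
    have hO : ∀ g ∈ G, ∀ x : Circle × Circle, Prod.map g g x ∈ P → x ∈ P := by
      rintro g hg x ⟨a1, a2⟩
      have e1 : ∀ z, g⁻¹ (g z) = z := fun z => g.symm_apply_apply z
      refine ⟨?_, fun h => a2 ?_⟩
      · rcases a1 with a1 | a1
        · left
          have := h3 g⁻¹ (G.inv_mem hg) _ a1
          rw [Prod.map_fst, Prod.map_snd, e1, e1] at this
          exact this
        · right
          have := h3 g⁻¹ (G.inv_mem hg) _ a1
          rw [Prod.fst_swap, Prod.snd_swap, Prod.map_fst, Prod.map_snd, e1, e1] at this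
          exact this
      · rw [Prod.map_fst, Prod.map_snd, h]
    refine CUR_map P hPm (Prod.map k k) (Prod.map k.symm k.symm) hm ?_ ?_ ?_
    · rintro ⟨a, b⟩
      simp
    · rintro ⟨a, b⟩
      simp
    · intro x
      refine ⟨hO k hk x, fun h => hO k⁻¹ (G.inv_mem hk) _ ?_⟩
      have e : Prod.map (k⁻¹ : H) (k⁻¹ : H) (Prod.map k k x) = x := by
        rcases x with ⟨a, b⟩
        exact Prod.ext (k.symm_apply_apply a) (k.symm_apply_apply b)
      rw [e]
      exact h

end Pool.GC
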