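import Pool.Agent.Work.MP_ae1ff6_gc.Interface3

/-! # Block MFG: filling currents preserved up to factors (helper41) -/

open Topology Filter Set MeasureTheory
open scoped ComplexConjugate ENNReal

set_option autoImplicit false

namespace Pool.GC

open Pool.CG

theorem MFG_meas (g : H) : Measurable (Prod.map g g : Circle × Circle → Circle × Circle) :=
  g.continuous.measurable.prodMap g.continuous.measurable

theorem MFG_inv (μ : Measure (Circle × Circle)) (g : H) (c : ℝ≥0∞) (hc0 : c ≠ 0) (hc : c ≠ ∞)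
    (h : μ.map (Prod.map g g) = c • μ) :
    μ.map (Prod.map (g⁻¹ : H) (g⁻¹ : H)) = c⁻¹ • μ := by
  have h1 : (μ.map (Prod.map g g)).map (Prod.map (g⁻¹ : H) (g⁻¹ : H)) = μ := by
    rw [Measure.map_map (MFG_meas _) (MFG_meas _)]
    have e : (Prod.map (g⁻¹ : H) (g⁻¹ : H)) ∘ (Prod.map g g) =
        (id : Circle × Circle → Circle × Circle) := by
      funext x
      show ((g⁻¹ : H) (g x.1), (g⁻¹ : H) (g x.2)) = x
      have e1 : (g⁻¹ : H) (g x.1) = x.1 := g.symm_apply_apply _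
      have e2 : (g⁻¹ : H) (g x.2) = x.2 := g.symm_apply_apply _
      rw [e1, e2]
    rw [e, Measure.map_id]
  rw [h, Measure.map_smul] at h1
  rw [← h1, smul_smul, ENNReal.inv_mul_cancel hc0 hc, one_smul, h1]

theorem MFG_mv (ε : ℝ) (g : H) (h : Mv ε g) : Mv ε g⁻¹ := by
  obtain ⟨a, b, c, h1, h2⟩ := h
  refine ⟨g a, g b, g c, h2, ?_⟩
  have e : ∀ x, (g⁻¹ : H) (g x) = x := fun x => g.symm_apply_apply x
  rw [e, e, e]
  exact h1

theorem p_MFG (hFXC : Stmt_FXC) (hDIC : Stmt_DIC) (hTRI : Stmt_TRI) (hFXS : Stmt_FXS)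
    (hPEG : Stmt_PEG) (hATR : Stmt_ATR) : Stmt_MFG := by
  classical
  rintro Γ G hΓ hle hn ⟨μ, hμ, hfs, hsc⟩ ε hε
  obtain ⟨T, hT⟩ : ∃ T : Set H, T = {g : H | g ∈ G ∧ Mv ε g ∧
    ∃ c : ℝ≥0∞, c ≤ 1 ∧ μ.map (Prod.map g g) = c • μ} := ⟨_, rfl⟩
  by_contra hcon
  have hinf : T.Infinite := by
    intro hfin
    apply hcon
    refine (hfin.union (hfin.image (fun g : H => g⁻¹))).subset ?_
    rintro g ⟨hg, hmv⟩
    obtain ⟨c, hc0, hc, h1⟩ := hsc g hg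
    rcases le_total c 1 with h2 | h2
    · left
      rw [hT]
      exact ⟨hg, hmv, c, h2, h1⟩
    · right
      refine ⟨g⁻¹, ?_, inv_inv g⟩
      rw [hT]
      exact ⟨G.inv_mem hg, MFG_mv ε g hmv, c⁻¹, ENNReal.inv_le_one.2 h2,
        MFG_inv μ g c hc0 hc h1⟩
  have hne := hinf.cofinite_inf_principal_neBot
  obtain ⟨u, hu⟩ : ∃ u : Ultrafilter H, (u : Filter H) ≤ cofinite ⊓ 𝓟 T :=
    ⟨Ultrafilter.of _, Ultrafilter.of_le _⟩
  have huc : (u : Filter H) ≤ cofinite := hu.trans inf_le_left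
  have huT : T ∈ (u : Filter H) := (hu.trans inf_le_right) (mem_principal_self T)
  have hTG : ∀ᶠ g in (u : Filter H), g ∈ G := by
    filter_upwards [huT] with g hg
    rw [hT] at hg
    exact hg.1
  have hTM : ∀ᶠ g in (u : Filter H), Mv ε g := by
    filter_upwards [huT] with g hg
    rw [hT] at hg
    exact hg.2.1
  have hTc : ∀ᶠ g : H in (u : Filter H), ∃ c : ℝ≥0∞, c ≤ 1 ∧ μ.map (Prod.map g g) = c • μ := by
    filter_upwards [huT] with g hg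
    rw [hT] at hg
    exact hg.2.2
  -- three fixed points
  have hthree : ∀ k ∈ G, ∀ a b d : Circle, a ≠ b → b ≠ d → a ≠ d → k a = a → k b = b → k d = d →
      k = 1 := by
    intro k hk a b d h1 h2 h3 h4 h5 h6
    obtain ⟨c, hc0, hc, h⟩ := hsc k hk
    exact hFXS μ k c a b d hμ hfs hc0 hc h h1 h2 h3 h4 h5 h6
  choose L hL using fun z : Circle => BDC_lim u (fun g : H => g z)
  have htwo : ¬ TwoConst Γ u := by
    intro h
    obtain ⟨g, hg, g', hg', hgg, p, q, p', q', i1, i2, i3, i4, i5, i6, j1, j2, j3, j4⟩ :=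
      hFXC Γ u T huc huT h
    rw [hT] at hg hg'
    have hk : g⁻¹ * g' ∈ G := G.mul_mem (G.inv_mem hg.1) hg'.1
    have hfix : ∀ x, g x = g' x → (g⁻¹ * g') x = x := by
      intro x hx
      show (g⁻¹ : H) (g' x) = x
      rw [← hx]
      exact g.symm_apply_apply x
    have h2 := hthree (g⁻¹ * g') hk p q p' i1 i5 i3 (hfix p j1) (hfix q j2) (hfix p' j3)
    exact hgg (inv_mul_eq_one.1 h2)
  rcases hDIC Γ G u L hΓ hn hTG hL htwo with ⟨ℓ, m, hℓm, ⟨x1, x2, hx, hx1, hx2⟩,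
    ⟨y1, y2, hy, hy1, hy2⟩⟩ | ⟨ℓ, hd⟩
  · obtain ⟨a, A, hA, ha, hAN⟩ := hPEG μ u L ℓ y1 y2 hμ hfs hTc hL ⟨x1, x2, hx, hx1, hx2⟩ hy
      (by rw [hy1]; exact hℓm.symm) (by rw [hy2]; exact hℓm.symm)
    obtain ⟨b, B, hB, hb, hBN⟩ := hPEG μ u L m x1 x2 hμ hfs hTc hL ⟨y1, y2, hy, hy1, hy2⟩ hx
      (by rw [hx1]; exact hℓm) (by rw [hx2]; exact hℓm)
    have hab : a ≠ b := by
      rintro rfl
      obtain ⟨g, h1, h2⟩ := (ha.and hb).exists
      exact hℓm (h1.symm.trans h2)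
    obtain ⟨A', hA', B', hB', hATRk⟩ := hATR a b A B hab hA hB
    obtain ⟨g₀, ⟨hg₀a, hg₀b⟩, hg₀G⟩ := ((ha.and hb).and hTG).exists
    have eA : (g₀⁻¹ : H) ℓ = a := by
      rw [← hg₀a]
      exact g₀.symm_apply_apply a
    have eB : (g₀⁻¹ : H) m = b := by
      rw [← hg₀b]
      exact g₀.symm_apply_apply b
    have hNA : (g₀⁻¹ : H) ⁻¹' A' ∈ 𝓝 ℓ := by
      apply (g₀⁻¹ : H).continuous.continuousAt
      rw [eA]
      exact hA'
    have hNB : (g₀⁻¹ : H) ⁻¹' B' ∈ 𝓝 m := by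
      apply (g₀⁻¹ : H).continuous.continuousAt
      rw [eB]
      exact hB'
    obtain ⟨g, ⟨⟨⟨hga, hgb⟩, hgG⟩, hgA⟩, hgB⟩ :=
      ((((ha.and hb).and hTG).and (hAN _ hNA)).and (hBN _ hNB)).exists
    have hka : (g₀⁻¹ * g) a = a := by
      show (g₀⁻¹ : H) (g a) = a
      rw [hga, eA]
    have hkb : (g₀⁻¹ * g) b = b := by
      show (g₀⁻¹ : H) (g b) = b
      rw [hgb, eB]
    obtain ⟨hne1, d, hda, hdb, hdd⟩ := hATRk (g₀⁻¹ * g) hka hkb (fun z hz => hgA z hz)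
      (fun z hz => hgB z hz)
    have hkG : g₀⁻¹ * g ∈ G := G.mul_mem (G.inv_mem hg₀G) hgG
    apply hne1
    refine hthree _ (G.mul_mem hkG hkG) a b d hab hdb.symm hda.symm ?_ ?_ hdd
    · show (g₀⁻¹ * g) ((g₀⁻¹ * g) a) = a
      rw [hka, hka]
    · show (g₀⁻¹ * g) ((g₀⁻¹ * g) b) = b
      rw [hkb, hkb]
  · exact hTRI u L ℓ ε hε hL hd hTM

end Pool.GC
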