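import Pool.Agent.Work.MP_ae1ff6_gc.Interface

/-!
# Invariant geodesic currents (MP_ae1ff6_gt): block NCH
-/

open Topology Filter Set MeasureTheory
open scoped ComplexConjugate ENNReal

set_option autoImplicit false

namespace Pool.GC

open Pool.CG

/-- the limit of a fixed point is one of the two points of NCL -/
theorem NCH_lim (u : Ultrafilter H) (γ : H) (p ℓ ζ η : Circle) (hp : γ p = p)
    (h : ∀ r : ℝ, 0 < r → ∀ᶠ g : H in u, ∀ z : Circle,
      (r ≤ dist z η → dist ((g * γ * g⁻¹) z) ζ < r) ∧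
      (r ≤ dist z ζ → dist ((g * γ * g⁻¹)⁻¹ z) η < r))
    (hl : Tendsto (fun g : H => g p) u (𝓝 ℓ)) : ℓ = ζ ∨ ℓ = η := by
  by_contra hc
  rw [not_or] at hc
  obtain ⟨h1, h2⟩ := hc
  have d1 : 0 < dist ℓ ζ := dist_pos.2 h1
  have d2 : 0 < dist ℓ η := dist_pos.2 h2
  set r := min (dist ℓ ζ) (dist ℓ η) / 2 with hr
  have hr0 : 0 < r := by
    have := lt_min d1 d2
    positivity
  have hr1 : 2 * r ≤ dist ℓ ζ := by
    have := min_le_left (dist ℓ ζ) (dist ℓ η)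
    rw [hr]
    linarith
  have hr2 : 2 * r ≤ dist ℓ η := by
    have := min_le_right (dist ℓ ζ) (dist ℓ η)
    rw [hr]
    linarith
  have e1 : ∀ᶠ g : H in u, dist (g p) ℓ < r := hl.eventually (Metric.ball_mem_nhds ℓ hr0)
  obtain ⟨g, hg1, hg2⟩ := (e1.and (h r hr0)).exists
  have hfix : (g * γ * g⁻¹) (g p) = g p := by
    show g (γ (g.symm (g p))) = g p
    rw [Homeomorph.symm_apply_apply, hp]
  have h3 : r ≤ dist (g p) η := by
    have := dist_triangle_left ℓ η (g p)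
    linarith
  have h4 := (hg2 (g p)).1 h3
  rw [hfix] at h4
  have h5 := dist_triangle_left ℓ ζ (g p)
  linarith

/-- **NCH** -/
theorem p_NCH (hNCL : Stmt_NCL) : Stmt_NCH := by
  intro Γ G u hΓ hN hG γ hγ p q ℓ m hax hδ hp hq hne
  obtain ⟨ζ, η, h⟩ := hNCL Γ u (fun g => g * γ * g⁻¹) hΓ (hG.mono fun g hg => hN g hg γ hγ) hδ
  have h' : ∀ r : ℝ, 0 < r → ∀ᶠ g : H in u, ∀ z : Circle,
      (r ≤ dist z η → dist ((g * γ * g⁻¹) z) ζ < r) ∧
      (r ≤ dist z ζ → dist ((g * γ * g⁻¹)⁻¹ z) η < r) := h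
  have hinv : ∀ g : H, (g * γ * g⁻¹)⁻¹ = g * γ⁻¹ * g⁻¹ := fun g => by group
  have a1 := NCH_lim u γ p ℓ ζ η ((hax.2 p).2 (Or.inl rfl)) h' hp
  have a2 := NCH_lim u γ q m ζ η ((hax.2 q).2 (Or.inr rfl)) h' hq
  rcases a1 with a1 | a1 <;> rcases a2 with a2 | a2
  · exact absurd (a1.trans a2.symm) hne
  · subst a1
    subst a2
    refine ⟨γ⁻¹, Or.inr rfl, fun r hr => ?_⟩
    filter_upwards [h' r hr] with g hg z
    obtain ⟨b1, b2⟩ := hg z
    rw [hinv g] at b2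
    rw [inv_inv]
    exact ⟨b2, b1⟩
  · subst a1
    subst a2
    refine ⟨γ, Or.inl rfl, fun r hr => ?_⟩
    filter_upwards [h' r hr] with g hg z
    obtain ⟨b1, b2⟩ := hg z
    rw [hinv g] at b2
    exact ⟨b1, b2⟩
  · exact absurd (a1.trans a2.symm) hne

end Pool.GC
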