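import Pool.Agent.Work.MP_ae1ff6_gc.Interface

/-!
# MP_ae1ff6_gt, block NCL: strong contraction (helper25)
-/

open Topology Filter Set MeasureTheory
open scoped ComplexConjugate ENNReal

set_option autoImplicit false

namespace Pool.GC

open Pool.CG

/-- uniform limits of Moebius maps whose parameters tend to infinity -/
theorem NCL_uni {l : Filter H} {h : H → H} {a b : H → ℂ} {ζ η : Circle}
    (hpar : ∀ᶠ g in l, Par (h g) (a g) (b g)) (hb : Tendsto (fun g => ‖b g‖) l atTop)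
    (hP : Tendsto (fun g => -conj (a g) / conj (b g)) l (𝓝 (η : ℂ)))
    (hA : Tendsto (fun g => a g / conj (b g)) l (𝓝 (ζ : ℂ))) (r : ℝ) (hr : 0 < r) :
    ∀ᶠ g in l, ∀ z : Circle, r ≤ dist z η → dist (h g z) ζ < r := by
  have hr2 : 0 < r / 2 := by linarith
  have e1 := Metric.tendsto_nhds.mp hP (r / 2) hr2
  have e2 := Metric.tendsto_nhds.mp hA (r / 2) hr2
  filter_upwards [hpar, hb.eventually_gt_atTop 0, hb.eventually_gt_atTop (2 / r), e1, e2]
    with g hg hbg hbr k1 k2 z hz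
  have hb0 : b g ≠ 0 := by
    intro h0
    rw [h0, norm_zero] at hbg
    exact lt_irrefl _ hbg
  have hcb : conj (b g) ≠ 0 := by
    intro h0
    exact hb0 ((map_eq_zero _).1 h0)
  have k := (mb1.2 _ _ _ hg).2.2.1 hb0 z
  have k3 : conj (b g) * (z : ℂ) + conj (a g)
      = conj (b g) * ((z : ℂ) - -conj (a g) / conj (b g)) := by
    field_simp
    ring
  rw [k3, norm_mul, RCLike.norm_conj] at k
  have k4 : ‖(h g z : ℂ) - a g / conj (b g)‖ =
      (‖b g‖ * (‖b g‖ * ‖(z : ℂ) - -conj (a g) / conj (b g)‖))⁻¹ := eq_inv_of_mul_eq_one_left k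
  have hz' : r ≤ ‖(z : ℂ) - (η : ℂ)‖ := by
    rw [← dist_eq_norm]
    exact hz
  have k5 : r / 2 ≤ ‖(z : ℂ) - -conj (a g) / conj (b g)‖ := by
    rw [dist_eq_norm] at k1
    have t : ‖(z : ℂ) - (η : ℂ)‖ ≤ ‖(z : ℂ) - -conj (a g) / conj (b g)‖
        + ‖-conj (a g) / conj (b g) - (η : ℂ)‖ := by
      have := norm_add_le ((z : ℂ) - -conj (a g) / conj (b g)) (-conj (a g) / conj (b g) - (η : ℂ))
      rwa [sub_add_sub_cancel] at this
    linarith
  have k6 : 2 < r * ‖b g‖ := by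
    rw [div_lt_iff₀ hr] at hbr
    linarith
  have k7 : 2 / r < ‖b g‖ * (‖b g‖ * ‖(z : ℂ) - -conj (a g) / conj (b g)‖) := by
    have k8 : 1 < ‖b g‖ * ‖(z : ℂ) - -conj (a g) / conj (b g)‖ := by
      have : ‖b g‖ * (r / 2) ≤ ‖b g‖ * ‖(z : ℂ) - -conj (a g) / conj (b g)‖ :=
        mul_le_mul_of_nonneg_left k5 hbg.le
      linarith
    have k9 : ‖b g‖ * 1 < ‖b g‖ * (‖b g‖ * ‖(z : ℂ) - -conj (a g) / conj (b g)‖) :=
      mul_lt_mul_of_pos_left k8 hbg
    linarith
  have k10 : (‖b g‖ * (‖b g‖ * ‖(z : ℂ) - -conj (a g) / conj (b g)‖))⁻¹ < r / 2 := by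
    have h2r : 0 < 2 / r := by positivity
    have := inv_strictAnti₀ h2r k7
    rwa [inv_div] at this
  show dist (h g z : ℂ) (ζ : ℂ) < r
  rw [dist_eq_norm] at k2 ⊢
  calc ‖(h g z : ℂ) - (ζ : ℂ)‖ = ‖((h g z : ℂ) - a g / conj (b g)) +
        (a g / conj (b g) - (ζ : ℂ))‖ := by rw [sub_add_sub_cancel]
    _ ≤ ‖(h g z : ℂ) - a g / conj (b g)‖ + ‖a g / conj (b g) - (ζ : ℂ)‖ := norm_add_le _ _
    _ < r := by
      rw [k4]
      linarith

theorem p_NCL : Stmt_NCL := by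
  intro Γ u F hΓ hF hcst
  have hpar : ∀ g : H, ∃ p : ℂ × ℂ, g ∈ Γ → Par g p.1 p.2 := by
    intro g
    by_cases hg : g ∈ Γ
    · obtain ⟨α, β, h⟩ := (mb1.1 g).1 (hΓ.mob g hg)
      exact ⟨(α, β), fun _ => h⟩
    · exact ⟨0, fun h => absurd h hg⟩
  choose P hP using hpar
  have evP : ∀ᶠ g in (u : Filter H), Par (F g) (P (F g)).1 (P (F g)).2 := by
    filter_upwards [hF] with g hg
    exact hP _ hg
  have hfin : ∀ R : ℝ, {g : H | g ∈ Γ ∧ ‖(P g).2‖ ≤ R}.Finite := by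
    intro R
    by_contra hc
    obtain ⟨ε, hε, hd⟩ := hΓ.discrete
    obtain ⟨g, hg, g', hg', hne', hnear⟩ := pig _ R hc (fun g hg => ⟨_, _, hP g hg.1, hg.2⟩) ε hε
    have := hd (g⁻¹ * g') (Γ.mul_mem (Γ.inv_mem hg.1) hg'.1) hnear
    exact hne' (inv_mul_eq_one.1 this)
  have hβ : Tendsto (fun g => ‖(P (F g)).2‖) (u : Filter H) atTop := by
    rw [tendsto_atTop]
    intro R
    have h1 : (⋃ δ ∈ {g : H | g ∈ Γ ∧ ‖(P g).2‖ ≤ R}, {g : H | F g = δ}) ∉ u := by
      intro hmem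
      obtain ⟨δ, -, hδ⟩ := (Ultrafilter.finite_biUnion_mem_iff (hfin R)).mp hmem
      exact hcst δ hδ
    have h2 := Ultrafilter.compl_mem_iff_notMem.mpr h1
    filter_upwards [h2, hF] with g k1 k2
    by_contra hc
    apply k1
    simp only [mem_iUnion]
    exact ⟨F g, ⟨k2, (not_le.1 hc).le⟩, rfl⟩
  have hrat : Tendsto (fun g => ‖(P (F g)).1‖ / ‖(P (F g)).2‖) (u : Filter H) (𝓝 1) := by
    have k1 : Tendsto (fun g => 1 + ‖(P (F g)).2‖⁻¹) (u : Filter H) (𝓝 1) := by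
      have := (tendsto_const_nhds (x := (1 : ℝ))).add hβ.inv_tendsto_atTop
      simpa using this
    refine tendsto_of_tendsto_of_tendsto_of_le_of_le' tendsto_const_nhds k1 ?_ ?_
    · filter_upwards [evP, hβ.eventually_gt_atTop 0] with g k2 k3
      rw [one_le_div k3]
      have k4 := k2.1
      by_contra hc
      rw [not_le] at hc
      nlinarith [norm_nonneg (P (F g)).1]
    · filter_upwards [evP, hβ.eventually_gt_atTop 0] with g k2 k3
      have k4 := (mb1.2 _ _ _ k2).2.2.2.1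
      rw [div_le_iff₀ k3, add_mul, one_mul, inv_mul_cancel₀ k3.ne']
      exact k4
  have hPn : Tendsto (fun g => ‖-conj (P (F g)).1 / conj (P (F g)).2‖) (u : Filter H) (𝓝 1) := by
    have : (fun g => ‖-conj (P (F g)).1 / conj (P (F g)).2‖)
        = fun g => ‖(P (F g)).1‖ / ‖(P (F g)).2‖ := by
      funext g
      rw [norm_div, norm_neg, RCLike.norm_conj, RCLike.norm_conj]
    rw [this]
    exact hrat
  have hAn : Tendsto (fun g => ‖(P (F g)).1 / conj (P (F g)).2‖) (u : Filter H) (𝓝 1) := by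
    have : (fun g => ‖(P (F g)).1 / conj (P (F g)).2‖)
        = fun g => ‖(P (F g)).1‖ / ‖(P (F g)).2‖ := by
      funext g
      rw [norm_div, RCLike.norm_conj]
    rw [this]
    exact hrat
  obtain ⟨η, hη⟩ := ATT_limit u hPn
  obtain ⟨ζ, hζ⟩ := ATT_limit u hAn
  refine ⟨ζ, η, fun r hr => ?_⟩
  have u1 := NCL_uni (h := F) evP hβ hη hζ r hr
  have u2 : ∀ᶠ g in (u : Filter H), ∀ z : Circle, r ≤ dist z ζ → dist ((F g)⁻¹ z) η < r := by
    refine NCL_uni (h := fun g => (F g)⁻¹) (a := fun g => conj (P (F g)).1)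
      (b := fun g => -(P (F g)).2) ?_ ?_ ?_ ?_ r hr
    · filter_upwards [evP] with g hg
      exact mb2.2.1 (F g) _ _ hg
    · simpa using hβ
    · have : (fun g => -conj (conj (P (F g)).1) / conj (-(P (F g)).2)) =
          fun g => (P (F g)).1 / conj (P (F g)).2 := by
        funext g
        rw [Complex.conj_conj, map_neg, neg_div_neg_eq]
      rw [this]
      exact hζ
    · have : (fun g => conj (P (F g)).1 / conj (-(P (F g)).2)) =
          fun g => -conj (P (F g)).1 / conj (P (F g)).2 := by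
        funext g
        rw [map_neg, div_neg, neg_div]
      rw [this]
      exact hη
  filter_upwards [u1, u2] with g h1 h2 z
  exact ⟨h1 z, h2 z⟩

end Pool.GC
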