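import Pool.Agent.Work.MP_ae1ff6_gc.Interface

/-!
# Invariant geodesic currents (MP_ae1ff6_gt): block ORI
-/

open Topology Filter Set MeasureTheory
open scoped ComplexConjugate ENNReal

set_option autoImplicit false

namespace Pool.GC

open Pool.CG

theorem ORI_succ (κ : ℝ ≃o ℝ) (ξ : ℝ) (n : ℤ) : (κ ^ (n + 1)) ξ = (κ ^ n) (κ ξ) := by
  rw [zpow_add_one]; rfl

theorem ORI_succ' (κ : ℝ ≃o ℝ) (ξ : ℝ) (n : ℤ) : (κ ^ (n + 1)) ξ = κ ((κ ^ n) ξ) := by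
  rw [← mul_self_zpow]; rfl

theorem ORI_fix (κ : ℝ ≃o ℝ) (α : ℝ) (h : κ α = α) (n : ℤ) : (κ ^ n) α = α := by
  induction n using Int.induction_on with
  | zero => rw [zpow_zero]; rfl
  | succ n ih => rw [ORI_succ, h, ih]
  | pred n ih =>
    have h1 := ORI_succ κ α (-(n : ℤ) - 1)
    rw [h, sub_add_cancel, ih] at h1
    exact h1.symm

theorem ORI_mono (κ : ℝ ≃o ℝ) (ξ : ℝ) (h : ξ < κ ξ) : StrictMono fun n : ℤ => (κ ^ n) ξ := by
  refine strictMono_int_of_lt_succ fun n => ?_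
  show (κ ^ n) ξ < (κ ^ (n + 1)) ξ
  rw [ORI_succ]
  exact (κ ^ n).strictMono h

theorem p_ORI : Stmt_ORI := by
  intro κ α β ξ hα hβ h1 h2 h3
  set x : ℤ → ℝ := fun n => (κ ^ n) ξ with hx
  have hm : StrictMono x := ORI_mono κ ξ h3
  have hl : ∀ n, α < x n := fun n => by
    have h := (κ ^ n).strictMono h1
    rwa [ORI_fix κ α hα n] at h
  have hr : ∀ n, x n < β := fun n => by
    have h := (κ ^ n).strictMono h2
    rwa [ORI_fix κ β hβ n] at h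
  have hbb : BddBelow (range x) := ⟨α, by rintro _ ⟨n, rfl⟩; exact (hl n).le⟩
  have hba : BddAbove (range x) := ⟨β, by rintro _ ⟨n, rfl⟩; exact (hr n).le⟩
  have hs : ∀ n, (⨅ m, x m) < x n := fun n =>
    lt_of_le_of_lt (ciInf_le hbb (n - 1)) (hm (by omega))
  have ht : ∀ n, x n < ⨆ m, x m := fun n =>
    lt_of_lt_of_le (hm (by omega)) (le_ciSup hba (n + 1))
  have h0 : x 0 = ξ := by
    show (κ ^ (0 : ℤ)) ξ = ξ
    rw [zpow_zero]; rfl
  have h10 : x 1 = κ ξ := by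
    show (κ ^ (1 : ℤ)) ξ = κ ξ
    rw [zpow_one]
  have hκ : ∀ n, κ (x n) = x (n + 1) := fun n => (ORI_succ' κ ξ n).symm
  refine ⟨⨅ m, x m, ⨆ m, x m, le_ciInf fun n => (hl n).le, h0 ▸ hs 0, h10 ▸ ht 1,
    ciSup_le fun n => (hr n).le, ?_, ?_, ?_, ?_, ?_⟩
  · rw [OrderIso.map_ciInf κ hbb]
    simp_rw [hκ]
    exact (Equiv.addRight (1 : ℤ)).iInf_comp (g := x)
  · rw [OrderIso.map_ciSup κ hba]
    simp_rw [hκ]
    exact (Equiv.addRight (1 : ℤ)).iSup_comp (g := x)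
  · apply Subset.antisymm
    · rintro y ⟨hy1, hy2⟩
      obtain ⟨n, hn⟩ := exists_lt_of_ciInf_lt hy1
      obtain ⟨m, hm'⟩ := exists_lt_of_lt_ciSup hy2
      obtain ⟨b, hb1, hb2⟩ := Int.exists_greatest_of_bdd (P := fun z => x z ≤ y)
        ⟨m, fun z hz => (hm.lt_iff_lt.1 (lt_of_le_of_lt hz hm')).le⟩ ⟨n, hn.le⟩
      refine mem_iUnion.2 ⟨b, hb1, ?_⟩
      by_contra hc
      have := hb2 (b + 1) (not_lt.1 hc)
      omega
    · intro y hy
      obtain ⟨n, hn⟩ := mem_iUnion.1 hy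
      exact ⟨lt_of_lt_of_le (hs n) hn.1, lt_trans hn.2 (ht (n + 1))⟩
  · exact hm.monotone.pairwise_disjoint_on_Ico_succ
  · intro n
    rw [OrderIso.image_Ico, ORI_succ]

end Pool.GC
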