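import Pool.Agent.Work.MP_ae1ff6_gc.Interface2

/-! # Block PE1 (helper51): the ends of a plateau -/

open Topology Filter Set MeasureTheory
open scoped ComplexConjugate ENNReal

set_option autoImplicit false

namespace Pool.GC

open Pool.CG

/-- `Link` for two ends of a long interval: the two points are in different arcs -/
theorem PE1_arcs (i j : ℝ) (hij : i < j) (hji : j < i + 2 * Real.pi) (x y : Circle)
    (h : Link (Circle.exp i) (Circle.exp j) x y) :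
    ((∃ ξ ∈ Ioo i j, Circle.exp ξ = x) ∧ ∃ υ ∈ Ioo j (i + 2 * Real.pi), Circle.exp υ = y) ∨
    ((∃ ξ ∈ Ioo i j, Circle.exp ξ = y) ∧ ∃ υ ∈ Ioo j (i + 2 * Real.pi), Circle.exp υ = x) := by
  have hinj : InjOn Circle.exp (Ico i (i + 2 * Real.pi)) := Circle.exp_injOn_Ico (by linarith)
  have hi : i ∈ Ico i (i + 2 * Real.pi) := ⟨le_rfl, by linarith⟩
  have hj : j ∈ Ico i (i + 2 * Real.pi) := ⟨hij.le, hji⟩
  have key : ∀ z : Circle, z ≠ Circle.exp i → z ≠ Circle.exp j →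
      (∃ ξ ∈ Ioo i j, Circle.exp ξ = z) ∨ ∃ υ ∈ Ioo j (i + 2 * Real.pi), Circle.exp υ = z := by
    intro z hz1 hz2
    obtain ⟨ξ, hξ, rfl⟩ := ARC_surj i z
    have h1 : i < ξ := lt_of_le_of_ne hξ.1 (fun e => hz1 (e ▸ rfl))
    rcases lt_trichotomy ξ j with h2 | h2 | h2
    · exact Or.inl ⟨ξ, ⟨h1, h2⟩, rfl⟩
    · exact absurd (h2 ▸ rfl) hz2
    · exact Or.inr ⟨ξ, ⟨h2, hξ.2⟩, rfl⟩
  obtain ⟨⟨hx1, hx2⟩, ⟨hy1, hy2⟩, hT⟩ := h
  rcases key x hx1 hx2 with h1 | h1 <;> rcases key y hy1 hy2 with h2 | h2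
  · exfalso
    obtain ⟨ξ, hξ, rfl⟩ := h1
    obtain ⟨υ, hυ, rfl⟩ := h2
    rcases hT (Circle.exp '' Ioo i j) (isPreconnected_Ioo.image _ Circle.exp.continuous.continuousOn)
      ⟨ξ, hξ, rfl⟩ ⟨υ, hυ, rfl⟩ with ⟨w, hw, hwe⟩ | ⟨w, hw, hwe⟩
    · have := hinj ⟨hw.1.le, by linarith [hw.2]⟩ hi hwe
      linarith [hw.1]
    · have := hinj ⟨hw.1.le, by linarith [hw.2]⟩ hj hwe
      linarith [hw.2]
  · exact Or.inl ⟨h1, h2⟩
  · exact Or.inr ⟨h2, h1⟩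
  · exfalso
    obtain ⟨ξ, hξ, rfl⟩ := h1
    obtain ⟨υ, hυ, rfl⟩ := h2
    rcases hT (Circle.exp '' Ioo j (i + 2 * Real.pi))
      (isPreconnected_Ioo.image _ Circle.exp.continuous.continuousOn)
      ⟨ξ, hξ, rfl⟩ ⟨υ, hυ, rfl⟩ with ⟨w, hw, hwe⟩ | ⟨w, hw, hwe⟩
    · have := hinj ⟨by linarith [hw.1], hw.2⟩ hi hwe
      linarith [hw.1]
    · have := hinj ⟨by linarith [hw.1], hw.2⟩ hj hwe
      linarith [hw.1]

theorem p_PE1 (hCUT : Stmt_CUT) : Stmt_PE1 := by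
  intro L ℓ y1 y2 hD hy hL1 hL2 hL
  obtain ⟨θ, η, hθη, hηθ, rfl, rfl⟩ := LOP_param y1 y2 hy
  have hpi : (0 : ℝ) < 2 * Real.pi := Real.two_pi_pos
  set A : Set ℝ := {x | θ < x ∧ x < θ + 2 * Real.pi ∧ L (Circle.exp x) = ℓ} with hA
  have hconv : ∀ α ∈ A, ∀ β ∈ A, ∀ x, α < x → x < β → x ∈ A := by
    intro α hα β hβ x hx1 hx2
    refine ⟨hα.1.trans hx1, hx2.trans hβ.2.1, ?_⟩
    have h1 := hCUT θ α β hα.1 (hx1.trans hx2) hβ.2.1
    have h2 : Circle.exp x ∈ Circle.exp '' Ioo α β := ⟨x, ⟨hx1, hx2⟩, rfl⟩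
    rw [← h1] at h2
    exact hL _ _ _ _ hα.2.2 hβ.2.2 hL1 h2
  obtain ⟨a, b, hab, hLa, hLb⟩ := hD
  have hpar : ∀ z : Circle, L z = ℓ → ∃ x ∈ A, Circle.exp x = z := by
    intro z hz
    obtain ⟨x, hx, rfl⟩ := ARC_surj θ z
    refine ⟨x, ⟨lt_of_le_of_ne hx.1 ?_, hx.2, hz⟩, rfl⟩
    intro e
    rw [← e] at hz
    exact hL1 hz
  obtain ⟨a', ha', rfl⟩ := hpar a hLa
  obtain ⟨b', hb', rfl⟩ := hpar b hLb
  have hab' : a' ≠ b' := fun e => hab (e ▸ rfl)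
  have hne : A.Nonempty := ⟨a', ha'⟩
  have hbb : BddBelow A := ⟨θ, fun x hx => hx.1.le⟩
  have hba : BddAbove A := ⟨θ + 2 * Real.pi, fun x hx => hx.2.1.le⟩
  set i := sInf A with hi
  set j := sSup A with hj
  have hia : i ≤ a' := csInf_le hbb ha'
  have hib : i ≤ b' := csInf_le hbb hb'
  have haj : a' ≤ j := le_csSup hba ha'
  have hbj : b' ≤ j := le_csSup hba hb'
  have hij : i < j := by
    rcases lt_or_gt_of_ne hab' with h | h
    · exact lt_of_le_of_lt hia (lt_of_lt_of_le h hbj)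
    · exact lt_of_le_of_lt hib (lt_of_lt_of_le h haj)
  have hθi : θ ≤ i := le_csInf hne fun x hx => hx.1.le
  have hjθ : j ≤ θ + 2 * Real.pi := csSup_le hne fun x hx => hx.2.1.le
  have hin : ∀ x, i < x → x < j → x ∈ A := by
    intro x h1 h2
    obtain ⟨α, hα, hαx⟩ := exists_lt_of_csInf_lt hne h1
    obtain ⟨β, hβ, hβx⟩ := exists_lt_of_lt_csSup hne h2
    exact hconv α hα β hβ x hαx hβx
  have hηA : η ∉ A := fun h => hL2 h.2.2
  have hji : j < i + 2 * Real.pi := by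
    rcases le_or_gt η i with h | h
    · linarith
    · rcases le_or_gt j η with h' | h'
      · linarith
      · exact absurd (hin η h h') hηA
  have hout : ∀ υ, j < υ → υ < i + 2 * Real.pi → L (Circle.exp υ) ≠ ℓ := by
    intro υ h1 h2 h3
    rcases lt_trichotomy υ (θ + 2 * Real.pi) with h | h | h
    · have : υ ∈ A := ⟨by linarith, h, h3⟩
      linarith [le_csSup hba this]
    · rw [h, Circle.exp_add_two_pi] at h3
      exact hL1 h3
    · have : υ - 2 * Real.pi ∈ A := ⟨by linarith, by linarith, by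
        rw [Circle.exp_sub_two_pi]; exact h3⟩
      linarith [csInf_le hbb this]
  have main : ∀ ξ υ : ℝ, ξ ∈ Ioo i j → υ ∈ Ioo j (i + 2 * Real.pi) →
      InOut L ℓ (Circle.exp ξ) (Circle.exp υ) := by
    intro ξ υ hξ hυ
    obtain ⟨α, hα1, hα2⟩ := exists_between hξ.1
    obtain ⟨α', hα'1, hα'2⟩ := exists_between hξ.2
    obtain ⟨β, hβ1, hβ2⟩ := exists_between hυ.1
    obtain ⟨β', hβ'1, hβ'2⟩ := exists_between hυ.2
    refine ⟨Circle.exp α, Circle.exp α', Circle.exp β, Circle.exp β',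
      (hin α hα1 (by linarith)).2.2, (hin α' (by linarith) hα'2).2.2,
      hout β hβ1 (by linarith), hout β' (by linarith) hβ'2, ?_, ?_⟩
    · exact (arc α α' (by linarith) (by linarith)).2 _ ⟨ξ, ⟨hα2, hα'1⟩, rfl⟩ _
        ⟨β, ⟨by linarith, by linarith⟩, rfl⟩
    · have h1 := (arc β β' (by linarith) (by linarith)).2 (Circle.exp υ) ⟨υ, ⟨hβ2, hβ'1⟩, rfl⟩
        (Circle.exp (α + 2 * Real.pi)) ⟨α + 2 * Real.pi, ⟨by linarith, by linarith⟩, rfl⟩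
      rwa [Circle.exp_add_two_pi] at h1
  refine ⟨Circle.exp i, Circle.exp j, ?_, ?_⟩
  · intro e
    have hinj : InjOn Circle.exp (Ico i (i + 2 * Real.pi)) := Circle.exp_injOn_Ico (by linarith)
    have := hinj ⟨le_rfl, by linarith⟩ ⟨hij.le, hji⟩ e
    linarith
  · intro x y hxy
    rcases PE1_arcs i j hij hji x y hxy with ⟨⟨ξ, hξ, rfl⟩, υ, hυ, rfl⟩ | ⟨⟨ξ, hξ, rfl⟩, υ, hυ, rfl⟩
    · exact Or.inl (main ξ υ hξ hυ)
    · exact Or.inr (main ξ υ hξ hυ)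

end Pool.GC
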