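import Pool.Agent.Work.MP_ae1ff6_gc.Interface2

/-!
# Invariant geodesic currents (MP_ae1ff6_gt): block PE2
-/

open Topology Filter Set MeasureTheory
open scoped ComplexConjugate ENNReal

set_option autoImplicit false

namespace Pool.GC

open Pool.CG

theorem PE2_ne (a b c d : Circle) (h : Link a b c d) : c ≠ d := by
  rintro rfl
  obtain ⟨⟨h1, h2⟩, -, h3⟩ := h
  rcases h3 {c} isPreconnected_singleton rfl rfl with h4 | h4
  · exact h1 (mem_singleton_iff.1 h4).symm
  · exact h2 (mem_singleton_iff.1 h4).symm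

theorem PE2_open (h1 : Stmt_LNO) (a b d : Circle) : IsOpen {z : Circle | Link a b z d} := by
  have h2 : Continuous fun z : Circle => (((a, b), (z, d)) : (Circle × Circle) × (Circle × Circle)) := by
    fun_prop
  exact h1.1.preimage h2

/-- block PE2 -/
theorem p_PE2 (h1 : Stmt_LNO) : Stmt_PE2 := by
  intro μ L ℓ i1 i2 hC hF hi hIO
  by_contra hcon
  have key : ∀ x y : Circle, x ≠ y → InOut L ℓ x y → ∃ A B : Set Circle, IsOpen A ∧ IsOpen B ∧
      x ∈ A ∧ y ∈ B ∧ μ (A ×ˢ B) = 0 := by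
    rintro x y hxy ⟨α, α', β, β', e1, e2, e3, e4, l1, l2⟩
    have hd : 0 < dist x y / 3 := by
      have := dist_pos.2 hxy
      positivity
    refine ⟨{z | Link α α' z β} ∩ Metric.ball x (dist x y / 3),
      {z | Link β β' z α} ∩ Metric.ball y (dist x y / 3),
      (PE2_open h1 _ _ _).inter Metric.isOpen_ball, (PE2_open h1 _ _ _).inter Metric.isOpen_ball,
      ⟨l1, Metric.mem_ball_self hd⟩, ⟨l2, Metric.mem_ball_self hd⟩, ?_⟩
    by_contra h0
    apply hcon
    refine ⟨α, α', β, β', e1, e2, e3, e4, _, _, (PE2_open h1 _ _ _).inter Metric.isOpen_ball,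
      (PE2_open h1 _ _ _).inter Metric.isOpen_ball, inter_subset_left, inter_subset_left,
      ⟨dist x y / 3, hd, ?_⟩, pos_iff_ne_zero.2 h0⟩
    rintro a ⟨-, ha⟩ b ⟨-, hb⟩
    rw [Metric.mem_ball] at ha hb
    have h3 := dist_triangle4 x a b y
    rw [dist_comm x a] at h3
    linarith
  have hE : μ {x : Circle × Circle | Link i1 i2 x.1 x.2} = 0 := by
    refine measure_null_of_locally_null _ ?_
    rintro ⟨x, y⟩ hxy
    have hne : x ≠ y := PE2_ne _ _ _ _ hxy
    rcases hIO x y hxy with h | h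
    · obtain ⟨A, B, hA, hB, hx, hy, h0⟩ := key x y hne h
      exact ⟨A ×ˢ B, mem_nhdsWithin_of_mem_nhds ((hA.prod hB).mem_nhds ⟨hx, hy⟩), h0⟩
    · obtain ⟨A, B, hA, hB, hy, hx, h0⟩ := key y x hne.symm h
      refine ⟨B ×ˢ A, mem_nhdsWithin_of_mem_nhds ((hB.prod hA).mem_nhds ⟨hx, hy⟩), ?_⟩
      have h4 : μ (B ×ˢ A) = μ.map Prod.swap (B ×ˢ A) := by rw [hC.flip]
      rw [h4, Measure.map_apply measurable_swap (hB.measurableSet.prod hA.measurableSet),
        Set.preimage_swap_prod, h0]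
  exact (hF i1 i2 hi).ne' hE

end Pool.GC
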