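import Pool.Agent.Work.MP_ae1ff6_gc.Interface

/-! Block PLT of MP_ae1ff6_gc: plateaus -/

open Topology Filter Set MeasureTheory
open scoped ComplexConjugate ENNReal

set_option autoImplicit false

namespace Pool.GC

open Pool.CG

theorem PLT_ne (x y : ℝ) (h1 : x < y) (h2 : y < x + 2 * Real.pi) : Circle.exp x ≠ Circle.exp y := by
  intro h
  have hpi : (0 : ℝ) < 2 * Real.pi := Real.two_pi_pos
  obtain ⟨m, hm⟩ := Circle.exp_eq_exp.1 h
  have h3 : (m : ℝ) * (2 * Real.pi) < 0 := by linarith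
  have h4 : -(2 * Real.pi) < (m : ℝ) * (2 * Real.pi) := by linarith
  have h5 : (m : ℝ) < 0 := by
    by_contra h6
    have : 0 ≤ (m : ℝ) * (2 * Real.pi) := mul_nonneg (not_lt.1 h6) hpi.le
    linarith
  have h6 : (-1 : ℝ) < m := by
    by_contra h7
    have : (m : ℝ) * (2 * Real.pi) ≤ (-1) * (2 * Real.pi) :=
      mul_le_mul_of_nonneg_right (not_lt.1 h7) hpi.le
    linarith
  have h7 : m < 0 := by exact_mod_cast h5
  have h8 : (-1 : ℤ) < m := by exact_mod_cast h6
  omega

theorem PLT_all (s : ℝ) (z : Circle) (h : z ≠ Circle.exp s) :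
    z ∈ Circle.exp '' Ioo s (s + 2 * Real.pi) := by
  obtain ⟨s', t', h1, h2, h3, h4⟩ := LOP_param (Circle.exp s) z (Ne.symm h)
  obtain ⟨m, hm⟩ := Circle.exp_eq_exp.1 h3
  refine ⟨t' - m * (2 * Real.pi), ⟨by linarith, by linarith⟩, ?_⟩
  rw [← h4]
  exact Circle.periodic_exp.sub_int_mul_eq m

theorem PLT_side (s t : ℝ) (z : Circle) (h1 : z ≠ Circle.exp s) (h2 : z ≠ Circle.exp t) :
    z ∈ Circle.exp '' Ioo s t ∨ z ∈ Circle.exp '' Ioo t (s + 2 * Real.pi) := by
  obtain ⟨x, hx, rfl⟩ := PLT_all s z h1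
  rcases lt_trichotomy x t with h | h | h
  · exact Or.inl ⟨x, ⟨hx.1, h⟩, rfl⟩
  · exact absurd (by rw [h]) h2
  · exact Or.inr ⟨x, ⟨h, hx.2⟩, rfl⟩

theorem PLT_same (α β : ℝ) (a b c d : Circle) (ha : a ∉ Circle.exp '' Ioo α β)
    (hb : b ∉ Circle.exp '' Ioo α β) (hc : c ∈ Circle.exp '' Ioo α β)
    (hd : d ∈ Circle.exp '' Ioo α β) : ¬ Link a b c d :=
  fun h => (h.2.2 _ (isPreconnected_Ioo.image _ Circle.exp.continuous.continuousOn) hc hd).elim
    ha hb

theorem PLT_diag (a c d : Circle) : ¬ Link a a c d := by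
  intro h
  obtain ⟨s, hs⟩ : ∃ s : ℝ, Circle.exp s = a := ⟨Complex.arg (a : ℂ), Circle.exp_arg a⟩
  subst hs
  have h1 : Circle.exp s ∉ Circle.exp '' Ioo s (s + 2 * Real.pi) := by
    rintro ⟨x, hx, h2⟩
    exact PLT_ne s x hx.1 hx.2 h2.symm
  exact PLT_same _ _ _ _ _ _ h1 h1 (PLT_all s c h.1.1) (PLT_all s d h.2.1.1) h

/-- if `w` is neither `exp s` nor `exp t`, then the points separated from `w` by `exp s`, `exp t` are
an arc, so they are a nonempty open set -/
theorem PLT_arc (s t : ℝ) (hst : s < t) (hts : t < s + 2 * Real.pi) (w : Circle)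
    (h1 : w ≠ Circle.exp s) (h2 : w ≠ Circle.exp t) :
    IsOpen {z : Circle | Link (Circle.exp s) (Circle.exp t) z w} ∧
      {z : Circle | Link (Circle.exp s) (Circle.exp t) z w}.Nonempty := by
  have ha := (arc s t hst hts).2
  have hs1 : Circle.exp s ∉ Circle.exp '' Ioo s t := by
    rintro ⟨x, hx, h⟩
    exact PLT_ne s x hx.1 (by linarith [hx.2]) h.symm
  have ht1 : Circle.exp t ∉ Circle.exp '' Ioo s t := by
    rintro ⟨x, hx, h⟩
    exact PLT_ne x t hx.2 (by linarith [hx.1]) h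
  have hs2 : Circle.exp s ∉ Circle.exp '' Ioo t (s + 2 * Real.pi) := by
    rintro ⟨x, hx, h⟩
    exact PLT_ne s x (by linarith [hx.1]) (by linarith [hx.2]) h.symm
  have ht2 : Circle.exp t ∉ Circle.exp '' Ioo t (s + 2 * Real.pi) := by
    rintro ⟨x, hx, h⟩
    exact PLT_ne t x hx.1 (by linarith [hx.2]) h.symm
  rcases PLT_side s t w h1 h2 with hw | hw
  · have hset : {z : Circle | Link (Circle.exp s) (Circle.exp t) z w} =
        Circle.exp '' Ioo t (s + 2 * Real.pi) := by
      ext z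
      constructor
      · intro hz
        rcases PLT_side s t z hz.1.1 hz.1.2 with h | h
        · exact absurd hz (PLT_same _ _ _ _ _ _ hs1 ht1 h hw)
        · exact h
      · intro hz
        have h3 := ha w hw z hz
        exact ⟨h3.2.1, h3.1, fun T hT hz' hw' => h3.2.2 T hT hw' hz'⟩
    rw [hset]
    refine ⟨?_, ⟨_, (t + (s + 2 * Real.pi)) / 2, ⟨by linarith, by linarith⟩, rfl⟩⟩
    exact (arc t (s + 2 * Real.pi) hts (by linarith)).1
  · have hset : {z : Circle | Link (Circle.exp s) (Circle.exp t) z w} =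
        Circle.exp '' Ioo s t := by
      ext z
      constructor
      · intro hz
        rcases PLT_side s t z hz.1.1 hz.1.2 with h | h
        · exact h
        · exact absurd hz (PLT_same _ _ _ _ _ _ hs2 ht2 h hw)
      · intro hz
        exact ha z hz w hw
    rw [hset]
    exact ⟨(arc s t hst hts).1, ⟨_, (s + t) / 2, ⟨by linarith, by linarith⟩, rfl⟩⟩

theorem p_PLT : Stmt_PLT := by
  classical
  intro u x1 x2 w ℓ w' hne h1 h2 hw
  have hw1 : w ≠ x1 := by
    rintro rfl
    exact hne (tendsto_nhds_unique h1 hw)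
  have hw2 : w ≠ x2 := by
    rintro rfl
    exact hne (tendsto_nhds_unique h2 hw)
  refine ⟨?_, ?_, ?_⟩
  · rcases eq_or_ne x1 x2 with rfl | hx
    · have : {z : Circle | Link x1 x1 z w} = ∅ := by
        ext z
        simp only [mem_empty_iff_false, iff_false]
        exact PLT_diag x1 z w
      rw [this]
      exact isOpen_empty
    · obtain ⟨s, t, hst, hts, rfl, rfl⟩ := LOP_param x1 x2 hx
      exact (PLT_arc s t hst hts w hw1 hw2).1
  · intro hx
    obtain ⟨s, t, hst, hts, rfl, rfl⟩ := LOP_param x1 x2 hx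
    exact (PLT_arc s t hst hts w hw1 hw2).2
  · intro N hN
    by_contra hcon
    have h3 : ∀ᶠ g : H in u, ¬ ∀ z : Circle, Link x1 x2 z w → g z ∈ N :=
      Ultrafilter.eventually_not.2 hcon
    have hch : ∀ g : H, ∃ z : Circle, (¬ ∀ z : Circle, Link x1 x2 z w → g z ∈ N) →
        Link x1 x2 z w ∧ g z ∉ N := by
      intro g
      by_cases hg : ∀ z : Circle, Link x1 x2 z w → g z ∈ N
      · exact ⟨1, fun h => absurd hg h⟩
      · push Not at hg
        obtain ⟨z, hz1, hz2⟩ := hg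
        exact ⟨z, fun _ => ⟨hz1, hz2⟩⟩
    choose z hz using hch
    obtain ⟨v, hv⟩ := BDC_lim u (fun g => g (z g))
    have h4 := lfv H (u : Filter H) (fun g => g x1) (fun g => g x2) (fun g => g (z g))
      (fun g => g w) ℓ v w' h1 h2 hv hw (by
        filter_upwards [h3] with g hg
        exact lhi g _ _ _ _ (hz g hg).1)
    rcases h4 with h4 | h4
    · subst h4
      have h5 : ∀ᶠ g : H in u, g (z g) ∈ N := hv hN
      obtain ⟨g, hg1, hg2⟩ := (h5.and h3).exists
      exact (hz g hg2).2 hg1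
    · exact hne h4

end Pool.GC
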