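import Pool.Agent.Work.MP_ae1ff6_gc.Interface

/-!
# Block PNE
-/

open Topology Filter Set MeasureTheory
open scoped ComplexConjugate ENNReal

set_option autoImplicit false

namespace Pool.GC

open Pool.CG

theorem PNE_fix {γ γ' : H} {p q : Circle} (hA : Axis γ p q) (h : γ' = γ ∨ γ' = γ⁻¹) :
    γ' p = p ∧ γ' q = q ∧ γ'⁻¹ p = p ∧ γ'⁻¹ q = q := by
  have hp : γ p = p := (hA.2 p).mpr (Or.inl rfl)
  have hq : γ q = q := (hA.2 q).mpr (Or.inr rfl)
  have hp' : γ⁻¹ p = p := by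
    have : γ⁻¹ (γ p) = p := γ.symm_apply_apply p
    rwa [hp] at this
  have hq' : γ⁻¹ q = q := by
    have : γ⁻¹ (γ q) = q := γ.symm_apply_apply q
    rwa [hq] at this
  rcases h with rfl | rfl
  · exact ⟨hp, hq, hp', hq'⟩
  · rw [inv_inv]
    exact ⟨hp', hq', hp, hq⟩

/-- contraction carries the limit at `x` to the limit at `κ x` -/
theorem PNE_lim (u : Ultrafilter H) (L : Circle → Circle)
    (hL : ∀ z, Tendsto (fun g : H => g z) u (𝓝 (L z))) (κ : H) (a b x : Circle) (hx : L x ≠ a)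
    (hc : ∀ r : ℝ, 0 < r → ∀ᶠ g : H in u, ∀ z : Circle,
      r ≤ dist z a → dist ((g * κ * g⁻¹) z) b < r) : L (κ x) = b := by
  have h1 : Tendsto (fun g : H => g (κ x)) u (𝓝 b) := by
    rw [Metric.tendsto_nhds]
    intro ε hε
    have hd : 0 < dist (L x) a := dist_pos.mpr hx
    have hr : 0 < min ε (dist (L x) a / 2) := lt_min hε (by linarith)
    have h2 := (Metric.tendsto_nhds.mp (hL x)) (dist (L x) a / 2) (by linarith)
    filter_upwards [hc _ hr, h2] with g hg hgx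
    have h3 : min ε (dist (L x) a / 2) ≤ dist (g x) a := by
      have h4 : dist (L x) a ≤ dist (L x) (g x) + dist (g x) a := dist_triangle _ _ _
      rw [dist_comm (L x) (g x)] at h4
      have h5 : min ε (dist (L x) a / 2) ≤ dist (L x) a / 2 := min_le_right _ _
      linarith
    have h6 := hg (g x) h3
    have h7 : (g * κ * g⁻¹) (g x) = g (κ x) := by
      show g (κ (g.symm (g x))) = g (κ x)
      rw [g.symm_apply_apply]
    rw [h7] at h6
    exact lt_of_lt_of_le h6 (min_le_left _ _)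
  exact tendsto_nhds_unique (hL (κ x)) h1

theorem p_PNE (hNCH : Stmt_NCH) : Stmt_PNE := by
  intro Γ G u L hΓ hn hG hL γ hγ p q hA hconst hpq x hxp hxq
  obtain ⟨γ', hγ', hc⟩ := hNCH Γ G u hΓ hn hG γ hγ p q (L p) (L q) hA hconst (hL p) (hL q) hpq
  obtain ⟨f1, f2, f3, f4⟩ := PNE_fix hA hγ'
  have e1 : L (γ' x) = L q := PNE_lim u L hL γ' (L p) (L q) x hxp (fun r hr => by
    filter_upwards [hc r hr] with g hg z hz
    exact (hg z).1 hz)
  have e2 : L (γ'⁻¹ x) = L p := PNE_lim u L hL γ'⁻¹ (L q) (L p) x hxq (fun r hr => by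
    filter_upwards [hc r hr] with g hg z hz
    exact (hg z).2 hz)
  refine ⟨⟨p, γ'⁻¹ x, ?_, rfl, e2⟩, ⟨q, γ' x, ?_, rfl, e1⟩⟩
  · intro h
    have h1 : γ'⁻¹ p = γ'⁻¹ x := by rw [f3]; exact h
    exact hxp (by rw [γ'⁻¹.injective h1])
  · intro h
    have h1 : γ' q = γ' x := by rw [f2]; exact h
    exact hxq (by rw [γ'.injective h1])

end Pool.GC
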