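import Pool.Agent.Work.MP_ae1ff6_gc.Interface2

/-! # SDF: an element of `G` with four fixed points is trivial -/

open Topology Filter Set MeasureTheory
open scoped ComplexConjugate ENNReal

set_option autoImplicit false

namespace Pool.GC

open Pool.CG

theorem SDF_inj (θ : ℝ) : InjOn Circle.exp (Ico θ (θ + 2 * Real.pi)) :=
  Circle.exp_injOn_Ico (by linarith)

/-- four fixed points in their order on the circle -/
theorem SDF_order (k : H) (e : Fin 4 → Circle) (he : Function.Injective e)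
    (hk : ∀ i, k (e i) = e i) : ∃ θ : Fin 4 → ℝ, StrictMono θ ∧ θ 3 < θ 0 + 2 * Real.pi ∧
      ∀ i, k (Circle.exp (θ i)) = Circle.exp (θ i) := by
  classical
  choose a ha hae using fun i => ARC_surj 0 (e i)
  have hinj : Function.Injective a := by
    intro i j hij
    apply he
    rw [← hae i, ← hae j, hij]
  have hcard : (Finset.univ.image a).card = 4 := by
    rw [Finset.card_image_of_injective _ hinj, Finset.card_univ, Fintype.card_fin]
  have hmem : ∀ i, (Finset.univ.image a).orderEmbOfFin hcard i ∈ Finset.univ.image a :=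
    fun i => Finset.orderEmbOfFin_mem _ hcard i
  have hmem' : ∀ i, ∃ j, a j = (Finset.univ.image a).orderEmbOfFin hcard i := by
    intro i
    obtain ⟨j, -, hj⟩ := Finset.mem_image.1 (hmem i)
    exact ⟨j, hj⟩
  refine ⟨fun i => (Finset.univ.image a).orderEmbOfFin hcard i,
    ((Finset.univ.image a).orderEmbOfFin hcard).strictMono, ?_, fun i => ?_⟩
  · obtain ⟨j, hj⟩ := hmem' 3
    obtain ⟨l, hl⟩ := hmem' 0
    have h1 := (ha j).2
    have h2 := (ha l).1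
    simp only [← hj, ← hl]
    linarith
  · obtain ⟨j, hj⟩ := hmem' i
    simp only [← hj]
    rw [hae j]
    exact hk j

theorem SDF_link_self (a b c : Circle) (h1 : c ≠ a) (h2 : c ≠ b) : ¬ Link a b c c := by
  intro h
  rcases h.2.2 {c} isPreconnected_singleton rfl rfl with h3 | h3
  · exact h1 (mem_singleton_iff.1 h3).symm
  · exact h2 (mem_singleton_iff.1 h3).symm

/-- powers of `k` on an arc between two fixed points of the lift -/
theorem SDF_arc (k : H) (κ : ℝ ≃o ℝ) (θ : ℝ)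
    (hκ : ∀ x ∈ Icc θ (θ + 2 * Real.pi), Circle.exp (κ x) = k (Circle.exp x)) (s t : ℝ)
    (hs : κ s = s) (ht : κ t = t) (h1 : θ ≤ s) (h2 : t ≤ θ + 2 * Real.pi) (n : ℕ) :
    ∀ p ∈ Circle.exp '' Ioo s t, (k ^ n) p ∈ Circle.exp '' Ioo s t := by
  induction n with
  | zero => intro p hp; exact hp
  | succ n ih =>
    intro p hp
    obtain ⟨x, hx, hxp⟩ := ih p hp
    refine ⟨κ x, ⟨?_, ?_⟩, ?_⟩
    · rw [← hs]
      exact κ.strictMono hx.1
    · rw [← ht]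
      exact κ.strictMono hx.2
    · rw [hκ x ⟨h1.trans hx.1.le, hx.2.le.trans h2⟩, hxp, pow_succ']
      rfl

theorem SDF_iter (k : H) (κ : ℝ ≃o ℝ) (θ : ℝ) (hθ : κ θ = θ)
    (hθ2 : κ (θ + 2 * Real.pi) = θ + 2 * Real.pi)
    (hκ : ∀ x ∈ Icc θ (θ + 2 * Real.pi), Circle.exp (κ x) = k (Circle.exp x)) (x : ℝ)
    (hx : x ∈ Ico θ (θ + 2 * Real.pi)) (n : ℕ) :
    κ^[n] x ∈ Ico θ (θ + 2 * Real.pi) ∧ Circle.exp (κ^[n] x) = (k ^ n) (Circle.exp x) := by
  induction n with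
  | zero => exact ⟨hx, rfl⟩
  | succ n ih =>
    obtain ⟨h1, h2⟩ := ih
    rw [Function.iterate_succ_apply']
    refine ⟨⟨?_, ?_⟩, ?_⟩
    · rw [← hθ]
      exact κ.monotone h1.1
    · rw [← hθ2]
      exact κ.strictMono h1.2
    · rw [hκ _ ⟨h1.1, h1.2.le⟩, h2, pow_succ']
      rfl

theorem p_SDF (hLFT : Stmt_LFT) (hTRP : Stmt_TRP) : Stmt_SDF := by
  intro Γ G hΓ hΓG hn hSD k hkG e he hke
  obtain ⟨θ, hmono, hlast, hfix⟩ := SDF_order k e he hke
  have h01 : θ 0 < θ 1 := hmono (by decide)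
  have h12 : θ 1 < θ 2 := hmono (by decide)
  have h23 : θ 2 < θ 3 := hmono (by decide)
  have hinj := SDF_inj (θ 0)
  have m0 : θ 0 ∈ Ico (θ 0) (θ 0 + 2 * Real.pi) := ⟨le_rfl, by linarith⟩
  have m1 : θ 1 ∈ Ico (θ 0) (θ 0 + 2 * Real.pi) := ⟨h01.le, by linarith⟩
  have m2 : θ 2 ∈ Ico (θ 0) (θ 0 + 2 * Real.pi) := ⟨by linarith, by linarith⟩
  have m3 : θ 3 ∈ Ico (θ 0) (θ 0 + 2 * Real.pi) := ⟨by linarith, hlast⟩
  have n20 : Circle.exp (θ 2) ≠ Circle.exp (θ 0) := fun h => by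
    have := hinj m2 m0 h
    linarith
  have n21 : Circle.exp (θ 2) ≠ Circle.exp (θ 1) := fun h => by
    have := hinj m2 m1 h
    linarith
  have n10 : Circle.exp (θ 1) ≠ Circle.exp (θ 0) := fun h => by
    have := hinj m1 m0 h
    linarith
  obtain ⟨κ, k0, k1, k4, hκ⟩ := hLFT k (θ 0) (θ 1) (Circle.exp (θ 2)) h01 m1.2 (hfix 0) (hfix 1)
    n20 n21 (by rw [hfix 2]; exact SDF_link_self _ _ _ n20 n21)
  have hkfix : ∀ x ∈ Ico (θ 0) (θ 0 + 2 * Real.pi), k (Circle.exp x) = Circle.exp x →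
      κ x = x := by
    intro x hx h
    obtain ⟨h1, h2⟩ := SDF_iter k κ (θ 0) k0 k4 hκ x hx 1
    rw [Function.iterate_one] at h1 h2
    rw [pow_one, h] at h2
    exact hinj h1 hx h2
  have k2 : κ (θ 2) = θ 2 := hkfix _ m2 (hfix 2)
  have k3 : κ (θ 3) = θ 3 := hkfix _ m3 (hfix 3)
  -- the arcs
  have hpi := Real.pi_pos
  have o1 := (arc (θ 0) (θ 1) h01 m1.2).1
  have o2 := (arc (θ 1) (θ 2) h12 (by linarith)).1
  have o3 := (arc (θ 2) (θ 3) h23 (by linarith)).1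
  have o4 := (arc (θ 3) (θ 0 + 2 * Real.pi) hlast (by linarith)).1
  have ne : ∀ s t : ℝ, s < t → (Circle.exp '' Ioo s t).Nonempty := fun s t h =>
    (nonempty_Ioo.2 h).image _
  obtain ⟨γ, hγ, σ, hσ, p, hp, q, hq, hax, hσp, hσq⟩ := hTRP Γ hΓ _ _ _ _ o1 (ne _ _ h01) o3
    (ne _ _ h23) o2 (ne _ _ h12) o4 (ne _ _ hlast)
  obtain ⟨F, hF, hFG⟩ := hSD γ hγ p q hax
  have hlink : ∀ n : ℕ, Link ((σ⁻¹ * k ^ n) p) ((σ⁻¹ * k ^ n) q) p q := by
    intro n
    obtain ⟨x, hx, hxp⟩ := SDF_arc k κ (θ 0) hκ (θ 0) (θ 1) k0 k1 le_rfl m1.2.le n p hp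
    obtain ⟨y, hy, hyq⟩ := SDF_arc k κ (θ 0) hκ (θ 2) (θ 3) k2 k3 m2.1 m3.2.le n q hq
    obtain ⟨v, hv, hvp⟩ := hσp
    obtain ⟨w, hw, hwq⟩ := hσq
    have h1 := (arc x y (by linarith [hx.2, hy.1]) (by linarith [hx.1, hy.2])).2 (σ p)
      ⟨v, ⟨by linarith [hx.2, hv.1], by linarith [hy.1, hv.2]⟩, hvp⟩ (σ q)
      ⟨w, ⟨by linarith [hy.2, hw.1], by linarith [hx.1, hw.2]⟩, hwq⟩
    rw [hxp, hyq] at h1
    have h2 := lhi σ⁻¹ _ _ _ _ h1
    have e1 : σ⁻¹ (σ p) = p := σ.symm_apply_apply p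
    have e2 : σ⁻¹ (σ q) = q := σ.symm_apply_apply q
    rw [e1, e2] at h2
    exact h2
  have hgG : ∀ n : ℕ, σ⁻¹ * k ^ n ∈ G := fun n =>
    G.mul_mem (G.inv_mem (hΓG hσ)) (G.pow_mem hkG n)
  choose f hfF hf using fun n : ℕ => hFG (σ⁻¹ * k ^ n) (hgG n) (hlink n)
  have : Finite F := hF
  obtain ⟨m, n, hmn, hfmn⟩ := Finite.exists_ne_map_eq_of_infinite
    (fun n : ℕ => (⟨f n, hfF n⟩ : F))
  have hfmn' : f m = f n := congrArg Subtype.val hfmn
  obtain ⟨j, hj, hjΓ⟩ : ∃ j : ℕ, 0 < j ∧ k ^ j ∈ Γ := by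
    rcases lt_or_gt_of_ne hmn with h | h
    · refine ⟨n - m, by omega, ?_⟩
      have h1 := Γ.mul_mem (Γ.inv_mem (hf m)) (hf n)
      rw [hfmn'] at h1
      have e1 : ((f n)⁻¹ * (σ⁻¹ * k ^ m))⁻¹ * ((f n)⁻¹ * (σ⁻¹ * k ^ n)) = k ^ (n - m) := by
        have e2 : k ^ n = k ^ m * k ^ (n - m) := by
          rw [← pow_add]
          congr 1
          omega
        rw [e2]
        group
      rw [e1] at h1
      exact h1
    · refine ⟨m - n, by omega, ?_⟩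
      have h1 := Γ.mul_mem (Γ.inv_mem (hf n)) (hf m)
      rw [hfmn'] at h1
      have e1 : ((f n)⁻¹ * (σ⁻¹ * k ^ n))⁻¹ * ((f n)⁻¹ * (σ⁻¹ * k ^ m)) = k ^ (m - n) := by
        have e2 : k ^ m = k ^ n * k ^ (m - n) := by
          rw [← pow_add]
          congr 1
          omega
        rw [e2]
        group
      rw [e1] at h1
      exact h1
  have hpowfix : ∀ (x : Circle) (n : ℕ), k x = x → (k ^ n) x = x := by
    intro x n hx
    induction n with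
    | zero => rfl
    | succ n ih =>
      rw [pow_succ]
      show (k ^ n) (k x) = x
      rw [hx, ih]
  have hkj : k ^ j = 1 := mb3 (k ^ j) (hΓ.mob _ hjΓ) (Circle.exp (θ 0)) (Circle.exp (θ 1))
    (Circle.exp (θ 2)) n10.symm n21.symm n20.symm (hpowfix _ _ (hfix 0)) (hpowfix _ _ (hfix 1))
    (hpowfix _ _ (hfix 2))
  have hid : ∀ x ∈ Ico (θ 0) (θ 0 + 2 * Real.pi), κ x = x := by
    intro x hx
    obtain ⟨h1, h2⟩ := SDF_iter k κ (θ 0) k0 k4 hκ x hx j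
    rw [hkj] at h2
    have h3 : κ^[j] x = x := hinj h1 hx h2
    have h4 := (Function.Commute.iterate_pos_eq_iff_map_eq (f := κ) (g := id) (x := x) (n := j)
      (fun y => rfl) κ.monotone strictMono_id hj).1
    rw [Function.iterate_id] at h4
    exact h4 h3
  ext z
  obtain ⟨x, hx, rfl⟩ := ARC_surj (θ 0) z
  rw [← hκ x ⟨hx.1, hx.2.le⟩, hid x hx]
  rfl

end Pool.GC
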