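import Pool.Agent.Work.MP_ae1ff6_gc.Interface2

/-!
# Block SDM (typed by helper55): groups which displace each closed geodesic from itself
-/

open Topology Filter Set MeasureTheory
open scoped ComplexConjugate ENNReal

set_option autoImplicit false

namespace Pool.GC

open Pool.CG

theorem p_SDM (hPLT : Stmt_PLT) (hFXC : Stmt_FXC) (hDIC : Stmt_DIC) (hTRI : Stmt_TRI)
    (hTRP : Stmt_TRP) (hSDF : Stmt_SDF) : Stmt_SDM := by
  classical
  intro Γ G hΓ hΓG hN hSD ε hε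
  by_contra hcon
  have hinf : {g : H | g ∈ G ∧ Mv ε g}.Infinite := hcon
  obtain ⟨T, hT⟩ : ∃ T : Set H, T = {g : H | g ∈ G ∧ Mv ε g} := ⟨_, rfl⟩
  rw [← hT] at hinf
  have hne := hinf.cofinite_inf_principal_neBot
  obtain ⟨u, hu⟩ : ∃ u : Ultrafilter H, (u : Filter H) ≤ cofinite ⊓ 𝓟 T :=
    ⟨Ultrafilter.of _, Ultrafilter.of_le _⟩
  have huc : (u : Filter H) ≤ cofinite := hu.trans inf_le_left
  have huT : T ∈ (u : Filter H) := (hu.trans inf_le_right) (mem_principal_self T)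
  have hfin : ∀ S : Set H, S.Finite → S ∉ (u : Filter H) := by
    intro S hS hSu
    have h1 : Sᶜ ∈ (u : Filter H) := huc hS.compl_mem_cofinite
    have h2 := inter_mem hSu h1
    rw [inter_compl_self] at h2
    exact u.empty_notMem h2
  have hTG : ∀ᶠ g in (u : Filter H), g ∈ G := by
    filter_upwards [huT] with g hg
    rw [hT] at hg
    exact hg.1
  have hTM : ∀ᶠ g in (u : Filter H), Mv ε g := by
    filter_upwards [huT] with g hg
    rw [hT] at hg
    exact hg.2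
  have hB : ∀ h : H, ∀ᶠ g in (u : Filter H), h⁻¹ * g ∉ Γ := by
    intro h
    have h1 : {g : H | h⁻¹ * g ∈ Γ} ∉ u := by
      intro h2
      apply hfin _ (BDC_caseA cnv Γ hΓ ε hε h)
      filter_upwards [huT, h2] with g hg hg2
      rw [hT] at hg
      exact ⟨hg2, hg.2⟩
    exact Ultrafilter.eventually_not.2 h1
  -- limits
  choose L hL using fun z : Circle => BDC_lim u (fun g : H => g z)
  -- (1)
  have hTC : ¬ TwoConst Γ u := by
    intro h
    obtain ⟨g, hg, g', hg', hne2, p, q, p', q', n1, n2, n3, n4, n5, n6, e1, e2, e3, e4⟩ :=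
      hFXC Γ u T huc huT h
    rw [hT] at hg hg'
    have hk : g⁻¹ * g' ∈ G := G.mul_mem (G.inv_mem hg.1) hg'.1
    have hfix : ∀ z : Circle, g z = g' z → (g⁻¹ * g') z = z := by
      intro z hz
      change g.symm (g' z) = z
      rw [← hz, g.symm_apply_apply]
    have h1 : g⁻¹ * g' = 1 := by
      refine hSDF Γ G hΓ hΓG hN hSD (g⁻¹ * g') hk ![p, q, p', q'] ?_ ?_
      · intro i j hij
        fin_cases i <;> fin_cases j <;> simp at hij ⊢
        · exact n1 hij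
        · exact n3 hij
        · exact n4 hij
        · exact n1 hij.symm
        · exact n5 hij
        · exact n6 hij
        · exact n3 hij.symm
        · exact n5 hij.symm
        · exact n2 hij
        · exact n4 hij.symm
        · exact n6 hij.symm
        · exact n2 hij.symm
      · intro i
        fin_cases i
        · exact hfix p e1
        · exact hfix q e2
        · exact hfix p' e3
        · exact hfix q' e4
    exact hne2 (inv_mul_eq_one.1 h1)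
  -- (2)
  rcases hDIC Γ G u L hΓ hN hTG hL hTC with
    ⟨ℓ, m, hℓm, ⟨x1, x2, hx, hx1, hx2⟩, ⟨y1, y2, hy, hy1, hy2⟩⟩ | ⟨ℓ, hℓ⟩
  · have tx1 : Tendsto (fun g : H => g x1) u (𝓝 ℓ) := hx1 ▸ hL x1
    have tx2 : Tendsto (fun g : H => g x2) u (𝓝 ℓ) := hx2 ▸ hL x2
    have ty1 : Tendsto (fun g : H => g y1) u (𝓝 m) := hy1 ▸ hL y1
    have ty2 : Tendsto (fun g : H => g y2) u (𝓝 m) := hy2 ▸ hL y2
    obtain ⟨oI, neI, cI⟩ := hPLT u x1 x2 y1 ℓ m hℓm tx1 tx2 ty1
    obtain ⟨oJ, neJ, cJ⟩ := hPLT u y1 y2 x1 m ℓ hℓm.symm ty1 ty2 tx1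
    obtain ⟨A, B, U, V, hA, hBn, hU, hU2, hV, hV2, hlink⟩ := lop ℓ m hℓm
    obtain ⟨γ, hγ, σ, hσ, p, hp, q, hq, hax, hσp, hσq⟩ :=
      hTRP Γ hΓ _ _ U V oI (neI hx) oJ (neJ hy) hU hU2 hV hV2
    obtain ⟨F, hF, h3⟩ := hSD γ hγ p q hax
    have h4 : ∀ᶠ g in (u : Filter H), ∀ h ∈ F, (σ * h)⁻¹ * g ∉ Γ :=
      (eventually_all_finite hF).2 fun h _ => hB (σ * h)
    obtain ⟨g, hg1, hg2, hg3, hg4⟩ :=
      ((cI A hA).and ((cJ B hBn).and (h4.and hTG))).exists
    have h5 : Link (g p) (g q) (σ p) (σ q) :=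
      hlink _ (hg1 p hp) _ (hg2 q hq) _ hσp _ hσq
    have h6 := lhi σ⁻¹ _ _ _ _ h5
    have e1 : σ⁻¹ (σ p) = p := σ.symm_apply_apply p
    have e2 : σ⁻¹ (σ q) = q := σ.symm_apply_apply q
    rw [e1, e2] at h6
    obtain ⟨h, hh, h7⟩ := h3 (σ⁻¹ * g) (G.mul_mem (G.inv_mem (hΓG hσ)) hg4) h6
    apply hg3 h hh
    have e3 : (σ * h)⁻¹ * g = h⁻¹ * (σ⁻¹ * g) := by group
    rw [e3]
    exact h7
  · exact hTRI u L ℓ ε hε hL hℓ hTM

end Pool.GC
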