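import Pool.Agent.Work.MP_ae1ff6_gc.B_TWO

/-! # Block SYM: the relation `Link` is symmetric -/

open Topology Filter Set MeasureTheory
open scoped ComplexConjugate ENNReal

set_option autoImplicit false

namespace Pool.GC

open Pool.CG

theorem SYM_flip (a b c d : Circle) (h : Link a b c d) : Link b a c d :=
  ⟨⟨h.1.2, h.1.1⟩, ⟨h.2.1.2, h.2.1.1⟩, fun t ht hc hd => (h.2.2 t ht hc hd).symm⟩

theorem SYM_arc (s t σ τ : ℝ) (h1 : s < σ) (h2 : σ < t) (h3 : t < τ)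
    (h4 : τ < s + 2 * Real.pi) :
    Link (Circle.exp σ) (Circle.exp τ) (Circle.exp s) (Circle.exp t) := by
  have h5 := (arc σ τ (by linarith) (by linarith)).2 (Circle.exp t) ⟨t, ⟨h2, h3⟩, rfl⟩
    (Circle.exp s) ⟨s + 2 * Real.pi, ⟨h4, by linarith⟩, TWO_per s⟩
  exact TWO_swap _ _ _ _ h5

theorem p_SYM : Stmt_SYM := by
  intro a b c d h
  refine ⟨?_, SYM_flip _ _ _ _ h, TWO_swap _ _ _ _ h⟩
  have hab : a ≠ b := by
    rintro rfl
    exact TWO_diag _ _ _ h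
  obtain ⟨s, t, hst, hts, rfl, rfl⟩ := LOP_param a b hab
  rcases TWO_side s t c h.1.1 h.1.2 with hc | hc <;>
    rcases TWO_side s t d h.2.1.1 h.2.1.2 with hd | hd
  · exact absurd h (TWO_same _ (TWO_conn s t) _ _ _ _ (TWO_s1 s t hts) (TWO_t1 s t hts) hc hd)
  · obtain ⟨σ, hσ, rfl⟩ := hc
    obtain ⟨τ, hτ, rfl⟩ := hd
    exact SYM_arc s t σ τ hσ.1 hσ.2 hτ.1 hτ.2
  · obtain ⟨τ, hτ, rfl⟩ := hc
    obtain ⟨σ, hσ, rfl⟩ := hd
    exact SYM_flip _ _ _ _ (SYM_arc s t σ τ hσ.1 hσ.2 hτ.1 hτ.2)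
  · exact absurd h (TWO_same _ (TWO_conn t (s + 2 * Real.pi)) _ _ _ _ (TWO_s2 s t hst)
      (TWO_t2 s t hst) hc hd)

end Pool.GC
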