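import Pool.Agent.Work.MP_ae1ff6_gc.Interface

/-!
# MP_ae1ff6_gt, THEOREM GC, block TRI (typist helper87)
-/

open Topology Filter Set MeasureTheory
open scoped ComplexConjugate ENNReal

set_option autoImplicit false

namespace Pool.GC

open Pool.CG

theorem p_TRI : Stmt_TRI := by
  classical
  intro u L ℓ ε hε hL hd hM
  have hch : ∀ g : H, ∃ a b c : Circle, Mv ε g → Far ε a b c ∧ Far ε (g a) (g b) (g c) := by
    intro g
    by_cases hg : Mv ε g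
    · obtain ⟨a, b, c, h1, h2⟩ := hg
      exact ⟨a, b, c, fun _ => ⟨h1, h2⟩⟩
    · exact ⟨1, 1, 1, fun h => absurd h hg⟩
  choose a b c habc using hch
  obtain ⟨a0, ha0⟩ := BDC_lim u a
  obtain ⟨b0, hb0⟩ := BDC_lim u b
  obtain ⟨c0, hc0⟩ := BDC_lim u c
  obtain ⟨a1, ha1⟩ := BDC_lim u (fun g => g (a g))
  obtain ⟨b1, hb1⟩ := BDC_lim u (fun g => g (b g))
  obtain ⟨c1, hc1⟩ := BDC_lim u (fun g => g (c g))
  have hab0 : a0 ≠ b0 := BDC_ne u a b a0 b0 ε hε ha0 hb0 (by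
    filter_upwards [hM] with g hg using (habc g hg).1.1)
  have hbc0 : b0 ≠ c0 := BDC_ne u b c b0 c0 ε hε hb0 hc0 (by
    filter_upwards [hM] with g hg using (habc g hg).1.2.1)
  have hac0 : a0 ≠ c0 := BDC_ne u a c a0 c0 ε hε ha0 hc0 (by
    filter_upwards [hM] with g hg using (habc g hg).1.2.2)
  have hab1 : a1 ≠ b1 := BDC_ne u _ _ a1 b1 ε hε ha1 hb1 (by
    filter_upwards [hM] with g hg using (habc g hg).2.1)
  have hbc1 : b1 ≠ c1 := BDC_ne u _ _ b1 c1 ε hε hb1 hc1 (by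
    filter_upwards [hM] with g hg using (habc g hg).2.2.1)
  have hac1 : a1 ≠ c1 := BDC_ne u _ _ a1 c1 ε hε ha1 hc1 (by
    filter_upwards [hM] with g hg using (habc g hg).2.2.2)
  have claim : ∀ x y : Circle, L x = ℓ → L y = ℓ → ∀ (f f' : H → Circle) (v v' : Circle),
      Tendsto (fun g : H => g (f g)) u (𝓝 v) → Tendsto (fun g : H => g (f' g)) u (𝓝 v') →
      (∀ᶠ g in (u : Filter H), Link x y (f g) (f' g)) → ℓ = v ∨ ℓ = v' := by
    intro x y hx hy f f' v v' h1 h2 h3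
    have h4 := hL x
    have h5 := hL y
    rw [hx] at h4
    rw [hy] at h5
    refine lfv H (u : Filter H) (fun g => g x) (fun g => g y) (fun g => g (f g))
      (fun g => g (f' g)) ℓ v v' h4 h5 h1 h2 ?_
    filter_upwards [h3] with g hg
    exact lhi g _ _ _ _ hg
  obtain ⟨U₁, V₁, A₁, B₁, C₁, hU₁, hU₁', hV₁, hV₁', hA₁, hB₁, hC₁, hl₁⟩ :=
    lsx a0 b0 c0 hab0 hac0
  obtain ⟨p₁, hp₁, hp₁'⟩ := hd.exists_mem_open hU₁ hU₁'
  obtain ⟨q₁, hq₁, hq₁'⟩ := hd.exists_mem_open hV₁ hV₁'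
  obtain ⟨U₂, V₂, B₂, A₂, C₂, hU₂, hU₂', hV₂, hV₂', hB₂, hA₂, hC₂, hl₂⟩ :=
    lsx b0 a0 c0 hab0.symm hbc0
  obtain ⟨p₂, hp₂, hp₂'⟩ := hd.exists_mem_open hU₂ hU₂'
  obtain ⟨q₂, hq₂, hq₂'⟩ := hd.exists_mem_open hV₂ hV₂'
  have e1 : ℓ = a1 := by
    have h1 := claim p₁ q₁ hp₁ hq₁ a b a1 b1 ha1 hb1 (by
      filter_upwards [ha0 hA₁, hb0 hB₁] with g hg1 hg2
      exact (hl₁ p₁ hp₁' q₁ hq₁' (a g) hg1).1 (b g) hg2)
    have h2 := claim p₁ q₁ hp₁ hq₁ a c a1 c1 ha1 hc1 (by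
      filter_upwards [ha0 hA₁, hc0 hC₁] with g hg1 hg2
      exact (hl₁ p₁ hp₁' q₁ hq₁' (a g) hg1).2 (c g) hg2)
    rcases h1 with h1 | h1
    · exact h1
    · rcases h2 with h2 | h2
      · exact h2
      · exact absurd (h1.symm.trans h2) hbc1
  have e2 : ℓ = b1 := by
    have h1 := claim p₂ q₂ hp₂ hq₂ b a b1 a1 hb1 ha1 (by
      filter_upwards [hb0 hB₂, ha0 hA₂] with g hg1 hg2
      exact (hl₂ p₂ hp₂' q₂ hq₂' (b g) hg1).1 (a g) hg2)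
    have h2 := claim p₂ q₂ hp₂ hq₂ b c b1 c1 hb1 hc1 (by
      filter_upwards [hb0 hB₂, hc0 hC₂] with g hg1 hg2
      exact (hl₂ p₂ hp₂' q₂ hq₂' (b g) hg1).2 (c g) hg2)
    rcases h1 with h1 | h1
    · exact h1
    · rcases h2 with h2 | h2
      · exact h2
      · exact absurd (h1.symm.trans h2) hac1
  exact hab1 (e1.symm.trans e2)

end Pool.GC
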