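import Pool.Agent.Work.MP_ae1ff6_gc.Interface2

/-! # Block TRP (helper1): transitivity on pairs -/

open Topology Filter Set MeasureTheory
open scoped ComplexConjugate ENNReal

set_option autoImplicit false

namespace Pool.GC

open Pool.CG

theorem TRP_mul (f g : H) (z : Circle) : (f * g) z = f (g z) := rfl

theorem TRP_inv (f : H) (z : Circle) : f⁻¹ (f z) = z := f.symm_apply_apply z

theorem TRP_inv' (f : H) (z : Circle) : f (f⁻¹ z) = z := f.apply_symm_apply z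

theorem TRP_fix {f : H} {z : Circle} (h : f z = z) (n : ℕ) : (f ^ n) z = z := by
  induction n with
  | zero => rfl
  | succ n ih => rw [pow_succ, TRP_mul, h, ih]

/-- replace `γ` by its inverse if necessary: `q` is attracting -/
theorem TRP_att (hHDY : Stmt_HDY) {Γ : Subgroup H} (hΓ : FirstKind Γ) {γ : H} (hγ : γ ∈ Γ)
    {p q : Circle} (hax : Axis γ p q) :
    ∃ δ ∈ Γ, Axis δ p q ∧ (∀ z, z ≠ p → Tendsto (fun n : ℕ => (δ ^ n) z) atTop (𝓝 q)) ∧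
      ∀ z, z ≠ q → Tendsto (fun n : ℕ => (δ⁻¹ ^ n) z) atTop (𝓝 p) := by
  obtain ⟨p', q', hpq, h1, h2⟩ := hHDY γ p q (hΓ.mob γ hγ) hax
  rcases hpq with ⟨rfl, rfl⟩ | ⟨rfl, rfl⟩
  · exact ⟨γ, hγ, hax, h1, h2⟩
  · refine ⟨γ⁻¹, Γ.inv_mem hγ, ⟨hax.1, fun z => ?_⟩, h2, ?_⟩
    · rw [← hax.2 z]
      constructor
      · intro h
        have h3 := congrArg γ h
        rw [TRP_inv'] at h3
        exact h3.symm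
      · intro h
        conv_lhs => rw [← h]
        exact TRP_inv γ z
    · intro z hz
      rw [inv_inv]
      exact h1 z hz

theorem p_TRP (hHDY : Stmt_HDY) : Stmt_TRP := by
  intro Γ hΓ U₁ V₁ U₂ V₂ hU₁ nU₁ hV₁ nV₁ hU₂ nU₂ hV₂ nV₂
  obtain ⟨γ₁, hγ₁, p₁, hp₁, q₁, hq₁, hax₁⟩ := dns Γ hΓ U₁ V₁ hU₁ nU₁ hV₁ nV₁
  obtain ⟨γ₂, hγ₂, p₂, hp₂, q₂, hq₂, hax₂⟩ := dns Γ hΓ (U₂ \ {q₁}) V₂
    (hU₂.sdiff isClosed_singleton) (DNS_punct U₂ hU₂ nU₂ q₁) hV₂ nV₂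
  have hp₂U : p₂ ∈ U₂ := hp₂.1
  have hpq : p₂ ≠ q₁ := hp₂.2
  obtain ⟨δ₁, hδ₁, ax₁, a₁, b₁⟩ := TRP_att hHDY hΓ hγ₁ hax₁
  obtain ⟨δ₂, hδ₂, ax₂, a₂, b₂⟩ := TRP_att hHDY hΓ hγ₂ hax₂
  have e1 : ∀ᶠ n : ℕ in atTop, (δ₂ ^ n) q₁ ∈ V₂ := (a₂ q₁ hpq.symm).eventually (hV₂.mem_nhds hq₂)
  have e2 : ∀ᶠ n : ℕ in atTop, (δ₁⁻¹ ^ n) p₂ ∈ U₁ := (b₁ p₂ hpq).eventually (hU₁.mem_nhds hp₁)
  obtain ⟨n, hn1, hn2⟩ := (e1.and e2).exists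
  set σ : H := δ₂ ^ n * δ₁ ^ n with hσ
  have hσΓ : σ ∈ Γ := Γ.mul_mem (Γ.pow_mem hδ₂ n) (Γ.pow_mem hδ₁ n)
  have f1 : σ q₁ ∈ V₂ := by
    rw [hσ, TRP_mul, TRP_fix ((ax₁.2 q₁).2 (Or.inr rfl))]
    exact hn1
  have f2 : σ ((δ₁⁻¹ ^ n) p₂) ∈ U₂ := by
    have h3 : (δ₁ ^ n) ((δ₁⁻¹ ^ n) p₂) = p₂ := by
      rw [← TRP_mul, inv_pow, mul_inv_cancel]
      rfl
    rw [hσ, TRP_mul, h3, TRP_fix ((ax₂.2 p₂).2 (Or.inl rfl))]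
    exact hp₂U
  obtain ⟨γ, hγ, p, hp, q, hq, hax⟩ := dns Γ hΓ (U₁ ∩ σ ⁻¹' U₂) (V₁ ∩ σ ⁻¹' V₂)
    (hU₁.inter (hU₂.preimage σ.continuous)) ⟨_, hn2, f2⟩
    (hV₁.inter (hV₂.preimage σ.continuous)) ⟨q₁, hq₁, f1⟩
  exact ⟨γ, hγ, σ, hσΓ, p, hp.1, q, hq.1, hax, hp.2, hq.2⟩

end Pool.GC
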