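import Pool.Agent.Work.MP_ae1ff6_gc.Interface

/-! Block TWO of MP_ae1ff6_gc: the two sides of a pair of points of the circle -/

open Topology Filter Set MeasureTheory
open scoped ComplexConjugate ENNReal

set_option autoImplicit false

namespace Pool.GC

open Pool.CG

theorem TWO_ne (x y : ℝ) (h1 : x < y) (h2 : y < x + 2 * Real.pi) : Circle.exp x ≠ Circle.exp y := by
  intro h
  have hpi : (0 : ℝ) < 2 * Real.pi := Real.two_pi_pos
  obtain ⟨m, hm⟩ := Circle.exp_eq_exp.1 h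
  have h3 : (m : ℝ) * (2 * Real.pi) < 0 := by linarith
  have h4 : -(2 * Real.pi) < (m : ℝ) * (2 * Real.pi) := by linarith
  have h5 : (m : ℝ) < 0 := by
    by_contra h6
    have : 0 ≤ (m : ℝ) * (2 * Real.pi) := mul_nonneg (not_lt.1 h6) hpi.le
    linarith
  have h6 : (-1 : ℝ) < m := by
    by_contra h7
    have : (m : ℝ) * (2 * Real.pi) ≤ (-1) * (2 * Real.pi) :=
      mul_le_mul_of_nonneg_right (not_lt.1 h7) hpi.le
    linarith
  have h7 : m < 0 := by exact_mod_cast h5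
  have h8 : (-1 : ℤ) < m := by exact_mod_cast h6
  omega

theorem TWO_conn (α β : ℝ) : IsPreconnected (Circle.exp '' Ioo α β) :=
  isPreconnected_Ioo.image _ Circle.exp.continuous.continuousOn

theorem TWO_per (x : ℝ) : Circle.exp (x + 2 * Real.pi) = Circle.exp x := Circle.periodic_exp x

/-- a point outside of the arc `exp '' Ioo s (s + 2π)` is `exp s` -/
theorem TWO_all (s : ℝ) (z : Circle) (h : z ≠ Circle.exp s) :
    z ∈ Circle.exp '' Ioo s (s + 2 * Real.pi) := by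
  obtain ⟨s', t', h1, h2, h3, h4⟩ := LOP_param (Circle.exp s) z (Ne.symm h)
  obtain ⟨m, hm⟩ := Circle.exp_eq_exp.1 h3
  refine ⟨t' - m * (2 * Real.pi), ⟨by linarith, by linarith⟩, ?_⟩
  rw [← h4]
  exact Circle.periodic_exp.sub_int_mul_eq m

theorem TWO_side (s t : ℝ) (z : Circle) (h1 : z ≠ Circle.exp s) (h2 : z ≠ Circle.exp t) :
    z ∈ Circle.exp '' Ioo s t ∨ z ∈ Circle.exp '' Ioo t (s + 2 * Real.pi) := by
  obtain ⟨x, hx, rfl⟩ := TWO_all s z h1
  rcases lt_trichotomy x t with h | h | h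
  · exact Or.inl ⟨x, ⟨hx.1, h⟩, rfl⟩
  · exact absurd (by rw [h]) h2
  · exact Or.inr ⟨x, ⟨h, hx.2⟩, rfl⟩

theorem TWO_same (A : Set Circle) (hA : IsPreconnected A) (a b c d : Circle) (ha : a ∉ A)
    (hb : b ∉ A) (hc : c ∈ A) (hd : d ∈ A) : ¬ Link a b c d :=
  fun h => (h.2.2 A hA hc hd).elim ha hb

theorem TWO_s1 (s t : ℝ) (hts : t < s + 2 * Real.pi) :
    Circle.exp s ∉ Circle.exp '' Ioo s t := by
  rintro ⟨x, hx, h⟩
  exact TWO_ne s x hx.1 (by linarith [hx.2]) h.symm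

theorem TWO_t1 (s t : ℝ) (hts : t < s + 2 * Real.pi) :
    Circle.exp t ∉ Circle.exp '' Ioo s t := by
  rintro ⟨x, hx, h⟩
  exact TWO_ne x t hx.2 (by linarith [hx.1]) h

theorem TWO_s2 (s t : ℝ) (hst : s < t) :
    Circle.exp s ∉ Circle.exp '' Ioo t (s + 2 * Real.pi) := by
  rintro ⟨x, hx, h⟩
  exact TWO_ne s x (by linarith [hx.1]) (by linarith [hx.2]) h.symm

theorem TWO_t2 (s t : ℝ) (hst : s < t) :
    Circle.exp t ∉ Circle.exp '' Ioo t (s + 2 * Real.pi) := by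
  rintro ⟨x, hx, h⟩
  exact TWO_ne t x hx.1 (by linarith [hx.2]) h.symm

theorem TWO_swap (a b c d : Circle) (h : Link a b c d) : Link a b d c :=
  ⟨h.2.1, h.1, fun t ht hd hc => h.2.2 t ht hc hd⟩

theorem TWO_diag (a c d : Circle) : ¬ Link a a c d := by
  intro h
  obtain ⟨s, hs⟩ : ∃ s : ℝ, Circle.exp s = a := ⟨Complex.arg (a : ℂ), Circle.exp_arg a⟩
  subst hs
  have h1 : Circle.exp s ∉ Circle.exp '' Ioo s (s + 2 * Real.pi) := by
    rintro ⟨x, hx, h2⟩
    exact TWO_ne s x hx.1 hx.2 h2.symm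
  exact TWO_same _ (TWO_conn s (s + 2 * Real.pi)) _ _ _ _ h1 h1 (TWO_all s c h.1.1)
    (TWO_all s d h.2.1.1) h

theorem p_TWO : Stmt_TWO := by
  intro a b c d r hca hcb hda hdb hra hrb hiff hL
  rcases eq_or_ne a b with rfl | hab
  · exact TWO_diag _ _ _ hL
  obtain ⟨s, t, hst, hts, rfl, rfl⟩ := LOP_param a b hab
  have ha := (arc s t hst hts).2
  have hs1 := TWO_s1 s t hts
  have ht1 := TWO_t1 s t hts
  have hs2 := TWO_s2 s t hst
  have ht2 := TWO_t2 s t hst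
  have c1 := TWO_conn s t
  have c2 := TWO_conn t (s + 2 * Real.pi)
  rcases TWO_side s t c hca hcb with hc | hc
  · rcases TWO_side s t d hda hdb with hd | hd
    · exact TWO_same _ c1 _ _ _ _ hs1 ht1 hc hd hL
    · rcases TWO_side s t r hra hrb with hr | hr
      · exact TWO_same _ c1 _ _ _ _ hs1 ht1 hc hr (hiff.2 (TWO_swap _ _ _ _ (ha r hr d hd)))
      · exact TWO_same _ c2 _ _ _ _ hs2 ht2 hd hr (hiff.1 (ha c hc r hr))
  · rcases TWO_side s t d hda hdb with hd | hd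
    · rcases TWO_side s t r hra hrb with hr | hr
      · exact TWO_same _ c1 _ _ _ _ hs1 ht1 hd hr (hiff.1 (TWO_swap _ _ _ _ (ha r hr c hc)))
      · exact TWO_same _ c2 _ _ _ _ hs2 ht2 hc hr (hiff.2 (ha d hd r hr))
    · exact TWO_same _ c2 _ _ _ _ hs2 ht2 hc hd hL

end Pool.GC
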