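import Pool.Agent.Work.MP_ae1ff6_gc.Interface

/-!
# MP_ae1ff6_gt, THEOREM GC, block WAN (typist helper87)
-/

open Topology Filter Set MeasureTheory
open scoped ComplexConjugate ENNReal

set_option autoImplicit false

namespace Pool.GC

open Pool.CG

theorem WAN_le (μ : Measure (Circle × Circle)) (k : H) (c : ℝ≥0∞)
    (hk : μ.map (Prod.map k k) = c • μ) (hc : c ≤ 1) (S : Set (Circle × Circle)) :
    μ S ≤ μ (Prod.map k k '' S) := by
  have h1 : μ.map (k.prodCongr k).toMeasurableEquiv (Prod.map k k '' S) = μ S := by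
    rw [MeasurableEquiv.map_apply]
    congr 1
    exact Set.preimage_image_eq S (k.injective.prodMap k.injective)
  have h2 : μ.map (k.prodCongr k).toMeasurableEquiv = c • μ := hk
  rw [h2, Measure.smul_apply, smul_eq_mul] at h1
  rw [← h1]
  calc c * μ (Prod.map k k '' S) ≤ 1 * μ (Prod.map k k '' S) := by gcongr
    _ = _ := one_mul _

theorem p_WAN : Stmt_WAN := by
  intro μ k c D B ε hμ hk hc hD hB hkB hdis hε hfar
  have hstep : ∀ n : ℕ, μ (D ×ˢ B) ≤ μ (((k ^ n) '' D) ×ˢ B) := by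
    intro n
    induction n with
    | zero =>
      have : ((k ^ 0 : H) '' D) = D := by
        rw [pow_zero]
        exact Set.image_id D
      rw [this]
    | succ n ih =>
      refine ih.trans ((WAN_le μ k c hk hc _).trans (le_of_eq ?_))
      have h1 : Prod.map k k '' (((k ^ n) '' D) ×ˢ B) = (k '' ((k ^ n) '' D)) ×ˢ (k '' B) :=
        Set.prodMap_image_prod _ _ _ _
      have h2 : k '' ((k ^ n) '' D) = (k ^ (n + 1)) '' D := by
        rw [pow_succ', Set.image_image]
        rfl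
      rw [h1, h2, hkB]
  by_contra hne
  have hmeas : ∀ n : ℕ, MeasurableSet (((k ^ n) '' D) ×ˢ B) := fun n =>
    (((k ^ n).measurableEmbedding.measurableSet_image).2 hD).prod hB
  have hdisj : Pairwise (Function.onFun Disjoint fun n : ℕ => ((k ^ n) '' D) ×ˢ B) := by
    intro i j hij
    exact Set.Disjoint.set_prod_left (hdis hij) B B
  have h3 : ∑' n : ℕ, μ (((k ^ n) '' D) ×ˢ B) ≤ μ {x | ε ≤ dist x.1 x.2} := by
    rw [← measure_iUnion hdisj hmeas]
    refine measure_mono ?_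
    intro x hx
    obtain ⟨n, hn⟩ := Set.mem_iUnion.1 hx
    exact hfar n x.1 hn.1 x.2 hn.2
  have h4 : ∑' _n : ℕ, μ (D ×ˢ B) = ∞ := ENNReal.tsum_const_eq_top_of_ne_zero hne
  have h5 : ∑' _n : ℕ, μ (D ×ˢ B) ≤ ∑' n : ℕ, μ (((k ^ n) '' D) ×ˢ B) :=
    ENNReal.tsum_le_tsum hstep
  rw [h4] at h5
  exact absurd (lt_of_le_of_lt (h5.trans h3) (hμ.fin ε hε)) (lt_irrefl _)

end Pool.GC
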