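import Pool.Agent.Work.MP_ae1ff6_gc.Interface3

/-! # Block WN2: wandering boxes have mass zero (helper84) -/

open Topology Filter Set MeasureTheory
open scoped ComplexConjugate ENNReal

set_option autoImplicit false

namespace Pool.GC

open Pool.CG

theorem WN2_meas (k : H) {D : Set Circle} (hD : MeasurableSet D) : MeasurableSet (k '' D) := by
  rw [Homeomorph.image_eq_preimage_symm]
  exact k.symm.continuous.measurable hD

theorem WN2_step (μ : Measure (Circle × Circle)) (k : H) (c : ℝ≥0∞)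
    (hμ : μ.map (Prod.map k k) = c • μ) (hc : c ≤ 1) {D E : Set Circle} (hD : MeasurableSet D)
    (hE : MeasurableSet E) : μ (D ×ˢ E) ≤ μ ((k '' D) ×ˢ (k '' E)) := by
  have h1 : Measurable (Prod.map k k : Circle × Circle → Circle × Circle) :=
    (k.continuous.measurable).prodMap (k.continuous.measurable)
  have h2 : (Prod.map k k) ⁻¹' ((k '' D) ×ˢ (k '' E)) = D ×ˢ E := by
    ext ⟨x, y⟩
    simp only [mem_preimage, mem_prod, Prod.map_apply, k.injective.mem_set_image]
  have h3 : μ.map (Prod.map k k) ((k '' D) ×ˢ (k '' E)) = μ (D ×ˢ E) := by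
    rw [Measure.map_apply h1 ((WN2_meas k hD).prod (WN2_meas k hE)), h2]
  rw [← h3, hμ, Measure.smul_apply, smul_eq_mul]
  calc c * μ ((k '' D) ×ˢ (k '' E)) ≤ 1 * μ ((k '' D) ×ˢ (k '' E)) := by gcongr
    _ = μ ((k '' D) ×ˢ (k '' E)) := one_mul _

theorem WN2_pow (k : H) (n : ℕ) (D : Set Circle) : (k ^ (n + 1)) '' D = k '' ((k ^ n) '' D) := by
  rw [← image_comp, pow_succ']
  rfl

theorem p_WN2 : Stmt_WN2 := by
  intro μ k c D E ε hμ hk hc hD hE hdis hε hfar
  have hm : ∀ (A : Set Circle), MeasurableSet A → ∀ n : ℕ, MeasurableSet ((k ^ n) '' A) :=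
    fun A hA n => WN2_meas (k ^ n) hA
  have hle : ∀ n : ℕ, μ (D ×ˢ E) ≤ μ (((k ^ n) '' D) ×ˢ ((k ^ n) '' E)) := by
    intro n
    induction n with
    | zero =>
      have h0 : ∀ A : Set Circle, ((k ^ 0 : H) : Circle → Circle) '' A = A := fun A => by
        rw [pow_zero]
        exact image_id A
      rw [h0, h0]
    | succ n ih =>
      rw [WN2_pow, WN2_pow]
      exact ih.trans (WN2_step μ k c hk hc (hm D hD n) (hm E hE n))
  have hd : Pairwise (Function.onFun Disjoint fun n : ℕ => ((k ^ n) '' D) ×ˢ ((k ^ n) '' E)) := by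
    intro i j hij
    exact (hdis hij).set_prod_left _ _
  have hsum : ∑' n : ℕ, μ (((k ^ n) '' D) ×ˢ ((k ^ n) '' E)) < ∞ := by
    rw [← measure_iUnion hd fun n => (hm D hD n).prod (hm E hE n)]
    refine lt_of_le_of_lt (measure_mono ?_) (hμ.fin ε hε)
    refine iUnion_subset fun n => ?_
    rintro ⟨x, y⟩ ⟨hx, hy⟩
    exact hfar n x hx y hy
  have h0 : μ (D ×ˢ E) = 0 := by
    by_contra hne
    have h1 : ∑' _ : ℕ, μ (D ×ˢ E) = ∞ := ENNReal.tsum_const_eq_top_of_ne_zero hne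
    have h2 : ∑' _ : ℕ, μ (D ×ˢ E) ≤ ∑' n : ℕ, μ (((k ^ n) '' D) ×ˢ ((k ^ n) '' E)) :=
      ENNReal.tsum_le_tsum hle
    rw [h1] at h2
    exact absurd hsum (not_lt.2 h2)
  refine ⟨h0, ?_⟩
  rw [← hμ.flip, Measure.map_apply measurable_swap (hE.prod hD), preimage_swap_prod]
  exact h0

end Pool.GC
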