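import Pool.Agent.Work.MP_ae1ff6_gc.B_ATR
import Pool.Agent.Work.MP_ae1ff6_gc.B_AWY
import Pool.Agent.Work.MP_ae1ff6_gc.B_CUR
import Pool.Agent.Work.MP_ae1ff6_gc.B_CUT
import Pool.Agent.Work.MP_ae1ff6_gc.B_CY2
import Pool.Agent.Work.MP_ae1ff6_gc.B_DIC
import Pool.Agent.Work.MP_ae1ff6_gc.B_EXI
import Pool.Agent.Work.MP_ae1ff6_gc.B_FUL
import Pool.Agent.Work.MP_ae1ff6_gc.B_FX3
import Pool.Agent.Work.MP_ae1ff6_gc.B_FXA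
import Pool.Agent.Work.MP_ae1ff6_gc.B_FXB
import Pool.Agent.Work.MP_ae1ff6_gc.B_FXC
import Pool.Agent.Work.MP_ae1ff6_gc.B_FXS
import Pool.Agent.Work.MP_ae1ff6_gc.B_HDY
import Pool.Agent.Work.MP_ae1ff6_gc.B_LFT
import Pool.Agent.Work.MP_ae1ff6_gc.B_LNO
import Pool.Agent.Work.MP_ae1ff6_gc.B_MFG
import Pool.Agent.Work.MP_ae1ff6_gc.B_NCH
import Pool.Agent.Work.MP_ae1ff6_gc.B_NCL
import Pool.Agent.Work.MP_ae1ff6_gc.B_ORB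
import Pool.Agent.Work.MP_ae1ff6_gc.B_ORI
import Pool.Agent.Work.MP_ae1ff6_gc.B_PE1
import Pool.Agent.Work.MP_ae1ff6_gc.B_PE2
import Pool.Agent.Work.MP_ae1ff6_gc.B_PEG
import Pool.Agent.Work.MP_ae1ff6_gc.B_PG3
import Pool.Agent.Work.MP_ae1ff6_gc.B_PLT
import Pool.Agent.Work.MP_ae1ff6_gc.B_PNE
import Pool.Agent.Work.MP_ae1ff6_gc.B_SDF
import Pool.Agent.Work.MP_ae1ff6_gc.B_SDM
import Pool.Agent.Work.MP_ae1ff6_gc.B_SUM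
import Pool.Agent.Work.MP_ae1ff6_gc.B_SYM
import Pool.Agent.Work.MP_ae1ff6_gc.B_TRI
import Pool.Agent.Work.MP_ae1ff6_gc.B_TRP
import Pool.Agent.Work.MP_ae1ff6_gc.B_TWO
import Pool.Agent.Work.MP_ae1ff6_gc.B_WAN
import Pool.Agent.Work.MP_ae1ff6_gc.B_WN2
import Pool.Agent.Work.MP_ae1ff6_gc.FinalG
import Pool.Agent.Work.MP_ae1ff6_gc.B_LOC

/-!
# Invariant geodesic currents (MP_ae1ff6_gt): the theorem
-/

set_option autoImplicit false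

namespace Pool.GC

theorem q_TWO : Stmt_TWO := p_TWO
theorem q_LFT : Stmt_LFT := p_LFT
theorem q_ATR : Stmt_ATR := p_ATR q_TWO q_LFT
theorem q_SYM : Stmt_SYM := p_SYM
theorem q_AWY : Stmt_AWY := p_AWY q_SYM
theorem q_CUR : Stmt_CUR := p_CUR
theorem q_CUT : Stmt_CUT := p_CUT
theorem q_CY2 : Stmt_CY2 := p_CY2
theorem q_NCL : Stmt_NCL := p_NCL
theorem q_NCH : Stmt_NCH := p_NCH q_NCL
theorem q_PNE : Stmt_PNE := p_PNE q_NCH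
theorem q_DIC : Stmt_DIC := p_DIC q_PNE
theorem q_ORB : Stmt_ORB := p_ORB
theorem q_SUM : Stmt_SUM := p_SUM
theorem q_EXI : Stmt_EXI := p_EXI q_ORB q_CUR q_SUM
theorem q_FUL : Stmt_FUL := p_FUL
theorem q_ORI : Stmt_ORI := p_ORI
theorem q_WAN : Stmt_WAN := p_WAN
theorem q_FX3 : Stmt_FX3 := p_FX3 q_LFT q_ORI q_WAN
theorem q_WN2 : Stmt_WN2 := p_WN2
theorem q_FXA : Stmt_FXA := p_FXA q_WN2
theorem q_FXB : Stmt_FXB := p_FXB q_LFT q_ORI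
theorem q_FXC : Stmt_FXC := p_FXC
theorem q_FXS : Stmt_FXS := p_FXS q_FX3 q_FXA q_FXB
theorem q_HDY : Stmt_HDY := p_HDY
theorem q_LNO : Stmt_LNO := p_LNO
theorem q_TRI : Stmt_TRI := p_TRI
theorem q_PLT : Stmt_PLT := p_PLT
theorem q_PE1 : Stmt_PE1 := p_PE1 q_CUT
theorem q_PE2 : Stmt_PE2 := p_PE2 q_LNO
theorem q_PG3 : Stmt_PG3 := p_PG3
theorem q_PEG : Stmt_PEG := p_PEG q_PLT q_AWY q_PE1 q_PE2 q_PG3
theorem q_MFG : Stmt_MFG := p_MFG q_FXC q_DIC q_TRI q_FXS q_PEG q_ATR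
theorem q_TRP : Stmt_TRP := p_TRP q_HDY
theorem q_SDF : Stmt_SDF := p_SDF q_LFT q_TRP
theorem q_SDM : Stmt_SDM := p_SDM q_PLT q_FXC q_DIC q_TRI q_TRP q_SDF

theorem gcg : Stmt_GCG := asmG q_MFG q_EXI q_FUL q_SDM

theorem gcg1 : Stmt_GCG1 := asmG1 gcg q_CY2 q_FUL

theorem loc (Γ G : Subgroup Pool.CG.H) (hΓ : Pool.CG.FirstKind Γ) (hG : Γ ≤ G)
    (hn : ∀ g ∈ G, ∀ γ ∈ Γ, g * γ * g⁻¹ ∈ Γ) (O : Set (Circle × Circle))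
    (h : PermutesFilling G O) : Pool.CG.Conv G := by
  obtain ⟨μ, h1, h2, h3⟩ := LOC_current G O h
  exact (gcg Γ G hΓ hG hn).2.1.2 ⟨μ, h1, h2, fixes_scales h3⟩

end Pool.GC
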