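import Pool.Agent.Work.MP_ae1ff6_gc.Interface3

/-!
# Invariant geodesic currents (MP_ae1ff6_gt): block ATR
-/

open Topology Filter Set MeasureTheory
open scoped ComplexConjugate ENNReal

set_option autoImplicit false

namespace Pool.GC

open Pool.CG

theorem ATR_inj (x y : ℝ) (h : Circle.exp x = Circle.exp y) (h1 : x - y < 2 * Real.pi)
    (h2 : y - x < 2 * Real.pi) : x = y := by
  obtain ⟨m, hm⟩ := Circle.exp_eq_exp.1 h
  have hpi : (0 : ℝ) < 2 * Real.pi := Real.two_pi_pos
  have h3 : (m : ℝ) < 1 := by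
    by_contra hc
    push Not at hc
    have := mul_le_mul_of_nonneg_right hc hpi.le
    linarith
  have h4 : (-1 : ℝ) < m := by
    by_contra hc
    push Not at hc
    have := mul_le_mul_of_nonneg_right hc hpi.le
    linarith
  have h5 : m < 1 := by exact_mod_cast h3
  have h6 : -1 < m := by exact_mod_cast h4
  have h7 : m = 0 := by omega
  rw [h7] at hm
  simpa using hm

theorem ATR_nhds (θ ε : ℝ) (hε : 0 < ε) (hε2 : 2 * ε < 2 * Real.pi) :
    Circle.exp '' Icc (θ - ε) (θ + ε) ∈ 𝓝 (Circle.exp θ) := by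
  have h1 : IsOpen (Circle.exp '' Ioo (θ - ε) (θ + ε)) :=
    (arc (θ - ε) (θ + ε) (by linarith) (by linarith)).1
  refine mem_of_superset (h1.mem_nhds ⟨θ, ⟨by linarith, by linarith⟩, rfl⟩) ?_
  exact image_mono Ioo_subset_Icc_self

theorem ATR_small (θ : ℝ) (A : Set Circle) (hA : A ∈ 𝓝 (Circle.exp θ)) :
    ∃ ε : ℝ, 0 < ε ∧ ∀ δ : ℝ, δ < ε → Circle.exp '' Icc (θ - δ) (θ + δ) ⊆ A := by
  have h1 : Circle.exp ⁻¹' A ∈ 𝓝 θ := Circle.exp.continuous.continuousAt.preimage_mem_nhds hA
  obtain ⟨ε, hε, hb⟩ := Metric.mem_nhds_iff.1 h1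
  refine ⟨ε, hε, fun δ hδ => ?_⟩
  rintro _ ⟨x, hx, rfl⟩
  apply hb
  rw [Metric.mem_ball, Real.dist_eq, abs_lt]
  constructor
  · linarith [hx.1]
  · linarith [hx.2]

theorem ATR_symm (a b c d : Circle) (h : Link a b c d) : Link a b d c :=
  ⟨h.2.1, h.1, fun t ht hd hc => h.2.2 t ht hc hd⟩

/-- block ATR -/
theorem p_ATR (h1 : Stmt_TWO) (h2 : Stmt_LFT) : Stmt_ATR := by
  intro a b A B hab hA hB
  obtain ⟨θ, s, hθs, hsθ, rfl, rfl⟩ := LOP_param a b hab
  obtain ⟨ε1, hε1, hA1⟩ := ATR_small θ A hA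
  obtain ⟨ε2, hε2, hB1⟩ := ATR_small s B hB
  obtain ⟨δ, hδ, hd1, hd2, hd3, hd4⟩ : ∃ δ : ℝ, 0 < δ ∧ δ < ε1 ∧ δ < ε2 ∧ 4 * δ ≤ s - θ ∧
      4 * δ ≤ θ + 2 * Real.pi - s := by
    refine ⟨min (min (ε1 / 2) (ε2 / 2)) (min ((s - θ) / 4) ((θ + 2 * Real.pi - s) / 4)),
      ?_, ?_, ?_, ?_, ?_⟩
    · refine lt_min (lt_min (by linarith) (by linarith)) (lt_min (by linarith) (by linarith))
    · have := (min_le_left (min (ε1 / 2) (ε2 / 2)) (min ((s - θ) / 4)
        ((θ + 2 * Real.pi - s) / 4))).trans (min_le_left _ _)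
      linarith
    · have := (min_le_left (min (ε1 / 2) (ε2 / 2)) (min ((s - θ) / 4)
        ((θ + 2 * Real.pi - s) / 4))).trans (min_le_right _ _)
      linarith
    · have := (min_le_right (min (ε1 / 2) (ε2 / 2)) (min ((s - θ) / 4)
        ((θ + 2 * Real.pi - s) / 4))).trans (min_le_left _ _)
      linarith
    · have := (min_le_right (min (ε1 / 2) (ε2 / 2)) (min ((s - θ) / 4)
        ((θ + 2 * Real.pi - s) / 4))).trans (min_le_right _ _)
      linarith
  have hA2 := hA1 δ hd1
  have hB2 := hB1 δ hd2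
  refine ⟨Circle.exp '' Icc (θ - δ / 2) (θ + δ / 2),
    ATR_nhds θ (δ / 2) (by linarith) (by linarith),
    Circle.exp '' Icc (s - δ / 2) (s + δ / 2),
    ATR_nhds s (δ / 2) (by linarith) (by linarith), ?_⟩
  intro k hka hkb hkA hkB
  have hA3 : Circle.exp '' Icc (θ - δ / 2) (θ + δ / 2) ⊆ A :=
    (image_mono (Icc_subset_Icc (by linarith) (by linarith))).trans hA2
  have hB3 : Circle.exp '' Icc (s - δ / 2) (s + δ / 2) ⊆ B :=
    (image_mono (Icc_subset_Icc (by linarith) (by linarith))).trans hB2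
  have hKA : ∀ z ∈ A, (k * k) z ∈ Circle.exp '' Icc (θ - δ / 2) (θ + δ / 2) :=
    fun z hz => hkA _ (hA3 (hkA z hz))
  have hKB : ∀ z ∈ B, (k * k) z ∈ Circle.exp '' Icc (s - δ / 2) (s + δ / 2) :=
    fun z hz => hkB _ (hB3 (hkB z hz))
  have hKa : (k * k) (Circle.exp θ) = Circle.exp θ := by
    show k (k (Circle.exp θ)) = Circle.exp θ
    rw [hka, hka]
  have hKb : (k * k) (Circle.exp s) = Circle.exp s := by
    show k (k (Circle.exp s)) = Circle.exp s
    rw [hkb, hkb]
  have hcA : Circle.exp (θ + δ) ∈ A := hA2 ⟨θ + δ, ⟨by linarith, le_rfl⟩, rfl⟩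
  have hcB : Circle.exp (s - δ) ∈ B := hB2 ⟨s - δ, ⟨le_rfl, by linarith⟩, rfl⟩
  have hca : Circle.exp (θ + δ) ≠ Circle.exp θ := by
    intro h
    have := ATR_inj _ _ h (by linarith) (by linarith)
    linarith
  have hcb : Circle.exp (θ + δ) ≠ Circle.exp s := by
    intro h
    have := ATR_inj _ _ h (by linarith) (by linarith)
    linarith
  have hne : ∀ z : Circle, z ≠ Circle.exp θ → k z ≠ Circle.exp θ := by
    intro z hz h
    apply hz
    apply k.injective
    rw [h, hka]
  have hne' : ∀ z : Circle, z ≠ Circle.exp s → k z ≠ Circle.exp s := by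
    intro z hz h
    apply hz
    apply k.injective
    rw [h, hkb]
  have hL : ¬ Link (Circle.exp θ) (Circle.exp s) (Circle.exp (θ + δ))
      ((k * k) (Circle.exp (θ + δ))) := by
    refine h1 _ _ _ _ (k (Circle.exp (θ + δ))) hca hcb (hne _ (hne _ hca))
      (hne' _ (hne' _ hcb)) (hne _ hca) (hne' _ hcb) ?_
    constructor
    · intro h
      have h3 := lhi k _ _ _ _ h
      rw [hka, hkb] at h3
      exact ATR_symm _ _ _ _ h3
    · intro h
      have h3 : Link (Circle.exp θ) (Circle.exp s) (k (Circle.exp (θ + δ)))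
          (k (k (Circle.exp (θ + δ)))) := ATR_symm _ _ _ _ h
      have h4 := lhi k.symm _ _ _ _ h3
      have e1 : k.symm (Circle.exp θ) = Circle.exp θ := by
        rw [← hka]
        conv_rhs => rw [hka]
        exact k.symm_apply_apply _
      have e2 : k.symm (Circle.exp s) = Circle.exp s := by
        rw [← hkb]
        conv_rhs => rw [hkb]
        exact k.symm_apply_apply _
      rw [e1, e2, k.symm_apply_apply, k.symm_apply_apply] at h4
      exact h4
  obtain ⟨κ, k1, k2, k3, k4⟩ := h2 (k * k) θ s _ hθs hsθ hKa hKb hca hcb hL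
  have m1 : κ (θ + δ) < θ + δ := by
    obtain ⟨y, hy, hy2⟩ := hKA _ hcA
    have h5 := k4 (θ + δ) ⟨by linarith, by linarith⟩
    rw [← hy2] at h5
    have h6 : θ < κ (θ + δ) := by
      have := κ.strictMono (show θ < θ + δ by linarith)
      rwa [k1] at this
    have h7 : κ (θ + δ) < s := by
      have := κ.strictMono (show θ + δ < s by linarith)
      rwa [k2] at this
    have h8 := ATR_inj _ _ h5 (by linarith [hy.1]) (by linarith [hy.2])
    linarith [hy.2]
  have m2 : s - δ < κ (s - δ) := by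
    obtain ⟨y, hy, hy2⟩ := hKB _ hcB
    have h5 := k4 (s - δ) ⟨by linarith, by linarith⟩
    rw [← hy2] at h5
    have h6 : θ < κ (s - δ) := by
      have := κ.strictMono (show θ < s - δ by linarith)
      rwa [k1] at this
    have h7 : κ (s - δ) < s := by
      have := κ.strictMono (show s - δ < s by linarith)
      rwa [k2] at this
    have h8 := ATR_inj _ _ h5 (by linarith [hy.1]) (by linarith [hy.2])
    linarith [hy.1]
  constructor
  · intro hK
    obtain ⟨y, hy, hy2⟩ := hKA _ hcA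
    rw [hK] at hy2
    have h5 : Circle.exp y = Circle.exp (θ + δ) := hy2
    have h8 := ATR_inj _ _ h5 (by linarith [hy.2]) (by linarith [hy.1])
    linarith [hy.2]
  · have hcont : ContinuousOn (fun x => κ x - x) (Icc (θ + δ) (s - δ)) :=
      (κ.continuous.sub continuous_id).continuousOn
    have hivt := intermediate_value_Icc (show θ + δ ≤ s - δ by linarith) hcont
    obtain ⟨x, hx, hx2⟩ := hivt (show (0 : ℝ) ∈ Icc (κ (θ + δ) - (θ + δ)) (κ (s - δ) - (s - δ)) from
      ⟨by linarith, by linarith⟩)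
    have hx3 : κ x = x := by
      have : κ x - x = 0 := hx2
      linarith
    refine ⟨Circle.exp x, ?_, ?_, ?_⟩
    · intro h
      have := ATR_inj _ _ h (by linarith [hx.2]) (by linarith [hx.1])
      linarith [hx.1]
    · intro h
      have := ATR_inj _ _ h (by linarith [hx.2]) (by linarith [hx.1])
      linarith [hx.2]
    · have h9 := k4 x ⟨by linarith [hx.1], by linarith [hx.2]⟩
      rw [hx3] at h9
      exact h9.symm

end Pool.GC
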