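import Pool.Agent.Work.MP_ae1ff6_gc.Interface

/-!
# MP_ae1ff6_gt, THEOREM GC, block BOX (typist helper87)
-/

open Topology Filter Set MeasureTheory
open scoped ComplexConjugate ENNReal

set_option autoImplicit false

namespace Pool.GC

open Pool.CG

theorem BOX_le (μ : Measure (Circle × Circle)) (k : H) (c : ℝ≥0∞)
    (hk : μ.map (Prod.map k k) = c • μ) (hc : c ≤ 1) (S : Set (Circle × Circle)) :
    μ S ≤ μ (Prod.map k k '' S) := by
  have h1 : μ.map (k.prodCongr k).toMeasurableEquiv (Prod.map k k '' S) = μ S := by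
    rw [MeasurableEquiv.map_apply]
    congr 1
    exact Set.preimage_image_eq S (k.injective.prodMap k.injective)
  have h2 : μ.map (k.prodCongr k).toMeasurableEquiv = c • μ := hk
  rw [h2, Measure.smul_apply, smul_eq_mul] at h1
  rw [← h1]
  calc c * μ (Prod.map k k '' S) ≤ 1 * μ (Prod.map k k '' S) := by gcongr
    _ = _ := one_mul _

/-- a nonempty open set contains two different points -/
theorem BOX_two (I : Set Circle) (hI : IsOpen I) (hne : I.Nonempty) :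
    ∃ x ∈ I, ∃ y ∈ I, x ≠ y := by
  obtain ⟨x, hx⟩ := hne
  obtain ⟨θ, rfl⟩ : ∃ θ, Circle.exp θ = x := ⟨Complex.arg x, Circle.exp_arg x⟩
  have h1 : ∀ᶠ t : ℝ in 𝓝 θ, Circle.exp t ∈ I :=
    (Circle.exp.continuous.continuousAt (x := θ)) (hI.mem_nhds hx)
  obtain ⟨δ, hδ, h2⟩ := Metric.eventually_nhds_iff.1 h1
  refine ⟨_, hx, Circle.exp (θ + min (δ / 2) 1), h2 ?_, ?_⟩
  · rw [Real.dist_eq, add_sub_cancel_left, abs_of_pos (by positivity)]
    exact lt_of_le_of_lt (min_le_left _ _) (by linarith)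
  · intro h
    have hπ := Real.pi_gt_three
    have hm : 0 < min (δ / 2) (1 : ℝ) := by positivity
    have hm1 : min (δ / 2) (1 : ℝ) ≤ 1 := min_le_right _ _
    have h3 : Circle.exp (min (δ / 2) 1) = 1 := by
      rw [Circle.exp_add] at h
      exact (mul_eq_left.1 h.symm)
    rw [Circle.exp_eq_one] at h3
    obtain ⟨n, hn⟩ := h3
    have h4 : (0 : ℝ) < n := by
      by_contra hcon
      push Not at hcon
      nlinarith
    have h5 : (1 : ℝ) ≤ n := by
      have : (0 : ℤ) < n := by exact_mod_cast h4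
      exact_mod_cast this
    nlinarith

theorem p_BOX : Stmt_BOX := by
  intro μ u I J ℓ m hμ hF hI hIn hJ hJn hlm h1 h2 h3
  obtain ⟨x, hx, y, hy, hxy⟩ := BOX_two I hI hIn
  obtain ⟨P, Q, hP, hQ, hxP, hyQ, hPQ⟩ := t2_separation hxy
  have hO1 : 0 < μ ((I ∩ P) ×ˢ J) := hF _ _ (hI.inter hP) ⟨x, hx, hxP⟩ hJ hJn
  have hO2 : 0 < μ ((I ∩ Q) ×ˢ J) := hF _ _ (hI.inter hQ) ⟨y, hy, hyQ⟩ hJ hJn
  have hdist : 0 < dist ℓ m := dist_pos.2 hlm
  obtain ⟨ρ, hρ⟩ : ∃ ρ : ℝ, ρ = dist ℓ m / 3 := ⟨_, rfl⟩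
  have hρ0 : 0 < ρ := by rw [hρ]; positivity
  obtain ⟨K, hK⟩ : ∃ K : ℕ → Set (Circle × Circle), K = fun n : ℕ =>
    (Metric.closedBall ℓ (ρ / (n + 1)) ×ˢ Metric.closedBall m (ρ / (n + 1))) \ {(ℓ, m)} := ⟨_, rfl⟩
  have hmeas : ∀ n, NullMeasurableSet (K n) μ := by
    intro n
    rw [hK]
    exact (((Metric.isClosed_closedBall.measurableSet).prod
      (Metric.isClosed_closedBall.measurableSet)).diff (measurableSet_singleton _)).nullMeasurableSet
  have hanti : Antitone K := by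
    intro i j hij
    rw [hK]
    have hle : ρ / ((j : ℝ) + 1) ≤ ρ / ((i : ℝ) + 1) := by
      have : (i : ℝ) ≤ j := by exact_mod_cast hij
      gcongr
    exact Set.sdiff_subset_sdiff_left (Set.prod_mono (Metric.closedBall_subset_closedBall hle)
      (Metric.closedBall_subset_closedBall hle))
  have hfin : μ (K 0) ≠ ∞ := by
    refine ne_of_lt (lt_of_le_of_lt (measure_mono ?_) (hμ.fin ρ hρ0))
    intro z hz
    rw [hK] at hz
    obtain ⟨⟨hz1, hz2⟩, -⟩ := hz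
    rw [Metric.mem_closedBall] at hz1 hz2
    simp only [Nat.cast_zero, zero_add, div_one] at hz1 hz2
    have t1 := dist_triangle4 ℓ z.1 z.2 m
    rw [dist_comm ℓ z.1] at t1
    show ρ ≤ dist z.1 z.2
    have : dist ℓ m = 3 * ρ := by rw [hρ]; ring
    linarith
  have hinter : ⋂ n, K n = ∅ := by
    ext z
    simp only [Set.mem_iInter, Set.mem_empty_iff_false, iff_false]
    intro hz
    have hz' : ∀ n : ℕ, dist z.1 ℓ ≤ ρ / (n + 1) ∧ dist z.2 m ≤ ρ / (n + 1) ∧ z ≠ (ℓ, m) := by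
      intro n
      have := hz n
      rw [hK] at this
      exact ⟨this.1.1, this.1.2, this.2⟩
    have hlim : Tendsto (fun n : ℕ => ρ / ((n : ℝ) + 1)) atTop (𝓝 0) := by
      have := (tendsto_one_div_add_atTop_nhds_zero_nat (𝕜 := ℝ)).const_mul ρ
      simpa [div_eq_mul_inv] using this
    have e1 : dist z.1 ℓ ≤ 0 := ge_of_tendsto' hlim fun n => (hz' n).1
    have e2 : dist z.2 m ≤ 0 := ge_of_tendsto' hlim fun n => (hz' n).2.1
    exact (hz' 0).2.2 (Prod.ext (dist_le_zero.1 e1) (dist_le_zero.1 e2))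
  have hlim := tendsto_measure_iInter_atTop hmeas hanti ⟨0, hfin⟩
  rw [hinter, measure_empty] at hlim
  obtain ⟨n, hn⟩ := ((tendsto_order.1 hlim).2 _ (lt_min hO1 hO2)).exists
  have hρn : 0 < ρ / ((n : ℝ) + 1) := by positivity
  obtain ⟨g, ⟨hg1, hg2⟩, c, hc, hg3⟩ := (((h1 _ (Metric.closedBall_mem_nhds ℓ hρn)).and
    (h2 _ (Metric.closedBall_mem_nhds m hρn))).and h3).exists
  have key : ∀ O : Set Circle, O ⊆ I → g⁻¹ ℓ ∉ O → μ (O ×ˢ J) ≤ μ (K n) := by
    intro O hO hgO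
    refine (BOX_le μ g c hg3 hc _).trans (measure_mono ?_)
    rintro w ⟨z, ⟨hz1, hz2⟩, rfl⟩
    rw [hK]
    refine ⟨⟨hg1 _ (hO hz1), hg2 _ hz2⟩, ?_⟩
    intro hw
    apply hgO
    have : g z.1 = ℓ := congrArg Prod.fst hw
    have h4 : g⁻¹ ℓ = z.1 := by
      rw [← this]
      exact g.symm_apply_apply z.1
    rw [h4]
    exact hz1
  by_cases hc1 : g⁻¹ ℓ ∈ I ∩ P
  · have hc2 : g⁻¹ ℓ ∉ I ∩ Q := fun h => Set.disjoint_left.1 hPQ hc1.2 h.2
    exact absurd (lt_of_lt_of_le hn (min_le_right _ _))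
      (not_lt.2 (key _ Set.inter_subset_left hc2))
  · exact absurd (lt_of_lt_of_le hn (min_le_left _ _))
      (not_lt.2 (key _ Set.inter_subset_left hc1))

end Pool.GC
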