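import Pool.Agent.Work.MP_ae1ff6_gc.Interface

open Topology Filter Set MeasureTheory
open scoped ComplexConjugate ENNReal

set_option autoImplicit false

namespace Pool.GC

open Pool.CG

/-- the exponential is injective on short pairs -/
theorem FIX_inj {x y : ℝ} (h : Circle.exp x = Circle.exp y) (h1 : x < y + 2 * Real.pi)
    (h2 : y < x + 2 * Real.pi) : x = y := by
  rcases le_total x y with h3 | h3
  · exact Circle.exp_injOn_Ico (a := x) (b := x + 2 * Real.pi) (by linarith)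
      ⟨le_rfl, by linarith [Real.two_pi_pos]⟩ ⟨h3, h2⟩ h
  · exact (Circle.exp_injOn_Ico (a := y) (b := y + 2 * Real.pi) (by linarith)
      ⟨le_rfl, by linarith [Real.two_pi_pos]⟩ ⟨h3, h1⟩ h.symm).symm

theorem FIX_period (x : ℝ) : Circle.exp (x + 2 * Real.pi) = Circle.exp x := by
  rw [Circle.exp_add, Circle.exp_two_pi, mul_one]

theorem FIX_open {a b : ℝ} : IsOpen (Circle.exp '' Ioo a b) :=
  isLocalHomeomorph_circleExp.isOpenMap _ isOpen_Ioo

theorem FIX_measIco {a b : ℝ} (h : a < b) : MeasurableSet (Circle.exp '' Ico a b) := by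
  rw [← Ioo_insert_left h, image_insert_eq]
  exact (FIX_open.measurableSet).insert _

theorem FIX_measIcc {a b : ℝ} : MeasurableSet (Circle.exp '' Icc a b) :=
  (isCompact_Icc.image Circle.exp.continuous).isClosed.measurableSet

/-- the distance of two disjoint arcs -/
theorem FIX_dist {a b c d : ℝ} (hab : a ≤ b) (hcd : c ≤ d) (h1 : b < c) (h2 : d < a + 2 * Real.pi) :
    ∃ ε : ℝ, 0 < ε ∧ ∀ x ∈ Circle.exp '' Icc a b, ∀ y ∈ Circle.exp '' Icc c d, ε ≤ dist x y := by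
  have hK : IsCompact ((Circle.exp '' Icc a b) ×ˢ (Circle.exp '' Icc c d)) :=
    (isCompact_Icc.image Circle.exp.continuous).prod (isCompact_Icc.image Circle.exp.continuous)
  have hne : ((Circle.exp '' Icc a b) ×ˢ (Circle.exp '' Icc c d)).Nonempty :=
    ⟨(Circle.exp a, Circle.exp c), ⟨a, ⟨le_rfl, hab⟩, rfl⟩, ⟨c, ⟨le_rfl, hcd⟩, rfl⟩⟩
  obtain ⟨p, hp, hmin⟩ := hK.exists_isMinOn hne
    (f := fun x : Circle × Circle => dist x.1 x.2) (by fun_prop)
  refine ⟨dist p.1 p.2, ?_, ?_⟩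
  · apply dist_pos.2
    obtain ⟨⟨x, hx, hxp⟩, ⟨y, hy, hyp⟩⟩ := hp
    intro h
    rw [← hxp, ← hyp] at h
    have := FIX_inj h (by linarith [hx.2, hy.1, Real.two_pi_pos]) (by linarith [hx.1, hy.2])
    linarith [hx.2, hy.1]
  · intro x hx y hy
    exact hmin (⟨hx, hy⟩ : (x, y) ∈ (Circle.exp '' Icc a b) ×ˢ (Circle.exp '' Icc c d))

theorem FIX_meas (k : H) : Measurable (Prod.map k k : Circle × Circle → Circle × Circle) :=
  k.continuous.measurable.prodMap k.continuous.measurable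

theorem FIX_inv {μ : Measure (Circle × Circle)} {k : H} {c : ℝ≥0∞} (h0 : c ≠ 0) (h1 : c ≠ ∞)
    (h : μ.map (Prod.map k k) = c • μ) :
    μ.map (Prod.map (k⁻¹ : H) (k⁻¹ : H)) = c⁻¹ • μ := by
  have e : (Prod.map (k⁻¹ : H) (k⁻¹ : H)) ∘ (Prod.map k k : Circle × Circle → Circle × Circle) =
      id := by
    funext x
    exact Prod.ext (k.symm_apply_apply x.1) (k.symm_apply_apply x.2)
  have h2 : (μ.map (Prod.map k k)).map (Prod.map (k⁻¹ : H) (k⁻¹ : H)) = μ := by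
    rw [Measure.map_map (FIX_meas _) (FIX_meas _), e, Measure.map_id]
  rw [h, Measure.map_smul] at h2
  conv_rhs => rw [← h2]
  rw [smul_smul, ENNReal.inv_mul_cancel h0 h1, one_smul]

/-- powers of the lift -/
theorem FIX_pow (k : H) (κ : ℝ ≃o ℝ) (α β : ℝ) (hα : κ α = α) (hβ : κ β = β)
    (hk : ∀ x ∈ Icc α β, Circle.exp (κ x) = k (Circle.exp x)) (m : ℤ) :
    ∀ x ∈ Icc α β, Circle.exp ((κ ^ m) x) = (k ^ m) (Circle.exp x) := by
  have h1 : ∀ x ∈ Icc α β, κ x ∈ Icc α β := by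
    intro x hx
    refine ⟨?_, ?_⟩
    · rw [← hα]
      exact κ.monotone hx.1
    · rw [← hβ]
      exact κ.monotone hx.2
  have h2 : ∀ x ∈ Icc α β, κ⁻¹ x ∈ Icc α β := by
    intro x hx
    refine ⟨?_, ?_⟩
    · apply κ.le_iff_le.1
      rw [hα]
      exact hx.1.trans (le_of_eq (κ.apply_symm_apply x).symm)
    · apply κ.le_iff_le.1
      rw [hβ]
      exact (le_of_eq (κ.apply_symm_apply x)).trans hx.2
  have h3 : ∀ x ∈ Icc α β, Circle.exp (κ⁻¹ x) = (k⁻¹ : H) (Circle.exp x) := by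
    intro x hx
    have h4 := hk _ (h2 x hx)
    have h5 : κ (κ⁻¹ x) = x := κ.apply_symm_apply x
    rw [h5] at h4
    rw [h4]
    exact (k.symm_apply_apply _).symm
  induction m using Int.induction_on with
  | zero =>
    intro x _
    rfl
  | succ n ih =>
    intro x hx
    rw [zpow_add_one, zpow_add_one]
    change Circle.exp ((κ ^ (n : ℤ)) (κ x)) = (k ^ (n : ℤ)) (k (Circle.exp x))
    rw [ih _ (h1 x hx), hk x hx]
  | pred n ih =>
    intro x hx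
    rw [zpow_sub_one, zpow_sub_one]
    change Circle.exp ((κ ^ (-(n : ℤ))) (κ⁻¹ x)) = (k ^ (-(n : ℤ))) ((k⁻¹ : H) (Circle.exp x))
    rw [ih _ (h2 x hx), h3 x hx]

theorem FIX_img (k : H) (κ : ℝ ≃o ℝ) (m : ℤ) (S : Set ℝ)
    (hk : ∀ x ∈ S, Circle.exp ((κ ^ m) x) = (k ^ m) (Circle.exp x)) :
    (k ^ m) '' (Circle.exp '' S) = Circle.exp '' ((κ ^ m) '' S) := by
  rw [image_image, image_image]
  exact (image_congr hk).symm

/-- the main step -/
theorem FIX_core (hORI : Stmt_ORI) (hWAN : Stmt_WAN) (μ : Measure (Circle × Circle)) (k : H)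
    (c : ℝ≥0∞) (κ : ℝ ≃o ℝ) (α β γ δ ξ : ℝ) (hμ : Current μ) (hF : FullSupport μ)
    (h0 : c ≠ 0) (h1 : c ≠ ∞) (hc : μ.map (Prod.map k k) = c • μ) (hαξ : α < ξ) (hξβ : ξ < β)
    (hβγ : β < γ) (hγδ : γ < δ) (hδα : δ < α + 2 * Real.pi) (hα : κ α = α) (hβ : κ β = β)
    (hγ : κ γ = γ) (hδ : κ δ = δ) (hk : ∀ x ∈ Icc α β, Circle.exp (κ x) = k (Circle.exp x))
    (hk' : ∀ x ∈ Icc γ δ, Circle.exp (κ x) = k (Circle.exp x)) (hξ : ξ < κ ξ) : False := by
  obtain ⟨s, t, hs, hsξ, hξt, ht, hκs, hκt, hU, hdis, himg⟩ := hORI κ α β ξ hα hβ hαξ hξβ hξ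
  have hsub : ∀ m : ℤ, Ico ((κ ^ m) ξ) ((κ ^ (m + 1)) ξ) ⊆ Icc α β := by
    intro m x hx
    have h2 : x ∈ Ioo s t := by
      rw [hU]
      exact mem_iUnion.2 ⟨m, hx⟩
    exact ⟨hs.trans h2.1.le, h2.2.le.trans ht⟩
  have hsub0 : Ico ξ (κ ξ) ⊆ Icc α β := by
    intro x hx
    exact ⟨hαξ.le.trans hx.1, hx.2.le.trans (hξt.le.trans ht)⟩
  have hD : ∀ m : ℤ, (k ^ m) '' (Circle.exp '' Ico ξ (κ ξ)) =
      Circle.exp '' Ico ((κ ^ m) ξ) ((κ ^ (m + 1)) ξ) := by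
    intro m
    rw [FIX_img k κ m _ (fun x hx => FIX_pow k κ α β hα hβ hk m x (hsub0 hx)), himg]
  have hB : k '' (Circle.exp '' Icc γ δ) = Circle.exp '' Icc γ δ := by
    have h2 := FIX_img k κ 1 (Icc γ δ) (by
      intro x hx
      rw [zpow_one, zpow_one]
      exact hk' x hx)
    rw [zpow_one, zpow_one, OrderIso.image_Icc, hγ, hδ] at h2
    exact h2
  have hB' : (k⁻¹ : H) '' (Circle.exp '' Icc γ δ) = Circle.exp '' Icc γ δ := by
    conv_lhs => rw [← hB]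
    rw [image_image]
    have e : ∀ x : Circle, (k⁻¹ : H) (k x) = x := fun x => k.symm_apply_apply x
    simp only [e, image_id']
  -- different integers
  have hdisj : ∀ m m' : ℤ, m ≠ m' →
      Disjoint ((k ^ m) '' (Circle.exp '' Ico ξ (κ ξ))) ((k ^ m') '' (Circle.exp '' Ico ξ (κ ξ))) := by
    intro m m' hne
    rw [hD, hD, Set.disjoint_left]
    rintro _ ⟨x, hx, rfl⟩ ⟨y, hy, hxy⟩
    have hx' := hsub m hx
    have hy' := hsub m' hy
    have h2 : y = x := FIX_inj hxy (by linarith [hy'.2, hx'.1]) (by linarith [hx'.2, hy'.1])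
    rw [h2] at hy
    exact Set.disjoint_left.1 (hdis hne) hx hy
  obtain ⟨ε, hε, hdist⟩ := FIX_dist (hαξ.le.trans hξβ.le) hγδ.le hβγ hδα
  have hfar : ∀ m : ℤ, ∀ x ∈ (k ^ m) '' (Circle.exp '' Ico ξ (κ ξ)), ∀ y ∈ Circle.exp '' Icc γ δ,
      ε ≤ dist x y := by
    intro m x hx y hy
    rw [hD] at hx
    exact hdist x (image_mono (hsub m) hx) y hy
  have hzero : μ ((Circle.exp '' Ico ξ (κ ξ)) ×ˢ (Circle.exp '' Icc γ δ)) = 0 := by
    rcases le_total c 1 with h2 | h2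
    · refine hWAN μ k c _ _ ε hμ hc h2 (FIX_measIco hξ) FIX_measIcc hB ?_ hε ?_
      · intro n n' hne
        have h3 := hdisj n n' (by exact_mod_cast hne)
        rw [zpow_natCast, zpow_natCast] at h3
        exact h3
      · intro n
        have h3 := hfar n
        rw [zpow_natCast] at h3
        exact h3
    · have h4 : ∀ n : ℕ, (k⁻¹ : H) ^ n = k ^ (-(n : ℤ)) := by
        intro n
        rw [zpow_neg, zpow_natCast, inv_pow]
      refine hWAN μ k⁻¹ c⁻¹ _ _ ε hμ (FIX_inv h0 h1 hc) (ENNReal.inv_le_one.2 h2) (FIX_measIco hξ)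
        FIX_measIcc hB' ?_ hε ?_
      · intro n n' hne
        have h3 := hdisj (-n) (-n') (by
          intro h5
          exact hne (by exact_mod_cast neg_injective h5))
        rw [← h4, ← h4] at h3
        exact h3
      · intro n
        have h3 := hfar (-n)
        rw [← h4] at h3
        exact h3
  have hpos := hF (Circle.exp '' Ioo ξ (κ ξ)) (Circle.exp '' Ioo γ δ) FIX_open
    ((nonempty_Ioo.2 hξ).image _) FIX_open ((nonempty_Ioo.2 hγδ).image _)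
  have hle : μ ((Circle.exp '' Ioo ξ (κ ξ)) ×ˢ (Circle.exp '' Ioo γ δ)) ≤
      μ ((Circle.exp '' Ico ξ (κ ξ)) ×ˢ (Circle.exp '' Icc γ δ)) :=
    measure_mono (prod_mono (image_mono Ioo_subset_Ico_self) (image_mono Ioo_subset_Icc_self))
  rw [hzero] at hle
  exact absurd hpos (not_lt.2 hle)

theorem p_FIX (hLFT : Stmt_LFT) (hORI : Stmt_ORI) (hWAN : Stmt_WAN) : Stmt_FIX := by
  intro μ k c e hμ hF h0 h1 hc he hfix
  by_contra hne
  obtain ⟨x, hx⟩ : ∃ x, k x ≠ x := by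
    by_contra hcon
    push Not at hcon
    exact hne (Homeomorph.ext hcon)
  obtain ⟨ξ, rfl⟩ := Circle.exp_surjective x
  have hpi := Real.two_pi_pos
  -- parameters
  have hpar : ∀ i, ∃ θ ∈ Ioo ξ (ξ + 2 * Real.pi), Circle.exp θ = e i := by
    intro i
    obtain ⟨θ, hθ, hθe⟩ := ARC_surj ξ (e i)
    refine ⟨θ, ⟨lt_of_le_of_ne hθ.1 ?_, hθ.2⟩, hθe⟩
    intro h
    apply hx
    rw [h, hθe, hfix]
  choose θ hθ hθe using hpar
  have hθinj : Function.Injective θ := by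
    intro i j hij
    apply he
    rw [← hθe, ← hθe, hij]
  obtain ⟨T, hT⟩ : ∃ T : Finset ℝ, T = Finset.univ.image θ := ⟨_, rfl⟩
  have hcard : T.card = 4 := by
    rw [hT, Finset.card_image_of_injective _ hθinj, Finset.card_univ, Fintype.card_fin]
  have hTm : ∀ y ∈ T, y ∈ Ioo ξ (ξ + 2 * Real.pi) ∧ k (Circle.exp y) = Circle.exp y := by
    intro y hy
    rw [hT, Finset.mem_image] at hy
    obtain ⟨i, -, rfl⟩ := hy
    refine ⟨hθ i, ?_⟩
    rw [hθe, hfix]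
  obtain ⟨τ, hτ⟩ : ∃ τ : Fin 4 ↪o ℝ, τ = T.orderEmbOfFin hcard := ⟨_, rfl⟩
  have hτm : ∀ i, τ i ∈ Ioo ξ (ξ + 2 * Real.pi) ∧ k (Circle.exp (τ i)) = Circle.exp (τ i) := by
    intro i
    apply hTm
    rw [hτ]
    exact Finset.orderEmbOfFin_mem T hcard i
  have l01 : τ 0 < τ 1 := τ.lt_iff_lt.2 (by decide)
  have l12 : τ 1 < τ 2 := τ.lt_iff_lt.2 (by decide)
  have l23 : τ 2 < τ 3 := τ.lt_iff_lt.2 (by decide)
  obtain ⟨⟨a0, -⟩, f0⟩ := hτm 0
  obtain ⟨⟨a1, b1⟩, f1⟩ := hτm 1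
  obtain ⟨⟨a2, b2⟩, f2⟩ := hτm 2
  obtain ⟨⟨a3, b3⟩, f3⟩ := hτm 3
  obtain ⟨t0, ht0⟩ : ∃ t, t = τ 0 := ⟨_, rfl⟩
  obtain ⟨t1, ht1⟩ : ∃ t, t = τ 1 := ⟨_, rfl⟩
  obtain ⟨t2, ht2⟩ : ∃ t, t = τ 2 := ⟨_, rfl⟩
  obtain ⟨t3, ht3⟩ : ∃ t, t = τ 3 := ⟨_, rfl⟩
  rw [← ht0] at l01 a0 f0
  rw [← ht1] at l01 l12 a1 b1 f1
  rw [← ht2] at l12 l23 a2 b2 f2
  rw [← ht3] at l23 a3 b3 f3
  -- the lift
  obtain ⟨φ, hφ⟩ : ∃ φ : ℝ, φ = t2 - 2 * Real.pi := ⟨_, rfl⟩
  have eφ : φ + 2 * Real.pi = t2 := by rw [hφ]; ring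
  have fφ : Circle.exp φ = Circle.exp t2 := by rw [← eφ, FIX_period]
  obtain ⟨κ, κ1, κ2, κ3, κ4⟩ := hLFT k φ t0 (Circle.exp t1) (by linarith) (by linarith)
    (by rw [fφ, f2]) f0
    (by
      intro h
      rw [fφ] at h
      have := FIX_inj h (by linarith) (by linarith)
      linarith)
    (by
      intro h
      have := FIX_inj h (by linarith) (by linarith)
      linarith)
    (by
      rw [f1]
      intro h
      rcases h.2.2 {Circle.exp t1} isPreconnected_singleton rfl rfl with h2 | h2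
      · exact h.1.1 h2.symm
      · exact h.1.2 h2.symm)
  have hfx : ∀ y ∈ Icc φ (φ + 2 * Real.pi), k (Circle.exp y) = Circle.exp y → κ y = y := by
    intro y hy hky
    rcases eq_or_lt_of_le hy.1 with h2 | h2
    · rw [← h2, κ1]
    rcases eq_or_lt_of_le hy.2 with h3 | h3
    · rw [h3, κ3]
    have h4 : φ < κ y := by
      rw [← κ1]
      exact κ.strictMono h2
    have h5 : κ y < φ + 2 * Real.pi := by
      rw [← κ3]
      exact κ.strictMono h3
    apply FIX_inj _ (by linarith) (by linarith)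
    rw [κ4 y hy, hky]
  obtain ⟨α, hα⟩ : ∃ α : ℝ, α = t3 - 2 * Real.pi := ⟨_, rfl⟩
  have eα : α + 2 * Real.pi = t3 := by rw [hα]; ring
  have fα : Circle.exp α = Circle.exp t3 := by rw [← eα, FIX_period]
  have kα : κ α = α := hfx α ⟨by linarith, by linarith⟩ (by rw [fα, f3])
  have kβ : κ t0 = t0 := κ2
  have kγ : κ t1 = t1 := hfx t1 ⟨by linarith, by linarith⟩ f1
  have kδ : κ t2 = t2 := by rw [← eφ, κ3]
  have hk1 : ∀ x ∈ Icc α t0, Circle.exp (κ x) = k (Circle.exp x) := fun x hx =>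
    κ4 x ⟨by linarith [hx.1], by linarith [hx.2]⟩
  have hk2 : ∀ x ∈ Icc t1 t2, Circle.exp (κ x) = k (Circle.exp x) := fun x hx =>
    κ4 x ⟨by linarith [hx.1], by linarith [hx.2]⟩
  have hαξ : α < ξ := by linarith
  have hξφ : φ < ξ := by linarith
  have kξ : κ ξ ≠ ξ := by
    intro h
    apply hx
    rw [← hk1 ξ ⟨hαξ.le, a0.le⟩, h]
  rcases lt_or_gt_of_ne kξ with h | h
  · -- inverses
    have q1 : ∀ y, κ y = y → κ⁻¹ y = y := by
      intro y hy
      apply κ.injective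
      rw [hy]
      exact κ.apply_symm_apply y
    have q2 : ∀ a b : ℝ, κ a = a → κ b = b → (∀ x ∈ Icc a b, Circle.exp (κ x) = k (Circle.exp x)) →
        ∀ x ∈ Icc a b, Circle.exp (κ⁻¹ x) = (k⁻¹ : H) (Circle.exp x) := by
      intro a b ha hb hab x hx
      have := FIX_pow k κ a b ha hb hab (-1) x hx
      rw [zpow_neg_one, zpow_neg_one] at this
      exact this
    refine FIX_core hORI hWAN μ k⁻¹ c⁻¹ κ⁻¹ α t0 t1 t2 ξ hμ hF (ENNReal.inv_ne_zero.2 h1)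
      (ENNReal.inv_ne_top.2 h0) (FIX_inv h0 h1 hc) hαξ a0 l01 l12 (by linarith) (q1 _ kα) (q1 _ kβ)
      (q1 _ kγ) (q1 _ kδ) (q2 _ _ kα kβ hk1) (q2 _ _ kγ kδ hk2) ?_
    apply κ.lt_iff_lt.1
    have : κ (κ⁻¹ ξ) = ξ := κ.apply_symm_apply ξ
    rw [this]
    exact h
  · exact FIX_core hORI hWAN μ k c κ α t0 t1 t2 ξ hμ hF h0 h1 hc hαξ a0 l01 l12 (by linarith) kα kβ
      kγ kδ hk1 hk2 h

end Pool.GC
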