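import Pool.Agent.Work.MP_ae1ff6_gc.Interface2

/-! Block FN1: a fundamental domain of a hyperbolic element. -/

open Topology Filter Set MeasureTheory
open scoped ComplexConjugate ENNReal

set_option autoImplicit false

namespace Pool.GC

open Pool.CG

theorem FN1_fix (γ : H) (p : Circle) (h : γ p = p) (n : ℤ) : (γ ^ n) p = p := by
  have hinv : γ⁻¹ p = p := by
    have : γ⁻¹ (γ p) = p := γ.symm_apply_apply p
    rwa [h] at this
  induction n using Int.induction_on with
  | zero => rfl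
  | succ n ih =>
    rw [zpow_add_one]
    show (γ ^ (n : ℤ)) (γ p) = p
    rw [h, ih]
  | pred n ih =>
    rw [zpow_sub_one]
    show (γ ^ (-(n : ℤ))) (γ⁻¹ p) = p
    rw [hinv, ih]

theorem p_FN1 (hSYM : Stmt_SYM) (hLNO : Stmt_LNO) : Stmt_FN1 := by
  intro μ γ p q hμ hM hA
  obtain ⟨ρ, hρ, hn⟩ := hyp γ p q hM hA
  obtain ⟨ε, hε, hub⟩ := lub p q ρ hρ
  have hfp : γ p = p := (hA.2 p).2 (Or.inl rfl)
  have hfq : γ q = q := (hA.2 q).2 (Or.inr rfl)
  refine ⟨{x | Link p q x.1 x.2} ∩ ({x | ρ ≤ dist x.1 p} ∩ {x | ρ ≤ dist x.1 q}), ?_, ?_, ?_⟩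
  · have h1 : IsOpen {x : Circle × Circle | Link p q x.1 x.2} :=
      hLNO.1.preimage (continuous_const.prodMk continuous_id : Continuous
        fun x : Circle × Circle => (((p, q) : Circle × Circle), x))
    have h2 : IsClosed {x : Circle × Circle | ρ ≤ dist x.1 p} :=
      isClosed_le continuous_const (continuous_fst.dist continuous_const)
    have h3 : IsClosed {x : Circle × Circle | ρ ≤ dist x.1 q} :=
      isClosed_le continuous_const (continuous_fst.dist continuous_const)
    exact h1.measurableSet.inter (h2.measurableSet.inter h3.measurableSet)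
  · refine lt_of_le_of_lt (measure_mono ?_) (hμ.fin ε hε)
    rintro ⟨x, y⟩ ⟨h1, h2, h3⟩
    exact hub x y h2 h3 (hSYM p q x y h1).1
  · rintro ⟨x, y⟩ hL
    obtain ⟨n, h1, h2⟩ := hn x hL.1.1 hL.1.2
    refine ⟨n, ?_, h1, h2⟩
    have h3 := lhi (γ ^ n) p q x y hL
    rw [FN1_fix γ p hfp n, FN1_fix γ q hfq n] at h3
    exact h3

end Pool.GC
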