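import Pool.Agent.Work.MP_ae1ff6_gc.Interface2

/-!
# Block FN2: wandering sets
-/

open Topology Filter Set MeasureTheory
open scoped ComplexConjugate ENNReal

set_option autoImplicit false

namespace Pool.GC

open Pool.CG

theorem FN2_meas (g : H) : Measurable (Prod.map g g) :=
  g.continuous.measurable.prodMap g.continuous.measurable

/-- the homeomorphisms which preserve the measure -/
def FN2_grp (μ : Measure (Circle × Circle)) : Subgroup H where
  carrier := {g | μ.map (Prod.map g g) = μ}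
  mul_mem' := by
    intro a b ha hb
    have h1 : (Prod.map (a * b : H) (a * b : H) : Circle × Circle → Circle × Circle)
        = Prod.map a a ∘ Prod.map b b := rfl
    show μ.map (Prod.map (a * b : H) (a * b : H)) = μ
    rw [h1, ← Measure.map_map (FN2_meas a) (FN2_meas b)]
    have hb' : μ.map (Prod.map b b) = μ := hb
    rw [hb']
    exact ha
  one_mem' := by
    show μ.map (Prod.map (1 : H) (1 : H)) = μ
    have h1 : (Prod.map (1 : H) (1 : H) : Circle × Circle → Circle × Circle) = id := rfl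
    rw [h1, Measure.map_id]
  inv_mem' := by
    intro a ha
    show μ.map (Prod.map (a⁻¹ : H) (a⁻¹ : H)) = μ
    have ha' : μ.map (Prod.map a a) = μ := ha
    have h1 : (Prod.map (a⁻¹ : H) (a⁻¹ : H) ∘ Prod.map a a : Circle × Circle → Circle × Circle)
        = id := by
      funext x
      have h2 : ∀ z : Circle, (a⁻¹ : H) (a z) = z := fun z => a.symm_apply_apply z
      exact Prod.ext (h2 x.1) (h2 x.2)
    conv_lhs => rw [← ha']
    rw [Measure.map_map (FN2_meas _) (FN2_meas a), h1, Measure.map_id]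

theorem p_FN2 : Stmt_FN2 := by
  intro μ φ W S hφ hW hS hc hw
  have hz : ∀ n : ℤ, μ.map (Prod.map (φ ^ n : H) (φ ^ n : H)) = μ := by
    intro n
    have h1 : φ ∈ FN2_grp μ := hφ
    exact (FN2_grp μ).zpow_mem h1 n
  have hcomp : ∀ (n m : ℤ) (z : Circle), (φ ^ n : H) ((φ ^ m : H) z) = (φ ^ (n + m) : H) z := by
    intro n m z
    rw [zpow_add]
    rfl
  have hinv : ∀ (n : ℤ) (z : Circle), (φ ^ n : H) ((φ ^ (-n) : H) z) = z := by
    intro n z
    rw [hcomp, add_neg_cancel, zpow_zero]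
    rfl
  let Φ : ℤ → Circle × Circle → Circle × Circle := fun n => Prod.map (φ ^ n : H) (φ ^ n : H)
  have hΦm : ∀ n, Measurable (Φ n) := fun n => FN2_meas _
  have hΦi : ∀ n x, Φ n (Φ (-n) x) = x := fun n x =>
    Prod.ext (hinv n x.1) (hinv n x.2)
  have hsub : S ⊆ ⋃ n : ℤ, S ∩ Φ n ⁻¹' W := by
    intro x hx
    obtain ⟨n, hn⟩ := hc x hx
    exact mem_iUnion.2 ⟨n, hx, hn⟩
  have heq : ∀ n : ℤ, μ (S ∩ Φ n ⁻¹' W) = μ (Φ (-n) ⁻¹' S ∩ W) := by
    intro n
    have h1 : μ (S ∩ Φ n ⁻¹' W) = (μ.map (Φ (-n))) (S ∩ Φ n ⁻¹' W) := by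
      rw [show μ.map (Φ (-n)) = μ from hz (-n)]
    rw [h1, Measure.map_apply (hΦm (-n)) (hS.inter (hΦm n hW)), preimage_inter]
    congr 2
    ext x
    show Φ n (Φ (-n) x) ∈ W ↔ x ∈ W
    rw [hΦi]
  have hdis : Pairwise (Function.onFun Disjoint fun n : ℤ => Φ (-n) ⁻¹' S ∩ W) := by
    intro n m hnm
    rw [Function.onFun, Set.disjoint_left]
    rintro x ⟨hx1, _⟩ ⟨hx2, _⟩
    refine hw (n - m) (sub_ne_zero.2 hnm) _ hx1 ?_
    have h1 : ∀ z : Circle, (φ ^ (n - m) : H) ((φ ^ (-n) : H) z) = (φ ^ (-m) : H) z := by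
      intro z
      rw [hcomp, show n - m + -n = -m by ring]
    have h2 : ((φ ^ (n - m) : H) (Φ (-n) x).1, (φ ^ (n - m) : H) (Φ (-n) x).2) = Φ (-m) x :=
      Prod.ext (h1 x.1) (h1 x.2)
    rw [h2]
    exact hx2
  calc μ S ≤ μ (⋃ n : ℤ, S ∩ Φ n ⁻¹' W) := measure_mono hsub
    _ ≤ ∑' n : ℤ, μ (S ∩ Φ n ⁻¹' W) := measure_iUnion_le _
    _ = ∑' n : ℤ, μ (Φ (-n) ⁻¹' S ∩ W) := by
        congr 1
        funext n
        exact heq n
    _ = μ (⋃ n : ℤ, Φ (-n) ⁻¹' S ∩ W) :=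
        (measure_iUnion hdis fun n => (hΦm (-n) hS).inter hW).symm
    _ ≤ μ W := measure_mono (iUnion_subset fun n => inter_subset_right)

end Pool.GC
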