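import Pool.Agent.Work.MP_ae1ff6_gc.Interface2

/-! Block FN3: the pairs near to a pair are crossed by the same pairs. -/

open Topology Filter Set MeasureTheory
open scoped ComplexConjugate ENNReal

set_option autoImplicit false

namespace Pool.GC

open Pool.CG

theorem p_FN3 (hLNO : Stmt_LNO) : Stmt_FN3 := by
  intro u x y ℓ m hℓm hx hy ρ hρ
  by_contra hcon
  rw [← Ultrafilter.eventually_not] at hcon
  have hch : ∀ g : H, ∃ a b : Circle, (¬ ∀ a b : Circle,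
      ρ ≤ dist a ℓ → ρ ≤ dist a m → ρ ≤ dist b ℓ → ρ ≤ dist b m → Link ℓ m a b →
      Link (x g) (y g) a b) → ρ ≤ dist a ℓ ∧ ρ ≤ dist a m ∧ ρ ≤ dist b ℓ ∧ ρ ≤ dist b m ∧
        Link ℓ m a b ∧ ¬ Link (x g) (y g) a b := by
    intro g
    by_cases h : ∀ a b : Circle,
      ρ ≤ dist a ℓ → ρ ≤ dist a m → ρ ≤ dist b ℓ → ρ ≤ dist b m → Link ℓ m a b →
      Link (x g) (y g) a b
    · exact ⟨1, 1, fun h' => absurd h h'⟩
    · have h2 := h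
      push Not at h2
      obtain ⟨a, b, h3, h4, h5, h6, h7, h8⟩ := h2
      exact ⟨a, b, fun _ => ⟨h3, h4, h5, h6, h7, h8⟩⟩
  choose a b hab using hch
  obtain ⟨a₀, ha₀⟩ := BDC_lim u a
  obtain ⟨b₀, hb₀⟩ := BDC_lim u b
  have hne : ∀ (f : H → Circle) (f₀ r : Circle), Tendsto f u (𝓝 f₀) →
      (∀ᶠ g : H in u, ρ ≤ dist (f g) r) → f₀ ≠ r := by
    intro f f₀ r hf hr
    have h4 : ρ ≤ dist f₀ r := ge_of_tendsto (hf.dist tendsto_const_nhds) hr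
    intro h
    rw [h, dist_self] at h4
    linarith
  have e : ∀ᶠ g : H in u, ρ ≤ dist (a g) ℓ ∧ ρ ≤ dist (a g) m ∧ ρ ≤ dist (b g) ℓ ∧
      ρ ≤ dist (b g) m ∧ Link ℓ m (a g) (b g) ∧ ¬ Link (x g) (y g) (a g) (b g) :=
    hcon.mono fun g hg => hab g hg
  have n1 := hne a a₀ ℓ ha₀ (e.mono fun g h => h.1)
  have n2 := hne a a₀ m ha₀ (e.mono fun g h => h.2.1)
  have n3 := hne b b₀ ℓ hb₀ (e.mono fun g h => h.2.2.1)
  have n4 := hne b b₀ m hb₀ (e.mono fun g h => h.2.2.2.1)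
  have hL : Link ℓ m a₀ b₀ := hLNO.2 H u (fun _ => ℓ) (fun _ => m) a b ℓ m a₀ b₀
    tendsto_const_nhds tendsto_const_nhds ha₀ hb₀ n1 n2 n3 n4
    (e.mono fun g h => h.2.2.2.2.1)
  have ht : Tendsto (fun g : H => ((x g, y g), (a g, b g))) u (𝓝 ((ℓ, m), (a₀, b₀))) :=
    (hx.prodMk_nhds hy).prodMk_nhds (ha₀.prodMk_nhds hb₀)
  have h1 : ∀ᶠ g : H in u, ((x g, y g), (a g, b g)) ∈
      {x : (Circle × Circle) × (Circle × Circle) | Link x.1.1 x.1.2 x.2.1 x.2.2} :=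
    ht (hLNO.1.mem_nhds hL)
  obtain ⟨g, hg1, hg2⟩ := (h1.and e).exists
  exact hg2.2.2.2.2.2 hg1

end Pool.GC
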