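import Pool.Agent.Work.MP_ae1ff6_gc.Interface2

/-!
# Block FNM (typed by helper21): the limit of hyperbolic axes is crossed by finite mass only
-/

open Topology Filter Set MeasureTheory
open scoped ComplexConjugate ENNReal

set_option autoImplicit false

namespace Pool.GC

open Pool.CG

theorem FNM_iter (ψ : H) (ℓ m : Circle) (ρ : ℝ) (h2 : 2 * ρ ≤ dist ℓ m)
    (hψ : ∀ z : Circle, ρ ≤ dist z ℓ → dist (ψ z) m < ρ) (z : Circle) (hz : ρ ≤ dist z ℓ) (k : ℕ) :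
    dist ((ψ ^ (k + 1) : H) z) m < ρ := by
  induction k with
  | zero =>
    have h1 : (ψ ^ (0 + 1) : H) z = ψ z := by rw [zero_add, pow_one]
    rw [h1]
    exact hψ z hz
  | succ k ih =>
    have h1 : (ψ ^ (k + 1 + 1) : H) z = ψ ((ψ ^ (k + 1) : H) z) := by
      rw [pow_succ']
      rfl
    rw [h1]
    apply hψ
    have h3 : dist ℓ m ≤ dist ((ψ ^ (k + 1) : H) z) ℓ + dist ((ψ ^ (k + 1) : H) z) m :=
      dist_triangle_left ℓ m _
    linarith

theorem FNM_map (g : H) : Measurable (Prod.map g g) :=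
  g.continuous.measurable.prodMap g.continuous.measurable

/-- the pairs which cross `(ℓ, m)` and stay away from `ℓ` and `m` -/
def FNM_S (ℓ m : Circle) (ρ : ℝ) : Set (Circle × Circle) :=
  {x | Link ℓ m x.1 x.2 ∧ ρ ≤ dist x.1 ℓ ∧ ρ ≤ dist x.1 m ∧ ρ ≤ dist x.2 ℓ ∧ ρ ≤ dist x.2 m}

theorem FNM_meas (hLNO : Stmt_LNO) (ℓ m : Circle) (ρ : ℝ) : MeasurableSet (FNM_S ℓ m ρ) := by
  have h1 : IsOpen {x : Circle × Circle | Link ℓ m x.1 x.2} := by
    have hc : Continuous (fun x : Circle × Circle =>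
        (((ℓ, m), x) : (Circle × Circle) × (Circle × Circle))) := by fun_prop
    exact hLNO.1.preimage hc
  have h2 : ∀ c : Circle, IsClosed {x : Circle × Circle | ρ ≤ dist x.1 c} := fun c =>
    isClosed_le continuous_const (continuous_fst.dist continuous_const)
  have h3 : ∀ c : Circle, IsClosed {x : Circle × Circle | ρ ≤ dist x.2 c} := fun c =>
    isClosed_le continuous_const (continuous_snd.dist continuous_const)
  exact h1.measurableSet.inter ((h2 ℓ).measurableSet.inter ((h2 m).measurableSet.inter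
    ((h3 ℓ).measurableSet.inter (h3 m).measurableSet)))

theorem p_FNM (hLNO : Stmt_LNO) (hNCH : Stmt_NCH) (hFN1 : Stmt_FN1) (hFN2 : Stmt_FN2)
    (hFN3 : Stmt_FN3) : Stmt_FNM := by
  intro Γ G μ u hFK hle hnorm huG hcur hfix γ hγ p q ℓ m hax hnc hp hq hlm
  obtain ⟨γ', hγ', hN⟩ := hNCH Γ G u hFK hnorm huG γ hγ p q ℓ m hax hnc hp hq hlm
  obtain ⟨W, hWm, hWf, hW⟩ := hFN1 μ γ p q hcur (hFK.mob γ hγ) hax
  have hd : 0 < dist ℓ m := dist_pos.mpr hlm
  have hclaim : ∀ ρ : ℝ, 0 < ρ → 2 * ρ ≤ dist ℓ m → μ (FNM_S ℓ m ρ) ≤ μ W := by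
    intro ρ hρ h2
    obtain ⟨g, hgG, hgN, hg3⟩ := (huG.and ((hN ρ hρ).and
      (hFN3 u (fun g : H => g p) (fun g : H => g q) ℓ m hlm hp hq ρ hρ))).exists
    have hγ'G : γ' ∈ G := by
      rcases hγ' with h | h
      · rw [h]; exact hle hγ
      · rw [h]; exact hle (Γ.inv_mem hγ)
    obtain ⟨φ, hφ⟩ : ∃ φ : H, φ = g * γ' * g⁻¹ := ⟨_, rfl⟩
    have hφG : φ ∈ G := by
      rw [hφ]
      exact G.mul_mem (G.mul_mem hgG hγ'G) (G.inv_mem hgG)
    have hφi : φ⁻¹ = g * γ'⁻¹ * g⁻¹ := by rw [hφ]; group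
    have hW'm : MeasurableSet (Prod.map (g⁻¹ : H) (g⁻¹ : H) ⁻¹' W) := FNM_map g⁻¹ hWm
    have hW'μ : μ (Prod.map (g⁻¹ : H) (g⁻¹ : H) ⁻¹' W) = μ W := by
      rw [← Measure.map_apply (FNM_map g⁻¹) hWm, hfix g⁻¹ (G.inv_mem hgG)]
    rw [← hW'μ]
    apply hFN2 μ φ _ (FNM_S ℓ m ρ) (hfix φ hφG) hW'm (FNM_meas hLNO ℓ m ρ)
    · intro x hx
      have h3 : Link (g p) (g q) x.1 x.2 :=
        hg3 x.1 x.2 hx.2.1 hx.2.2.1 hx.2.2.2.1 hx.2.2.2.2 hx.1
      have h4 : Link p q ((g⁻¹ : H) x.1) ((g⁻¹ : H) x.2) := by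
        have h5 := lhi g⁻¹ _ _ _ _ h3
        have h6 : ∀ z : Circle, (g⁻¹ : H) (g z) = z := fun z => g.symm_apply_apply z
        rwa [h6, h6] at h5
      obtain ⟨n, hn⟩ := hW ((g⁻¹ : H) x.1, (g⁻¹ : H) x.2) h4
      obtain ⟨k, hk⟩ : ∃ k : ℤ, γ' ^ k = γ ^ n := by
        rcases hγ' with h | h
        · exact ⟨n, by rw [h]⟩
        · exact ⟨-n, by rw [h, inv_zpow, zpow_neg, inv_inv]⟩
      refine ⟨k, ?_⟩
      have h7 : ∀ z : Circle, (g⁻¹ : H) ((φ ^ k : H) z) = (γ ^ n : H) ((g⁻¹ : H) z) := by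
        intro z
        have h8 : g⁻¹ * φ ^ k = γ ^ n * g⁻¹ := by
          rw [hφ, conj_zpow, hk]
          group
        exact congrArg (fun f : H => f z) h8
      show ((g⁻¹ : H) ((φ ^ k : H) x.1), (g⁻¹ : H) ((φ ^ k : H) x.2)) ∈ W
      rw [h7, h7]
      exact hn
    · intro n hn x hx hx'
      rcases lt_trichotomy n 0 with hneg | h0 | hpos
      · obtain ⟨k, hk⟩ : ∃ k : ℕ, n = -((k : ℤ) + 1) := ⟨(-n - 1).toNat, by omega⟩
        have h5 := FNM_iter φ⁻¹ m ℓ ρ (by rw [dist_comm]; exact h2)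
          (fun z hz => by rw [hφi]; exact (hgN z).2 hz) x.1 hx.2.2.1 k
        have h6 : (φ⁻¹ ^ (k + 1) : H) = φ ^ n := by
          rw [hk, zpow_neg, inv_pow, ← Nat.cast_succ, zpow_natCast]
        rw [h6] at h5
        exact absurd hx'.2.1 (not_le.mpr h5)
      · exact hn h0
      · obtain ⟨k, hk⟩ : ∃ k : ℕ, n = (k : ℤ) + 1 := ⟨(n - 1).toNat, by omega⟩
        have h5 := FNM_iter φ ℓ m ρ h2
          (fun z hz => by rw [hφ]; exact (hgN z).1 hz) x.1 hx.2.1 k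
        have h6 : (φ ^ (k + 1) : H) = φ ^ n := by
          rw [hk, ← Nat.cast_succ, zpow_natCast]
        rw [h6] at h5
        exact absurd hx'.2.2.1 (not_le.mpr h5)
  have hmono : Monotone (fun n : ℕ => FNM_S ℓ m (dist ℓ m / 2 / ((n : ℝ) + 1))) := by
    intro a b hab x hx
    have h1 : dist ℓ m / 2 / ((b : ℝ) + 1) ≤ dist ℓ m / 2 / ((a : ℝ) + 1) := by
      have h3 : (a : ℝ) ≤ b := by exact_mod_cast hab
      apply div_le_div_of_nonneg_left (by positivity) (by positivity)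
      linarith
    exact ⟨hx.1, h1.trans hx.2.1, h1.trans hx.2.2.1, h1.trans hx.2.2.2.1, h1.trans hx.2.2.2.2⟩
  have hU : {x : Circle × Circle | Link ℓ m x.1 x.2} ⊆
      ⋃ n : ℕ, FNM_S ℓ m (dist ℓ m / 2 / ((n : ℝ) + 1)) := by
    intro x hx
    have hx' : Link ℓ m x.1 x.2 := hx
    obtain ⟨⟨h1, h2⟩, ⟨h3, h4⟩, -⟩ := id hx'
    obtain ⟨δ, hδ⟩ : ∃ δ : ℝ, δ = min (min (dist x.1 ℓ) (dist x.1 m))
      (min (dist x.2 ℓ) (dist x.2 m)) := ⟨_, rfl⟩
    have hδp : 0 < δ := by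
      rw [hδ]
      exact lt_min (lt_min (dist_pos.mpr h1) (dist_pos.mpr h2))
        (lt_min (dist_pos.mpr h3) (dist_pos.mpr h4))
    obtain ⟨n, hn⟩ := exists_nat_gt (dist ℓ m / 2 / δ)
    have h5 : dist ℓ m / 2 / ((n : ℝ) + 1) ≤ δ := by
      rw [div_le_iff₀ (by positivity)]
      rw [div_lt_iff₀ hδp] at hn
      nlinarith
    rw [hδ] at h5
    refine mem_iUnion.mpr ⟨n, hx', ?_, ?_, ?_, ?_⟩
    · exact h5.trans ((min_le_left _ _).trans (min_le_left _ _))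
    · exact h5.trans ((min_le_left _ _).trans (min_le_right _ _))
    · exact h5.trans ((min_le_right _ _).trans (min_le_left _ _))
    · exact h5.trans ((min_le_right _ _).trans (min_le_right _ _))
  refine lt_of_le_of_lt ?_ hWf
  refine (measure_mono hU).trans ?_
  rw [hmono.measure_iUnion]
  refine iSup_le fun n => hclaim _ (by positivity) ?_
  have h1 : 2 * (dist ℓ m / 2 / ((n : ℝ) + 1)) = dist ℓ m / ((n : ℝ) + 1) := by ring
  rw [h1]
  apply div_le_self hd.le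
  have h2 : (0 : ℝ) ≤ n := Nat.cast_nonneg n
  linarith

end Pool.GC

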