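import Pool.Agent.Work.MP_ae1ff6_gc.Interface3
import Pool.Agent.Work.MP_ae1ff6_gc.B_FIX

open Topology Filter Set MeasureTheory
open scoped ComplexConjugate ENNReal

set_option autoImplicit false

namespace Pool.GC

open Pool.CG

theorem FXA_succ (κ : ℝ ≃o ℝ) (n : ℕ) (x : ℝ) : (κ ^ (n + 1)) x = (κ ^ n) (κ x) := by
  rw [pow_succ]
  rfl

theorem FXA_fixpow (κ : ℝ ≃o ℝ) {b : ℝ} (hb : κ b = b) (n : ℕ) : (κ ^ n) b = b := by
  induction n with
  | zero => rfl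
  | succ n ih => rw [FXA_succ, hb, ih]

theorem FXA_mono (κ : ℝ ≃o ℝ) {x : ℝ} (hx : x ≤ κ x) : Monotone fun n : ℕ => (κ ^ n) x := by
  apply monotone_nat_of_le_succ
  intro n
  change (κ ^ n) x ≤ (κ ^ (n + 1)) x
  rw [FXA_succ]
  exact (κ ^ n).monotone hx

theorem FXA_anti (κ : ℝ ≃o ℝ) {x : ℝ} (hx : κ x ≤ x) : Antitone fun n : ℕ => (κ ^ n) x := by
  apply antitone_nat_of_succ_le
  intro n
  change (κ ^ (n + 1)) x ≤ (κ ^ n) x
  rw [FXA_succ]
  exact (κ ^ n).monotone hx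

theorem FXA_up (κ : ℝ ≃o ℝ) {b x : ℝ} (hb : κ b = b) (hxb : x ≤ b) (hx : x ≤ κ x) :
    ∃ L : ℝ, x ≤ L ∧ L ≤ b ∧ Tendsto (fun n : ℕ => (κ ^ n) x) atTop (𝓝 L) ∧
      ∀ n : ℕ, x ≤ (κ ^ n) x ∧ (κ ^ n) x ≤ L := by
  have hbd : ∀ n : ℕ, (κ ^ n) x ≤ b := by
    intro n
    conv_rhs => rw [← FXA_fixpow κ hb n]
    exact (κ ^ n).monotone hxb
  have hB : BddAbove (range fun n : ℕ => (κ ^ n) x) := by
    refine ⟨b, ?_⟩
    rintro _ ⟨n, rfl⟩
    exact hbd n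
  have hm := FXA_mono κ hx
  have h0 : ∀ n : ℕ, x ≤ (κ ^ n) x := fun n => hm (Nat.zero_le n)
  have h1 : ∀ n : ℕ, (κ ^ n) x ≤ ⨆ n : ℕ, (κ ^ n) x := fun n => le_ciSup hB n
  exact ⟨⨆ n : ℕ, (κ ^ n) x, (h0 0).trans (h1 0), ciSup_le hbd, tendsto_atTop_ciSup hm hB,
    fun n => ⟨h0 n, h1 n⟩⟩

theorem FXA_down (κ : ℝ ≃o ℝ) {a x : ℝ} (ha : κ a = a) (hxa : a ≤ x) (hx : κ x ≤ x) :
    ∃ L : ℝ, L ≤ x ∧ a ≤ L ∧ Tendsto (fun n : ℕ => (κ ^ n) x) atTop (𝓝 L) ∧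
      ∀ n : ℕ, L ≤ (κ ^ n) x ∧ (κ ^ n) x ≤ x := by
  have hbd : ∀ n : ℕ, a ≤ (κ ^ n) x := by
    intro n
    conv_lhs => rw [← FXA_fixpow κ ha n]
    exact (κ ^ n).monotone hxa
  have hB : BddBelow (range fun n : ℕ => (κ ^ n) x) := by
    refine ⟨a, ?_⟩
    rintro _ ⟨n, rfl⟩
    exact hbd n
  have hm := FXA_anti κ hx
  have h0 : ∀ n : ℕ, (κ ^ n) x ≤ x := fun n => hm (Nat.zero_le n)
  have h1 : ∀ n : ℕ, ⨅ n : ℕ, (κ ^ n) x ≤ (κ ^ n) x := fun n => ciInf_le hB n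
  exact ⟨⨅ n : ℕ, (κ ^ n) x, (h1 0).trans (h0 0), le_ciInf hbd, tendsto_atTop_ciInf hm hB,
    fun n => ⟨h1 n, h0 n⟩⟩

/-- both cases -/
theorem FXA_lim (κ : ℝ ≃o ℝ) {a b x : ℝ} (ha : κ a = a) (hb : κ b = b) (hx : x ∈ Ioo a b) :
    ∃ L : ℝ, a ≤ L ∧ L ≤ b ∧ Tendsto (fun n : ℕ => (κ ^ n) x) atTop (𝓝 L) ∧
      ∀ n : ℕ, min x L ≤ (κ ^ n) x ∧ (κ ^ n) x ≤ max x L := by
  rcases le_total x (κ x) with h | h
  · obtain ⟨L, h1, h2, h3, h4⟩ := FXA_up κ hb hx.2.le h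
    exact ⟨L, hx.1.le.trans h1, h2, h3, fun n =>
      ⟨(min_le_left _ _).trans (h4 n).1, (h4 n).2.trans (le_max_right _ _)⟩⟩
  · obtain ⟨L, h1, h2, h3, h4⟩ := FXA_down κ ha hx.1.le h
    exact ⟨L, h2, h1.trans hx.2.le, h3, fun n =>
      ⟨(min_le_right _ _).trans (h4 n).1, (h4 n).2.trans (le_max_left _ _)⟩⟩

/-- a small interval around a point -/
theorem FXA_int (κ : ℝ ≃o ℝ) {a b x : ℝ} (ha : κ a = a) (hb : κ b = b) (hx : x ∈ Ioo a b) :
    ∃ p q e1 e2 : ℝ, x ∈ Ioo p q ∧ a < p ∧ q < b ∧ a ≤ e1 ∧ e1 ≤ e2 ∧ e2 ≤ b ∧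
      (∀ n : ℕ, (κ ^ n) '' Ioo p q ⊆ Icc e1 e2) ∧
      (e1 = a → ∃ z ∈ Ioo a b, Tendsto (fun n : ℕ => (κ ^ n) z) atTop (𝓝 a)) ∧
      (e2 = b → ∃ z ∈ Ioo a b, Tendsto (fun n : ℕ => (κ ^ n) z) atTop (𝓝 b)) ∧
      (κ x ≠ x → Pairwise (Function.onFun Disjoint fun n : ℕ => (κ ^ n) '' Ioo p q)) := by
  have hinv : κ (κ⁻¹ x) = x := κ.apply_symm_apply x
  rcases lt_trichotomy x (κ x) with h | h | h
  · have h1 : κ⁻¹ x < x := by
      apply κ.lt_iff_lt.1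
      rw [hinv]
      exact h
    obtain ⟨y, hy1, hy2⟩ := exists_between (max_lt hx.1 h1)
    have hy3 : a < y := (le_max_left _ _).trans_lt hy1
    have hy4 : x < κ y := by
      rw [← hinv]
      exact κ.strictMono ((le_max_right _ _).trans_lt hy1)
    have hy5 : κ y < b := by
      rw [← hb]
      exact κ.strictMono (hy2.trans hx.2)
    obtain ⟨L, l1, l2, l3, l4⟩ := FXA_up κ hb (hy2.trans hx.2).le (hy2.trans hy4).le
    refine ⟨y, κ y, y, L, ⟨hy2, hy4⟩, hy3, hy5, hy3.le, l1, l2, ?_, ?_, ?_, ?_⟩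
    · intro n
      rw [OrderIso.image_Ioo, ← FXA_succ]
      intro z hz
      exact ⟨(l4 n).1.trans hz.1.le, hz.2.le.trans (l4 (n + 1)).2⟩
    · intro h2
      exact absurd h2 hy3.ne'
    · intro h2
      refine ⟨y, ⟨hy3, hy2.trans hx.2⟩, ?_⟩
      rw [← h2]
      exact l3
    · intro _ n m hnm
      have h2 := (FXA_mono κ (hy2.trans hy4).le).pairwise_disjoint_on_Ioo_succ hnm
      simp only [Function.onFun, Order.succ_eq_add_one] at h2 ⊢
      rw [OrderIso.image_Ioo, OrderIso.image_Ioo, ← FXA_succ, ← FXA_succ]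
      exact h2
  · obtain ⟨p, hp1, hp2⟩ := exists_between hx.1
    obtain ⟨q, hq1, hq2⟩ := exists_between hx.2
    obtain ⟨L, l1, l2, l3, l4⟩ := FXA_lim κ ha hb (⟨hp1, hp2.trans hx.2⟩ : p ∈ Ioo a b)
    obtain ⟨M, m1, m2, m3, m4⟩ := FXA_lim κ ha hb (⟨hx.1.trans hq1, hq2⟩ : q ∈ Ioo a b)
    refine ⟨p, q, min p L, max q M, ⟨hp2, hq1⟩, hp1, hq2, le_min hp1.le l1, ?_, max_le hq2.le m2,
      ?_, ?_, ?_, ?_⟩
    · exact (min_le_left _ _).trans ((hp2.trans hq1).le.trans (le_max_left _ _))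
    · intro n
      rw [OrderIso.image_Ioo]
      intro z hz
      exact ⟨(l4 n).1.trans hz.1.le, hz.2.le.trans (m4 n).2⟩
    · intro h2
      refine ⟨p, ⟨hp1, hp2.trans hx.2⟩, ?_⟩
      have h3 : L = a := by
        rcases min_choice p L with h4 | h4
        · rw [h4] at h2
          exact absurd h2 hp1.ne'
        · rw [← h4]
          exact h2
      rw [← h3]
      exact l3
    · intro h2
      refine ⟨q, ⟨hx.1.trans hq1, hq2⟩, ?_⟩
      have h3 : M = b := by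
        rcases max_choice q M with h4 | h4
        · rw [h4] at h2
          exact absurd h2 hq2.ne
        · rw [← h4]
          exact h2
      rw [← h3]
      exact m3
    · intro h2
      exact absurd h.symm h2
  · have h1 : x < κ⁻¹ x := by
      apply κ.lt_iff_lt.1
      rw [hinv]
      exact h
    obtain ⟨y, hy1, hy2⟩ := exists_between (lt_min hx.2 h1)
    have hy3 : y < b := hy2.trans_le (min_le_left _ _)
    have hy4 : κ y < x := by
      rw [← hinv]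
      exact κ.strictMono (hy2.trans_le (min_le_right _ _))
    have hy5 : a < κ y := by
      rw [← ha]
      exact κ.strictMono (hx.1.trans hy1)
    obtain ⟨L, l1, l2, l3, l4⟩ := FXA_down κ ha (hx.1.trans hy1).le (hy4.trans hy1).le
    refine ⟨κ y, y, L, y, ⟨hy4, hy1⟩, hy5, hy3, l2, l1, hy3.le, ?_, ?_, ?_, ?_⟩
    · intro n
      rw [OrderIso.image_Ioo, ← FXA_succ]
      intro z hz
      exact ⟨(l4 (n + 1)).1.trans hz.1.le, hz.2.le.trans (l4 n).2⟩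
    · intro h2
      refine ⟨y, ⟨hx.1.trans hy1, hy3⟩, ?_⟩
      rw [← h2]
      exact l3
    · intro h2
      exact absurd h2 hy3.ne
    · intro _ n m hnm
      have h2 := (FXA_anti κ (hy4.trans hy1).le).pairwise_disjoint_on_Ioo_succ hnm
      simp only [Function.onFun, Order.succ_eq_add_one] at h2 ⊢
      rw [OrderIso.image_Ioo, OrderIso.image_Ioo, ← FXA_succ, ← FXA_succ]
      exact h2

theorem FXA_img (k : H) (κ : ℝ ≃o ℝ) {θ : ℝ} (h1 : κ θ = θ)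
    (h2 : κ (θ + 2 * Real.pi) = θ + 2 * Real.pi)
    (hk : ∀ x ∈ Icc θ (θ + 2 * Real.pi), Circle.exp (κ x) = k (Circle.exp x)) (n : ℕ) {S : Set ℝ}
    (hS : S ⊆ Icc θ (θ + 2 * Real.pi)) :
    (k ^ n) '' (Circle.exp '' S) = Circle.exp '' ((κ ^ n) '' S) := by
  have h3 := FIX_img k κ n S (fun x hx => FIX_pow k κ θ _ h1 h2 hk n x (hS hx))
  rw [zpow_natCast, zpow_natCast] at h3
  exact h3

/-- images of wandering sets are disjoint -/
theorem FXA_wand (k : H) (κ : ℝ ≃o ℝ) {θ : ℝ} (h1 : κ θ = θ)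
    (h2 : κ (θ + 2 * Real.pi) = θ + 2 * Real.pi)
    (hk : ∀ x ∈ Icc θ (θ + 2 * Real.pi), Circle.exp (κ x) = k (Circle.exp x)) {S : Set ℝ}
    (hS : S ⊆ Icc θ (θ + 2 * Real.pi)) {d1 d2 : ℝ} (hd : d2 < d1 + 2 * Real.pi)
    (hsub : ∀ n : ℕ, (κ ^ n) '' S ⊆ Icc d1 d2)
    (hdis : Pairwise (Function.onFun Disjoint fun n : ℕ => (κ ^ n) '' S)) :
    Pairwise (Function.onFun Disjoint fun n : ℕ => (k ^ n) '' (Circle.exp '' S)) := by
  intro n m hnm
  have h3 : Disjoint ((κ ^ n) '' S) ((κ ^ m) '' S) := hdis hnm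
  change Disjoint ((k ^ n) '' (Circle.exp '' S)) ((k ^ m) '' (Circle.exp '' S))
  rw [FXA_img k κ h1 h2 hk n hS, FXA_img k κ h1 h2 hk m hS, Set.disjoint_left]
  rintro _ ⟨x, hx, rfl⟩ ⟨y, hy, hxy⟩
  have hx' := hsub n hx
  have hy' := hsub m hy
  have h4 : y = x := FIX_inj hxy (by linarith [hy'.2, hx'.1]) (by linarith [hx'.2, hy'.1])
  rw [h4] at hy
  exact Set.disjoint_left.1 h3 hx hy

/-- the local claim -/
theorem FXA_loc (hWN2 : Stmt_WN2) (μ : Measure (Circle × Circle)) (k : H) (κ : ℝ ≃o ℝ) (c : ℝ≥0∞)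
    (θ s : ℝ) (hμ : Current μ) (hc : μ.map (Prod.map k k) = c • μ) (hc1 : c < 1) (hθs : θ < s)
    (hs : s < θ + 2 * Real.pi) (h1 : κ θ = θ) (h2 : κ s = s)
    (h3 : κ (θ + 2 * Real.pi) = θ + 2 * Real.pi)
    (hk : ∀ x ∈ Icc θ (θ + 2 * Real.pi), Circle.exp (κ x) = k (Circle.exp x))
    (hN : NotSink κ θ s) (x y : ℝ) (hx : x ∈ Ioo θ s) (hy : y ∈ Ioo s (θ + 2 * Real.pi))
    (hxy : κ x ≠ x ∨ κ y ≠ y) : ∃ D E : Set ℝ, IsOpen D ∧ IsOpen E ∧ x ∈ D ∧ y ∈ E ∧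
      μ ((Circle.exp '' D) ×ˢ (Circle.exp '' E)) = 0 := by
  obtain ⟨p, q, d1, d2, x1, x2, x3, x4, x5, x6, x7, x8, x9, x10⟩ := FXA_int κ h1 h2 hx
  obtain ⟨p', q', e1, e2, y1, y2, y3, y4, y5, y6, y7, y8, y9, y10⟩ := FXA_int κ h2 h3 hy
  have hS : Ioo p q ⊆ Icc θ (θ + 2 * Real.pi) := by
    intro z hz
    exact ⟨(x2.trans hz.1).le, (hz.2.trans (x3.trans hs)).le⟩
  have hS' : Ioo p' q' ⊆ Icc θ (θ + 2 * Real.pi) := by
    intro z hz
    exact ⟨(hθs.trans (y2.trans hz.1)).le, (hz.2.trans y3).le⟩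
  have hde : d2 < e1 := by
    rcases lt_or_ge d2 e1 with h | h
    · exact h
    · exfalso
      obtain ⟨z, hz, hz'⟩ := x9 (by linarith)
      obtain ⟨w, hw, hw'⟩ := y8 (by linarith)
      exact hN.1 z hz w hw hz' hw'
  have hed : e2 < d1 + 2 * Real.pi := by
    rcases lt_or_ge e2 (d1 + 2 * Real.pi) with h | h
    · exact h
    · exfalso
      obtain ⟨z, hz, hz'⟩ := x8 (by linarith)
      obtain ⟨w, hw, hw'⟩ := y9 (by linarith)
      exact hN.2 z hz w hw hz' hw'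
  obtain ⟨ε, hε, hdist⟩ := FIX_dist x5 y5 hde hed
  have hfar : ∀ n : ℕ, ∀ x ∈ (k ^ n) '' (Circle.exp '' Ioo p q),
      ∀ y ∈ (k ^ n) '' (Circle.exp '' Ioo p' q'), ε ≤ dist x y := by
    intro n x hx y hy
    rw [FXA_img k κ h1 h3 hk n hS] at hx
    rw [FXA_img k κ h1 h3 hk n hS'] at hy
    exact hdist x (image_mono (x7 n) hx) y (image_mono (y7 n) hy)
  refine ⟨Ioo p q, Ioo p' q', isOpen_Ioo, isOpen_Ioo, x1, y1, ?_⟩
  rcases hxy with h | h
  · exact (hWN2 μ k c _ _ ε hμ hc hc1.le FIX_open.measurableSet FIX_open.measurableSet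
      (FXA_wand k κ h1 h3 hk hS (by linarith) x7 (x10 h)) hε hfar).1
  · refine (hWN2 μ k c _ _ ε hμ hc hc1.le FIX_open.measurableSet FIX_open.measurableSet
      (FXA_wand k κ h1 h3 hk hS' (by linarith) y7 (y10 h)) hε ?_).2
    intro n x hx y hy
    rw [dist_comm]
    exact hfar n y hy x hx

theorem p_FXA (hWN2 : Stmt_WN2) : Stmt_FXA := by
  intro μ k κ c θ s hμ hc hc1 hθs hs h1 h2 h3 hk hN
  have hpi := Real.two_pi_pos
  obtain ⟨P, hP⟩ : ∃ P : Set (Circle × Circle),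
    P = (Circle.exp '' Ioo θ s) ×ˢ (Circle.exp '' Ioo s (θ + 2 * Real.pi)) := ⟨_, rfl⟩
  rw [← hP]
  have hPo : IsOpen P := by
    rw [hP]
    exact FIX_open.prod FIX_open
  have hkc : Continuous k := k.continuous
  -- fixed pairs
  have hB : ∀ ε : ℝ, 0 < ε →
      μ (P ∩ {p : Circle × Circle | k p.1 = p.1 ∧ k p.2 = p.2 ∧ ε ≤ dist p.1 p.2}) = 0 := by
    intro ε hε
    obtain ⟨S, hS⟩ : ∃ S : Set (Circle × Circle),
      S = P ∩ {p : Circle × Circle | k p.1 = p.1 ∧ k p.2 = p.2 ∧ ε ≤ dist p.1 p.2} := ⟨_, rfl⟩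
    rw [← hS]
    have hcl : IsClosed {p : Circle × Circle | k p.1 = p.1 ∧ k p.2 = p.2 ∧ ε ≤ dist p.1 p.2} := by
      have c1 : IsClosed {p : Circle × Circle | k p.1 = p.1} :=
        isClosed_eq (hkc.comp continuous_fst) continuous_fst
      have c2 : IsClosed {p : Circle × Circle | k p.2 = p.2} :=
        isClosed_eq (hkc.comp continuous_snd) continuous_snd
      have c3 : IsClosed {p : Circle × Circle | ε ≤ dist p.1 p.2} :=
        isClosed_le continuous_const (continuous_fst.dist continuous_snd)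
      exact c1.inter (c2.inter c3)
    have hSm : MeasurableSet S := by
      rw [hS]
      exact hPo.measurableSet.inter hcl.measurableSet
    have hfx : ∀ p ∈ S, Prod.map k k p = p := by
      intro p hp
      rw [hS] at hp
      exact Prod.ext hp.2.1 hp.2.2.1
    have hpre : Prod.map k k ⁻¹' S = S := by
      ext p
      constructor
      · intro hp
        have h4 := hfx _ hp
        have hinj : Function.Injective (Prod.map k k : Circle × Circle → Circle × Circle) :=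
          k.injective.prodMap k.injective
        have h5 : Prod.map k k p = p := hinj h4
        rw [← h5]
        exact hp
      · intro hp
        change Prod.map k k p ∈ S
        rw [hfx p hp]
        exact hp
    have h4 : μ S = c * μ S := by
      have h5 : (μ.map (Prod.map k k)) S = (c • μ) S := by rw [hc]
      rw [Measure.map_apply (FIX_meas k) hSm, hpre, Measure.smul_apply, smul_eq_mul] at h5
      exact h5
    have hfin : μ S < ∞ := by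
      refine lt_of_le_of_lt (measure_mono ?_) (hμ.fin ε hε)
      intro p hp
      rw [hS] at hp
      exact hp.2.2.2
    by_contra hne
    have h6 : c * μ S < 1 * μ S := (ENNReal.mul_lt_mul_iff_left hne hfin.ne).2 hc1
    rw [one_mul, ← h4] at h6
    exact lt_irrefl _ h6
  have hfixed : μ (P ∩ {p : Circle × Circle | k p.1 = p.1 ∧ k p.2 = p.2}) = 0 := by
    have hsub : P ∩ {p : Circle × Circle | k p.1 = p.1 ∧ k p.2 = p.2} ⊆
        ⋃ n : ℕ, P ∩ {p : Circle × Circle | k p.1 = p.1 ∧ k p.2 = p.2 ∧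
          1 / ((n : ℝ) + 1) ≤ dist p.1 p.2} := by
      intro p hp
      have hd : 0 < dist p.1 p.2 := by
        apply dist_pos.2
        intro h
        have h4 := hp.1
        rw [hP] at h4
        obtain ⟨⟨x, hx, hxp⟩, ⟨y, hy, hyp⟩⟩ := h4
        rw [← hxp, ← hyp] at h
        have := FIX_inj h (by linarith [hx.2, hy.1]) (by linarith [hx.1, hy.2])
        linarith [hx.2, hy.1]
      obtain ⟨n, hn⟩ := exists_nat_one_div_lt hd
      exact mem_iUnion.2 ⟨n, hp.1, hp.2.1, hp.2.2, hn.le⟩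
    refine measure_mono_null hsub (measure_iUnion_null fun n => ?_)
    exact hB _ (by positivity)
  have hmoved : μ (P ∩ {p : Circle × Circle | ¬ (k p.1 = p.1 ∧ k p.2 = p.2)}) = 0 := by
    apply measure_null_of_locally_null
    rintro ⟨a, b⟩ ⟨hab, hne⟩
    rw [hP] at hab
    obtain ⟨⟨x, hx, hxp⟩, ⟨y, hy, hyp⟩⟩ := hab
    change Circle.exp x = a at hxp
    change Circle.exp y = b at hyp
    have hxy : κ x ≠ x ∨ κ y ≠ y := by
      by_contra hcon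
      push Not at hcon
      apply hne
      refine ⟨?_, ?_⟩
      · change k a = a
        rw [← hxp, ← hk x ⟨hx.1.le, (hx.2.trans hs).le⟩, hcon.1]
      · change k b = b
        rw [← hyp, ← hk y ⟨(hθs.trans hy.1).le, hy.2.le⟩, hcon.2]
    obtain ⟨D, E, hD, hE, hxD, hyE, h0⟩ :=
      FXA_loc hWN2 μ k κ c θ s hμ hc hc1 hθs hs h1 h2 h3 hk hN x y hx hy hxy
    refine ⟨(Circle.exp '' D) ×ˢ (Circle.exp '' E), mem_nhdsWithin_of_mem_nhds ?_, h0⟩
    refine IsOpen.mem_nhds ((isLocalHomeomorph_circleExp.isOpenMap _ hD).prod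
      (isLocalHomeomorph_circleExp.isOpenMap _ hE)) ?_
    exact ⟨⟨x, hxD, hxp⟩, ⟨y, hyE, hyp⟩⟩
  have hcov : P ⊆ (P ∩ {p : Circle × Circle | k p.1 = p.1 ∧ k p.2 = p.2}) ∪
      (P ∩ {p : Circle × Circle | ¬ (k p.1 = p.1 ∧ k p.2 = p.2)}) := by
    intro p hp
    by_cases h : k p.1 = p.1 ∧ k p.2 = p.2
    · exact Or.inl ⟨hp, h⟩
    · exact Or.inr ⟨hp, h⟩
  exact measure_mono_null hcov (measure_union_null hfixed hmoved)

end Pool.GC
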