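import Pool.Agent.Work.MP_ae1ff6_gc.Interface2

open Topology Filter Set MeasureTheory
open scoped ComplexConjugate ENNReal

set_option autoImplicit false

namespace Pool.GC

open Pool.CG

theorem INF_pre (k : H) (κ : ℝ ≃o ℝ) (θ : ℝ)
    (hk : ∀ x ∈ Icc θ (θ + 2 * Real.pi), Circle.exp (κ x) = k (Circle.exp x)) (I : Set ℝ)
    (hI : I ⊆ Icc θ (θ + 2 * Real.pi)) :
    k ⁻¹' (Circle.exp '' (κ '' I)) = Circle.exp '' I := by
  have h : Circle.exp '' (κ '' I) = k '' (Circle.exp '' I) := by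
    rw [image_image, image_image]
    exact image_congr (fun x hx => hk x (hI hx))
  rw [h, preimage_image_eq _ k.injective]

theorem INF_Ico (κ : ℝ ≃o ℝ) (x y : ℝ) : κ '' Ico x y = Ico (κ x) (κ y) := by
  rw [OrderIso.image_Ico]

theorem INF_Ioo (κ : ℝ ≃o ℝ) (x y : ℝ) : κ '' Ioo x y = Ioo (κ x) (κ y) := by
  rw [OrderIso.image_Ioo]

theorem INF_open (I : Set ℝ) (hI : IsOpen I) : IsOpen (Circle.exp '' I) :=
  isLocalHomeomorph_circleExp.isOpenMap _ hI

theorem INF_meas (x y : ℝ) : MeasurableSet (Circle.exp '' Ico x y) := by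
  by_cases h : x < y
  · have h1 : Circle.exp '' Ico x y = Circle.exp '' Ioo x y ∪ {Circle.exp x} := by
      rw [← Ioo_insert_left h, image_insert_eq, union_comm, singleton_union]
    rw [h1]
    exact (INF_open _ isOpen_Ioo).measurableSet.union (measurableSet_singleton _)
  · rw [Ico_eq_empty h, image_empty]
    exact MeasurableSet.empty

theorem INF_cover (s t : ℝ) (hst : s < t) (hts : t < s + 2 * Real.pi) (z : Circle)
    (h1 : z ≠ Circle.exp s) (h2 : z ≠ Circle.exp t) :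
    z ∈ Circle.exp '' Ioo s t ∨ z ∈ Circle.exp '' Ioo t (s + 2 * Real.pi) := by
  obtain ⟨x, hx, rfl⟩ := ARC_surj s z
  rcases lt_trichotomy x t with h | h | h
  · left
    refine ⟨x, ⟨lt_of_le_of_ne hx.1 ?_, h⟩, rfl⟩
    rintro rfl
    exact h1 rfl
  · exact absurd (by rw [h]) h2
  · right
    exact ⟨x, ⟨h, hx.2⟩, rfl⟩

theorem INF_nmem1 (s t : ℝ) (hst : s < t) (hts : t < s + 2 * Real.pi) :
    Circle.exp s ∉ Circle.exp '' Ioo s t ∧ Circle.exp t ∉ Circle.exp '' Ioo s t := by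
  have hinj : InjOn Circle.exp (Ico s (s + 2 * Real.pi)) := Circle.exp_injOn_Ico (by linarith)
  constructor
  · rintro ⟨x, hx, hxs⟩
    have := hinj ⟨hx.1.le, by linarith [hx.2]⟩ ⟨le_rfl, by linarith⟩ hxs
    linarith [hx.1]
  · rintro ⟨x, hx, hxs⟩
    have := hinj ⟨hx.1.le, by linarith [hx.2]⟩ ⟨hst.le, hts⟩ hxs
    linarith [hx.2]

theorem INF_link (s t : ℝ) (hst : s < t) (hts : t < s + 2 * Real.pi) :
    {x : Circle × Circle | Link (Circle.exp s) (Circle.exp t) x.1 x.2} ⊆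
      (Circle.exp '' Ioo s t) ×ˢ (Circle.exp '' Ioo t (s + 2 * Real.pi)) ∪
      (Circle.exp '' Ioo t (s + 2 * Real.pi)) ×ˢ (Circle.exp '' Ioo s t) := by
  rintro ⟨c, d⟩ ⟨⟨hc1, hc2⟩, ⟨hd1, hd2⟩, h⟩
  have hper : Circle.exp (s + 2 * Real.pi) = Circle.exp s := Circle.periodic_exp s
  have hn1 := INF_nmem1 s t hst hts
  have hn2 := INF_nmem1 t (s + 2 * Real.pi) hts (by linarith)
  rw [hper] at hn2
  rcases INF_cover s t hst hts c hc1 hc2 with hc | hc
  · rcases INF_cover s t hst hts d hd1 hd2 with hd | hd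
    · exfalso
      rcases h _ (isPreconnected_Ioo.image _ Circle.exp.continuous.continuousOn) hc hd with h1 | h1
      · exact hn1.1 h1
      · exact hn1.2 h1
    · left
      exact ⟨hc, hd⟩
  · rcases INF_cover s t hst hts d hd1 hd2 with hd | hd
    · right
      exact ⟨hc, hd⟩
    · exfalso
      rcases h _ (isPreconnected_Ioo.image _ Circle.exp.continuous.continuousOn) hc hd with h1 | h1
      · exact hn2.2 h1
      · exact hn2.1 h1

theorem INF_core (hORI : Stmt_ORI) (μ : Measure (Circle × Circle)) (k : H) (κ : ℝ ≃o ℝ) (θ s ξ : ℝ)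
    (hμ : Current μ) (hF : Filling μ) (hk : μ.map (Prod.map k k) = μ) (hθs : θ < s)
    (hsθ : s < θ + 2 * Real.pi) (hκθ : κ θ = θ) (hκs : κ s = s)
    (hκ2 : κ (θ + 2 * Real.pi) = θ + 2 * Real.pi)
    (hkκ : ∀ x ∈ Icc θ (θ + 2 * Real.pi), Circle.exp (κ x) = k (Circle.exp x))
    (hfix : ∀ x ∈ Ioo θ s, κ x ≠ x) (h1 : θ < ξ) (h2 : ξ < s) (h3 : ξ < κ ξ) :
    μ {x | Link (Circle.exp θ) (Circle.exp s) x.1 x.2} = ∞ := by
  obtain ⟨s', t', hs1, hs2, ht1, ht2, hs3, ht3, hU, hD, -⟩ := hORI κ θ s ξ hκθ hκs h1 h2 h3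
  have es : s' = θ := by
    by_contra hne
    exact hfix s' ⟨lt_of_le_of_ne hs1 (Ne.symm hne), hs2.trans h2⟩ hs3
  have et : t' = s := by
    by_contra hne
    exact hfix t' ⟨h1.trans (h3.trans ht1), lt_of_le_of_ne ht2 hne⟩ ht3
  subst es
  subst et
  -- now s' is the angle of a, t' the angle of b
  set A : Set Circle := Circle.exp '' Ioo s' t' with hA
  set B : Set Circle := Circle.exp '' Ioo t' (s' + 2 * Real.pi) with hB
  set J : ℤ → Set ℝ := fun n => Ico ((κ ^ n) ξ) ((κ ^ (n + 1)) ξ) with hJ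
  have hJsub : ∀ n, J n ⊆ Ioo s' t' := by
    intro n
    rw [hU]
    exact subset_iUnion J n
  have hJsub2 : ∀ n, J n ⊆ Icc s' (s' + 2 * Real.pi) := by
    intro n x hx
    have := hJsub n hx
    exact ⟨this.1.le, by linarith [this.2]⟩
  have hκJ : ∀ n, κ '' J n = J (n + 1) := by
    intro n
    rw [hJ]
    simp only []
    rw [INF_Ico]
    have e1 : κ ((κ ^ n) ξ) = (κ ^ (n + 1)) ξ := by
      rw [add_comm, zpow_one_add]
      rfl
    have e2 : κ ((κ ^ (n + 1)) ξ) = (κ ^ (n + 1 + 1)) ξ := by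
      rw [add_comm (n + 1) 1, zpow_one_add]
      rfl
    rw [e1, e2]
  have hpreD : ∀ n, k ⁻¹' (Circle.exp '' J (n + 1)) = Circle.exp '' J n := by
    intro n
    rw [← hκJ n]
    exact INF_pre k κ s' hkκ (J n) (hJsub2 n)
  have hpreB : k ⁻¹' B = B := by
    have h := INF_pre k κ s' hkκ (Ioo t' (s' + 2 * Real.pi))
      (fun x hx => ⟨by linarith [hx.1], hx.2.le⟩)
    rw [INF_Ioo, hκs, hκ2] at h
    exact h
  have hBm : MeasurableSet B := (INF_open _ isOpen_Ioo).measurableSet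
  have hkm : Measurable (Prod.map k k : Circle × Circle → Circle × Circle) :=
    k.continuous.measurable.prodMap k.continuous.measurable
  have hstep : ∀ n, μ ((Circle.exp '' J (n + 1)) ×ˢ B) = μ ((Circle.exp '' J n) ×ˢ B) := by
    intro n
    have hm : MeasurableSet ((Circle.exp '' J (n + 1)) ×ˢ B) := (INF_meas _ _).prod hBm
    conv_lhs => rw [← hk]
    rw [Measure.map_apply hkm hm]
    congr 1
    rw [← hpreD n]
    conv_rhs => rw [← hpreB]
    rfl
  have hconst : ∀ n : ℤ, μ ((Circle.exp '' J n) ×ˢ B) = μ ((Circle.exp '' J 0) ×ˢ B) := by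
    intro n
    induction n using Int.induction_on with
    | zero => rfl
    | succ i ih => rw [hstep, ih]
    | pred i ih =>
      rw [← ih]
      have := hstep (-(i : ℤ) - 1)
      rw [sub_add_cancel] at this
      exact this.symm
  have hinj : InjOn Circle.exp (Ico s' (s' + 2 * Real.pi)) := Circle.exp_injOn_Ico (by linarith)
  have hsum : μ (A ×ˢ B) = ∑' _ : ℤ, μ ((Circle.exp '' J 0) ×ˢ B) := by
    have hAU : A ×ˢ B = ⋃ n : ℤ, (Circle.exp '' J n) ×ˢ B := by
      rw [hA, hU, image_iUnion, iUnion_prod_const]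
    rw [hAU, measure_iUnion]
    · exact tsum_congr hconst
    · intro n m hnm
      have hd := hD hnm
      rw [Function.onFun]
      rw [Set.disjoint_left]
      rintro ⟨x, y⟩ ⟨⟨p, hp, hpx⟩, -⟩ ⟨⟨q, hq, hqx⟩, -⟩
      have hp' := hJsub n hp
      have hq' := hJsub m hq
      have hpq : p = q := by
        apply hinj ⟨hp'.1.le, by linarith [hp'.2]⟩ ⟨hq'.1.le, by linarith [hq'.2]⟩
        rw [hpx]
        exact hqx.symm
      subst hpq
      exact Set.disjoint_left.mp hd hp hq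
    · intro n
      exact (INF_meas _ _).prod hBm
  have hne : Circle.exp s' ≠ Circle.exp t' := by
    intro h
    have := hinj ⟨le_rfl, by linarith⟩ ⟨hθs.le, hsθ⟩ h
    linarith
  have hpos := hF (Circle.exp s') (Circle.exp t') hne
  have hAm : MeasurableSet A := (INF_open _ isOpen_Ioo).measurableSet
  have hflip : μ (B ×ˢ A) = μ (A ×ˢ B) := by
    conv_lhs => rw [← hμ.flip]
    rw [Measure.map_apply measurable_swap (hBm.prod hAm), preimage_swap_prod]
  have hAB : μ (A ×ˢ B) ≠ 0 := by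
    intro h0
    have h4 : μ {x : Circle × Circle | Link (Circle.exp s') (Circle.exp t') x.1 x.2} ≤
        μ (A ×ˢ B ∪ B ×ˢ A) := measure_mono (INF_link s' t' hθs hsθ)
    have h5 := measure_union_le (μ := μ) (A ×ˢ B) (B ×ˢ A)
    rw [hflip, h0, add_zero] at h5
    exact absurd (h4.trans h5) (not_le.mpr hpos)
  have hm0 : μ ((Circle.exp '' J 0) ×ˢ B) ≠ 0 := by
    intro h0
    apply hAB
    rw [hsum, h0, tsum_zero]
  have htop : μ (A ×ˢ B) = ∞ := by
    rw [hsum]
    exact ENNReal.tsum_const_eq_top_of_ne_zero hm0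
  have hsub : A ×ˢ B ⊆ {x : Circle × Circle | Link (Circle.exp s') (Circle.exp t') x.1 x.2} := by
    rintro ⟨x, y⟩ ⟨hx, hy⟩
    exact (arc s' t' hθs hsθ).2 x hx y hy
  exact top_le_iff.mp (htop ▸ measure_mono hsub)

theorem INF_inv (μ : Measure (Circle × Circle)) (k : H) (hk : μ.map (Prod.map k k) = μ) :
    μ.map (Prod.map (k⁻¹ : H) (k⁻¹ : H)) = μ := by
  have hkm : Measurable (Prod.map k k : Circle × Circle → Circle × Circle) :=
    k.continuous.measurable.prodMap k.continuous.measurable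
  have hkm' : Measurable (Prod.map (k⁻¹ : H) (k⁻¹ : H) : Circle × Circle → Circle × Circle) :=
    (k⁻¹ : H).continuous.measurable.prodMap (k⁻¹ : H).continuous.measurable
  conv_lhs => rw [← hk]
  rw [Measure.map_map hkm' hkm]
  have h : (Prod.map (k⁻¹ : H) (k⁻¹ : H) : Circle × Circle → Circle × Circle) ∘ Prod.map k k = id := by
    funext x
    exact Prod.ext (k.symm_apply_apply x.1) (k.symm_apply_apply x.2)
  rw [h, Measure.map_id]

theorem p_INF (hLFT : Stmt_LFT) (hORI : Stmt_ORI) (hFX3 : Stmt_FX3) : Stmt_INF := by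
  intro μ k a b c hμ hF hk hk1 hab hka hkb hca hcb hL
  obtain ⟨θ, s, hθs, hsθ, rfl, rfl⟩ := LOP_param a b hab
  obtain ⟨κ, hκθ, hκs, hκ2, hkκ⟩ := hLFT k θ s c hθs hsθ hka hkb hca hcb hL
  have hinj : InjOn Circle.exp (Ico θ (θ + 2 * Real.pi)) := Circle.exp_injOn_Ico (by linarith)
  have hfix : ∀ x ∈ Ioo θ s, κ x ≠ x := by
    intro x hx hxx
    apply hk1
    apply hFX3 μ k (Circle.exp θ) (Circle.exp s) (Circle.exp x) hμ hF hk hab ?_ ?_ hka hkb ?_
    · intro h
      have := hinj ⟨hθs.le, hsθ⟩ ⟨hx.1.le, by linarith [hx.2]⟩ h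
      linarith [hx.2]
    · intro h
      have := hinj ⟨le_rfl, by linarith⟩ ⟨hx.1.le, by linarith [hx.2]⟩ h
      linarith [hx.1]
    · rw [← hkκ x ⟨hx.1.le, by linarith [hx.2]⟩, hxx]
  have h1 : θ < (θ + s) / 2 := by linarith
  have h2 : (θ + s) / 2 < s := by linarith
  rcases lt_or_gt_of_ne (hfix _ ⟨h1, h2⟩) with h3 | h3
  · apply INF_core hORI μ k⁻¹ κ.symm θ s ((θ + s) / 2) hμ hF (INF_inv μ k hk) hθs hsθ
      ((κ.symm_apply_eq).mpr hκθ.symm) ((κ.symm_apply_eq).mpr hκs.symm)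
      ((κ.symm_apply_eq).mpr hκ2.symm) ?_ ?_ h1 h2 ?_
    · intro x hx
      have hy : κ.symm x ∈ Icc θ (θ + 2 * Real.pi) := by
        constructor
        · rw [← κ.le_iff_le, κ.apply_symm_apply, hκθ]
          exact hx.1
        · rw [← κ.le_iff_le, κ.apply_symm_apply, hκ2]
          exact hx.2
      have h := hkκ _ hy
      rw [κ.apply_symm_apply] at h
      rw [h]
      exact (k.symm_apply_apply _).symm
    · intro x hx h
      apply hfix x hx
      rw [κ.symm_apply_eq] at h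
      exact h.symm
    · rw [← κ.lt_iff_lt, κ.apply_symm_apply]
      exact h3
  · exact INF_core hORI μ k κ θ s ((θ + s) / 2) hμ hF hk hθs hsθ hκθ hκs hκ2 hkκ hfix h1 h2 h3

end Pool.GC
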