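import Pool.Agent.Work.MP_ae1ff6_gc.Interface

/-! # Block MFS: currents of full support -/

open Topology Filter Set MeasureTheory
open scoped ComplexConjugate ENNReal

set_option autoImplicit false

namespace Pool.GC

open Pool.CG

theorem MFS_meas (g : H) : Measurable (Prod.map g g : Circle × Circle → Circle × Circle) :=
  g.continuous.measurable.prodMap g.continuous.measurable

theorem MFS_inv (μ : Measure (Circle × Circle)) (g : H) (c : ℝ≥0∞) (hc0 : c ≠ 0) (hc : c ≠ ∞)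
    (h : μ.map (Prod.map g g) = c • μ) :
    μ.map (Prod.map (g⁻¹ : H) (g⁻¹ : H)) = c⁻¹ • μ := by
  have h1 : (μ.map (Prod.map g g)).map (Prod.map (g⁻¹ : H) (g⁻¹ : H)) = μ := by
    rw [Measure.map_map (MFS_meas _) (MFS_meas _)]
    have e : (Prod.map (g⁻¹ : H) (g⁻¹ : H)) ∘ (Prod.map g g) =
        (id : Circle × Circle → Circle × Circle) := by
      funext x
      show ((g⁻¹ : H) (g x.1), (g⁻¹ : H) (g x.2)) = x
      have e1 : (g⁻¹ : H) (g x.1) = x.1 := g.symm_apply_apply _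
      have e2 : (g⁻¹ : H) (g x.2) = x.2 := g.symm_apply_apply _
      rw [e1, e2]
    rw [e, Measure.map_id]
  rw [h, Measure.map_smul] at h1
  rw [← h1, smul_smul, ENNReal.inv_mul_cancel hc0 hc, one_smul, h1]

theorem MFS_mv (ε : ℝ) (g : H) (h : Mv ε g) : Mv ε g⁻¹ := by
  obtain ⟨a, b, c, h1, h2⟩ := h
  refine ⟨g a, g b, g c, h2, ?_⟩
  have e : ∀ x, (g⁻¹ : H) (g x) = x := fun x => g.symm_apply_apply x
  rw [e, e, e]
  exact h1

theorem p_MFS (hPLT : Stmt_PLT) (hFXC : Stmt_FXC) (hDIC : Stmt_DIC) (hTRI : Stmt_TRI)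
    (hFIX : Stmt_FIX) (hBOX : Stmt_BOX) : Stmt_MFS := by
  classical
  rintro Γ G hΓ hle hn ⟨μ, hμ, hfs, hsc⟩ ε hε
  obtain ⟨T, hT⟩ : ∃ T : Set H, T = {g : H | g ∈ G ∧ Mv ε g ∧
    ∃ c : ℝ≥0∞, c ≤ 1 ∧ μ.map (Prod.map g g) = c • μ} := ⟨_, rfl⟩
  by_contra hcon
  have hinf : T.Infinite := by
    intro hfin
    apply hcon
    refine (hfin.union (hfin.image (fun g : H => g⁻¹))).subset ?_
    rintro g ⟨hg, hmv⟩
    obtain ⟨c, hc0, hc, h1⟩ := hsc g hg
    rcases le_total c 1 with h2 | h2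
    · left
      rw [hT]
      exact ⟨hg, hmv, c, h2, h1⟩
    · right
      refine ⟨g⁻¹, ?_, inv_inv g⟩
      rw [hT]
      exact ⟨G.inv_mem hg, MFS_mv ε g hmv, c⁻¹, ENNReal.inv_le_one.2 h2,
        MFS_inv μ g c hc0 hc h1⟩
  have hne := hinf.cofinite_inf_principal_neBot
  obtain ⟨u, hu⟩ : ∃ u : Ultrafilter H, (u : Filter H) ≤ cofinite ⊓ 𝓟 T :=
    ⟨Ultrafilter.of _, Ultrafilter.of_le _⟩
  have huc : (u : Filter H) ≤ cofinite := hu.trans inf_le_left
  have huT : T ∈ (u : Filter H) := (hu.trans inf_le_right) (mem_principal_self T)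
  have hTG : ∀ᶠ g in (u : Filter H), g ∈ G := by
    filter_upwards [huT] with g hg
    rw [hT] at hg
    exact hg.1
  have hTM : ∀ᶠ g in (u : Filter H), Mv ε g := by
    filter_upwards [huT] with g hg
    rw [hT] at hg
    exact hg.2.1
  have hTc : ∀ᶠ g : H in (u : Filter H), ∃ c : ℝ≥0∞, c ≤ 1 ∧ μ.map (Prod.map g g) = c • μ := by
    filter_upwards [huT] with g hg
    rw [hT] at hg
    exact hg.2.2
  choose L hL using fun z : Circle => BDC_lim u (fun g : H => g z)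
  have htwo : ¬ TwoConst Γ u := by
    intro h
    obtain ⟨g, hg, g', hg', hgg, p, q, p', q', i1, i2, i3, i4, i5, i6, j1, j2, j3, j4⟩ :=
      hFXC Γ u T huc huT h
    rw [hT] at hg hg'
    have hk : g⁻¹ * g' ∈ G := G.mul_mem (G.inv_mem hg.1) hg'.1
    obtain ⟨c, hc0, hc, h1⟩ := hsc _ hk
    have hfix : ∀ x, g x = g' x → (g⁻¹ * g') x = x := by
      intro x hx
      show (g⁻¹ : H) (g' x) = x
      rw [← hx]
      exact g.symm_apply_apply x
    have hinj : Function.Injective (![p, q, p', q'] : Fin 4 → Circle) := by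
      intro i j hij
      fin_cases i <;> fin_cases j <;> simp_all
    have h2 := hFIX μ (g⁻¹ * g') c ![p, q, p', q'] hμ hfs hc0 hc h1 hinj (by
      intro i
      fin_cases i
      · exact hfix p j1
      · exact hfix q j2
      · exact hfix p' j3
      · exact hfix q' j4)
    exact hgg (inv_mul_eq_one.1 h2)
  rcases hDIC Γ G u L hΓ hn hTG hL htwo with ⟨ℓ, m, hℓm, ⟨x1, x2, hx, hx1, hx2⟩,
    ⟨y1, y2, hy, hy1, hy2⟩⟩ | ⟨ℓ, hd⟩
  · have t1 : Tendsto (fun g : H => g x1) u (𝓝 ℓ) := hx1 ▸ hL x1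
    have t2 : Tendsto (fun g : H => g x2) u (𝓝 ℓ) := hx2 ▸ hL x2
    have t3 : Tendsto (fun g : H => g y1) u (𝓝 m) := hy1 ▸ hL y1
    have t4 : Tendsto (fun g : H => g y2) u (𝓝 m) := hy2 ▸ hL y2
    obtain ⟨a1, a2, a3⟩ := hPLT u x1 x2 y1 ℓ m hℓm t1 t2 t3
    obtain ⟨b1, b2, b3⟩ := hPLT u y1 y2 x1 m ℓ hℓm.symm t3 t4 t1
    exact hBOX μ u _ _ ℓ m hμ hfs a1 (a2 hx) b1 (b2 hy) hℓm (fun N hN => a3 N hN)
      (fun N hN => b3 N hN) hTc
  · exact hTRI u L ℓ ε hε hL hd hTM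

end Pool.GC
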