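import Pool.Agent.Work.MP_ae1ff6_gc.Interface

/-! # Block ORB: orbits of axes are locally finite -/

open Topology Filter Set MeasureTheory
open scoped ComplexConjugate ENNReal

set_option autoImplicit false

namespace Pool.GC

open Pool.CG

theorem ORB_dist (a b : Circle) (h : 1 ≤ |((a : ℂ) - (b : ℂ)).re|) : 1 ≤ dist a b := by
  show 1 ≤ dist (a : ℂ) (b : ℂ)
  rw [dist_eq_norm]
  exact h.trans (Complex.abs_re_le_norm _)

theorem ORB_three : ∃ w₁ w₂ w₃ : Circle, 1 ≤ dist w₁ w₂ ∧ 1 ≤ dist w₁ w₃ ∧ 1 ≤ dist w₂ w₃ := by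
  have h2 : ((Circle.exp Real.pi : Circle) : ℂ) = -1 := by
    rw [Circle.coe_exp, Complex.exp_pi_mul_I]
  have h3 : ((Circle.exp (Real.pi / 2) : Circle) : ℂ).re = 0 := by
    rw [Circle.coe_exp, Complex.exp_ofReal_mul_I_re, Real.cos_pi_div_two]
  refine ⟨1, Circle.exp Real.pi, Circle.exp (Real.pi / 2), ORB_dist _ _ ?_, ORB_dist _ _ ?_,
    ORB_dist _ _ ?_⟩
  · rw [h2, Complex.sub_re, Circle.coe_one, Complex.one_re, Complex.neg_re, Complex.one_re]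
    norm_num
  · rw [Complex.sub_re, h3, Circle.coe_one, Complex.one_re]
    norm_num
  · rw [Complex.sub_re, h3, h2, Complex.neg_re, Complex.one_re]
    norm_num

theorem ORB_pt (a b : Circle) : ∃ w : Circle, 1 / 2 ≤ dist w a ∧ 1 / 2 ≤ dist w b := by
  obtain ⟨w₁, w₂, w₃, h12, h13, h23⟩ := ORB_three
  by_contra hcon
  push Not at hcon
  have key : ∀ w w' x : Circle, 1 ≤ dist w w' → dist w x < 1 / 2 → dist w' x < 1 / 2 → False := by
    intro w w' x h h1 h2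
    have h3 := dist_triangle_right w w' x
    linarith
  have hc : ∀ w : Circle, dist w a < 1 / 2 ∨ dist w b < 1 / 2 := by
    intro w
    rcases lt_or_ge (dist w a) (1 / 2) with h | h
    · exact Or.inl h
    · exact Or.inr (hcon w h)
  rcases hc w₁ with h1 | h1 <;> rcases hc w₂ with h2 | h2 <;> rcases hc w₃ with h3 | h3
  · exact key _ _ _ h12 h1 h2
  · exact key _ _ _ h12 h1 h2
  · exact key _ _ _ h13 h1 h3
  · exact key _ _ _ h23 h2 h3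
  · exact key _ _ _ h23 h2 h3
  · exact key _ _ _ h13 h1 h3
  · exact key _ _ _ h12 h1 h2
  · exact key _ _ _ h12 h1 h2

theorem p_ORB : Stmt_ORB := by
  intro Γ G hΓ hle hconv γ hγ p q hax ε hε
  obtain ⟨ρ, hρ, H1⟩ := hyp γ p q (hΓ.mob γ hγ) hax
  have hpq : 0 < dist p q := dist_pos.2 hax.1
  have hγp : ∀ m : ℤ, (γ ^ m) p = p := CDB_fix ((hax.2 p).2 (Or.inl rfl))
  have hγq : ∀ m : ℤ, (γ ^ m) q = q := CDB_fix ((hax.2 q).2 (Or.inr rfl))
  obtain ⟨ε', hε', e1, e2, e3, e4⟩ : ∃ ε' : ℝ, 0 < ε' ∧ ε' ≤ ρ ∧ ε' ≤ dist p q ∧ ε' ≤ ε ∧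
      ε' ≤ 1 / 2 :=
    ⟨min (min ρ (dist p q)) (min ε (1 / 2)), by positivity,
      (min_le_left _ _).trans (min_le_left _ _), (min_le_left _ _).trans (min_le_right _ _),
      (min_le_right _ _).trans (min_le_left _ _), (min_le_right _ _).trans (min_le_right _ _)⟩
  refine ((hconv _ hε').image (fun g' : H => ((g' p, g' q) : Circle × Circle))).subset ?_
  rintro x ⟨⟨g, hg, rfl⟩, hx⟩
  have hx' : ε ≤ dist (g p) (g q) := hx
  obtain ⟨w, hw1, hw2⟩ := ORB_pt (g p) (g q)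
  have hgw : g (g⁻¹ w) = w := CDB_inv_apply g w
  have hzp : g⁻¹ w ≠ p := fun h => by
    rw [h] at hgw
    rw [hgw, dist_self] at hw1
    linarith
  have hzq : g⁻¹ w ≠ q := fun h => by
    rw [h] at hgw
    rw [hgw, dist_self] at hw2
    linarith
  obtain ⟨n, hn1, hn2⟩ := H1 _ hzp hzq
  have f1 : (g * (γ ^ n)⁻¹) p = g p := by
    show g ((γ ^ n)⁻¹ p) = _
    rw [← zpow_neg, hγp]
  have f2 : (g * (γ ^ n)⁻¹) q = g q := by
    show g ((γ ^ n)⁻¹ q) = _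
    rw [← zpow_neg, hγq]
  have f3 : (g * (γ ^ n)⁻¹) ((γ ^ n) (g⁻¹ w)) = w := by
    show g ((γ ^ n)⁻¹ ((γ ^ n) (g⁻¹ w))) = _
    have f4 : (γ ^ n)⁻¹ ((γ ^ n) (g⁻¹ w)) = g⁻¹ w := (γ ^ n).symm_apply_apply _
    rw [f4, hgw]
  refine ⟨g * (γ ^ n)⁻¹, ⟨G.mul_mem hg (G.inv_mem (G.zpow_mem (hle hγ) n)), p, q,
    (γ ^ n) (g⁻¹ w), ⟨e2, ?_, ?_⟩, ?_⟩, ?_⟩
  · rw [dist_comm]
    exact e1.trans hn2
  · rw [dist_comm]
    exact e1.trans hn1
  · rw [f1, f2, f3]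
    refine ⟨e3.trans hx', ?_, ?_⟩
    · rw [dist_comm]
      exact e4.trans hw2
    · rw [dist_comm]
      exact e4.trans hw1
  · show ((g * (γ ^ n)⁻¹) p, (g * (γ ^ n)⁻¹) q) = (g p, g q)
    rw [f1, f2]

end Pool.GC
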