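import Pool.Agent.Work.MP_ae1ff6_gc.Interface2

/-! # Block PE3 (helper71) -/

open Topology Filter Set MeasureTheory
open scoped ComplexConjugate ENNReal

set_option autoImplicit false

namespace Pool.GC

open Pool.CG

theorem p_PE3 : Stmt_PE3 := by
  intro μ u ℓ A B hμ hA hB hε hpos hinv hlA hlB
  obtain ⟨ε, hε0, hε⟩ := hε
  obtain ⟨N, hN, hNB⟩ := hlB
  obtain ⟨ρ', hρ', hρN⟩ := Metric.mem_nhds_iff.1 hN
  set ρ : ℝ := ρ' / 2 with hρ
  have hρ0 : 0 < ρ := by positivity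
  have hρN' : ∀ z, dist z ℓ ≤ ρ → z ∈ N := by
    intro z hz
    apply hρN
    rw [Metric.mem_ball]
    linarith
  set K : ℕ → Set (Circle × Circle) := fun n =>
    {x | x.1 ≠ ℓ ∧ dist x.1 ℓ ≤ ρ / (2 * ((n : ℝ) + 1)) ∧ ρ < dist x.2 ℓ} with hK
  have hKmeas : ∀ n, MeasurableSet (K n) := by
    intro n
    refine MeasurableSet.inter ?_ (MeasurableSet.inter ?_ ?_)
    · exact (isOpen_ne.preimage continuous_fst).measurableSet
    · exact (isClosed_le (continuous_fst.dist continuous_const) continuous_const).measurableSet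
    · exact (isOpen_lt continuous_const (continuous_snd.dist continuous_const)).measurableSet
  have hmono : Antitone K := by
    intro n m hnm x hx
    refine ⟨hx.1, hx.2.1.trans ?_, hx.2.2⟩
    have h1 : (n : ℝ) ≤ m := by exact_mod_cast hnm
    apply div_le_div_of_nonneg_left hρ0.le (by positivity)
    linarith
  have hempty : ⋂ n, K n = ∅ := by
    rw [eq_empty_iff_forall_notMem]
    intro x hx
    rw [mem_iInter] at hx
    have h1 : x.1 ≠ ℓ := (hx 0).1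
    have h2 : 0 < dist x.1 ℓ := dist_pos.2 h1
    obtain ⟨n, hn⟩ := exists_nat_gt (ρ / dist x.1 ℓ)
    have h3 := (hx n).2.1
    rw [div_lt_iff₀ h2] at hn
    rw [le_div_iff₀ (by positivity)] at h3
    nlinarith
  have hfinK : μ (K 0) ≠ ∞ := by
    apply ne_of_lt
    refine lt_of_le_of_lt (measure_mono ?_) (hμ.fin (ρ / 2) (by positivity))
    intro x hx
    have h1 : dist x.1 ℓ ≤ ρ / 2 := by
      have := hx.2.1
      simpa using this
    have h2 : ρ < dist x.2 ℓ := hx.2.2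
    have h3 : dist x.2 ℓ ≤ dist x.2 x.1 + dist x.1 ℓ := dist_triangle _ _ _
    rw [dist_comm x.2 x.1] at h3
    show ρ / 2 ≤ dist x.1 x.2
    linarith
  have hlim : Tendsto (fun n => μ (K n)) atTop (𝓝 0) := by
    have h1 := tendsto_measure_iInter_atTop (μ := μ) (s := K)
      (fun n => (hKmeas n).nullMeasurableSet) hmono ⟨0, hfinK⟩
    rw [hempty, measure_empty] at h1
    exact h1
  have hfinAB : μ (A ×ˢ B) ≠ ∞ := by
    apply ne_of_lt
    refine lt_of_le_of_lt (measure_mono ?_) (hμ.fin ε hε0)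
    intro x hx
    exact hε x.1 hx.1 x.2 hx.2
  have hhalf : 0 < μ (A ×ˢ B) / 2 := ENNReal.half_pos hpos.ne'
  obtain ⟨n, hn⟩ := (hlim.eventually_lt_const hhalf).exists
  set r : ℝ := ρ / (2 * ((n : ℝ) + 1)) with hr
  have hr0 : 0 < r := by positivity
  have hball : Metric.closedBall ℓ r ∈ 𝓝 ℓ := Metric.closedBall_mem_nhds ℓ hr0
  have hP : ∀ᶠ g : H in u, μ.map (Prod.map g g) = μ ∧ (∀ z ∈ A, g z ∈ Metric.closedBall ℓ r) ∧
      ∀ z ∈ B, g z ∉ N := hinv.and ((hlA _ hball).and hNB)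
  have hsmall : ∀ g : H, (μ.map (Prod.map g g) = μ ∧ (∀ z ∈ A, g z ∈ Metric.closedBall ℓ r) ∧
      ∀ z ∈ B, g z ∉ N) → μ ((A ×ˢ B) ∩ {x | x.1 ≠ g.symm ℓ}) < μ (A ×ˢ B) / 2 := by
    rintro g ⟨h1, h2, h3⟩
    refine lt_of_le_of_lt ?_ hn
    have hmeas : Measurable (Prod.map g g) :=
      g.continuous.measurable.prodMap g.continuous.measurable
    calc μ ((A ×ˢ B) ∩ {x | x.1 ≠ g.symm ℓ}) ≤ μ ((Prod.map g g) ⁻¹' (K n)) := by
          apply measure_mono
          rintro x ⟨⟨hxA, hxB⟩, hx⟩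
          refine ⟨?_, ?_, ?_⟩
          · intro h4
            apply hx
            rw [← h4]
            exact (g.symm_apply_apply x.1).symm
          · exact h2 x.1 hxA
          · by_contra h4
            exact h3 x.2 hxB (hρN' _ (not_lt.1 h4))
      _ = (μ.map (Prod.map g g)) (K n) := (Measure.map_apply hmeas (hKmeas n)).symm
      _ = μ (K n) := by rw [h1]
  have hconst : ∀ g g' : H, (μ.map (Prod.map g g) = μ ∧
      (∀ z ∈ A, g z ∈ Metric.closedBall ℓ r) ∧ ∀ z ∈ B, g z ∉ N) →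
      (μ.map (Prod.map g' g') = μ ∧ (∀ z ∈ A, g' z ∈ Metric.closedBall ℓ r) ∧
      ∀ z ∈ B, g' z ∉ N) → g.symm ℓ = g'.symm ℓ := by
    intro g g' hg hg'
    by_contra hne
    have h1 := hsmall g hg
    have h2 := hsmall g' hg'
    have h3 : A ×ˢ B ⊆ ((A ×ˢ B) ∩ {x | x.1 ≠ g.symm ℓ}) ∪
        ((A ×ˢ B) ∩ {x | x.1 ≠ g'.symm ℓ}) := by
      intro x hx
      by_cases h4 : x.1 = g.symm ℓ
      · exact Or.inr ⟨hx, fun h5 => hne (h4.symm.trans h5)⟩
      · exact Or.inl ⟨hx, h4⟩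
    have h4 : μ (A ×ˢ B) < μ (A ×ˢ B) := by
      calc μ (A ×ˢ B) ≤ μ ((A ×ˢ B) ∩ {x | x.1 ≠ g.symm ℓ}) +
            μ ((A ×ˢ B) ∩ {x | x.1 ≠ g'.symm ℓ}) := (measure_mono h3).trans (measure_union_le _ _)
        _ < μ (A ×ˢ B) / 2 + μ (A ×ˢ B) / 2 := ENNReal.add_lt_add h1 h2
        _ = μ (A ×ˢ B) := ENNReal.add_halves _
    exact lt_irrefl _ h4
  obtain ⟨g₀, hg₀⟩ := hP.exists
  refine ⟨g₀.symm ℓ, ?_⟩
  filter_upwards [hP] with g hg
  rw [hconst g₀ g hg₀ hg]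
  exact g.apply_symm_apply ℓ

end Pool.GC
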