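import Pool.Agent.Work.MP_ae1ff6_gc.Interface2

open Topology Filter Set MeasureTheory
open scoped ComplexConjugate ENNReal

set_option autoImplicit false

namespace Pool.GC

open Pool.CG

theorem PEN_tend (u : Ultrafilter H) (L : Circle → Circle) (ℓ z : Circle)
    (hL : ∀ z, Tendsto (fun g : H => g z) u (𝓝 (L z))) (h : L z = ℓ) :
    Tendsto (fun g : H => g z) u (𝓝 ℓ) := by
  have h1 := hL z
  rw [h] at h1
  exact h1

theorem p_PEN (hPLT : Stmt_PLT) (hAWY : Stmt_AWY) (hPE1 : Stmt_PE1) (hPE2 : Stmt_PE2)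
    (hPE3 : Stmt_PE3) : Stmt_PEN := by
  intro μ u L ℓ y1 y2 hcur hfill hfix hL hD hy h1 h2
  have hclosed : ∀ x1 x2 w z, L x1 = ℓ → L x2 = ℓ → L w ≠ ℓ → Link x1 x2 z w → L z = ℓ := by
    intro x1 x2 w z e1 e2 e3 hlink
    obtain ⟨-, -, h3⟩ := hPLT u x1 x2 w ℓ (L w) (Ne.symm e3) (PEN_tend u L ℓ x1 hL e1)
      (PEN_tend u L ℓ x2 hL e2) (hL w)
    have ht : Tendsto (fun g : H => g z) u (𝓝 ℓ) := by
      intro N hN
      rw [Filter.mem_map]
      exact Filter.mem_of_superset (h3 N hN) (fun g hg => hg z hlink)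
    exact tendsto_nhds_unique (hL z) ht
  obtain ⟨i1, i2, hi, hbox⟩ := hPE1 L ℓ y1 y2 hD hy h1 h2 hclosed
  obtain ⟨α, α', β, β', ea, ea', eb, eb', A, B, hA, hB, hAs, hBs, hε, hpos⟩ :=
    hPE2 μ L ℓ i1 i2 hcur hfill hi hbox
  refine hPE3 μ u ℓ A B hcur hA hB hε hpos hfix ?_ ?_
  · intro N hN
    obtain ⟨-, -, h3⟩ := hPLT u α α' β ℓ (L β) (Ne.symm eb) (PEN_tend u L ℓ α hL ea)
      (PEN_tend u L ℓ α' hL ea') (hL β)
    filter_upwards [h3 N hN] with g hg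
    intro z hz
    exact hg z (hAs hz)
  · obtain ⟨N, hN, h3⟩ := hAWY u β β' α ℓ (L β) (L β') (Ne.symm eb) (Ne.symm eb') (hL β) (hL β')
      (PEN_tend u L ℓ α hL ea)
    refine ⟨N, hN, ?_⟩
    filter_upwards [h3] with g hg
    intro z hz
    exact hg z (hBs hz)

end Pool.GC
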