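import Pool.Agent.Work.MP_ae1ff6_gc.Interface

open Topology Filter Set MeasureTheory
open scoped ComplexConjugate ENNReal

set_option autoImplicit false

namespace Pool.GC

open Pool.CG

/-- the compact exhaustion -/
def SUM_K (n : ℕ) : Set (Circle × Circle) := {x | 1 / ((n : ℝ) + 1) ≤ dist x.1 x.2}

theorem SUM_K_meas (n : ℕ) : MeasurableSet (SUM_K n) :=
  (isClosed_le continuous_const (continuous_fst.dist continuous_snd)).measurableSet

theorem SUM_K_mono {n k : ℕ} (h : n ≤ k) : SUM_K n ⊆ SUM_K k := by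
  intro x hx
  have hx' : 1 / ((n : ℝ) + 1) ≤ dist x.1 x.2 := hx
  show 1 / ((k : ℝ) + 1) ≤ dist x.1 x.2
  have h' : (n : ℝ) ≤ k := by exact_mod_cast h
  exact (one_div_le_one_div_of_le (by positivity) (by linarith)).trans hx'

theorem SUM_K_fin {μ : Measure (Circle × Circle)} (h : Current μ) (n : ℕ) : μ (SUM_K n) < ∞ :=
  h.fin _ (by positivity)

/-- the weights -/
noncomputable def SUM_w (μ : ℕ → Measure (Circle × Circle)) (k : ℕ) : ℝ≥0∞ :=
  (2 ^ k * (1 + μ k (SUM_K k)))⁻¹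

theorem SUM_w_ne_zero {μ : ℕ → Measure (Circle × Circle)} (h : ∀ k, Current (μ k)) (k : ℕ) :
    SUM_w μ k ≠ 0 := by
  unfold SUM_w
  rw [Ne, ENNReal.inv_eq_zero]
  exact ENNReal.mul_ne_top (by simp) (ENNReal.add_ne_top.2 ⟨by simp, (SUM_K_fin (h k) k).ne⟩)

theorem SUM_w_ne_top (μ : ℕ → Measure (Circle × Circle)) (k : ℕ) : SUM_w μ k ≠ ∞ := by
  unfold SUM_w
  rw [Ne, ENNReal.inv_eq_top]
  exact mul_ne_zero (by simp) (by simp)

theorem SUM_w_mul {μ : ℕ → Measure (Circle × Circle)} (_h : ∀ k, Current (μ k)) (k : ℕ) :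
    SUM_w μ k * μ k (SUM_K k) ≤ (2⁻¹ : ℝ≥0∞) ^ k := by
  unfold SUM_w
  rw [ENNReal.mul_inv (by simp) (by simp), ← ENNReal.inv_pow, mul_assoc]
  refine mul_le_of_le_one_right zero_le ?_
  refine le_trans (mul_le_mul_right (le_add_self : μ k (SUM_K k) ≤ 1 + μ k (SUM_K k)) _) ?_
  exact ENNReal.inv_mul_le_one _

theorem SUM_map (μ : ℕ → Measure (Circle × Circle)) (w : ℕ → ℝ≥0∞)
    (f : Circle × Circle → Circle × Circle) (hf : Measurable f) (h : ∀ k, (μ k).map f = μ k) :
    (Measure.sum fun k => w k • μ k).map f = Measure.sum fun k => w k • μ k := by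
  ext S hS
  rw [Measure.map_apply hf hS, Measure.sum_apply _ (hf hS), Measure.sum_apply _ hS]
  refine tsum_congr fun k => ?_
  have h1 : μ k (f ⁻¹' S) = μ k S := by
    rw [← Measure.map_apply hf hS, h k]
  simp [h1]

theorem p_SUM : Stmt_SUM := by
  intro G μ hμ hG
  refine ⟨Measure.sum fun k => SUM_w μ k • μ k, ⟨?_, ?_, ?_⟩, ?_, ?_⟩
  · intro ε hε
    obtain ⟨n, hn⟩ := exists_nat_one_div_lt hε
    have hsub : {x : Circle × Circle | ε ≤ dist x.1 x.2} ⊆ SUM_K n := by
      intro x hx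
      exact hn.le.trans hx
    refine lt_of_le_of_lt (measure_mono hsub) ?_
    rw [Measure.sum_apply _ (SUM_K_meas n)]
    have hf : ∀ k, (SUM_w μ k • μ k) (SUM_K n) = SUM_w μ k * μ k (SUM_K n) := by
      intro k; simp
    simp_rw [hf]
    rw [← ENNReal.summable.sum_add_tsum_nat_add' (k := n)]
    refine ENNReal.add_lt_top.2 ⟨?_, ?_⟩
    · refine ENNReal.sum_lt_top.2 fun k _ => ?_
      exact ENNReal.mul_lt_top (SUM_w_ne_top μ k).lt_top (SUM_K_fin (hμ k) n)
    · have h1 : ∑' k, SUM_w μ (k + n) * μ (k + n) (SUM_K n) ≤ ∑' k, (2⁻¹ : ℝ≥0∞) ^ k := by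
        refine ENNReal.tsum_le_tsum fun k => ?_
        calc SUM_w μ (k + n) * μ (k + n) (SUM_K n)
            ≤ SUM_w μ (k + n) * μ (k + n) (SUM_K (k + n)) := by
              gcongr
              exact SUM_K_mono (by omega)
          _ ≤ (2⁻¹ : ℝ≥0∞) ^ (k + n) := SUM_w_mul hμ (k + n)
          _ ≤ (2⁻¹ : ℝ≥0∞) ^ k :=
              pow_le_pow_right_of_le_one' (by simp) (by omega)
      refine lt_of_le_of_lt h1 ?_
      rw [ENNReal.tsum_geometric]
      simp
  · rw [Measure.sum_apply _ (isClosed_eq continuous_fst continuous_snd).measurableSet]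
    rw [ENNReal.tsum_eq_zero]
    intro k
    simp [(hμ k).diag]
  · exact SUM_map μ _ _ measurable_swap fun k => (hμ k).flip
  · intro g hg
    have hm : Measurable (Prod.map g g : Circle × Circle → Circle × Circle) :=
      (g.continuous.prodMap g.continuous).measurable
    exact SUM_map μ _ _ hm fun k => hG k g hg
  · intro k S hS
    have h1 := Measure.le_sum (fun k => SUM_w μ k • μ k) k S
    refine lt_of_lt_of_le ?_ h1
    simp only [Measure.smul_apply, smul_eq_mul]
    exact ENNReal.mul_pos (SUM_w_ne_zero hμ k) hS.ne'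

end Pool.GC
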