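import Pool.Agent.Work.MP_ae1ff6_cg.Interface2

/-!
# Invariant geodesic currents (MP_ae1ff6_gt): definitions

The setting is the one of `Pool/Agent/Work/MP_ae1ff6_cg/Defs.lean`: `S = 𝔻 / Γ` is a hyperbolic
surface, `Γ` a Fuchsian group of the first kind acting on the circle at infinity, and a group of
mapping classes of `S` is `G / Γ` for a group `G` of homeomorphisms of the circle which contains `Γ`
as a normal subgroup. The geodesics of the disc are given by their endpoints, so they are the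
unordered pairs of different points of the circle.
-/

open Topology Filter Set MeasureTheory
open scoped ComplexConjugate ENNReal

set_option autoImplicit false

namespace Pool.GC

open Pool.CG

/-- the Borel sets of the circle -/
noncomputable instance instMeasurableSpaceCircle : MeasurableSpace Circle := borel Circle

instance instBorelSpaceCircle : BorelSpace Circle := ⟨rfl⟩

/-- `μ` is a locally finite (Radon) measure on the space of geodesics of the disc: a Borel measure on
the pairs of points of the circle which is finite on the pairs with distance at least `ε`, for all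
`ε > 0`, vanishes on the diagonal and is invariant under the exchange of the two points. It is a
geodesic current of `𝔻 / Γ` if it is also invariant under `Γ` (`Fixes Γ μ`). -/
structure Current (μ : Measure (Circle × Circle)) : Prop where
  fin : ∀ ε : ℝ, 0 < ε → μ {x | ε ≤ dist x.1 x.2} < ∞
  diag : μ {x | x.1 = x.2} = 0
  flip : μ.map Prod.swap = μ

/-- `G` preserves `μ` -/
def Fixes (G : Subgroup H) (μ : Measure (Circle × Circle)) : Prop :=
  ∀ g ∈ G, μ.map (Prod.map g g) = μ

/-- `G` preserves `μ` up to positive factors -/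
def Scales (G : Subgroup H) (μ : Measure (Circle × Circle)) : Prop :=
  ∀ g ∈ G, ∃ c : ℝ≥0∞, c ≠ 0 ∧ c ≠ ∞ ∧ μ.map (Prod.map g g) = c • μ

/-- `μ` has full support -/
def FullSupport (μ : Measure (Circle × Circle)) : Prop :=
  ∀ U V : Set Circle, IsOpen U → U.Nonempty → IsOpen V → V.Nonempty → 0 < μ (U ×ˢ V)

/-- `μ` is filling: each geodesic `(u, v)` of the disc is crossed by geodesics of the support (the
set of the geodesics which cross `(u, v)` is open and has positive measure) -/
def Filling (μ : Measure (Circle × Circle)) : Prop :=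
  ∀ u v : Circle, u ≠ v → 0 < μ {x | Link u v x.1 x.2}

/-- For each closed geodesic `a` (from `γ`, with the axis `(p, q)`) only finitely many classes
`g Γ`, `g ∈ G`, map `a` to a closed geodesic which crosses `a`. (`a` is the `Γ`-orbit of the axis, so the
class maps `a` across `a` iff `g κ (p, q)` crosses `κ' (p, q)` for some `κ, κ' ∈ Γ`, that is, some
element `g'` of `g Γ = Γ g` maps `(p, q)` to a geodesic which crosses `(p, q)`.) -/
def SelfDisplaces (Γ G : Subgroup H) : Prop :=
  ∀ γ ∈ Γ, ∀ p q : Circle, Axis γ p q →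
    ∃ F : Set H, F.Finite ∧ ∀ g ∈ G, Link (g p) (g q) p q → ∃ h ∈ F, h⁻¹ * g ∈ Γ

/-- the theorem -/
def Stmt_GC : Prop :=
  ∀ Γ G : Subgroup H, FirstKind Γ → Γ ≤ G → (∀ g ∈ G, ∀ γ ∈ Γ, g * γ * g⁻¹ ∈ Γ) →
    (Conv G ↔ ∃ μ, Current μ ∧ FullSupport μ ∧ Fixes G μ) ∧
    (Conv G ↔ ∃ μ, Current μ ∧ Filling μ ∧ Fixes G μ) ∧
    (Conv G ↔ ∃ μ, Current μ ∧ FullSupport μ ∧ Scales G μ) ∧
    (Conv G ↔ SelfDisplaces Γ G)

/-- the class of `f` has finite order, or each closed geodesic `a` is crossed by `f ^ n (a)` only for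
finitely many integers `n` -/
def OneDisplaces (Γ : Subgroup H) (f : H) : Prop :=
  (∃ n : ℕ, 0 < n ∧ f ^ n ∈ Γ) ∨ ∀ γ ∈ Γ, ∀ p q : Circle, Axis γ p q →
    {n : ℤ | ∃ κ ∈ Γ, Link ((κ * f ^ n) p) ((κ * f ^ n) q) p q}.Finite

/-- the theorem for one mapping class `f Γ` -/
def Stmt_GC1 : Prop :=
  ∀ (Γ : Subgroup H) (f : H), FirstKind Γ → (∀ γ, γ ∈ Γ ↔ f * γ * f⁻¹ ∈ Γ) →
    (OneDisplaces Γ f ↔ Conv (Γ ⊔ Subgroup.zpowers f)) ∧
    (OneDisplaces Γ f ↔ ∃ μ, Current μ ∧ FullSupport μ ∧ Fixes Γ μ ∧ μ.map (Prod.map f f) = μ) ∧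
    (OneDisplaces Γ f ↔ ∃ μ, Current μ ∧ Filling μ ∧ Fixes Γ μ ∧ μ.map (Prod.map f f) = μ) ∧
    (OneDisplaces Γ f ↔ ∃ μ, Current μ ∧ FullSupport μ ∧ Fixes Γ μ ∧
      ∃ c : ℝ≥0∞, c ≠ 0 ∧ c ≠ ∞ ∧ μ.map (Prod.map f f) = c • μ)

end Pool.GC
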