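import Pool.Agent.Work.MP_ae1ff6_gc.Interface2

/-!
# Invariant geodesic currents (MP_ae1ff6_gt): assembly
-/

open Topology Filter Set MeasureTheory
open scoped ComplexConjugate ENNReal

set_option autoImplicit false

namespace Pool.GC

open Pool.CG

theorem fixes_scales {G : Subgroup H} {μ : Measure (Circle × Circle)} (h : Fixes G μ) :
    Scales G μ := fun g hg => ⟨1, one_ne_zero, ENNReal.one_ne_top, by rw [one_smul, h g hg]⟩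

theorem displaces_self {Γ G : Subgroup H} (h : Displaces Γ G) : SelfDisplaces Γ G := by
  intro γ hγ p q hax
  obtain ⟨F, hF, h1⟩ := h γ hγ γ hγ p q p q hax hax
  exact ⟨F, hF, fun g hg hl => h1 g hg (Or.inl hl)⟩

theorem asm (hMFS : Stmt_MFS) (hMFL : Stmt_MFL) (hEXI : Stmt_EXI) (hFUL : Stmt_FUL)
    (hSDM : Stmt_SDM) : Stmt_GC := by
  intro Γ G hΓ hG hn
  have hex : Conv G → ∃ μ, Current μ ∧ FullSupport μ ∧ Fixes G μ := hEXI Γ G hΓ hG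
  refine ⟨⟨hex, ?_⟩, ⟨fun h => ?_, hMFL Γ G hΓ hG hn⟩, ⟨fun h => ?_, hMFS Γ G hΓ hG hn⟩,
    ⟨fun h => displaces_self ((main Γ G hΓ hG hn).1.1 h), hSDM Γ G hΓ hG hn⟩⟩
  · rintro ⟨μ, h1, h2, h3⟩
    exact hMFS Γ G hΓ hG hn ⟨μ, h1, h2, fixes_scales h3⟩
  · obtain ⟨μ, h1, h2, h3⟩ := hex h
    exact ⟨μ, h1, hFUL μ h2, h3⟩
  · obtain ⟨μ, h1, h2, h3⟩ := hex h
    exact ⟨μ, h1, h2, fixes_scales h3⟩

theorem asm1 (h0 : Stmt_GC) (hCY2 : Stmt_CY2) (hFUL : Stmt_FUL) : Stmt_GC1 := by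
  intro Γ f hΓ hf
  obtain ⟨h1, h2, h3⟩ := hCY2 Γ f hf
  have hle : Γ ≤ Γ ⊔ Subgroup.zpowers f := le_sup_left
  obtain ⟨a1, a2, a3, a4⟩ := h0 Γ (Γ ⊔ Subgroup.zpowers f) hΓ hle h1
  have b1 : OneDisplaces Γ f ↔ Conv (Γ ⊔ Subgroup.zpowers f) := h2.trans a4.symm
  have b2 : OneDisplaces Γ f ↔
      ∃ μ, Current μ ∧ FullSupport μ ∧ Fixes Γ μ ∧ μ.map (Prod.map f f) = μ := by
    rw [b1, a1]
    refine exists_congr fun μ => ?_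
    rw [(h3 μ).1]
  refine ⟨b1, b2, ?_, ?_, ?_⟩
  · rw [b1, a2]
    refine exists_congr fun μ => ?_
    rw [(h3 μ).1]
  · intro h
    obtain ⟨μ, c1, c2, c3, c4⟩ := b2.1 h
    exact ⟨μ, c1, c2, c3, 1, one_ne_zero, ENNReal.one_ne_top, by rw [one_smul, c4]⟩
  · rintro ⟨μ, c1, c2, c3, c4⟩
    exact b1.2 (a3.2 ⟨μ, c1, c2, (h3 μ).2 c3 c4⟩)

end Pool.GC
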