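import Pool.Agent.Work.MP_ae1ff6_gc.Defs
import Pool.Agent.Work.MP_ae1ff6_cg.All

/-!
# Invariant geodesic currents (MP_ae1ff6_gt): interface

Block `X`: file `Pool/Agent/Work/MP_ae1ff6_gc/B_X.lean`, `import ...MP_ae1ff6_gc.Interface`,
`namespace Pool.GC`, the `open` lines of this file, `theorem p_X (h1 : Stmt_Y) .. : Stmt_X` with
exactly the blocks of the column `uses`, in this order, as hypotheses; auxiliary lemmas with the
prefix `X_`. The proved facts of `Pool/Agent/Work/MP_ae1ff6_cg/Interface.lean` (read their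
docstrings) are available as `lhi`, `lfv`, `arc`, `lop`, `lsx`, `lub`, `mb1`, `mb2`, `mb3`, `pig`, `cnv`,
`hyp`, `dns`, `main` (below); they are not hypotheses. The auxiliary lemmas of the files `B_*.lean`
there may be used as well. `H = Circle ≃ₜ Circle` is a group (`(g * h) z = g (h z)`, `g⁻¹ = g.symm`:
`rfl`). `Link a b c d`: the points `a`, `b` separate `c`, `d`.

Two-sided picture: if `a = exp s`, `b = exp t`, `s < t < s + 2π`, then the complement of `{a, b}` is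
the union of the two disjoint open connected arcs `exp '' Ioo s t` and `exp '' Ioo t (s + 2π)` and
`Link a b c d` means that `c` and `d` are in different arcs.
-/

open Topology Filter Set MeasureTheory
open scoped ComplexConjugate ENNReal

set_option autoImplicit false

namespace Pool.GC

open Pool.CG

/-! ### Proved facts of MP_ae1ff6_cg -/

theorem lhi : Stmt_LHI := blk_LHI
theorem lfv : Stmt_LFV := blk_LFV
theorem arc : Stmt_ARC := blk_ARC
theorem lop : Stmt_LOP := blk_LOP blk_ARC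
theorem lsx : Stmt_LSX := blk_LSX blk_ARC
theorem lub : Stmt_LUB := blk_LUB blk_LFV
theorem mb1 : Stmt_MB1 := blk_MB1
theorem mb2 : Stmt_MB2 := blk_MB2 mb1
theorem mb3 : Stmt_MB3 := blk_MB3 mb1
theorem pig : Stmt_PIG := Pool.CG.pig
theorem cnv : Stmt_CNV := blk_CNV mb1 Pool.CG.bnd Pool.CG.pig
theorem hyp : Stmt_HYP := blk_HYP mb1
theorem dns : Stmt_DNS := Pool.CG.dns
theorem main : Stmt_Main := Pool.CG.main

/-! ### Part 1: the circle -/

/-- SYM (100 lines): `Link` is symmetric. The last two claims: definition. The first: `a ≠ b` (otherwise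
the connected set `{a}ᶜ = exp '' Ioo s (s + 2π)` contains `c`, `d`), so `a = exp s`, `b = exp t` with
`s < t < s + 2π` (`LOP_param`). `c` and `d` are in different arcs (an arc which contains both is
connected and does not contain `a`, `b`): say (exchange of `c` and `d`) `c = exp σ`, `s < σ < t`,
`d = exp τ`, `t < τ < s + 2π`. `arc σ τ`: `b = exp t ∈ exp '' Ioo σ τ`,
`a = exp (s + 2π) ∈ exp '' Ioo τ (σ + 2π)`, so `Link c d b a`. -/
def Stmt_SYM : Prop :=
  ∀ a b c d : Circle, Link a b c d → Link c d a b ∧ Link b a c d ∧ Link a b d c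

/-- TWO (80 lines): two sides. If `a = b` there is nothing to prove (`Link a a c d` is false, see SYM).
Let `a = exp s`, `b = exp t`, `s < t < s + 2π`. If `Link a b c d`, then `c` and `d` are in different arcs
and `r` is in one of them, say in the arc of `c`: so not `Link a b c r` (this arc is connected), but
`Link a b d r` (`arc`): a contradiction. In the same way for the arc of `d`. -/
def Stmt_TWO : Prop :=
  ∀ a b c d r : Circle, c ≠ a → c ≠ b → d ≠ a → d ≠ b → r ≠ a → r ≠ b →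
    (Link a b c r ↔ Link a b d r) → ¬ Link a b c d

/-- LNO (150 lines): `Link` is open, and closed as long as the two pairs stay apart. (1) Let
`Link a b c d`, `a = exp s`, `b = exp t`, `c = exp σ`, `d = exp τ` with `s < σ < t < τ < s + 2π` (or `c`, `d`
exchanged). For a small `δ > 0` each `a' ∈ exp '' Ioo (s - δ) (s + δ)` and so on: `arc`. The arcs are
open. (2) Suppose not `Link a b c d`, so `c` and `d` are in the same arc `exp '' Ioo s t`, say (or
`a = b`, then they are in the arc `exp '' Ioo s (s + 2π)`), `c = exp σ`, `d = exp τ`. For a small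
`δ > 0` the compact connected set `K = exp '' Icc (min σ τ - δ) (max σ τ + δ)` does not contain `a`, `b`
and is a neighbourhood of `c` and `d`. Eventually `x i, y i ∉ K`, `z i, w i ∈ K`: not
`Link (x i) (y i) (z i) (w i)`. -/
def Stmt_LNO : Prop :=
  (IsOpen {x : (Circle × Circle) × (Circle × Circle) | Link x.1.1 x.1.2 x.2.1 x.2.2}) ∧
  ∀ (ι : Type) (l : Filter ι) [l.NeBot] (x y z w : ι → Circle) (a b c d : Circle),
    Tendsto x l (𝓝 a) → Tendsto y l (𝓝 b) → Tendsto z l (𝓝 c) → Tendsto w l (𝓝 d) →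
    c ≠ a → c ≠ b → d ≠ a → d ≠ b → (∀ᶠ i in l, Link (x i) (y i) (z i) (w i)) → Link a b c d

/-- CUT (80 lines): the circle cut at `exp θ`. If `z = exp x`, `α < x < β`: `arc α β` with
`exp θ = exp (θ + 2π) ∈ exp '' Ioo β (α + 2π)`. If `z` is not in the arc `exp '' Ioo α β` and
`z ≠ exp α, exp β`, then `z` and `exp θ` are both in the connected set `exp '' Ioo β (α + 2π)`. -/
def Stmt_CUT : Prop :=
  ∀ θ α β : ℝ, θ < α → α < β → β < θ + 2 * Real.pi →
    {z : Circle | Link (Circle.exp α) (Circle.exp β) z (Circle.exp θ)} = Circle.exp '' Ioo α β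

/-- LFT (200 lines): lifts. `k` fixes `exp θ` and `exp s` and does not exchange the two sides (`c` and
`k c` are on the same side). Proof. `e : Ioo θ (θ + 2π) → {z | z ≠ exp θ}`, `x ↦ exp x`, is a continuous
open bijection, so `κ₀ = e⁻¹ ∘ k ∘ e` is a homeomorphism of `Ioo θ (θ + 2π)` (or: a continuous
injective map of it onto itself, `κ₀ x` is the unique `y` in the interval with `exp y = k (exp x)`),
hence strictly monotone or antitone (`Continuous.strictMono_of_inj` or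
`ContinuousOn.strictMonoOn_of_injOn_Ioo`). `κ₀ s = s`. If it is antitone it exchanges `Ioo θ s` and
`Ioo s (θ + 2π)`, so `Link (exp θ) (exp s) c (k c)` by `arc` for `c = exp x`: a contradiction. So it is
strictly increasing. Put `κ x = κ₀ x` for `x ∈ Ioo θ (θ + 2π)` and `κ x = x` otherwise: strictly
increasing and onto (`StrictMono.orderIsoOfSurjective`). -/
def Stmt_LFT : Prop :=
  ∀ (k : H) (θ s : ℝ) (c : Circle), θ < s → s < θ + 2 * Real.pi →
    k (Circle.exp θ) = Circle.exp θ → k (Circle.exp s) = Circle.exp s →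
    c ≠ Circle.exp θ → c ≠ Circle.exp s → ¬ Link (Circle.exp θ) (Circle.exp s) c (k c) →
    ∃ κ : ℝ ≃o ℝ, κ θ = θ ∧ κ s = s ∧ κ (θ + 2 * Real.pi) = θ + 2 * Real.pi ∧
      ∀ x ∈ Icc θ (θ + 2 * Real.pi), Circle.exp (κ x) = k (Circle.exp x)

/-- ORI (120 lines): orbits of an increasing homeomorphism of the line. (`ℝ ≃o ℝ` is a group,
`(κ * κ') x = κ (κ' x)`, `(κ ^ n) x` for `n : ℤ`.) The sequence `x n = (κ ^ n) ξ` is strictly increasing
in `n : ℤ` and stays in `Ioo α β` (`κ ^ n` fixes `α` and `β`); `t = sup`, `s = inf`; by continuity of `κ` both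
are fixed. Each point of `Ioo s t` is in `Ico (x n) (x (n + 1))` for some `n` (the set of the `n` with
`x n ≤ y` is nonempty and bounded above). Disjointness: `Monotone.pairwise_disjoint_on_Ico_succ`. -/
def Stmt_ORI : Prop :=
  ∀ (κ : ℝ ≃o ℝ) (α β ξ : ℝ), κ α = α → κ β = β → α < ξ → ξ < β → ξ < κ ξ →
    ∃ s t : ℝ, α ≤ s ∧ s < ξ ∧ κ ξ < t ∧ t ≤ β ∧ κ s = s ∧ κ t = t ∧
      (Ioo s t = ⋃ n : ℤ, Ico ((κ ^ n) ξ) ((κ ^ (n + 1)) ξ)) ∧
      Pairwise (Function.onFun Disjoint fun n : ℤ => Ico ((κ ^ n) ξ) ((κ ^ (n + 1)) ξ)) ∧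
      ∀ n : ℤ, (κ ^ n) '' Ico ξ (κ ξ) = Ico ((κ ^ n) ξ) ((κ ^ (n + 1)) ξ)

/-- PLT (80 lines): plateaus. Open: the complement of `{x1, x2}` has the two open arcs (`LOP_param`,
`arc`), the set is the one of them which does not contain `w` (or empty, if `x1 = x2`); `Link` implies
`w ≠ x1, x2`. Nonempty if `x1 ≠ x2` and `w ≠ x1, x2` (this holds by the limits: `ℓ ≠ w'`). Uniform
convergence: let `N` be a neighbourhood of `ℓ`; otherwise (ultrafilter) for almost all `g` there is `z`,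
say `z g`, in the set with `g (z g) ∉ N`. Let `v` be the limit of `g (z g)` along `u` (`BDC_lim`). By `lhi`
`Link (g x1) (g x2) (g (z g)) (g w)`, by `lfv` `ℓ = v` or `ℓ = w'`, so `ℓ = v`: a contradiction. -/
def Stmt_PLT : Prop :=
  ∀ (u : Ultrafilter H) (x1 x2 w ℓ w' : Circle), ℓ ≠ w' →
    Tendsto (fun g : H => g x1) u (𝓝 ℓ) → Tendsto (fun g : H => g x2) u (𝓝 ℓ) →
    Tendsto (fun g : H => g w) u (𝓝 w') →
    IsOpen {z : Circle | Link x1 x2 z w} ∧ (x1 ≠ x2 → {z : Circle | Link x1 x2 z w}.Nonempty) ∧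
    ∀ N ∈ 𝓝 ℓ, ∀ᶠ g : H in u, ∀ z : Circle, Link x1 x2 z w → g z ∈ N

/-- AWY (70 lines; uses SYM): points separated by `β`, `β'` from `α` stay away from `ℓ = lim g α`. Suppose
not: then (ultrafilter) for each `N ∈ 𝓝 ℓ` for almost all `g` there is `z` with `Link β β' z α` and
`g z ∈ N`. So the filter `l = comap Prod.fst u ⊓ comap (fun x => x.1 x.2) (𝓝 ℓ) ⊓ 𝓟 {x | Link β β' x.2 α}` on
`H × Circle` is not trivial. Along `l`: `x.1 β → β₁`, `x.1 β' → β₂`, `x.1 x.2 → ℓ`, `x.1 α → ℓ`, and by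
`lhi` and SYM `Link (x.1 x.2) (x.1 α) (x.1 β) (x.1 β')`. By `lfv` `ℓ = β₁` or `ℓ = β₂`. -/
def Stmt_AWY : Prop :=
  ∀ (u : Ultrafilter H) (β β' α ℓ β₁ β₂ : Circle), ℓ ≠ β₁ → ℓ ≠ β₂ →
    Tendsto (fun g : H => g β) u (𝓝 β₁) → Tendsto (fun g : H => g β') u (𝓝 β₂) →
    Tendsto (fun g : H => g α) u (𝓝 ℓ) →
    ∃ N ∈ 𝓝 ℓ, ∀ᶠ g : H in u, ∀ z : Circle, Link β β' z α → g z ∉ N

/-! ### Part 2: limits of the group along an ultrafilter -/

/-- the value `ℓ` of `L` is taken at least twice -/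
def Dbl (L : Circle → Circle) (ℓ : Circle) : Prop := ∃ x y, x ≠ y ∧ L x = ℓ ∧ L y = ℓ

/-- NCL (200 lines): strong contraction. As `blk_ATT`. Let `v = u.map F`, an ultrafilter on `H` with
`Γ ∈ v` and `v ≤ cofinite` (no point has measure one for `v`). Choose parameters `(α g, β g)` for the
elements of `Γ`. As in `blk_ATT`: `‖β‖ → ∞` along `v` (`pig` and discreteness), `P = - conj α / conj β → η`
and `α / conj β → ζ` along `v` with points `ζ, η` of the circle. Uniformity: if `r ≤ dist z η`, then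
for `v`-almost all `h` we have `‖z - P h‖ ≥ r / 2` and by MB1
`‖h z - α / conj β‖ = 1 / (‖β‖ ^ 2 ‖z - P h‖) ≤ 2 / (r ‖β‖ ^ 2) < r / 2`, for all such `z` at the same
time. For `h⁻¹` the parameters are `(conj α, - β)` (MB2): the roles of `ζ` and `η` are exchanged. -/
def Stmt_NCL : Prop :=
  ∀ (Γ : Subgroup H) (u : Ultrafilter H) (F : H → H), FirstKind Γ → (∀ᶠ g : H in u, F g ∈ Γ) →
    (∀ δ : H, {g : H | F g = δ} ∉ u) →
    ∃ ζ η : Circle, ∀ r : ℝ, 0 < r → ∀ᶠ g : H in u, ∀ z : Circle,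
      (r ≤ dist z η → dist (F g z) ζ < r) ∧ (r ≤ dist z ζ → dist ((F g)⁻¹ z) η < r)

/-- NCH (100 lines; uses NCL): the case of a hyperbolic element. Apply NCL to `F g = g γ g⁻¹` (in `Γ` for
almost all `g`): `ζ`, `η`. Claim: `ℓ` is `ζ` or `η`, since `F g (g p) = g (γ p) = g p → ℓ`: if `ℓ ≠ η` and
`ℓ ≠ ζ`, take `r` smaller than half of both distances; for almost all `g` we have `r ≤ dist (g p) η`, so
`dist (g p) ζ < r`, so `dist ℓ ζ ≤ r`: a contradiction. The same for `m`. As `ℓ ≠ m`, either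
`ℓ = η`, `m = ζ` (take `γ' = γ`; `(F g)⁻¹ = g γ⁻¹ g⁻¹`) or `ℓ = ζ`, `m = η` (take `γ' = γ⁻¹`). -/
def Stmt_NCH : Prop :=
  ∀ (Γ G : Subgroup H) (u : Ultrafilter H), FirstKind Γ →
    (∀ g ∈ G, ∀ γ ∈ Γ, g * γ * g⁻¹ ∈ Γ) → (∀ᶠ g : H in u, g ∈ G) →
    ∀ γ ∈ Γ, ∀ p q ℓ m : Circle, Axis γ p q → (∀ δ : H, {g : H | g * γ * g⁻¹ = δ} ∉ u) →
      Tendsto (fun g : H => g p) u (𝓝 ℓ) → Tendsto (fun g : H => g q) u (𝓝 m) → ℓ ≠ m →
      ∃ γ' : H, (γ' = γ ∨ γ' = γ⁻¹) ∧ ∀ r : ℝ, 0 < r → ∀ᶠ g : H in u, ∀ z : Circle,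
        (r ≤ dist z ℓ → dist ((g * γ' * g⁻¹) z) m < r) ∧
        (r ≤ dist z m → dist ((g * γ'⁻¹ * g⁻¹) z) ℓ < r)

/-- PNE (60 lines; uses NCH). `γ'` from NCH with `ℓ = L p`, `m = L q`. `L x ≠ L p`: for small `r`
`r ≤ dist (g x) (L p)` for almost all `g`, so `dist (g (γ' x)) (L q) < r`; so `L (γ' x) = L q`. In the same
way `L (γ'⁻¹ x) = L p`. `x ≠ p, q` (as `L x ≠ L p, L q`), `p`, `q` are fixed points of `γ'`, so
`γ' x ≠ q` and `γ'⁻¹ x ≠ p`. -/
def Stmt_PNE : Prop :=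
  ∀ (Γ G : Subgroup H) (u : Ultrafilter H) (L : Circle → Circle), FirstKind Γ →
    (∀ g ∈ G, ∀ γ ∈ Γ, g * γ * g⁻¹ ∈ Γ) → (∀ᶠ g : H in u, g ∈ G) →
    (∀ z, Tendsto (fun g : H => g z) u (𝓝 (L z))) →
    ∀ γ ∈ Γ, ∀ p q : Circle, Axis γ p q → (∀ δ : H, {g : H | g * γ * g⁻¹ = δ} ∉ u) → L p ≠ L q →
      ∀ x, L x ≠ L p → L x ≠ L q → Dbl L (L p) ∧ Dbl L (L q)

/-- `γ`, `γ'` are hyperbolic with four different endpoints, and both conjugates `g γ g⁻¹`, `g γ' g⁻¹` are
constant for almost all `g` -/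
def TwoConst (Γ : Subgroup H) (u : Ultrafilter H) : Prop :=
  ∃ γ ∈ Γ, ∃ γ' ∈ Γ, ∃ p q p' q' : Circle, Axis γ p q ∧ Axis γ' p' q' ∧ p ≠ p' ∧ p ≠ q' ∧
    q ≠ p' ∧ q ≠ q' ∧ (∃ δ : H, {g : H | g * γ * g⁻¹ = δ} ∈ u) ∧
    ∃ δ : H, {g : H | g * γ' * g⁻¹ = δ} ∈ u

/-- FXC (80 lines). Let `{g | g γ g⁻¹ = δ} ∈ u` and fix `g₀` in this set: the fixed points of `δ` are
`g₀ p`, `g₀ q`. For `g` in the set `g p` is fixed by `δ`, so `g p = g₀ p` or `g p = g₀ q`; one of the two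
sets is in `u` (`Ultrafilter.union_mem_iff`). In the same way for `q`, `p'`, `q'`: there are
`x₁, x₂, x₃, x₄` with `{g ∈ S | g p = x₁, g q = x₂, g p' = x₃, g q' = x₄} ∈ u`; a set in `u` is infinite
(`u ≤ cofinite`), so it contains two different elements. -/
def Stmt_FXC : Prop :=
  ∀ (Γ : Subgroup H) (u : Ultrafilter H) (S : Set H), (u : Filter H) ≤ cofinite → S ∈ u →
    TwoConst Γ u → ∃ g ∈ S, ∃ g' ∈ S, g ≠ g' ∧ ∃ p q p' q' : Circle, p ≠ q ∧ p' ≠ q' ∧ p ≠ p' ∧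
      p ≠ q' ∧ q ≠ p' ∧ q ≠ q' ∧ g p = g' p ∧ g q = g' q ∧ g p' = g' p' ∧ g q' = g' q'

/-- DIC (100 lines; uses PNE). Call an axis `(p, q)` of `γ ∈ Γ` good if no `{g | g γ g⁻¹ = δ}` is in
`u`. By `¬ TwoConst` there is a set `Z` with at most two points such that each axis with endpoints not
in `Z` is good (`Z = {p₀, q₀}` for one axis which is not good, `Z = ∅` if there is none; recall
`p ≠ q` for axes). By `dns` for all nonempty open `U`, `V` there is a good axis with `p ∈ U`, `q ∈ V`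
(replace them by `U \ Z`, `V \ Z`; the circle has no isolated points). Suppose that the first
alternative is false. Case 1: `L p = L q` for all good axes. Fix one good axis and let `ℓ` be the value;
`Dbl L ℓ`. For another good axis `Dbl L (L p)`, so `L p = ℓ`. So the set is dense. Case 2: a good axis
with `L p ≠ L q`. By PNE and the assumption `L x ∈ {L p, L q}` for all `x`. The circle is infinite, so
`L p` or `L q` is taken twice, not both: say (the other case is the same) `Dbl L (L p)` and not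
`Dbl L (L q)`, so `L x = L p` for all `x ≠ q`; `{q}ᶜ` is dense. -/
def Stmt_DIC : Prop :=
  ∀ (Γ G : Subgroup H) (u : Ultrafilter H) (L : Circle → Circle), FirstKind Γ →
    (∀ g ∈ G, ∀ γ ∈ Γ, g * γ * g⁻¹ ∈ Γ) → (∀ᶠ g : H in u, g ∈ G) →
    (∀ z, Tendsto (fun g : H => g z) u (𝓝 (L z))) → ¬ TwoConst Γ u →
    (∃ ℓ m : Circle, ℓ ≠ m ∧ Dbl L ℓ ∧ Dbl L m) ∨ ∃ ℓ : Circle, Dense {z | L z = ℓ}

/-- TRI (100 lines). As the end of `blk_BDC`. Choose the triples `(a g, b g, c g)` of `Mv`; let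
`a, b, c` be their limits along `u` and `a', b', c'` the limits of `g (a g), g (b g), g (c g)`: three
different points each (`BDC_lim`, `BDC_ne`). `lsx` for `a; b, c`: open nonempty `U`, `V`; choose `p ∈ U`,
`q ∈ V` with `L p = L q = ℓ` (density). Then `Link p q (a g) (b g)` and `Link p q (a g) (c g)` for almost
all `g`; with `lhi` and `lfv`: `ℓ ∈ {a', b'}` and `ℓ ∈ {a', c'}`, so `ℓ = a'`. `lsx` for `b; a, c`:
`ℓ = b'`. A contradiction. -/
def Stmt_TRI : Prop :=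
  ∀ (u : Ultrafilter H) (L : Circle → Circle) (ℓ : Circle) (ε : ℝ), 0 < ε →
    (∀ z, Tendsto (fun g : H => g z) u (𝓝 (L z))) → Dense {z | L z = ℓ} →
    (∀ᶠ g : H in u, Mv ε g) → False

/-! ### Part 3: currents of full support -/

/-- WAN (80 lines): wandering boxes have mass zero. `B` is invariant under `k`. With `c ≤ 1`:
`μ S ≤ μ ((k × k) '' S)` for measurable `S` (`μ.map (Prod.map k k) ((k × k) '' S) = μ S`), so
`μ (D ×ˢ B) ≤ μ ((k ^ n '' D) ×ˢ B)` for all `n : ℕ` (induction). The sets `(k ^ n '' D) ×ˢ B` are pairwise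
disjoint, measurable and contained in `{x | ε ≤ dist x.1 x.2}`, which has finite mass. So
`∑' n, μ (D ×ˢ B) < ∞`, and `μ (D ×ˢ B) = 0`. -/
def Stmt_WAN : Prop :=
  ∀ (μ : Measure (Circle × Circle)) (k : H) (c : ℝ≥0∞) (D B : Set Circle) (ε : ℝ), Current μ →
    μ.map (Prod.map k k) = c • μ → c ≤ 1 → MeasurableSet D → MeasurableSet B → k '' B = B →
    Pairwise (Function.onFun Disjoint fun n : ℕ => (k ^ n) '' D) → 0 < ε →
    (∀ n : ℕ, ∀ x ∈ (k ^ n) '' D, ∀ y ∈ B, ε ≤ dist x y) → μ (D ×ˢ B) = 0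

/-- FIX (200 lines; uses LFT ORI WAN): an element with four fixed points is trivial. Suppose
`k x ≠ x`, `x = exp ξ`. The fixed points `e i` are `exp θᵢ` with `θᵢ ∈ Ioo ξ (ξ + 2π)`; order them:
`θ₁ < θ₂ < θ₃ < θ₄` (all four `exp θᵢ` are fixed points). Let `θ = θ₃ - 2π`, so
`θ < θ₄ - 2π < ξ < θ₁ < θ₂ < θ₃ = θ + 2π`. LFT for `θ`, `s = θ₁` and the point `c = exp θ₂` (`k c = c` and
`Link _ _ c c` is false): `κ`. `κ` fixes all `y ∈ Icc θ (θ + 2π)` with `exp y` fixed by `k` (`κ y` is in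
the same interval and `exp (κ y) = exp y`), so it fixes `α = θ₄ - 2π`, `β = θ₁`, `θ₂`, `θ₃`; and `κ ξ ≠ ξ`.
We may assume `ξ < κ ξ` (otherwise exchange `k`, `κ`, `c` with their inverses: `κ.symm` is a lift of
`k⁻¹`, `μ.map (Prod.map k⁻¹ k⁻¹) = c⁻¹ • μ`). Let `D = exp '' Ico ξ (κ ξ)`, `B = exp '' Icc θ₂ θ₃`. If
`c ≤ 1`: the sets `k ^ n '' D = exp '' Ico (κ ^ n ξ) (κ ^ (n + 1) ξ)`, `n : ℕ`, are disjoint (ORI) and
contained in `exp '' Icc α β`, which is at a positive distance from `B` (disjoint compact sets: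
`θ₁ < θ₂`, `θ₃ < α + 2π`): `μ (D ×ˢ B) = 0` by WAN. If `1 ≤ c`: the same for `k⁻¹`, `c⁻¹` and the sets
`(k⁻¹) ^ n '' D`, `n : ℕ`. But `D ×ˢ B` contains the open box `exp '' Ioo ξ (κ ξ) ×ˢ exp '' Ioo θ₂ θ₃`
(`arc`): a contradiction to full support. -/
def Stmt_FIX : Prop :=
  ∀ (μ : Measure (Circle × Circle)) (k : H) (c : ℝ≥0∞) (e : Fin 4 → Circle), Current μ →
    FullSupport μ → c ≠ 0 → c ≠ ∞ → μ.map (Prod.map k k) = c • μ → Function.Injective e →
    (∀ i, k (e i) = e i) → k = 1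

/-- BOX (120 lines): a box is not collapsed to a point. Proof. Choose disjoint nonempty open
`O₁, O₂ ⊆ I` and let `d = min (μ (O₁ ×ˢ J)) (μ (O₂ ×ˢ J)) > 0`. The sets
`K n = (closedBall ℓ (ρ / (n + 1)) ×ˢ closedBall m (ρ / (n + 1))) \ {(ℓ, m)}`, `ρ = dist ℓ m / 3`, are
decreasing with empty intersection and `K 0` has finite mass (`Current.fin` with `ε = ρ`), so
`μ (K n) < d` for some `n`. For almost all `g`: `g '' I ⊆ closedBall ℓ (ρ / (n + 1))`, the same for `J`, and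
`μ.map (Prod.map g g) = c • μ`, `c ≤ 1`, so `μ S ≤ μ (Prod.map g g '' S)` for measurable `S`. The point
`(g⁻¹ ℓ, g⁻¹ m)` is not in both boxes `Oᵢ ×ˢ J`; for one which does not contain it
`μ (Oᵢ ×ˢ J) ≤ μ (Prod.map g g '' (Oᵢ ×ˢ J)) ≤ μ (K n) < d`: a contradiction. -/
def Stmt_BOX : Prop :=
  ∀ (μ : Measure (Circle × Circle)) (u : Ultrafilter H) (I J : Set Circle) (ℓ m : Circle),
    Current μ → FullSupport μ → IsOpen I → I.Nonempty → IsOpen J → J.Nonempty → ℓ ≠ m →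
    (∀ N ∈ 𝓝 ℓ, ∀ᶠ g : H in u, ∀ z ∈ I, g z ∈ N) →
    (∀ N ∈ 𝓝 m, ∀ᶠ g : H in u, ∀ z ∈ J, g z ∈ N) →
    (∀ᶠ g : H in u, ∃ c : ℝ≥0∞, c ≤ 1 ∧ μ.map (Prod.map g g) = c • μ) → False

/-- MFS (150 lines; uses PLT FXC DIC TRI FIX BOX). Suppose `T = {g | g ∈ G ∧ Mv ε g}` is infinite,
`ε > 0`. Let `T₁` be the set of the `g ∈ T` with `μ.map (Prod.map g g) = c • μ` for some `c ≤ 1`. For each
`g ∈ T` we have `g ∈ T₁` or `g⁻¹ ∈ T₁` (the factor of `g⁻¹` is `c⁻¹`; `Mv` is symmetric: for the triple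
`(a, b, c)` of `g` take `(g a, g b, g c)`); so `T₁` is infinite. Let `u` be an ultrafilter with `T₁ ∈ u`,
`u ≤ cofinite` (as in `blk_BDC`) and `L z` the limit of `g z` (`BDC_lim`). (1) `¬ TwoConst Γ u`: otherwise
FXC with `S = T₁` gives `g ≠ g'` in `T₁` and `k = g⁻¹ g' ∈ G` fixes four different points; `k = 1` by
`Scales` and FIX. (2) DIC. If `{z | L z = ℓ}` is dense: TRI. Otherwise `L x1 = L x2 = ℓ`, `x1 ≠ x2`,
`L y1 = L y2 = m ≠ ℓ`, `y1 ≠ y2`. PLT for `x1`, `x2`, `y1` and for `y1`, `y2`, `x1`: open nonempty sets `I`,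
`J` which satisfy the hypotheses of BOX. -/
def Stmt_MFS : Prop :=
  ∀ Γ G : Subgroup H, FirstKind Γ → Γ ≤ G → (∀ g ∈ G, ∀ γ ∈ Γ, g * γ * g⁻¹ ∈ Γ) →
    (∃ μ, Current μ ∧ FullSupport μ ∧ Scales G μ) → Conv G

/-! ### Part 4: existence -/

/-- ORB (80 lines): orbits of axes are locally finite. Let `ρ` be from `hyp` for `γ`, `p`, `q`. Claim: for
`g ∈ G` with `ε ≤ dist (g p) (g q)` there is `g' ∈ G` with `g' p = g p`, `g' q = g q` and `Mv ε' g'`,
where `ε' = min (min ρ (dist p q)) (min ε (1 / 2))`. There is a point `w` of the circle with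
`dist w (g p), dist w (g q) ≥ 1 / 2` (one of `1, -1, i, -i` or of the third roots of unity; for example:
the balls of radius `1 / 2` around two points do not contain three points with pairwise distances
`> 1`). `z = g⁻¹ w ≠ p, q`; let `z' = (γ ^ n) z` with `dist z' p, dist z' q ≥ ρ`; `g' = g (γ ^ n)⁻¹` maps
`(p, q, z')` to `(g p, g q, w)`. So the pairs are among the `(g' p, g' q)` with `g'` in the finite set
`{g' ∈ G | Mv ε' g'}`. -/
def Stmt_ORB : Prop :=
  ∀ Γ G : Subgroup H, FirstKind Γ → Γ ≤ G → Conv G → ∀ γ ∈ Γ, ∀ p q : Circle, Axis γ p q →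
    ∀ ε : ℝ, 0 < ε →
      {x : Circle × Circle | (∃ g ∈ G, x = (g p, g q)) ∧ ε ≤ dist x.1 x.2}.Finite

/-- CUR (120 lines): the counting measure of an orbit. Let `O` be the set of the pairs `(g p, g q)` and
`(g q, g p)`, `g ∈ G`. It is countable (union of the finite sets `{x ∈ O | 1 / (n + 1) ≤ dist x.1 x.2}`,
`p ≠ q`), so measurable. `μ = Measure.count.restrict O` (or `Measure.sum fun y : O => dirac y`). The
homeomorphisms `Prod.map g g`, `g ∈ G`, and `Prod.swap` map `O` onto itself. -/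
def Stmt_CUR : Prop :=
  ∀ (G : Subgroup H) (p q : Circle), p ≠ q → (∀ ε : ℝ, 0 < ε →
    {x : Circle × Circle | (∃ g ∈ G, x = (g p, g q)) ∧ ε ≤ dist x.1 x.2}.Finite) →
    ∃ μ : Measure (Circle × Circle), Current μ ∧ Fixes G μ ∧ 0 < μ {(p, q)}

/-- SUM (120 lines): weighted sums. `K n = {x | 1 / (n + 1) ≤ dist x.1 x.2}`, `w k = (2 ^ k * (1 + μ k (K k)))⁻¹`
in `ℝ≥0∞` (not `0`, not `∞`), `ν = Measure.sum fun k => w k • μ k`. `ν (K n) = ∑' k, w k * μ k (K n)`:
finitely many finite terms `k < n`, and for `k ≥ n` the term is at most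
`w k * μ k (K k) ≤ (2 ^ k)⁻¹`. For `ε > 0` there is `n` with `1 / (n + 1) ≤ ε`. -/
def Stmt_SUM : Prop :=
  ∀ (G : Subgroup H) (μ : ℕ → Measure (Circle × Circle)), (∀ k, Current (μ k)) →
    (∀ k, Fixes G (μ k)) → ∃ ν : Measure (Circle × Circle), Current ν ∧ Fixes G ν ∧
      ∀ k (S : Set (Circle × Circle)), 0 < μ k S → 0 < ν S

/-- EXI (80 lines; uses ORB CUR SUM). Let `B` be a countable basis of the circle without the empty
set; enumerate the pairs `(U, V)` of its members (`B ×ˢ B` is countable and nonempty). By `dns` for each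
pair there is an axis `(p, q) ∈ U × V` of some `γ ∈ Γ`; ORB and CUR give a current `μ` with
`0 < μ {(p, q)} ≤ μ (U ×ˢ V)`. SUM. -/
def Stmt_EXI : Prop :=
  ∀ Γ G : Subgroup H, FirstKind Γ → Γ ≤ G → Conv G →
    ∃ μ : Measure (Circle × Circle), Current μ ∧ FullSupport μ ∧ Fixes G μ

end Pool.GC
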