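import Pool.Agent.Work.MP_ae1ff6_gc.Interface

/-!
# Invariant geodesic currents (MP_ae1ff6_gt): interface, parts 5 to 7

The rules are those of `Interface.lean` (import this file instead).
-/

open Topology Filter Set MeasureTheory
open scoped ComplexConjugate ENNReal

set_option autoImplicit false

namespace Pool.GC

open Pool.CG

/-! ### Part 5: filling currents -/

/-- FX3 (250 lines; uses LFT ORI WAN): an element with three fixed points is trivial. Suppose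
`k x ≠ x`, `x = exp ξ`. The three fixed points are `exp θᵢ` with `θ₁ < θ₂ < θ₃` in `Ioo ξ (ξ + 2π)`.
Let `θ = θ₂ - 2π`, so `θ < θ₃ - 2π < ξ < θ₁ < θ₂ = θ + 2π`. LFT for `θ`, `s = θ₁` and the point
`c = exp θ₃` (`k c = c`): `κ`, which fixes `θ`, `θ + 2π`, `α = θ₃ - 2π`, `β = θ₁` (all `y ∈ Icc θ (θ + 2π)`
with `exp y` fixed by `k`), and `κ ξ ≠ ξ`. We may assume `ξ < κ ξ` (otherwise exchange `k`, `κ` with
their inverses). ORI: `s`, `t` with `α ≤ s < ξ < κ ξ < t ≤ β`, fixed by `κ`, and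
`Ioo s t = ⋃ n : ℤ, Ico (κ ^ n ξ) (κ ^ (n + 1) ξ)`. Let `A = exp '' Ioo s t`, `D = exp '' Ico ξ (κ ξ)`,
`B₁ = exp '' Ioc t (θ + 2π)`, `B₂ = exp '' Ico θ s`: the set `{x | Link (exp s) (exp t) x.1 x.2}` is
contained in `A ×ˢ (B₁ ∪ B₂) ∪ (B₁ ∪ B₂) ×ˢ A`; by filling and `Current.flip` `μ (A ×ˢ (B₁ ∪ B₂)) > 0`.
`A` is the union of the `k ^ n '' D`, `n : ℤ`, and `k '' Bᵢ = Bᵢ`, so `μ (D ×ˢ Bᵢ) > 0` for `i = 1` or
`i = 2` (all `(k ^ n '' D) ×ˢ Bᵢ` have the same mass). `i = 2`: WAN for `k` (`c = 1`): the sets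
`k ^ n '' D`, `n : ℕ`, are in the compact set `exp '' Icc ξ t`, `B₂ ⊆ exp '' Icc θ s`, and these two
compact sets are disjoint (`θ ≤ s < ξ ≤ t < θ + 2π`): a contradiction. `i = 1`: WAN for `k⁻¹`: the sets
`(k⁻¹) ^ n '' D`, `n : ℕ`, are in `exp '' Icc s (κ ξ)`, `B₁ ⊆ exp '' Icc t (θ + 2π)`, and
`s ≤ κ ξ < t ≤ θ + 2π < s + 2π`. -/
def Stmt_FX3 : Prop :=
  ∀ (μ : Measure (Circle × Circle)) (k : H) (a b c : Circle), Current μ → Filling μ →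
    μ.map (Prod.map k k) = μ → a ≠ b → b ≠ c → a ≠ c → k a = a → k b = b → k c = c → k = 1

/-- the property of a pair `(x, y)` used below: `x` is strictly inside of the plateau of the value `ℓ`
of `L`, `y` is strictly outside -/
def InOut (L : Circle → Circle) (ℓ x y : Circle) : Prop :=
  ∃ α α' β β' : Circle, L α = ℓ ∧ L α' = ℓ ∧ L β ≠ ℓ ∧ L β' ≠ ℓ ∧ Link α α' x β ∧ Link β β' y α

/-- PE1 (180 lines; uses CUT): the ends of a plateau. Let `y1 = exp θ` and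
`A = {x ∈ Ioo θ (θ + 2π) | L (exp x) = ℓ}`. By CUT and the hypothesis (with `w = y1`) `A` is convex:
`α < x < β`, `α, β ∈ A` imply `x ∈ A`. `A` has at least two elements (from `Dbl`; the two points are not
`y1`), and `y2 = exp η`, `η ∈ Ioo θ (θ + 2π)`, `η ∉ A`. Let `i = sInf A < j = sSup A`; `i, j ∈ Icc θ (θ + 2π)`,
`Ioo i j ⊆ A`, and `η ≤ i` or `j ≤ η` (otherwise `η ∈ A`), so not both `i = θ` and `j = θ + 2π`, so
`j < i + 2π`. Take `i1 = exp i`, `i2 = exp j`. All points of `exp '' Ioo j (i + 2π)` have `L ≠ ℓ` (such a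
point is `exp θ = y1`, or `exp ζ` with `ζ ∈ Ioo θ (θ + 2π)`, `ζ < i` or `ζ > j`). Let
`Link i1 i2 x y`, then one of `x`, `y` is in `exp '' Ioo i j` and the other one in
`exp '' Ioo j (i + 2π)`; say `x = exp ξ`, `y = exp υ`. Choose `i < α < ξ < α' < j` and
`j < β < υ < β' < i + 2π`; `α, α' ∈ A`. `Link (exp α) (exp α') x (exp β)` by `arc α α'`
(`β ∈ Ioo α' (α + 2π)`), `Link (exp β) (exp β') y (exp α)` by `arc β β'` (`α + 2π ∈ Ioo β' (β + 2π)`). -/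
def Stmt_PE1 : Prop :=
  ∀ (L : Circle → Circle) (ℓ y1 y2 : Circle), Dbl L ℓ → y1 ≠ y2 → L y1 ≠ ℓ → L y2 ≠ ℓ →
    (∀ x1 x2 w z, L x1 = ℓ → L x2 = ℓ → L w ≠ ℓ → Link x1 x2 z w → L z = ℓ) →
    ∃ i1 i2 : Circle, i1 ≠ i2 ∧ ∀ x y, Link i1 i2 x y → InOut L ℓ x y ∨ InOut L ℓ y x

/-- PE2 (120 lines; uses LNO): a box of positive mass. Suppose there is none. Let
`E = {x | Link i1 i2 x.1 x.2}`. For `(x, y) ∈ E` with `InOut L ℓ x y`: the sets `{z | Link α α' z β}` and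
`{z | Link β β' z α}` are open (LNO) and `x ≠ y`, so there are open balls `A ∋ x`, `B ∋ y` inside of them
with a positive distance; by assumption `μ (A ×ˢ B) = 0`. For `(x, y) ∈ E` with `InOut L ℓ y x` we get
`μ (B ×ˢ A) = 0`, so `μ (A ×ˢ B) = 0` for the exchanged box by `Current.flip`. So each point of `E` has a
neighbourhood of mass zero and `μ E = 0` (`measure_null_of_locally_null`): a contradiction to
`Filling`. -/
def Stmt_PE2 : Prop :=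
  ∀ (μ : Measure (Circle × Circle)) (L : Circle → Circle) (ℓ i1 i2 : Circle), Current μ →
    Filling μ → i1 ≠ i2 → (∀ x y, Link i1 i2 x y → InOut L ℓ x y ∨ InOut L ℓ y x) →
    ∃ α α' β β' : Circle, L α = ℓ ∧ L α' = ℓ ∧ L β ≠ ℓ ∧ L β' ≠ ℓ ∧ ∃ A B : Set Circle,
      IsOpen A ∧ IsOpen B ∧ A ⊆ {z | Link α α' z β} ∧ B ⊆ {z | Link β β' z α} ∧
      (∃ ε : ℝ, 0 < ε ∧ ∀ a ∈ A, ∀ b ∈ B, ε ≤ dist a b) ∧ 0 < μ (A ×ˢ B)

/-- PE3 (150 lines): the mass is on one vertical line. `N` closed (shrink it: a closed ball around `ℓ`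
of radius `ρ`). The sets `K n = {x | x.1 ≠ ℓ ∧ dist x.1 ℓ ≤ ρ / (2 (n + 1)) ∧ ρ < dist x.2 ℓ}` are
decreasing with empty intersection and finite mass (`ρ / 2 ≤ dist x.1 x.2` on them), so
`μ (K n) → 0`. Let `m = μ (A ×ˢ B)`, `0 < m < ∞`. For `n` with `μ (K n) < m / 2` and almost all `g`:
`Prod.map g g '' ((A ×ˢ B) \\ ({g⁻¹ ℓ} ×ˢ univ)) ⊆ K n` and `g` preserves `μ`, so
`μ ((A ×ˢ B) \\ ({g⁻¹ ℓ} ×ˢ univ)) < m / 2`. If this holds for `g` and `g'` with `g⁻¹ ℓ ≠ g'⁻¹ ℓ`, then the two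
sets cover `A ×ˢ B`: `m < m / 2 + m / 2`, a contradiction. So `g⁻¹ ℓ` is constant for almost all `g`
(`u` is not trivial). -/
def Stmt_PE3 : Prop :=
  ∀ (μ : Measure (Circle × Circle)) (u : Ultrafilter H) (ℓ : Circle) (A B : Set Circle),
    Current μ → IsOpen A → IsOpen B → (∃ ε : ℝ, 0 < ε ∧ ∀ a ∈ A, ∀ b ∈ B, ε ≤ dist a b) →
    0 < μ (A ×ˢ B) → (∀ᶠ g : H in u, μ.map (Prod.map g g) = μ) →
    (∀ N ∈ 𝓝 ℓ, ∀ᶠ g : H in u, ∀ z ∈ A, g z ∈ N) →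
    (∃ N ∈ 𝓝 ℓ, ∀ᶠ g : H in u, ∀ z ∈ B, g z ∉ N) → ∃ a : Circle, ∀ᶠ g : H in u, g a = ℓ

/-- PEN (60 lines; uses PLT AWY PE1 PE2 PE3). The last hypothesis of PE1: for `x1 = x2` `Link` is
false (see SYM), otherwise PLT for `x1`, `x2`, `w` gives `g z → ℓ`, so `L z = ℓ`. PE1, PE2: `α`, `α'`, `β`,
`β'`, `A`, `B`. PLT for `α`, `α'`, `β` (`w = β`) gives the hypothesis of PE3 for `A`, AWY for `β`, `β'`, `α` the
one for `B`. -/
def Stmt_PEN : Prop :=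
  ∀ (μ : Measure (Circle × Circle)) (u : Ultrafilter H) (L : Circle → Circle) (ℓ y1 y2 : Circle),
    Current μ → Filling μ → (∀ᶠ g : H in u, μ.map (Prod.map g g) = μ) →
    (∀ z, Tendsto (fun g : H => g z) u (𝓝 (L z))) → Dbl L ℓ → y1 ≠ y2 → L y1 ≠ ℓ → L y2 ≠ ℓ →
    ∃ a : Circle, ∀ᶠ g : H in u, g a = ℓ

/-- FN1 (80 lines; uses SYM LNO): a fundamental domain of a hyperbolic element. `ρ` from `hyp`;
`W = {x | Link p q x.1 x.2 ∧ ρ ≤ dist x.1 p ∧ ρ ≤ dist x.1 q}` (measurable: `LNO.1`). Finite mass: by SYM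
`Link x.1 x.2 p q`, so `lub` gives `ε ≤ dist x.1 x.2` on `W`. `Link p q x y` implies `x ≠ p, q`, `hyp`
gives `n`, and `Link p q ((γ ^ n) x) ((γ ^ n) y)` by `lhi` (`γ ^ n` fixes `p`, `q`). -/
def Stmt_FN1 : Prop :=
  ∀ (μ : Measure (Circle × Circle)) (γ : H) (p q : Circle), Current μ → IsMob γ → Axis γ p q →
    ∃ W : Set (Circle × Circle), MeasurableSet W ∧ μ W < ∞ ∧
      ∀ x : Circle × Circle, Link p q x.1 x.2 → ∃ n : ℤ, ((γ ^ n) x.1, (γ ^ n) x.2) ∈ W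

/-- FN2 (80 lines): wandering sets. `Φ n = Prod.map (φ ^ n) (φ ^ n)` preserves `μ` (`φ` and `φ⁻¹` do).
`S ⊆ ⋃ n : ℤ, (Φ n)⁻¹' W`, so `μ S ≤ ∑' n, μ (S ∩ Φ n ⁻¹' W) = ∑' n, μ (Φ n '' S ∩ W) ≤ μ W`, as the sets
`Φ n '' S` are pairwise disjoint (`Φ n '' S ∩ Φ m '' S = Φ m '' (Φ (n - m) '' S ∩ S)`). -/
def Stmt_FN2 : Prop :=
  ∀ (μ : Measure (Circle × Circle)) (φ : H) (W S : Set (Circle × Circle)),
    μ.map (Prod.map φ φ) = μ → MeasurableSet W → MeasurableSet S →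
    (∀ x ∈ S, ∃ n : ℤ, ((φ ^ n) x.1, (φ ^ n) x.2) ∈ W) →
    (∀ n : ℤ, n ≠ 0 → ∀ x ∈ S, ((φ ^ n) x.1, (φ ^ n) x.2) ∉ S) → μ S ≤ μ W

/-- FN3 (80 lines; uses LNO). Otherwise (ultrafilter) for almost all `g` there are `a g`, `b g` with
the five properties and not `Link (x g) (y g) (a g) (b g)`. Let `a`, `b` be their limits along `u`
(`BDC_lim`): distances `≥ ρ` from `ℓ`, `m`. By `LNO.2` `Link ℓ m a b`, by `LNO.1`
`Link (x g) (y g) (a g) (b g)` for almost all `g`: a contradiction. -/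
def Stmt_FN3 : Prop :=
  ∀ (u : Ultrafilter H) (x y : H → Circle) (ℓ m : Circle), ℓ ≠ m → Tendsto x u (𝓝 ℓ) →
    Tendsto y u (𝓝 m) → ∀ ρ : ℝ, 0 < ρ → ∀ᶠ g : H in u, ∀ a b : Circle,
      ρ ≤ dist a ℓ → ρ ≤ dist a m → ρ ≤ dist b ℓ → ρ ≤ dist b m → Link ℓ m a b →
      Link (x g) (y g) a b

/-- FNM (180 lines; uses LNO NCH FN1 FN2 FN3): the limit of hyperbolic axes is crossed by finite mass
only. `γ'` from NCH, `W` from FN1 for `γ`. Let `0 < ρ < dist ℓ m / 2` and `S` the set of the `x` with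
`Link ℓ m x.1 x.2` and all four distances `dist x.i ℓ`, `dist x.i m` at least `ρ` (measurable). Claim:
`μ S ≤ μ W`. Fix one `g` with: `g ∈ G`; the property of NCH for `r = ρ`; the property of FN3 for
`x g = g p`, `y g = g q` (both hold for almost all `g`). Let `φ = g γ' g⁻¹ ∈ G`, `W' = Prod.map g g '' W`
(`μ W' = μ W`). For `x ∈ S`: `Link (g p) (g q) x.1 x.2`, so `Link p q (g⁻¹ x.1) (g⁻¹ x.2)` (`lhi`), so some
power `γ ^ n` maps this pair into `W`, and `φ ^ (± n)` maps `x` into `W'`. For `n > 0`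
`dist ((φ ^ n) x.1) m < ρ` (induction: `ρ ≤ dist z ℓ` implies `dist (φ z) m < ρ`, so
`dist (φ z) ℓ ≥ dist ℓ m - ρ ≥ ρ`), for `n < 0` `dist ((φ ^ n) x.1) ℓ < ρ` in the same way: not in `S`. FN2.
Now `{x | Link ℓ m x.1 x.2}` is the increasing union of the sets `S` for `ρ = ρ₀ / (n + 1)`
(`tendsto_measure_iUnion_atTop` or `measure_iUnion_eq_iSup`), so its mass is at most `μ W < ∞`. -/
def Stmt_FNM : Prop :=
  ∀ (Γ G : Subgroup H) (μ : Measure (Circle × Circle)) (u : Ultrafilter H), FirstKind Γ → Γ ≤ G →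
    (∀ g ∈ G, ∀ γ ∈ Γ, g * γ * g⁻¹ ∈ Γ) → (∀ᶠ g : H in u, g ∈ G) → Current μ → Fixes G μ →
    ∀ γ ∈ Γ, ∀ p q ℓ m : Circle, Axis γ p q → (∀ δ : H, {g : H | g * γ * g⁻¹ = δ} ∉ u) →
      Tendsto (fun g : H => g p) u (𝓝 ℓ) → Tendsto (fun g : H => g q) u (𝓝 m) → ℓ ≠ m →
      μ {x | Link ℓ m x.1 x.2} < ∞

/-- INF (180 lines; uses LFT ORI FX3). Let `a = exp θ`, `b = exp s`, `θ < s < θ + 2π`. LFT: `κ`. Let
`ξ = (θ + s) / 2`. `κ ξ ≠ ξ`, otherwise `a`, `b`, `exp ξ` are three fixed points and `k = 1` by FX3. We may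
assume `ξ < κ ξ` (otherwise exchange `k`, `κ` with their inverses; `¬ Link a b c (k⁻¹ c)` follows with
`lhi`, or use only `κ.symm`). ORI for `θ`, `s`, `ξ`: the fixed points `s'`, `t'` there are `θ` and `s`
(no other fixed points, FX3). So `A = exp '' Ioo θ s` is the disjoint union of the sets `k ^ n '' D`,
`n : ℤ`, `D = exp '' Ico ξ (κ ξ)`; `B = exp '' Ioo s (θ + 2π)` satisfies `k '' B = B`. So the sets
`(k ^ n '' D) ×ˢ B` are disjoint, all have the same mass `m`, and their union is `A ×ˢ B`. The set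
`{x | Link a b x.1 x.2}` is `A ×ˢ B ∪ B ×ˢ A`, of positive mass (filling), so by `Current.flip`
`μ (A ×ˢ B) > 0`, so `m > 0` and `μ (A ×ˢ B) = ∑' n : ℤ, m = ∞`. -/
def Stmt_INF : Prop :=
  ∀ (μ : Measure (Circle × Circle)) (k : H) (a b c : Circle), Current μ → Filling μ →
    μ.map (Prod.map k k) = μ → k ≠ 1 → a ≠ b → k a = a → k b = b → c ≠ a → c ≠ b →
    ¬ Link a b c (k c) → μ {x | Link a b x.1 x.2} = ∞

/-- MFL (200 lines; uses TWO PLT FXC DIC TRI FX3 PEN FNM INF). Suppose `T = {g | g ∈ G ∧ Mv ε g}` is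
infinite; `u` an ultrafilter with `T ∈ u`, `u ≤ cofinite`; `L z` the limit of `g z`. (1)
`¬ TwoConst Γ u`: otherwise FXC with `S = T` gives `g ≠ g'` and `k = g⁻¹ g' ∈ G` fixes four points:
`k = 1` by FX3. (2) DIC. The dense case: TRI. Otherwise `ℓ ≠ m`, `Dbl L ℓ` (`x1 ≠ x2`), `Dbl L m`
(`y1 ≠ y2`). PEN for `ℓ`, `y1`, `y2` and for `m`, `x1`, `x2`: `a`, `b` with `g a = ℓ`, `g b = m` for almost
all `g`; `a ≠ b`. (3) PLT: open nonempty sets `I`, `J` with `L = ℓ` on `I`, `L = m` on `J`. There is an axis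
`(p, q)` of some `γ ∈ Γ` with `p ∈ I`, `q ∈ J` such that no `{g | g γ g⁻¹ = δ}` is in `u` (if there is an
axis `(p₀, q₀)` without this property, take `I \\ {p₀, q₀}`, `J \\ {p₀, q₀}` and use `¬ TwoConst Γ u`;
`dns`). FNM: `μ {x | Link ℓ m x.1 x.2} < ∞`. (4) Choose `c ≠ a, b` and `r ≠ ℓ, m`. `Link ℓ m (g c) r` is true
for almost all `g` or false for almost all `g`. So there are `g ≠ g'` in `T` with `g a = g' a = ℓ`,
`g b = g' b = m` and the same truth value; by TWO (with the points `g c`, `g' c`, `r`)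
`¬ Link ℓ m (g c) (g' c)`. `k = g⁻¹ g' ∈ G` fixes `a`, `b`, `k ≠ 1`, `¬ Link a b c (k c)` (apply `g`, `lhi`). INF:
`μ {x | Link a b x.1 x.2} = ∞`. But `Link a b x.1 x.2 ↔ Link ℓ m (g x.1) (g x.2)` (`lhi`), so this mass is
`μ.map (Prod.map g g) {x | Link ℓ m x.1 x.2} = μ {x | Link ℓ m x.1 x.2} < ∞`. -/
def Stmt_MFL : Prop :=
  ∀ Γ G : Subgroup H, FirstKind Γ → Γ ≤ G → (∀ g ∈ G, ∀ γ ∈ Γ, g * γ * g⁻¹ ∈ Γ) →
    (∃ μ, Current μ ∧ Filling μ ∧ Fixes G μ) → Conv G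

/-! ### Part 6: one closed geodesic at a time -/

/-- HDY (120 lines): the dynamics of a hyperbolic element. As in `blk_HYP` (use its auxiliary
lemmas): `φ z = dist z p / dist z q` satisfies `φ (γ z) = Λ φ z` with `0 < Λ ≠ 1`. If `Λ > 1`, then for
`z ≠ p`: `φ (γ ^ n z) → ∞` or `z = q`, so `dist (γ ^ n z) q → 0` (`dist z p ≤ 2`); take `p' = p`, `q' = q`; and
for `z ≠ q` `φ (γ⁻¹ ^ n z) → 0`. If `Λ < 1` exchange `p` and `q`. -/
def Stmt_HDY : Prop :=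
  ∀ (γ : H) (p q : Circle), IsMob γ → Axis γ p q →
    ∃ p' q' : Circle, ((p' = p ∧ q' = q) ∨ (p' = q ∧ q' = p)) ∧
      (∀ z, z ≠ p' → Tendsto (fun n : ℕ => (γ ^ n) z) atTop (𝓝 q')) ∧
      ∀ z, z ≠ q' → Tendsto (fun n : ℕ => (γ⁻¹ ^ n) z) atTop (𝓝 p')

/-- TRP (120 lines; uses HDY): transitivity on pairs. By `dns` take `γ₁ ∈ Γ` with the axis
`(p₁, q₁) ∈ U₁ × V₁` and `γ₂ ∈ Γ` with the axis `(p₂, q₂) ∈ (U₂ \\ {q₁}) × V₂`. Replacing them by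
their inverses (same axes) we may assume that `q₁` and `q₂` are the attracting points (`q'` in HDY).
`σ = γ₂ ^ n γ₁ ^ n`, `n` large. `y = q₁`: `σ y = γ₂ ^ n q₁ → q₂ ∈ V₂` (`q₁ ≠ p₂`). `x = γ₁⁻¹ ^ n p₂`: `x → p₁ ∈ U₁`
(`p₂ ≠ q₁`) and `σ x = γ₂ ^ n p₂ = p₂ ∈ U₂`. So the open sets `U₁ ∩ σ ⁻¹' U₂`, `V₁ ∩ σ ⁻¹' V₂` are not
empty; `dns` for them. -/
def Stmt_TRP : Prop :=
  ∀ Γ : Subgroup H, FirstKind Γ → ∀ U₁ V₁ U₂ V₂ : Set Circle, IsOpen U₁ → U₁.Nonempty →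
    IsOpen V₁ → V₁.Nonempty → IsOpen U₂ → U₂.Nonempty → IsOpen V₂ → V₂.Nonempty →
    ∃ γ ∈ Γ, ∃ σ ∈ Γ, ∃ p ∈ U₁, ∃ q ∈ V₁, Axis γ p q ∧ σ p ∈ U₂ ∧ σ q ∈ V₂

/-- SDF (200 lines; uses LFT TRP): an element of `G` with four fixed points is trivial. Order the
fixed points: `exp θ₁, .., exp θ₄`, `θ₁ < θ₂ < θ₃ < θ₄ < θ₁ + 2π`. LFT for `θ = θ₁`, `s = θ₂`,
`c = exp θ₃`: `κ`, it fixes `θ₁, .., θ₄, θ₁ + 2π` (see FIX), so `k` maps each of the four open arcs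
`A₁ = exp '' Ioo θ₁ θ₂`, `A₂`, `A₃`, `A₄ = exp '' Ioo θ₄ (θ₁ + 2π)` onto itself. TRP: `γ, σ ∈ Γ`,
`Axis γ p q`, `p ∈ A₁`, `q ∈ A₃`, `σ p ∈ A₂`, `σ q ∈ A₄`. For each `n : ℕ` `k ^ n p ∈ A₁`, `k ^ n q ∈ A₃`,
so `Link (k ^ n p) (k ^ n q) (σ p) (σ q)` (`arc`), so with `g n = σ⁻¹ k ^ n ∈ G`
`Link (g n p) (g n q) p q` (`lhi`). By `SelfDisplaces` (pigeonhole) there are `m < n` and `h` with
`h⁻¹ g m, h⁻¹ g n ∈ Γ`, so `(g m)⁻¹ g n = k ^ (n - m) ∈ Γ`; it fixes four points, so it is `1` by `mb3`.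
So `κ ^ j` is the identity on `Icc θ₁ (θ₁ + 2π)` for `j = n - m ≥ 1`; as `κ` is increasing
`κ x = x` there (`x < κ x` implies `x < κ ^ j x`). So `k = 1`. -/
def Stmt_SDF : Prop :=
  ∀ Γ G : Subgroup H, FirstKind Γ → Γ ≤ G → (∀ g ∈ G, ∀ γ ∈ Γ, g * γ * g⁻¹ ∈ Γ) →
    SelfDisplaces Γ G → ∀ k ∈ G, ∀ e : Fin 4 → Circle, Function.Injective e →
      (∀ i, k (e i) = e i) → k = 1

/-- SDM (200 lines; uses PLT FXC DIC TRI TRP SDF). Suppose `T = {g | g ∈ G ∧ Mv ε g}` is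
infinite; `u`, `L` as before. (1) `¬ TwoConst Γ u`: FXC and SDF. (2) DIC; dense case: TRI. Otherwise
`ℓ ≠ m`, `Dbl L ℓ`, `Dbl L m` and PLT: open nonempty `I`, `J`, `g z → ℓ` uniformly on `I`, `g z → m` uniformly
on `J`. `lop` for `ℓ`, `m`: `A`, `B`, `U`, `V`. TRP for `I`, `J`, `U`, `V`: `γ, σ ∈ Γ`, `Axis γ p q`, `p ∈ I`,
`q ∈ J`, `σ p ∈ U`, `σ q ∈ V`. For almost all `g`: `g p ∈ A`, `g q ∈ B`, so
`Link (g p) (g q) (σ p) (σ q)` and with `lhi` `Link ((σ⁻¹ * g) p) ((σ⁻¹ * g) q) p q`. By `SelfDisplaces`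
there is a finite set `F` such that for almost all `g` some `h ∈ F` satisfies `h⁻¹ σ⁻¹ g ∈ Γ`; so for
one `h` (finite union) `{g | (σ h)⁻¹ g ∈ Γ} ∈ u`. But the intersection of this set with `T` is finite
(`BDC_caseA cnv`), and `u ≤ cofinite`: a contradiction. -/
def Stmt_SDM : Prop :=
  ∀ Γ G : Subgroup H, FirstKind Γ → Γ ≤ G → (∀ g ∈ G, ∀ γ ∈ Γ, g * γ * g⁻¹ ∈ Γ) →
    SelfDisplaces Γ G → Conv G

/-- FUL (30 lines): full support implies filling (`lop` for `u ≠ v`: open nonempty `U`, `V` with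
`Link u v c d` for all `c ∈ U`, `d ∈ V`). -/
def Stmt_FUL : Prop := ∀ μ : Measure (Circle × Circle), FullSupport μ → Filling μ

/-! ### Part 7: one mapping class -/

/-- CY2 (150 lines): the group generated by `Γ` and `f`. `G = Γ ⊔ zpowers f`; its elements are the
`κ f ^ n`, `κ ∈ Γ`, `n : ℤ` (`CYC_mem`), and `Γ` is normal in it (`CYC_norm`, `CYC_conj`). (1) If
`f ^ n ∈ Γ` for some `n > 0`: `SelfDisplaces` holds with `F = {f ^ j | 0 ≤ j < n}`. Otherwise as in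
`blk_CYC`. (2) `Fixes Γ μ` and `μ.map (Prod.map f f) = μ` imply that all `κ f ^ n` preserve `μ`; with a factor
`c` for `f` the factor of `κ f ^ n` is `c ^ n` (for negative `n` use `c⁻¹`; it is enough to show that the
elements which preserve `μ` up to a factor `≠ 0, ∞` form a subgroup). -/
def Stmt_CY2 : Prop :=
  ∀ (Γ : Subgroup H) (f : H), (∀ γ, γ ∈ Γ ↔ f * γ * f⁻¹ ∈ Γ) →
    (∀ g ∈ Γ ⊔ Subgroup.zpowers f, ∀ γ ∈ Γ, g * γ * g⁻¹ ∈ Γ) ∧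
    (OneDisplaces Γ f ↔ SelfDisplaces Γ (Γ ⊔ Subgroup.zpowers f)) ∧
    ∀ μ : Measure (Circle × Circle),
      (Fixes (Γ ⊔ Subgroup.zpowers f) μ ↔ Fixes Γ μ ∧ μ.map (Prod.map f f) = μ) ∧
      (Fixes Γ μ → (∃ c : ℝ≥0∞, c ≠ 0 ∧ c ≠ ∞ ∧ μ.map (Prod.map f f) = c • μ) →
        Scales (Γ ⊔ Subgroup.zpowers f) μ)

end Pool.GC
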